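import Mathlib

/-!
# Switching: replacing lifts of a subspace by subspaces which meet `0 × K2`
-/

set_option autoImplicit false

namespace Pool.Agent.Helper491_Par.Sw

open Module

section

variable {F K1 : Type} [Field F] [Fintype F] [Field K1] [Finite K1] [Algebra F K1]

/-- The map `X ↦ X ^ q - X`. -/
def dl (F K1 : Type) [Field F] [Fintype F] [Field K1] [Algebra F K1] : K1 →ₗ[F] K1 :=
  (FiniteField.frobeniusAlgHom F K1).toLinearMap - LinearMap.id

omit [Finite K1] in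
theorem dl_apply (x : K1) : dl F K1 x = x ^ Fintype.card F - x := rfl

theorem mem_of_pow {x : K1} (h : x ^ Fintype.card F = x) : ∃ a : F, x = algebraMap F K1 a := by
  have h1 : x ∈ (⊥ : IntermediateField F K1) := (IsGalois.mem_bot_iff_fixed x).2 (fun f => by
    obtain ⟨n, hn⟩ := (FiniteField.bijective_frobeniusAlgEquivOfAlgebraic_pow F K1).2 f
    rw [← hn]
    simp only [AlgEquiv.coe_pow]
    exact Function.iterate_fixed h _)
  obtain ⟨a, ha⟩ := IntermediateField.mem_bot.1 h1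
  exact ⟨a, ha.symm⟩

theorem dl_eq_zero {x : K1} : dl F K1 x = 0 ↔ ∃ a : F, x = algebraMap F K1 a := by
  rw [dl_apply, sub_eq_zero]
  constructor
  · exact mem_of_pow
  · rintro ⟨a, rfl⟩
    rw [← map_pow, FiniteField.pow_card]

omit [Finite K1] in
theorem dl_smul_mul (a : F) (x : K1) : dl F K1 (algebraMap F K1 a * x) = algebraMap F K1 a * dl F K1 x := by
  rw [← Algebra.smul_def, map_smul, Algebra.smul_def]

theorem finrank_range_dl : finrank F (LinearMap.range (dl F K1)) + 1 = finrank F K1 := by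
  have h1 := LinearMap.finrank_range_add_finrank_ker (dl F K1)
  have h2 : LinearMap.ker (dl F K1) = Submodule.span F {(1 : K1)} := by
    ext x
    rw [LinearMap.mem_ker, dl_eq_zero, Submodule.mem_span_singleton]
    constructor
    · rintro ⟨a, rfl⟩
      exact ⟨a, by rw [Algebra.smul_def, mul_one]⟩
    · rintro ⟨a, rfl⟩
      exact ⟨a, by rw [Algebra.smul_def, mul_one]⟩
  rw [h2, finrank_span_singleton one_ne_zero] at h1
  exact h1

theorem trace_dl (x : K1) : Algebra.trace F K1 (dl F K1 x) = 0 := by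
  have h1 := Algebra.trace_eq_of_algEquiv (FiniteField.frobeniusAlgEquivOfAlgebraic F K1) x
  have h2 : (FiniteField.frobeniusAlgEquivOfAlgebraic F K1) x = x ^ Fintype.card F := rfl
  rw [dl_apply, map_sub, ← h2, h1, sub_self]

theorem exists_trace_one : ∃ ω : K1, Algebra.trace F K1 ω = 1 := Algebra.trace_surjective F K1 1

theorem range_dl : LinearMap.range (dl F K1) = LinearMap.ker (Algebra.trace F K1) := by
  apply Submodule.eq_of_le_of_finrank_eq
  · rintro _ ⟨x, rfl⟩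
    exact trace_dl x
  · have h1 := LinearMap.finrank_range_add_finrank_ker (Algebra.trace F K1)
    rw [LinearMap.range_eq_top.2 (Algebra.trace_surjective F K1), finrank_top,
      Module.finrank_self] at h1
    have h2 := finrank_range_dl (F := F) (K1 := K1)
    omega

/-- A multiplication which preserves the range of `X ^ q - X` is by an element of `F`. -/
theorem scale {κ : K1} (h : ∀ x, ∃ y, κ * dl F K1 x = dl F K1 y) : ∃ a : F, κ = algebraMap F K1 a := by
  obtain ⟨ω, hω⟩ := exists_trace_one (F := F) (K1 := K1)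
  set l := Algebra.trace F K1 (κ * ω) with hl
  refine ⟨l, ?_⟩
  have h1 : ∀ x : K1, Algebra.trace F K1 ((κ - algebraMap F K1 l) * x) = 0 := by
    intro x
    set t := Algebra.trace F K1 x with ht
    have h2 : x - algebraMap F K1 t * ω ∈ LinearMap.ker (Algebra.trace F K1) := by
      rw [LinearMap.mem_ker, map_sub, ← Algebra.smul_def, map_smul, hω, smul_eq_mul, mul_one, ← ht,
        sub_self]
    rw [← range_dl] at h2
    obtain ⟨y, hy⟩ := h2
    obtain ⟨y', hy'⟩ := h y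
    have h3 : Algebra.trace F K1 (κ * (x - algebraMap F K1 t * ω)) = 0 := by
      rw [← hy, hy', trace_dl]
    have h4 : κ * (x - algebraMap F K1 t * ω) = κ * x - t • (κ * ω) := by
      rw [Algebra.smul_def]; ring
    rw [h4, map_sub, map_smul, ← hl, smul_eq_mul] at h3
    rw [sub_mul, map_sub, ← Algebra.smul_def, map_smul, smul_eq_mul, ← ht]
    linear_combination h3
  have h5 := (traceForm_nondegenerate F K1).1 (κ - algebraMap F K1 l) (fun x => by
    rw [Algebra.traceForm_apply]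
    exact h1 x)
  exact sub_eq_zero.1 h5

end

section

variable {F K1 K2 U : Type} [Field F] [Fintype F] [Field K1] [Algebra F K1] [Field K2]
  [Algebra F K2] [Algebra K1 K2] [IsScalarTower F K1 K2] [AddCommGroup U] [Module F U]

/-- Multiplication by `a`. -/
def mr (F : Type) {K1 K2 : Type} [Field F] [Field K1] [Algebra F K1] [Field K2]
    [Algebra F K2] [Algebra K1 K2] [IsScalarTower F K1 K2] (a : K2) : K1 →ₗ[F] K2 where
  toFun x := a * algebraMap K1 K2 x
  map_add' x y := by rw [map_add, mul_add]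
  map_smul' c x := by
    rw [Algebra.smul_def, map_mul, RingHom.id_apply, Algebra.smul_def c (a * algebraMap K1 K2 x),
      ← IsScalarTower.algebraMap_apply]
    ring

omit [Fintype F] in
@[simp] theorem mr_apply (a : K2) (x : K1) : mr F a x = a * algebraMap K1 K2 x := rfl

/-- The lift of the range of `ι` by `f`. -/
def G (ι : K1 →ₗ[F] U) (f : K1 →ₗ[F] K2) : Submodule F (U × K2) := LinearMap.range (ι.prod f)

omit [Fintype F] [Algebra K1 K2] [IsScalarTower F K1 K2] in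
theorem mem_G {ι : K1 →ₗ[F] U} {f : K1 →ₗ[F] K2} {v : U × K2} :
    v ∈ G ι f ↔ ∃ x, ι x = v.1 ∧ f x = v.2 := by
  unfold G
  rw [LinearMap.mem_range]
  constructor
  · rintro ⟨x, rfl⟩
    exact ⟨x, rfl, rfl⟩
  · rintro ⟨x, h1, h2⟩
    exact ⟨x, Prod.ext h1 h2⟩

/-- The parametrisation of the new blocks. -/
def gB (ι : K1 →ₗ[F] U) (f : K1 →ₗ[F] K2) (β : K2) (κ : K1) : K1 →ₗ[F] U × K2 :=
  (ι ∘ₗ (LinearMap.mulLeft F κ ∘ₗ dl F K1)).prod
    (f ∘ₗ (LinearMap.mulLeft F κ ∘ₗ dl F K1) + mr F β ∘ₗ LinearMap.mulLeft F κ)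

theorem gB_apply (ι : K1 →ₗ[F] U) (f : K1 →ₗ[F] K2) (β : K2) (κ x : K1) :
    gB ι f β κ x = (ι (κ * dl F K1 x), f (κ * dl F K1 x) + β * algebraMap K1 K2 (κ * x)) := rfl

/-- The new blocks. -/
def Bk (ι : K1 →ₗ[F] U) (f : K1 →ₗ[F] K2) (β : K2) (κ : K1) : Submodule F (U × K2) :=
  LinearMap.range (gB ι f β κ)

theorem mem_Bk {ι : K1 →ₗ[F] U} {f : K1 →ₗ[F] K2} {β : K2} {κ : K1} {v : U × K2} :
    v ∈ Bk ι f β κ ↔ ∃ x, ι (κ * dl F K1 x) = v.1 ∧
      f (κ * dl F K1 x) + β * algebraMap K1 K2 (κ * x) = v.2 := by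
  unfold Bk
  rw [LinearMap.mem_range]
  constructor
  · rintro ⟨x, rfl⟩
    exact ⟨x, rfl, rfl⟩
  · rintro ⟨x, h1, h2⟩
    exact ⟨x, Prod.ext h1 h2⟩

theorem Bk_scale (ι : K1 →ₗ[F] U) (f : K1 →ₗ[F] K2) (β : K2) (κ : K1) {a : F} (ha : a ≠ 0) :
    Bk ι f β (algebraMap F K1 a * κ) = Bk ι f β κ := by
  have ha' : algebraMap F K1 a ≠ 0 := by rwa [Ne, map_eq_zero]
  ext v
  rw [mem_Bk, mem_Bk]
  constructor
  · rintro ⟨x, h1, h2⟩
    refine ⟨algebraMap F K1 a * x, ?_, ?_⟩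
    · rw [← h1, dl_smul_mul]; congr 1; ring
    · rw [← h2, dl_smul_mul]
      congr 2
      · ring
      · congr 1; ring
  · rintro ⟨x, h1, h2⟩
    refine ⟨algebraMap F K1 a⁻¹ * x, ?_, ?_⟩
    · rw [← h1, dl_smul_mul, map_inv₀]
      congr 1
      field_simp
    · rw [← h2, dl_smul_mul, map_inv₀]
      congr 2
      · field_simp
      · congr 1
        field_simp

variable [Finite K1]

omit [Finite K1] in
theorem gB_injective {ι : K1 →ₗ[F] U} (hι : Function.Injective ι) (f : K1 →ₗ[F] K2) {β : K2}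
    (hβ : β ≠ 0) {κ : K1} (hκ : κ ≠ 0) : Function.Injective (gB ι f β κ) := by
  rw [← LinearMap.ker_eq_bot, LinearMap.ker_eq_bot']
  intro x hx
  rw [gB_apply, Prod.mk_eq_zero] at hx
  have h1 : κ * dl F K1 x = 0 := hι (hx.1.trans (map_zero ι).symm)
  have h2 := hx.2
  rw [h1, map_zero, zero_add] at h2
  have h3 := (mul_eq_zero.1 h2).resolve_left hβ
  rw [map_eq_zero] at h3
  exact (mul_eq_zero.1 h3).resolve_left hκ

theorem finrank_Bk {ι : K1 →ₗ[F] U} (hι : Function.Injective ι) (f : K1 →ₗ[F] K2) {β : K2}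
    (hβ : β ≠ 0) {κ : K1} (hκ : κ ≠ 0) : finrank F (Bk ι f β κ) = finrank F K1 :=
  LinearMap.finrank_range_of_inj (gB_injective hι f hβ hκ)

omit [Fintype F] [Algebra K1 K2] [IsScalarTower F K1 K2] [Finite K1] in
theorem finrank_G {ι : K1 →ₗ[F] U} (hι : Function.Injective ι) (f : K1 →ₗ[F] K2) :
    finrank F (G ι f) = finrank F K1 :=
  LinearMap.finrank_range_of_inj (fun _ _ h => hι (congrArg Prod.fst h))

/-- The vectors of a new block in `0 × K2`. -/
theorem zero_mem_Bk {ι : K1 →ₗ[F] U} (hι : Function.Injective ι) {f : K1 →ₗ[F] K2} {β : K2}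
    {κ : K1} (hκ : κ ≠ 0) {w : K2} :
    ((0 : U), w) ∈ Bk ι f β κ ↔ ∃ a : F, w = β * algebraMap K1 K2 (κ * algebraMap F K1 a) := by
  rw [mem_Bk]
  constructor
  · rintro ⟨x, h1, h2⟩
    have h3 : κ * dl F K1 x = 0 := hι (h1.trans (map_zero ι).symm)
    have h4 := (mul_eq_zero.1 h3).resolve_left hκ
    obtain ⟨a, rfl⟩ := dl_eq_zero.1 h4
    refine ⟨a, ?_⟩
    rw [h3, map_zero, zero_add] at h2
    exact h2.symm
  · rintro ⟨a, rfl⟩
    have h1 : dl F K1 (algebraMap F K1 a) = 0 := dl_eq_zero.2 ⟨a, rfl⟩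
    exact ⟨algebraMap F K1 a, by rw [h1, mul_zero, map_zero], by
      rw [h1, mul_zero, map_zero, zero_add]⟩

/-- The family of new blocks of a switch. -/
def Bl (ι : K1 →ₗ[F] U) (f : K1 →ₗ[F] K2) (β : K2) : Set (Submodule F (U × K2)) :=
  {B | ∃ κ : K1, κ ≠ 0 ∧ B = Bk ι f β κ}

/-- The slopes of the removed lifts. -/
def Rem (F : Type) {K1 K2 : Type} [Field F] [Fintype F] [Field K1] [Algebra F K1] [Field K2]
    [Algebra K1 K2] (β a : K2) : Prop :=
  ∃ x : K1, dl F K1 x ≠ 0 ∧ a * algebraMap K1 K2 (dl F K1 x) = β * algebraMap K1 K2 x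

theorem bl_zero {ι : K1 →ₗ[F] U} (hι : Function.Injective ι) (f : K1 →ₗ[F] K2) {β : K2}
    (hβ : β ≠ 0) {y : K1} (hy : y ≠ 0) :
    ∃! B, B ∈ Bl ι f β ∧ ((0 : U), β * algebraMap K1 K2 y) ∈ B := by
  refine ⟨Bk ι f β y, ⟨⟨y, hy, rfl⟩, (zero_mem_Bk hι hy).2 ⟨1, by rw [map_one, mul_one]⟩⟩, ?_⟩
  rintro B ⟨⟨κ, hκ, rfl⟩, h⟩
  obtain ⟨a, ha⟩ := (zero_mem_Bk hι hκ).1 h
  have h1 : y = κ * algebraMap F K1 a := (algebraMap K1 K2).injective (mul_left_cancel₀ hβ ha)
  have ha0 : a ≠ 0 := by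
    rintro rfl
    rw [map_zero, mul_zero] at h1
    exact hy h1
  rw [h1, mul_comm κ, Bk_scale ι f β κ ha0]

theorem bl_zero' {ι : K1 →ₗ[F] U} (hι : Function.Injective ι) {f : K1 →ₗ[F] K2} {β : K2}
    {B : Submodule F (U × K2)} (hB : B ∈ Bl ι f β) {w : K2} (h : ((0 : U), w) ∈ B) :
    ∃ y : K1, w = β * algebraMap K1 K2 y := by
  obtain ⟨κ, hκ, rfl⟩ := hB
  obtain ⟨a, ha⟩ := (zero_mem_Bk hι hκ).1 h
  exact ⟨_, ha⟩

theorem bl_ne {ι : K1 →ₗ[F] U} (hι : Function.Injective ι) (f : K1 →ₗ[F] K2) {β : K2}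
    (hβ : β ≠ 0) {x : K1} (hx : x ≠ 0) {a : K2} (ha : Rem F (K1 := K1) β a) :
    ∃! B, B ∈ Bl ι f β ∧ (ι x, f x + a * algebraMap K1 K2 x) ∈ B := by
  obtain ⟨y, hy, hay⟩ := ha
  have hy0 : y ≠ 0 := by
    rintro rfl
    exact hy (map_zero _)
  have hκ0 : x / dl F K1 y ≠ 0 := div_ne_zero hx hy
  have hay' : a = β * algebraMap K1 K2 y / algebraMap K1 K2 (dl F K1 y) := by
    have : algebraMap K1 K2 (dl F K1 y) ≠ 0 := by rwa [Ne, map_eq_zero]
    rw [eq_div_iff this, hay]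
  have hmem : (ι x, f x + a * algebraMap K1 K2 x) ∈ Bk ι f β (x / dl F K1 y) := by
    rw [mem_Bk]
    refine ⟨y, ?_, ?_⟩
    · rw [div_mul_cancel₀ _ hy]
    · rw [div_mul_cancel₀ _ hy, hay']
      congr 1
      rw [map_mul, map_div₀]
      have : algebraMap K1 K2 (dl F K1 y) ≠ 0 := by rwa [Ne, map_eq_zero]
      field_simp
  refine ⟨_, ⟨⟨_, hκ0, rfl⟩, hmem⟩, ?_⟩
  rintro B ⟨⟨κ, hκ, rfl⟩, h⟩
  obtain ⟨z, h1, h2⟩ := mem_Bk.1 h
  simp only at h1 h2
  have h3 : κ * dl F K1 z = x := hι h1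
  rw [h3] at h2
  have h4 : β * algebraMap K1 K2 (κ * z) = a * algebraMap K1 K2 x := add_left_cancel h2
  have hz : dl F K1 z ≠ 0 := by
    intro h0
    rw [h0, mul_zero] at h3
    exact hx h3.symm
  have hz0 : z ≠ 0 := by
    rintro rfl
    exact hz (map_zero _)
  -- `z / y` is in `F`
  have h5 : z * dl F K1 y = y * dl F K1 z := by
    have h6 : β * algebraMap K1 K2 (κ * (z * dl F K1 y)) = β * algebraMap K1 K2 (κ * (y * dl F K1 z)) := by
      calc β * algebraMap K1 K2 (κ * (z * dl F K1 y))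
          = (β * algebraMap K1 K2 (κ * z)) * algebraMap K1 K2 (dl F K1 y) := by
            rw [map_mul, map_mul, map_mul]; ring
        _ = a * algebraMap K1 K2 x * algebraMap K1 K2 (dl F K1 y) := by rw [h4]
        _ = (a * algebraMap K1 K2 (dl F K1 y)) * algebraMap K1 K2 x := by ring
        _ = (β * algebraMap K1 K2 y) * algebraMap K1 K2 x := by rw [hay]
        _ = β * algebraMap K1 K2 (κ * (y * dl F K1 z)) := by
            rw [← h3, map_mul, map_mul, map_mul]; ring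
    exact mul_left_cancel₀ hκ ((algebraMap K1 K2).injective (mul_left_cancel₀ hβ h6))
  have h7 : (z / y) ^ Fintype.card F = z / y := by
    rw [dl_apply, dl_apply] at h5
    rw [div_pow, div_eq_div_iff (pow_ne_zero _ hy0) hy0]
    linear_combination -h5
  obtain ⟨b, hb⟩ := mem_of_pow h7
  have hzb : z = algebraMap F K1 b * y := by
    rw [← hb, div_mul_cancel₀ _ hy0]
  have hb0 : b ≠ 0 := by
    rintro rfl
    rw [map_zero, zero_mul] at hzb
    exact hz0 hzb
  have hb0' : algebraMap F K1 b ≠ 0 := by rwa [Ne, map_eq_zero]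
  rw [hzb, dl_smul_mul] at h3
  have h8 : x / dl F K1 y = algebraMap F K1 b * κ := by
    rw [← h3]
    field_simp
  rw [h8, Bk_scale ι f β κ hb0]

omit [Finite K1] in
theorem bl_ne' {ι : K1 →ₗ[F] U} (hι : Function.Injective ι) {f : K1 →ₗ[F] K2} {β : K2}
    {B : Submodule F (U × K2)} (hB : B ∈ Bl ι f β) {x : K1} (hx : x ≠ 0) {w : K2}
    (h : (ι x, w) ∈ B) : ∃ a, w = f x + a * algebraMap K1 K2 x ∧ Rem F (K1 := K1) β a := by
  obtain ⟨κ, hκ, rfl⟩ := hB
  obtain ⟨z, h1, h2⟩ := mem_Bk.1 h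
  simp only at h1 h2
  have h3 : κ * dl F K1 z = x := hι h1
  have hz : dl F K1 z ≠ 0 := by
    intro h0
    rw [h0, mul_zero] at h3
    exact hx h3.symm
  have hz' : algebraMap K1 K2 (dl F K1 z) ≠ 0 := by rwa [Ne, map_eq_zero]
  refine ⟨β * algebraMap K1 K2 z / algebraMap K1 K2 (dl F K1 z), ?_, z, hz, ?_⟩
  · rw [← h2, h3]
    congr 1
    rw [← h3, map_mul, map_mul]
    field_simp
  · rw [div_mul_cancel₀ _ hz']

omit [Finite K1] in
/-- The projection of a new block to `U` is contained in the range of `ι`. -/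
theorem fst_mem {ι : K1 →ₗ[F] U} {f : K1 →ₗ[F] K2} {β : K2} {B : Submodule F (U × K2)}
    (hB : B ∈ Bl ι f β) {v : U × K2} (hv : v ∈ B) : v.1 ∈ LinearMap.range ι := by
  obtain ⟨κ, hκ, rfl⟩ := hB
  obtain ⟨z, h1, h2⟩ := mem_Bk.1 hv
  exact ⟨_, h1⟩

end

end Pool.Agent.Helper491_Par.Sw
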