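import Pool.Agent.Helper491_Par.Orb

/-!
# Many disjoint spreads, when the dimension has a suitable divisor
-/

set_option autoImplicit false

namespace Pool.Agent.Helper491_Par

open Module Finset Equi

open scoped LinearAlgebra.Projectivization

theorem Pack.of_fintype {F V : Type} [Field F] [AddCommGroup V] [Module F V] {k : ℕ} {ι : Type}
    [Fintype ι] (S : ι → Set (Submodule F V)) (h1 : ∀ i, IsKSpread k (S i))
    (h2 : ∀ i j W, W ∈ S i → W ∈ S j → i = j) : Pack F V k (Fintype.card ι) := by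
  let e := Fintype.equivFin ι
  exact ⟨fun i => S (e.symm i), fun i => h1 _, fun i j W hi hj => e.symm.injective (h2 _ _ W hi hj)⟩

theorem IsKSpread.map {F V W : Type} [Field F] [AddCommGroup V] [Module F V] [AddCommGroup W]
    [Module F W] {k : ℕ} (e : W ≃ₗ[F] V) {S : Set (Submodule F W)} (hS : IsKSpread k S) :
    IsKSpread k {E : Submodule F V | ∃ L ∈ S, E = L.map (e : W →ₗ[F] V)} := by
  constructor
  · rintro E ⟨L, hL, rfl⟩
    rw [← hS.1 L hL]
    exact LinearEquiv.finrank_map_eq e L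
  · intro v hv
    obtain ⟨L, ⟨hL, hvL⟩, hLu⟩ := hS.2 (e.symm v) (by simpa using hv)
    refine ⟨L.map (e : W →ₗ[F] V), ⟨⟨L, hL, rfl⟩, ⟨e.symm v, hvL, by simp⟩⟩, ?_⟩
    rintro E ⟨⟨L', hL', rfl⟩, w, hw, rfl⟩
    rw [hLu L' ⟨hL', by simpa using hw⟩]

theorem Pack.map {F V W : Type} [Field F] [AddCommGroup V] [Module F V] [AddCommGroup W]
    [Module F W] {k N : ℕ} (e : W ≃ₗ[F] V) (h : Pack F W k N) : Pack F V k N := by
  obtain ⟨S, hS1, hS2⟩ := h
  refine ⟨fun i => {E : Submodule F V | ∃ L ∈ S i, E = L.map (e : W →ₗ[F] V)},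
    fun i => (hS1 i).map e, ?_⟩
  rintro i j _ ⟨L, hL, rfl⟩ ⟨L', hL', h⟩
  have : L = L' := Submodule.map_injective_of_injective e.injective h
  subst this
  exact hS2 i j L hL hL'

section

variable {F L : Type} [Field F] [Field L] [Algebra F L] {k : ℕ}

theorem lf_eq_sum (b : Fin k → F) (x : Fin k → L) : lf b x = ∑ i, b i • x i := by
  unfold lf
  exact sum_congr rfl fun i _ => (Algebra.smul_def _ _).symm

/-- Tuples with prescribed values. -/
def XX (ψ : MulChar L ℂ) {C : Type} (z : C → ℂ) (e : ℙ F (Fin k → F) → C) : Set (Fin k → L) :=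
  {x | ∀ a, ψ (lf (Projectivization.rep a) x) = z (e a)}

theorem psi_lf {ψ : MulChar L ℂ} (hF : ∀ l : F, l ≠ 0 → ψ (algebraMap F L l) = 1) {C : Type}
    {z : C → ℂ} {e : ℙ F (Fin k → F) → C} {x : Fin k → L} (hx : x ∈ XX ψ z e) {b : Fin k → F}
    (hb : b ≠ 0) : ψ (lf b x) = z (e (Projectivization.mk F b hb)) := by
  have h1 := hx (Projectivization.mk F b hb)
  obtain ⟨u, hu⟩ := Projectivization.exists_smul_eq_mk_rep F b hb
  rw [← hu] at h1
  have h2 : lf (u • b) x = algebraMap F L u * lf b x := lf_smul (u : F) b x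
  rw [h2, map_mul, hF u u.ne_zero, one_mul] at h1
  exact h1

theorem tuple_good {ψ : MulChar L ℂ} (hF : ∀ l : F, l ≠ 0 → ψ (algebraMap F L l) = 1) {C : Type}
    {z : C → ℂ} (hz0 : ∀ c, z c ≠ 0) {e : ℙ F (Fin k → F) → C}
    (he : Function.Injective (fun a => z (e a))) {x : Fin k → L} (hx : x ∈ XX ψ z e) :
    LinearIndependent F x ∧ Gd ψ k (Submodule.span F (Set.range x)) ∧
      Ty ψ (Submodule.span F (Set.range x)) = {w | ∃ a, w = z (e a)} := by
  have hne : ∀ b : Fin k → F, b ≠ 0 → lf b x ≠ 0 := by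
    intro b hb h0
    have h1 := psi_lf hF hx hb
    rw [h0, MulChar.map_zero] at h1
    exact hz0 _ h1.symm
  have hli : LinearIndependent F x := by
    rw [Fintype.linearIndependent_iff]
    intro b hb
    by_contra hcon
    push Not at hcon
    obtain ⟨i, hi⟩ := hcon
    have hb0 : b ≠ 0 := fun h => hi (by rw [h]; rfl)
    exact hne b hb0 (by rw [lf_eq_sum]; exact hb)
  have hmem : ∀ y ∈ Submodule.span F (Set.range x), ∃ b : Fin k → F, y = lf b x := by
    intro y hy
    obtain ⟨c, hc⟩ := (Submodule.mem_span_range_iff_exists_fun F).1 hy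
    exact ⟨c, by rw [lf_eq_sum, hc]⟩
  have hlf0 : lf (0 : Fin k → F) x = 0 := by
    rw [lf_eq_sum]; simp
  refine ⟨hli, ⟨?_, ?_⟩, ?_⟩
  · rw [finrank_span_eq_card hli, Fintype.card_fin]
  · intro y hy y' hy' hy0 hy'0 hψ
    obtain ⟨b, rfl⟩ := hmem y hy
    obtain ⟨b', rfl⟩ := hmem y' hy'
    have hb : b ≠ 0 := by
      rintro rfl
      exact hy0 hlf0
    have hb' : b' ≠ 0 := by
      rintro rfl
      exact hy'0 hlf0
    rw [psi_lf hF hx hb, psi_lf hF hx hb'] at hψ
    have h1 := he hψ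
    obtain ⟨u, hu⟩ := (Projectivization.mk_eq_mk_iff F b' b hb' hb).1 h1.symm
    refine ⟨u, ?_⟩
    rw [← hu]
    have h2 : lf (u • b) x = algebraMap F L u * lf b x := lf_smul (u : F) b x
    rw [h2, Algebra.smul_def]
  · ext w
    constructor
    · rintro ⟨y, hy, hy0, rfl⟩
      obtain ⟨b, rfl⟩ := hmem y hy
      have hb : b ≠ 0 := by
        rintro rfl
        exact hy0 hlf0
      exact ⟨_, psi_lf hF hx hb⟩
    · rintro ⟨a, rfl⟩
      refine ⟨lf (Projectivization.rep a) x, ?_, hne _ (Projectivization.rep_nonzero a), hx a⟩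
      rw [Submodule.mem_span_range_iff_exists_fun]
      exact ⟨Projectivization.rep a, (lf_eq_sum _ _).symm⟩

end

section

variable {F : Type} [Field F] [Fintype F]

open Classical in
/-- The number of orbits of a given type. -/
theorem OT_lower (k m s : ℕ) (hm : Nat.card (ℙ F (Fin k → F)) = m) (hms : 0 < s * m) :
    ∃ K : ℝ, 0 ≤ K ∧ ∀ (L : Type) [Field L] [Fintype L] [Algebra F L] (ψ : MulChar L ℂ),
    orderOf ψ = s * m → (∀ l : F, l ≠ 0 → ψ (algebraMap F L l) = 1) →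
    ∀ z : Comb.Cell s m → ℂ, Function.Injective z → (∀ c, z c ^ (s * m) = 1) →
    ∀ T : Finset (Comb.Cell s m), T.card = m →
    (m.factorial : ℝ) * ((Fintype.card L : ℝ) ^ k -
      K * ((Fintype.card L : ℝ) ^ k / Real.sqrt (Fintype.card L))) *
      ((Fintype.card F : ℝ) - 1) * (s * m : ℕ) ≤
      ((s * m : ℕ) : ℝ) ^ m * ((OT F ψ k (z '' T)).ncard * Fintype.card L * BB F k) := by
  classical
  obtain ⟨K, hK, hequi⟩ := equi (s * m) m hms
  refine ⟨K, hK, ?_⟩
  intro L _ _ _ ψ hψ hF z hz hzM T hT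
  have : Fintype (ℙ F (Fin k → F)) := Fintype.ofFinite _
  rw [Nat.card_eq_fintype_card] at hm
  set Q : ℝ := (Fintype.card L : ℝ) with hQ
  have hQ1 : 1 ≤ Q := by rw [hQ]; exact_mod_cast Fintype.card_pos
  have hz0 : ∀ c, z c ≠ 0 := by
    intro c h
    have := hzM c
    rw [h, zero_pow hms.ne'] at this
    exact zero_ne_one this
  -- the tuples
  let Y : (ℙ F (Fin k → F) ≃ {c // c ∈ T}) → Finset (Fin k → L) := fun e =>
    univ.filter (fun x => ∀ a, ψ (lf (Projectivization.rep a) x) = z (e a).1)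
  have hY : ∀ e, Q ^ k - K * (Q ^ k / Real.sqrt Q) ≤ ((s * m : ℕ) : ℝ) ^ m * ((Y e).card : ℝ) := by
    intro e
    have h1 := hequi k F L (ℙ F (Fin k → F)) ψ hψ hm (fun a => Projectivization.rep a)
      (fun a => Projectivization.rep_nonzero a) ?_ (fun a => z (e a).1) (fun a => hzM _)
    · have h2 : {x : Fin k → L | ∀ a, ψ (lf (Projectivization.rep a) x) = z (e a).1}.ncard =
          (Y e).card := by
        rw [Set.ncard_eq_toFinset_card']
        congr 1
        ext x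
        simp [Y]
      rw [h2] at h1
      exact h1
    · intro a b hab c hc
      apply hab
      rw [← Projectivization.mk_rep a, ← Projectivization.mk_rep b,
        Projectivization.mk_eq_mk_iff' F _ _ (Projectivization.rep_nonzero a)
          (Projectivization.rep_nonzero b)]
      exact ⟨c, hc.symm⟩
  set X : Finset (Fin k → L) := univ.biUnion Y with hX
  have hXcard : X.card = ∑ e, (Y e).card := by
    rw [hX]
    apply card_biUnion
    intro e _ e' _ hee
    show Disjoint (Y e) (Y e')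
    rw [disjoint_left]
    intro x hx hx'
    apply hee
    apply Equiv.ext
    intro a
    have h1 := (mem_filter.1 hx).2 a
    have h2 := (mem_filter.1 hx').2 a
    exact Subtype.ext (hz (h1.symm.trans h2))
  have hXgood : ∀ x ∈ X, LinearIndependent F x ∧
      Gd ψ k (Submodule.span F (Set.range x)) ∧ Ty ψ (Submodule.span F (Set.range x)) = z '' T := by
    intro x hx
    obtain ⟨e, -, hxe⟩ := mem_biUnion.1 hx
    have hx' : x ∈ XX ψ z (fun a => (e a).1) := (mem_filter.1 hxe).2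
    obtain ⟨h1, h2, h3⟩ := tuple_good hF hz0
      (fun a b h => e.injective (Subtype.ext (hz h))) hx'
    refine ⟨h1, h2, h3.trans ?_⟩
    ext w
    constructor
    · rintro ⟨a, rfl⟩
      exact ⟨_, (e a).2, rfl⟩
    · rintro ⟨c, hc, rfl⟩
      exact ⟨e.symm ⟨c, hc⟩, by simp⟩
  have hcount := count_orb hF X hXgood
  have hker := ker_card hψ
  set κ := Fintype.card {g : Lˣ // ψ g = 1} with hκ
  set a := (OT F ψ k (z '' T)).ncard with ha
  have hcardE : Fintype.card (ℙ F (Fin k → F) ≃ {c // c ∈ T}) = m.factorial := by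
    have h1 : Fintype.card (ℙ F (Fin k → F)) = Fintype.card {c // c ∈ T} := by
      rw [hm, Fintype.card_coe, hT]
    rw [Fintype.card_equiv (Fintype.equivOfCardEq h1), hm]
  have hlow : (m.factorial : ℝ) * (Q ^ k - K * (Q ^ k / Real.sqrt Q)) ≤
      ((s * m : ℕ) : ℝ) ^ m * (X.card : ℝ) := by
    rw [hXcard]
    push_cast
    rw [mul_sum]
    calc (m.factorial : ℝ) * (Q ^ k - K * (Q ^ k / Real.sqrt Q))
        = ∑ e : (ℙ F (Fin k → F) ≃ {c // c ∈ T}), (Q ^ k - K * (Q ^ k / Real.sqrt Q)) := by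
          rw [sum_const, card_univ, hcardE, nsmul_eq_mul]
      _ ≤ _ := by
          refine sum_le_sum fun e _ => ?_
          have := hY e
          push_cast at this
          exact this
  have hq1 : 1 ≤ Fintype.card F := Fintype.card_pos
  have hQ1' : 1 ≤ Fintype.card L := Fintype.card_pos
  have hcountR : (X.card : ℝ) * ((Fintype.card F : ℝ) - 1) ≤ a * (κ * BB F k) := by
    have h1 : ((X.card * (Fintype.card F - 1) : ℕ) : ℝ) ≤ ((a * (κ * BB F k) : ℕ) : ℝ) := by
      exact_mod_cast hcount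
    push_cast [Nat.cast_sub hq1] at h1
    exact h1
  have hkerR : (κ : ℝ) * (s * m : ℕ) ≤ Q := by
    have h1 : ((κ * (s * m) : ℕ) : ℝ) ≤ ((Fintype.card L - 1 : ℕ) : ℝ) := by exact_mod_cast hker
    push_cast [Nat.cast_sub hQ1'] at h1
    push_cast
    rw [hQ]
    linarith
  have hq0 : (0 : ℝ) ≤ (Fintype.card F : ℝ) - 1 := by
    have : (1 : ℝ) ≤ Fintype.card F := by exact_mod_cast hq1
    linarith
  calc (m.factorial : ℝ) * (Q ^ k - K * (Q ^ k / Real.sqrt Q)) * ((Fintype.card F : ℝ) - 1) *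
        (s * m : ℕ)
      ≤ ((s * m : ℕ) : ℝ) ^ m * (X.card : ℝ) * ((Fintype.card F : ℝ) - 1) * (s * m : ℕ) := by
        apply mul_le_mul_of_nonneg_right _ (Nat.cast_nonneg _)
        exact mul_le_mul_of_nonneg_right hlow hq0
    _ = ((s * m : ℕ) : ℝ) ^ m * (((X.card : ℝ) * ((Fintype.card F : ℝ) - 1)) * (s * m : ℕ)) := by ring
    _ ≤ ((s * m : ℕ) : ℝ) ^ m * ((a * (κ * BB F k)) * (s * m : ℕ)) := by
        apply mul_le_mul_of_nonneg_left _ (by positivity)
        exact mul_le_mul_of_nonneg_right hcountR (Nat.cast_nonneg _)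
    _ = ((s * m : ℕ) : ℝ) ^ m * (a * (κ * (s * m : ℕ)) * BB F k) := by ring
    _ ≤ ((s * m : ℕ) : ℝ) ^ m * (a * Q * BB F k) := by
        apply mul_le_mul_of_nonneg_left _ (by positivity)
        apply mul_le_mul_of_nonneg_right _ (Nat.cast_nonneg _)
        exact mul_le_mul_of_nonneg_left hkerR (Nat.cast_nonneg _)

/-- The spreads made of orbits. -/
theorem pack_orbits {F L : Type} [Field F] [Field L] [Fintype L] [Algebra F L] {k m s : ℕ} (w a R : ℕ) {ψ : MulChar L ℂ} {z : Comb.Cell s m → ℂ}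
    (hz : Function.Injective z) (hψ : ∀ v : L, v ≠ 0 → ∃ c, ψ v = z c)
    (hw : ∀ T : Finset (Comb.Cell s m), T.card = m → Comb.cnt s m T = w) (hR : R * w ≤ a)
    (ha : ∀ T : Finset (Comb.Cell s m), T.card = m → a ≤ (OT F ψ k (z '' T)).ncard) :
    Pack F L k ((s * m).factorial * R) := by
  classical
  obtain ⟨f, hf1, hf2⟩ := Comb.pack s m (fun T => OT F ψ k (z '' T)) w a R hw hR
    (fun T hT => ⟨Set.toFinite _, ha T hT⟩)
  choose W hW1 hW2 hW3 using hf1
  have hcard : Fintype.card (Equiv.Perm (Comb.Cell s m) × Fin R) = (s * m).factorial * R := by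
    rw [Fintype.card_prod, Fintype.card_perm, Fintype.card_prod, Fintype.card_fin,
      Fintype.card_fin, Fintype.card_fin]
  rw [← hcard]
  refine Pack.of_fintype (fun p : Equiv.Perm (Comb.Cell s m) × Fin R =>
    {X | ∃ b, X ∈ Orb ψ (W p.1 p.2 b)}) ?_ ?_
  · rintro ⟨π, r⟩
    refine orb_spread (fun b => W π r b) (fun b => hW1 π r b) ?_
    intro v hv
    obtain ⟨c, hc⟩ := hψ v hv
    obtain ⟨b, hb, hbu⟩ := Comb.bl_part s m π c
    refine ⟨b, ?_, ?_⟩
    · show ψ v ∈ Ty ψ (W π r b)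
      rw [hW2, hc]
      exact ⟨c, hb, rfl⟩
    · intro b' hb'
      have hb'' : ψ v ∈ Ty ψ (W π r b') := hb'
      rw [hW2, hc] at hb''
      obtain ⟨c', hc', hcc⟩ := hb''
      rw [hz hcc] at hc'
      exact hbu b' hc'
  · rintro ⟨π, r⟩ ⟨π', r'⟩ X ⟨b, hb⟩ ⟨b', hb'⟩
    simp only at hb hb'
    have h1 : f π r b = f π' r' b' := by
      rw [hW3, hW3, ← Orb_eq hb, ← Orb_eq hb']
    have h2 : z '' (Comb.bl s m π b : Set (Comb.Cell s m)) = z '' (Comb.bl s m π' b') := by
      rw [← hW2 π r b, ← hW2 π' r' b', ← Ty_eq hb, ← Ty_eq hb']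
    have h3 : Comb.bl s m π b = Comb.bl s m π' b' := by
      exact_mod_cast hz.image_injective h2
    obtain ⟨h4, h5, -⟩ := hf2 π r b π' r' b' h3 h1
    rw [h4, h5]

end

/-- Nearly as many disjoint spreads as possible. -/
def NP (F V : Type) [Field F] [Fintype F] [AddCommGroup V] [Module F V] (k : ℕ) (ε : ℝ) : Prop :=
  ∃ N : ℕ, Pack F V k N ∧
    (1 - ε) * (((Fintype.card F : ℝ) ^ k - 1) * ((Fintype.card F : ℝ) ^ finrank F V) ^ (k - 1)) ≤
      N * BB F k

theorem NP.map {F V W : Type} [Field F] [Fintype F] [AddCommGroup V] [Module F V] [AddCommGroup W]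
    [Module F W] {k : ℕ} {ε : ℝ} (e : W ≃ₗ[F] V) (h : NP F W k ε) : NP F V k ε := by
  obtain ⟨N, h1, h2⟩ := h
  exact ⟨N, h1.map e, by rw [← e.finrank_eq]; exact h2⟩

/-- Estimate for falling factorials. -/
theorem fall_bound {m s : ℕ} (hm : 0 < m) (hs : 0 < s) :
    (1 - (m : ℝ) / s) * ((s * m : ℕ) : ℝ) ^ m ≤ (m.factorial : ℝ) * ((s * m).choose m : ℕ) := by
  have h1 : (s * m + 1 - m) ^ m ≤ (s * m).descFactorial m := Nat.pow_sub_le_descFactorial _ _
  have h2 : (m.factorial : ℝ) * ((s * m).choose m : ℕ) = ((s * m).descFactorial m : ℕ) := by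
    rw [Nat.descFactorial_eq_factorial_mul_choose]
    push_cast
    ring
  rw [h2]
  have hle : m ≤ s * m := Nat.le_mul_of_pos_left m hs
  have h3 : (((s * m : ℕ) : ℝ) - m) ^ m ≤ ((s * m).descFactorial m : ℕ) := by
    have h4 : ((s * m - m : ℕ) : ℝ) ^ m ≤ ((s * m).descFactorial m : ℕ) := by
      have h5 : (s * m - m) ^ m ≤ (s * m + 1 - m) ^ m := Nat.pow_le_pow_left (by omega) m
      exact_mod_cast h5.trans h1
    rwa [Nat.cast_sub hle] at h4
  refine le_trans ?_ h3
  have hs' : (0 : ℝ) < s := by exact_mod_cast hs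
  have hm' : (0 : ℝ) < m := by exact_mod_cast hm
  have h6 : ((s * m : ℕ) : ℝ) - m = (1 + (-(1 / (s : ℝ)))) * ((s * m : ℕ) : ℝ) := by
    push_cast
    field_simp
    ring
  rw [h6, mul_pow]
  apply mul_le_mul_of_nonneg_right _ (by positivity)
  have h7 := one_add_mul_le_pow (a := -(1 / (s : ℝ))) (by
    have : 1 / (s : ℝ) ≤ 1 := by
      rw [div_le_one hs']
      exact_mod_cast hs
    linarith) m
  calc (1 - (m : ℝ) / s) = 1 + m * (-(1 / (s : ℝ))) := by ring
    _ ≤ _ := h7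

/-- **Part I.** -/
theorem partI (F : Type) [Field F] [Fintype F] (k : ℕ) (hk : 2 ≤ k) (ε : ℝ) (hε : 0 < ε) :
    ∃ n' n0 : ℕ, 0 < n' ∧ k ∣ n' ∧ ∀ n : ℕ, n0 ≤ n → n' ∣ n → ∀ (V : Type) [AddCommGroup V]
      [Module F V], finrank F V = n → NP F V k ε := by
  classical
  by_cases hε1 : 1 ≤ ε
  · refine ⟨k, 0, by omega, dvd_rfl, ?_⟩
    intro n _ _ V _ _ _
    refine ⟨0, ⟨fun i => i.elim0, fun i => i.elim0, fun i => i.elim0⟩, ?_⟩
    have h1 : (1 : ℝ) ≤ (Fintype.card F : ℝ) ^ k :=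
      one_le_pow₀ (by exact_mod_cast Fintype.card_pos)
    have h2 : 0 ≤ (((Fintype.card F : ℝ) ^ k - 1) * ((Fintype.card F : ℝ) ^ finrank F V) ^ (k - 1)) :=
      mul_nonneg (by linarith) (by positivity)
    have h3 : (1 - ε) * (((Fintype.card F : ℝ) ^ k - 1) *
        ((Fintype.card F : ℝ) ^ finrank F V) ^ (k - 1)) ≤ 0 :=
      mul_nonpos_of_nonpos_of_nonneg (by linarith) h2
    simpa using h3
  push Not at hε1
  set q := Fintype.card F with hq
  have hq2 : 2 ≤ q := Fintype.one_lt_card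
  set m := Nat.card (ℙ F (Fin k → F)) with hm
  have hmq : m * (q - 1) = q ^ k - 1 := by
    have h1 := Projectivization.card F (Fin k → F)
    rw [Nat.card_eq_fintype_card (α := F), Nat.card_eq_fintype_card (α := Fin k → F),
      Fintype.card_fun, Fintype.card_fin] at h1
    exact h1.symm
  have hqk : 2 ≤ q ^ k := le_trans hq2 (Nat.le_self_pow (by omega) q)
  have hm0 : 0 < m := by
    rcases Nat.eq_zero_or_pos m with h | h
    · rw [h, zero_mul] at hmq
      omega
    · exact h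
  obtain ⟨j, hj⟩ := exists_nat_gt (2 * (m : ℝ) / ε)
  have hj0 : 0 < j := by
    have h1 : 0 < 2 * (m : ℝ) / ε := by positivity
    exact_mod_cast h1.trans hj
  set s := ∑ i ∈ range j, (q ^ k) ^ i with hs
  have hsj : j ≤ s := by
    rw [hs]
    calc j = ∑ i ∈ range j, 1 := by simp
      _ ≤ _ := sum_le_sum fun i _ => Nat.one_le_pow _ _ (by omega)
  have hs0 : 0 < s := lt_of_lt_of_le hj0 hsj
  have hsq : s * (q ^ k - 1) = q ^ (k * j) - 1 := by
    have h1 := Nat.geomSum_eq hqk j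
    rw [hs, h1, pow_mul]
    exact Nat.div_mul_cancel (by simpa using Nat.sub_dvd_pow_sub_pow (q ^ k) 1 j)
  have hms : 0 < s * m := Nat.mul_pos hs0 hm0
  obtain ⟨K, hK, hOT⟩ := OT_lower (F := F) k m s hm.symm hms
  set w := Comb.cnt s m (Comb.blk s m ⟨0, hs0⟩) with hwdef
  have hw : ∀ T : Finset (Comb.Cell s m), T.card = m → Comb.cnt s m T = w :=
    fun T hT => Comb.cnt_eq s m (hT.trans (Comb.card_blk s m _).symm)
  have hwmul : w * (s * m).choose m = (s * m).factorial * s :=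
    Comb.cnt_mul s m (Comb.card_blk s m _)
  obtain ⟨n0, hn0⟩ := exists_nat_gt (max ((4 * K / ε) ^ 2) (4 * (BB F k * (s * m).factorial) / ε))
  refine ⟨k * j, n0 + 1, Nat.mul_pos (by omega) hj0, dvd_mul_right _ _, ?_⟩
  intro n hn hdvd V _ _ hV
  -- the field
  obtain ⟨p, hp⟩ := CharP.exists F
  have hpp : Fact p.Prime := ⟨CharP.char_is_prime F p⟩
  have hnne : NeZero n := ⟨by omega⟩
  set L := FiniteField.Extension F p n with hL
  have hfL : finrank F L = n := FiniteField.finrank_extension F p n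
  have : Fintype L := Fintype.ofFinite L
  have hfdV : FiniteDimensional F V := finite_of_finrank_pos (by rw [hV]; omega)
  refine NP.map (LinearEquiv.ofFinrankEq L V (hfL.trans hV.symm)) ?_
  have hcardL : Fintype.card L = q ^ n := by
    rw [Module.card_eq_pow_finrank (K := F), hfL]
  set M := s * m with hM
  have hMq : M * (q - 1) = q ^ (k * j) - 1 := by
    rw [hM, mul_assoc, hmq, hsq]
  have hMdvd : M * (q - 1) ∣ Fintype.card L - 1 := by
    obtain ⟨c, hc⟩ := hdvd
    rw [hMq, hcardL, hc, pow_mul q (k * j) c]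
    simpa using Nat.sub_dvd_pow_sub_pow (q ^ (k * j)) 1 c
  obtain ⟨c, hc⟩ := hMdvd
  have hζ : IsPrimitiveRoot (Complex.exp (2 * Real.pi * Complex.I / (M : ℕ))) M :=
    Complex.isPrimitiveRoot_exp M hms.ne'
  set ζ := Complex.exp (2 * Real.pi * Complex.I / (M : ℕ)) with hζdef
  obtain ⟨ψ, hψ⟩ := MulChar.exists_mulChar_orderOf L (R := ℂ)
    (show M ∣ Fintype.card L - 1 from ⟨(q - 1) * c, by rw [hc, mul_assoc]⟩) hζ
  have hψM : ψ ^ M = 1 := by rw [← hψ]; exact pow_orderOf_eq_one ψ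
  have hF : ∀ l : F, l ≠ 0 → ψ (algebraMap F L l) = 1 := by
    intro l hl
    obtain ⟨y, hy⟩ := FiniteField.norm_surjective F L l
    have hy0 : y ≠ 0 := by
      rintro rfl
      rw [Algebra.norm_zero] at hy
      exact hl hy.symm
    rw [← hy, FiniteField.algebraMap_norm_eq_pow, Nat.card_eq_fintype_card,
      Nat.card_eq_fintype_card, hc]
    have h1 : M * (q - 1) * c / (Fintype.card F - 1) = M * c := by
      have h2 : M * (q - 1) * c = (M * c) * (q - 1) := by ring
      rw [h2]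
      exact Nat.mul_div_cancel _ (by omega)
    rw [h1, pow_mul, map_pow, map_pow, ← MulChar.pow_apply' ψ hms.ne', hψM,
      MulChar.one_apply (isUnit_iff_ne_zero.2 hy0), one_pow]
  set z : Comb.Cell s m → ℂ := fun c => ζ ^ (finProdFinEquiv c : ℕ) with hz
  have hzinj : Function.Injective z := by
    intro c c' h
    have h1 := hζ.pow_inj (finProdFinEquiv c).2 (finProdFinEquiv c').2 h
    exact finProdFinEquiv.injective (Fin.ext h1)
  have hzM : ∀ c, z c ^ (s * m) = 1 := by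
    intro c
    show (ζ ^ _) ^ M = 1
    rw [← pow_mul, mul_comm, pow_mul, hζ.pow_eq_one, one_pow]
  have hzs : ∀ v : L, v ≠ 0 → ∃ c, ψ v = z c := by
    intro v hv
    have h1 : ψ v ^ M = 1 := by
      rw [← MulChar.pow_apply' ψ hms.ne', hψM, MulChar.one_apply (isUnit_iff_ne_zero.2 hv)]
    have hMne : NeZero M := ⟨hms.ne'⟩
    obtain ⟨i, hi, hiv⟩ := hζ.eq_pow_of_pow_eq_one h1
    refine ⟨finProdFinEquiv.symm ⟨i, hi⟩, ?_⟩
    rw [hz]
    simp only [Equiv.apply_symm_apply]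
    exact hiv.symm
  -- numbers
  set Q : ℝ := (Fintype.card L : ℝ) with hQ
  have hQn : Q = (q : ℝ) ^ n := by rw [hQ, hcardL]; push_cast; rfl
  have hq1R : (1 : ℝ) < q := by exact_mod_cast (by omega : 1 < q)
  have hnQ : (n : ℝ) < Q := by
    rw [hQn]
    exact_mod_cast Nat.lt_pow_self (by omega : 1 < q)
  have hQbig : max ((4 * K / ε) ^ 2) (4 * (BB F k * (s * m).factorial) / ε) < Q := by
    refine hn0.trans (lt_of_le_of_lt ?_ hnQ)
    exact_mod_cast (by omega : n0 ≤ n)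
  have hQ1 : 1 ≤ Q := by rw [hQ]; exact_mod_cast Fintype.card_pos
  have hQ0 : 0 < Q := by linarith
  have hsQ0 : 0 < Real.sqrt Q := Real.sqrt_pos.2 hQ0
  have hKQ : K / Real.sqrt Q ≤ ε / 4 := by
    rw [div_le_iff₀ hsQ0]
    have h1 : 4 * K / ε ≤ Real.sqrt Q := by
      apply Real.le_sqrt_of_sq_le
      exact (le_max_left _ _).trans hQbig.le
    rw [div_le_iff₀ hε] at h1
    linarith
  have hBQ : (BB F k : ℝ) * (s * m).factorial ≤ ε / 4 * Q := by
    have h1 := (le_max_right ((4 * K / ε) ^ 2) (4 * (BB F k * (s * m).factorial) / ε)).trans hQbig.le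
    rw [div_le_iff₀ hε] at h1
    linarith
  have hBB0 : 0 < BB F k := by
    unfold BB
    apply prod_pos
    intro i _
    have h1 : Fintype.card F ^ (i : ℕ) < Fintype.card F ^ k :=
      Nat.pow_lt_pow_right (by omega) i.2
    omega
  have hBB0' : (0 : ℝ) < BB F k := by exact_mod_cast hBB0
  set C : ℝ := (((s * m).choose m : ℕ) : ℝ) with hC
  have hC0 : 0 < C := by
    rw [hC]
    exact_mod_cast Nat.choose_pos (Nat.le_mul_of_pos_left m hs0)
  have hM0 : (0 : ℝ) < (M : ℝ) := by exact_mod_cast hms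
  set A : ℝ := (m.factorial : ℝ) * (Q ^ k - K * (Q ^ k / Real.sqrt Q)) * ((q : ℝ) - 1) * M /
    ((M : ℝ) ^ m * (Q * BB F k)) with hA
  have hden : 0 < (M : ℝ) ^ m * (Q * BB F k) := by positivity
  set a : ℕ := ⌈A⌉₊ with ha
  have haOT : ∀ T : Finset (Comb.Cell s m), T.card = m → a ≤ (OT F ψ k (z '' T)).ncard := by
    intro T hT
    rw [ha]
    apply Nat.ceil_le.2
    rw [hA, div_le_iff₀ hden]
    have h1 := hOT L ψ hψ hF z hzinj hzM T hT
    calc _ ≤ _ := h1
      _ = _ := by ring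
  have hpack := pack_orbits (k := k) w a (a / w) hzinj hzs hw (Nat.div_mul_le_self a w) haOT
  refine ⟨_, hpack, ?_⟩
  rw [hfL, ← hQn]
  -- the estimate
  have hw0 : 0 < w := by
    rcases Nat.eq_zero_or_pos w with h | h
    · rw [h, zero_mul] at hwmul
      exact absurd hwmul (Nat.mul_pos (Nat.factorial_pos _) hs0).ne
    · exact h
  have hw0' : (0 : ℝ) < w := by exact_mod_cast hw0
  have hs0' : (0 : ℝ) < s := by exact_mod_cast hs0
  have hR : A - w ≤ ((a / w : ℕ) : ℝ) * w := by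
    have h1 : a < w * (a / w + 1) := Nat.lt_mul_div_succ a hw0
    have h2 : (a : ℝ) < w * (((a / w : ℕ) : ℝ) + 1) := by exact_mod_cast h1
    have h3 : A ≤ a := Nat.le_ceil A
    linarith
  have hwC : (w : ℝ) * C = ((s * m).factorial : ℝ) * s := by
    rw [hC]; exact_mod_cast hwmul
  have hfact : (1 - (m : ℝ) / s) * (M : ℝ) ^ m ≤ (m.factorial : ℝ) * C := fall_bound hm0 hs0
  have hms2 : (m : ℝ) / s ≤ ε / 2 := by
    rw [div_le_iff₀ hs0']
    have h1 : 2 * (m : ℝ) / ε ≤ s := hj.le.trans (by exact_mod_cast hsj)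
    rw [div_le_iff₀ hε] at h1
    linarith
  have hmqR : (m : ℝ) * ((q : ℝ) - 1) = (q : ℝ) ^ k - 1 := by
    have h1 : ((m * (q - 1) : ℕ) : ℝ) = ((q ^ k - 1 : ℕ) : ℝ) := by rw [hmq]
    rw [Nat.cast_mul, Nat.cast_sub (by omega), Nat.cast_sub (by omega)] at h1
    push_cast at h1
    exact h1
  have hQk : Q ^ k = Q ^ (k - 1) * Q := by
    rw [← pow_succ]
    congr 1
    omega
  have hqk1 : 0 < (q : ℝ) ^ k - 1 := by
    have : (1 : ℝ) < (q : ℝ) ^ k := one_lt_pow₀ hq1R (by omega)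
    linarith
  -- `A * BB * C / s` in closed form
  have hmain : A * BB F k * C / s = ((q : ℝ) ^ k - 1) * Q ^ (k - 1) * (1 - K / Real.sqrt Q) *
      ((m.factorial : ℝ) * C / (M : ℝ) ^ m) := by
    rw [← hmqR, hA, hQk]
    have hMs : (M : ℝ) = s * m := by rw [hM]; push_cast; ring
    have hMm : (M : ℝ) ^ m ≠ 0 := by positivity
    field_simp
    rw [hMs]
    ring
  have hX0 : 0 ≤ ((q : ℝ) ^ k - 1) * Q ^ (k - 1) := by positivity
  have hlow : ((q : ℝ) ^ k - 1) * Q ^ (k - 1) * ((1 - ε / 4) * (1 - ε / 2)) ≤ A * BB F k * C / s := by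
    rw [hmain, mul_assoc (((q : ℝ) ^ k - 1) * Q ^ (k - 1)) (1 - K / Real.sqrt Q)]
    apply mul_le_mul_of_nonneg_left _ hX0
    apply mul_le_mul
    · linarith
    · rw [le_div_iff₀ (by positivity)]
      refine le_trans ?_ hfact
      apply mul_le_mul_of_nonneg_right _ (by positivity)
      linarith
    · linarith
    · linarith
  have hNB : A * BB F k * C / s - BB F k * (s * m).factorial ≤
      (((s * m).factorial * (a / w) : ℕ) : ℝ) * BB F k := by
    have h1 : (A - w) * (BB F k * C / s) ≤ (((a / w : ℕ) : ℝ) * w) * (BB F k * C / s) :=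
      mul_le_mul_of_nonneg_right hR (by positivity)
    have h2 : (w : ℝ) * (BB F k * C / s) = BB F k * (s * m).factorial := by
      calc (w : ℝ) * (BB F k * C / s) = BB F k * (w * C) / s := by ring
        _ = BB F k * (((s * m).factorial : ℝ) * s) / s := by rw [hwC]
        _ = _ := by field_simp
    calc A * BB F k * C / s - BB F k * (s * m).factorial
        = (A - w) * (BB F k * C / s) := by rw [sub_mul, h2]; ring
      _ ≤ (((a / w : ℕ) : ℝ) * w) * (BB F k * C / s) := h1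
      _ = ((a / w : ℕ) : ℝ) * (w * (BB F k * C / s)) := by ring
      _ = _ := by rw [h2]; push_cast; ring
  have hBQ2 : (BB F k : ℝ) * (s * m).factorial ≤ ε / 4 * (((q : ℝ) ^ k - 1) * Q ^ (k - 1)) := by
    refine hBQ.trans ?_
    apply mul_le_mul_of_nonneg_left _ (by positivity)
    have h1 : (1 : ℝ) ≤ (q : ℝ) ^ k - 1 := by
      have : (2 : ℝ) ≤ (q : ℝ) ^ k := by exact_mod_cast hqk
      linarith
    have h2 : Q ≤ Q ^ (k - 1) := le_self_pow₀ hQ1 (by omega)
    nlinarith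
  refine le_trans ?_ hNB
  have h10 : ((q : ℝ) ^ k - 1) * Q ^ (k - 1) * ((1 - ε / 4) * (1 - ε / 2)) =
      (1 - ε) * (((q : ℝ) ^ k - 1) * Q ^ (k - 1)) + ε / 4 * (((q : ℝ) ^ k - 1) * Q ^ (k - 1)) +
        ((q : ℝ) ^ k - 1) * Q ^ (k - 1) * (ε ^ 2 / 8) := by ring
  have h11 : 0 ≤ ((q : ℝ) ^ k - 1) * Q ^ (k - 1) * (ε ^ 2 / 8) := mul_nonneg hX0 (by positivity)
  linarith

end Pool.Agent.Helper491_Par
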