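import Pool.Agent.Helper491_Par.Sw
import Pool.Agent.Helper491_Par.PartI

/-!
# A spread of `U × K2` from a spread of `U` and a family of switches
-/

set_option autoImplicit false

namespace Pool.Agent.Helper491_Par.Sw

open Module

open scoped LinearAlgebra.Projectivization

section

variable {F K1 K2 U : Type} [Field F] [Fintype F] [Field K1] [Finite K1] [Algebra F K1] [Field K2]
  [Algebra F K2] [Algebra K1 K2] [IsScalarTower F K1 K2] [AddCommGroup U] [Module F U]

/-- The blocks. -/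
def SS (S : Set (Submodule F U)) (ι : Submodule F U → (K1 →ₗ[F] U)) (c : K1 →ₗ[F] K2)
    (Ej : ℙ K1 K2 → Submodule F U) (aj βj : ℙ K1 K2 → K2) : Set (Submodule F (U × K2)) :=
  {W | (∃ E ∈ S, ∃ a : K2, (∀ j, Ej j = E → ¬ Rem F (K1 := K1) (βj j) (a - aj j)) ∧
      W = G (ι E) (c + mr F a)) ∨ ∃ j, W ∈ Bl (ι (Ej j)) (c + mr F (aj j)) (βj j)}

theorem asm {k : ℕ} (hk : finrank F K1 = k) {S : Set (Submodule F U)} (hS : IsKSpread k S)
    {ι : Submodule F U → (K1 →ₗ[F] U)}
    (hι : ∀ E ∈ S, Function.Injective (ι E) ∧ LinearMap.range (ι E) = E) (c : K1 →ₗ[F] K2)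
    {Ej : ℙ K1 K2 → Submodule F U} {aj βj : ℙ K1 K2 → K2} (hE : ∀ j, Ej j ∈ S)
    (hinj : Function.Injective Ej) (hβ : ∀ j, βj j ≠ 0)
    (hβj : ∀ j, Projectivization.mk K1 (βj j) (hβ j) = j) : IsKSpread k (SS S ι c Ej aj βj) := by
  constructor
  · rintro W (⟨E, hES, a, -, rfl⟩ | ⟨j, κ, hκ, rfl⟩)
    · rw [finrank_G (hι E hES).1, hk]
    · rw [finrank_Bk (hι _ (hE j)).1 _ (hβ j) hκ, hk]
  · rintro ⟨u, w⟩ hv
    by_cases hu : u = 0
    · subst hu
      have hw : w ≠ 0 := fun h => hv (by rw [h]; rfl)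
      set j := Projectivization.mk K1 w hw with hj
      obtain ⟨y, hy⟩ := (Projectivization.mk_eq_mk_iff K1 w (βj j) hw (hβ j)).1 (hj.symm.trans (hβj j).symm)
      have hwy : w = βj j * algebraMap K1 K2 (y : K1) := by
        rw [← hy, Units.smul_def, Algebra.smul_def, mul_comm]
      obtain ⟨B, ⟨hB, hBm⟩, hBu⟩ := bl_zero (hι _ (hE j)).1 (c + mr F (aj j)) (hβ j) y.ne_zero
      rw [← hwy] at hBm hBu
      refine ⟨B, ⟨Or.inr ⟨j, hB⟩, hBm⟩, ?_⟩
      rintro W ⟨⟨E, hES, a, -, rfl⟩ | ⟨j', hW⟩, hvW⟩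
      · exfalso
        obtain ⟨x, h1, h2⟩ := mem_G.1 hvW
        simp only at h1 h2
        have hx : x = 0 := (hι E hES).1 (h1.trans (map_zero _).symm)
        rw [hx, map_zero] at h2
        exact hw h2.symm
      · have hj' : j' = j := by
          obtain ⟨y', hy'⟩ := bl_zero' (hι _ (hE j')).1 hW hvW
          have hy'0 : y' ≠ 0 := by
            rintro rfl
            rw [map_zero, mul_zero] at hy'
            exact hw hy'
          rw [← hβj j', hj, Projectivization.mk_eq_mk_iff' K1 _ _ (hβ j') hw]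
          refine ⟨y'⁻¹, ?_⟩
          rw [hy', Algebra.smul_def, map_inv₀]
          have : algebraMap K1 K2 y' ≠ 0 := by rwa [Ne, map_eq_zero]
          field_simp
        subst hj'
        exact hBu W ⟨hW, hvW⟩
    · obtain ⟨E, ⟨hES, huE⟩, hEu⟩ := hS.2 u hu
      obtain ⟨x, hx⟩ : u ∈ LinearMap.range (ι E) := by rw [(hι E hES).2]; exact huE
      have hx0 : x ≠ 0 := by
        rintro rfl
        rw [map_zero] at hx
        exact hu hx.symm
      have hx0' : algebraMap K1 K2 x ≠ 0 := by rwa [Ne, map_eq_zero]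
      set a : K2 := (w - c x) / algebraMap K1 K2 x with ha
      have haw : c x + a * algebraMap K1 K2 x = w := by
        rw [ha, div_mul_cancel₀ _ hx0']; ring
      -- lifts containing the vector
      have hlift : ∀ E' ∈ S, ∀ a', (u, w) ∈ G (ι E') (c + mr F a') → E' = E ∧ a' = a := by
        intro E' hE' a' hmem
        obtain ⟨x', h1, h2⟩ := mem_G.1 hmem
        simp only at h1 h2
        have hEE : E' = E := hEu E' ⟨hE', by
          rw [← (hι E' hE').2]
          exact ⟨x', h1⟩⟩
        subst hEE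
        have hxx : x' = x := (hι E' hE').1 (h1.trans hx.symm)
        subst hxx
        refine ⟨rfl, ?_⟩
        rw [LinearMap.add_apply, mr_apply, ← haw] at h2
        exact mul_right_cancel₀ hx0' (add_left_cancel h2)
      have hblock : ∀ j' W, W ∈ Bl (ι (Ej j')) (c + mr F (aj j')) (βj j') → (u, w) ∈ W →
          Ej j' = E ∧ Rem F (K1 := K1) (βj j') (a - aj j') := by
        intro j' W hW hmem
        have hEE : Ej j' = E := hEu _ ⟨hE j', by
          rw [← (hι _ (hE j')).2]
          exact fst_mem hW hmem⟩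
        refine ⟨hEE, ?_⟩
        rw [← hx] at hmem
        rw [hEE] at hW
        obtain ⟨r, hr1, hr2⟩ := bl_ne' (hι E hES).1 hW hx0 hmem
        have : r = a - aj j' := by
          rw [LinearMap.add_apply, mr_apply, ← haw] at hr1
          apply mul_right_cancel₀ hx0'
          linear_combination -hr1
        rw [← this]
        exact hr2
      by_cases hex : ∃ j, Ej j = E ∧ Rem F (K1 := K1) (βj j) (a - aj j)
      · obtain ⟨j, hjE, hrem⟩ := hex
        obtain ⟨B, ⟨hB, hBm⟩, hBu⟩ := bl_ne (hι E hES).1 (c + mr F (aj j)) (hβ j) hx0 hrem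
        have hpt : (c + mr F (aj j) : K1 →ₗ[F] K2) x + (a - aj j) * algebraMap K1 K2 x = w := by
          rw [LinearMap.add_apply, mr_apply, ← haw]; ring
        rw [hpt, hx] at hBm
        refine ⟨B, ⟨Or.inr ⟨j, by rw [hjE]; exact hB⟩, hBm⟩, ?_⟩
        rintro W ⟨⟨E', hE', a', hno, rfl⟩ | ⟨j', hW⟩, hvW⟩
        · exfalso
          obtain ⟨h1, h2⟩ := hlift E' hE' a' hvW
          subst h1
          subst h2
          exact hno j hjE hrem
        · obtain ⟨h1, h2⟩ := hblock j' W hW hvW
          have hj' : j' = j := hinj (h1.trans hjE.symm)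
          subst hj'
          rw [h1] at hW
          apply hBu W
          refine ⟨hW, ?_⟩
          rw [hpt, hx]
          exact hvW
      · push Not at hex
        refine ⟨G (ι E) (c + mr F a), ⟨Or.inl ⟨E, hES, a, hex, rfl⟩, ?_⟩, ?_⟩
        · rw [mem_G]
          exact ⟨x, hx, by rw [LinearMap.add_apply, mr_apply]; exact haw⟩
        · rintro W ⟨⟨E', hE', a', hno, rfl⟩ | ⟨j', hW⟩, hvW⟩
          · obtain ⟨h1, h2⟩ := hlift E' hE' a' hvW
            rw [h1, h2]
          · exfalso
            obtain ⟨h1, h2⟩ := hblock j' W hW hvW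
            exact hex j' h1 h2

end

end Pool.Agent.Helper491_Par.Sw
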