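import Mathlib

/-!
# Splitting sets of lines into line spreads: general lemmas

`V` is a vector space over a field `F`; lines are the two-dimensional subspaces of `V` (the lines
of the projective space of `V`).
-/

set_option autoImplicit false

namespace Pool.Agent.Helper491_Par

open Module

section Basic

variable {F : Type} [Field F] {V : Type} [AddCommGroup V] [Module F V]

/-- A line spread: a set of two-dimensional subspaces such that every nonzero vector lies in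
exactly one of them. -/
def IsSpread (S : Set (Submodule F V)) : Prop :=
  (∀ L ∈ S, finrank F L = 2) ∧ ∀ v : V, v ≠ 0 → ∃! L, L ∈ S ∧ v ∈ L

/-- The set `ℒ` of subspaces is the disjoint union of line spreads. -/
def Splits (ℒ : Set (Submodule F V)) : Prop :=
  ∃ PP : Set (Set (Submodule F V)), (∀ S ∈ PP, IsSpread S) ∧
    (∀ S ∈ PP, ∀ T ∈ PP, ∀ L, L ∈ S → L ∈ T → S = T) ∧ ⋃₀ PP = ℒ

theorem Splits.of_eq {ℒ ℒ' : Set (Submodule F V)} (h : Splits ℒ) (e : ℒ = ℒ') : Splits ℒ' := e ▸ h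

theorem splits_empty : Splits (∅ : Set (Submodule F V)) :=
  ⟨∅, by simp, by simp, by simp⟩

theorem Splits.union {ℒ ℒ' : Set (Submodule F V)} (h : Splits ℒ) (h' : Splits ℒ')
    (hd : ∀ L, L ∈ ℒ → L ∈ ℒ' → False) : Splits (ℒ ∪ ℒ') := by
  obtain ⟨P, hP1, hP2, hP3⟩ := h
  obtain ⟨Q, hQ1, hQ2, hQ3⟩ := h'
  refine ⟨P ∪ Q, ?_, ?_, ?_⟩
  · rintro S (hS | hS)
    · exact hP1 S hS
    · exact hQ1 S hS
  · rintro S (hS | hS) T (hT | hT) L hLS hLT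
    · exact hP2 S hS T hT L hLS hLT
    · exact (hd L (hP3 ▸ ⟨S, hS, hLS⟩) (hQ3 ▸ ⟨T, hT, hLT⟩)).elim
    · exact (hd L (hP3 ▸ ⟨T, hT, hLT⟩) (hQ3 ▸ ⟨S, hS, hLS⟩)).elim
    · exact hQ2 S hS T hT L hLS hLT
  · rw [Set.sUnion_union, hP3, hQ3]

variable {W : Type} [AddCommGroup W] [Module F W]

/-- Lifting a spread along a family of embeddings whose ranges partition the nonzero vectors. -/
theorem isSpread_lift {I : Type} (φ : I → W →ₗ[F] V) (hinj : ∀ i, Function.Injective (φ i))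
    (hpart : ∀ v : V, v ≠ 0 → ∃! i, v ∈ LinearMap.range (φ i))
    {S : Set (Submodule F W)} (hS : IsSpread S) :
    IsSpread {E : Submodule F V | ∃ i, ∃ L ∈ S, E = L.map (φ i)} := by
  constructor
  · rintro E ⟨i, L, hL, rfl⟩
    rw [← hS.1 L hL]
    exact (LinearEquiv.finrank_eq (Submodule.equivMapOfInjective (φ i) (hinj i) L)).symm
  · intro v hv
    obtain ⟨i, ⟨w, rfl⟩, hi⟩ := hpart v hv
    have hw : w ≠ 0 := by
      rintro rfl
      exact hv (map_zero _)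
    obtain ⟨L, ⟨hL, hwL⟩, hLu⟩ := hS.2 w hw
    refine ⟨L.map (φ i), ⟨⟨i, L, hL, rfl⟩, Submodule.mem_map_of_mem hwL⟩, ?_⟩
    rintro E ⟨⟨j, L', hL', rfl⟩, hE⟩
    obtain ⟨w', hw', hww⟩ := hE
    have hj : j = i := hi j ⟨w', hww⟩
    subst hj
    have : w' = w := hinj j hww
    subst this
    rw [hLu L' ⟨hL', hw'⟩]

/-- The image of a spread under a linear equivalence. -/
theorem isSpread_map (e : W ≃ₗ[F] V) {S : Set (Submodule F W)} (hS : IsSpread S) :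
    IsSpread {E : Submodule F V | ∃ L ∈ S, E = L.map (e : W →ₗ[F] V)} := by
  have := isSpread_lift (I := Unit) (fun _ => (e : W →ₗ[F] V)) (fun _ => e.injective)
    (fun v _ => ⟨(), ⟨e.symm v, by simp⟩, fun _ _ => rfl⟩) hS
  convert this using 1
  ext E
  simp

theorem map_map_equiv (e : W ≃ₗ[F] V) (L : Submodule F W) :
    (L.map (e : W →ₗ[F] V)).map (e.symm : V →ₗ[F] W) = L := by
  rw [← Submodule.map_comp]
  simp

theorem map_equiv_inj (e : W ≃ₗ[F] V) {L L' : Submodule F W}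
    (h : L.map (e : W →ₗ[F] V) = L'.map (e : W →ₗ[F] V)) : L = L' := by
  rw [← map_map_equiv e L, h, map_map_equiv]

/-- Transport along a linear equivalence. -/
theorem Splits.map (e : W ≃ₗ[F] V) {ℒ : Set (Submodule F W)} (h : Splits ℒ) :
    Splits {E : Submodule F V | ∃ L ∈ ℒ, E = L.map (e : W →ₗ[F] V)} := by
  obtain ⟨P, hP1, hP2, hP3⟩ := h
  refine ⟨{T | ∃ S ∈ P, T = {E : Submodule F V | ∃ L ∈ S, E = L.map (e : W →ₗ[F] V)}}, ?_, ?_, ?_⟩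
  · rintro T ⟨S, hS, rfl⟩
    exact isSpread_map e (hP1 S hS)
  · rintro T ⟨S, hS, rfl⟩ T' ⟨S', hS', rfl⟩ E ⟨L, hL, rfl⟩ ⟨L', hL', h⟩
    have : L = L' := map_equiv_inj e h
    subst this
    rw [hP2 S hS S' hS' L hL hL']
  · ext E
    constructor
    · rintro ⟨T, ⟨S, hS, rfl⟩, L, hL, rfl⟩
      exact ⟨L, hP3 ▸ ⟨S, hS, hL⟩, rfl⟩
    · rintro ⟨L, hL, rfl⟩
      rw [← hP3] at hL
      obtain ⟨S, hS, hLS⟩ := hL
      exact ⟨_, ⟨S, hS, rfl⟩, L, hLS, rfl⟩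

/-- The orbit of one spread under a set of linear automorphisms closed under `b⁻¹ a`. -/
theorem splits_orbit (G : Set (V ≃ₗ[F] V)) (hG : ∀ a ∈ G, ∀ b ∈ G, a.trans b.symm ∈ G)
    {S0 : Set (Submodule F V)} (hS0 : IsSpread S0)
    (hst : ∀ g ∈ G, ∀ L ∈ S0, L.map (g : V →ₗ[F] V) ∈ S0 →
      ∀ L' ∈ S0, L'.map (g : V →ₗ[F] V) ∈ S0)
    {ℒ : Set (Submodule F V)}
    (hℒ : ∀ E, E ∈ ℒ ↔ ∃ g ∈ G, ∃ L ∈ S0, E = L.map (g : V →ₗ[F] V)) : Splits ℒ := by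
  have key : ∀ g ∈ G, ∀ g' ∈ G, ∀ L ∈ S0, ∀ L' ∈ S0,
      L.map (g : V →ₗ[F] V) = L'.map (g' : V →ₗ[F] V) → ∀ E,
      (∃ L ∈ S0, E = L.map (g : V →ₗ[F] V)) → (∃ L ∈ S0, E = L.map (g' : V →ₗ[F] V)) := by
    intro g hg g' hg' L hL L' hL' h E ⟨M, hM, hE⟩
    have h1 : L.map ((g.trans g'.symm : V ≃ₗ[F] V) : V →ₗ[F] V) = L' := by
      rw [LinearEquiv.coe_trans, Submodule.map_comp, h, map_map_equiv]
    refine ⟨M.map ((g.trans g'.symm : V ≃ₗ[F] V) : V →ₗ[F] V),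
      hst _ (hG g hg g' hg') L hL (h1 ▸ hL') M hM, ?_⟩
    rw [← Submodule.map_comp, hE]
    congr 1
    ext v
    simp
  refine ⟨{T | ∃ g ∈ G, T = {E : Submodule F V | ∃ L ∈ S0, E = L.map (g : V →ₗ[F] V)}}, ?_, ?_, ?_⟩
  · rintro T ⟨g, hg, rfl⟩
    exact isSpread_map g hS0
  · rintro T ⟨g, hg, rfl⟩ T' ⟨g', hg', rfl⟩ E ⟨L, hL, rfl⟩ ⟨L', hL', h⟩
    ext E
    exact ⟨key g hg g' hg' L hL L' hL' h E, key g' hg' g hg L' hL' L hL h.symm E⟩
  · ext E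
    rw [hℒ]
    constructor
    · rintro ⟨T, ⟨g, hg, rfl⟩, L, hL, rfl⟩
      exact ⟨g, hg, L, hL, rfl⟩
    · rintro ⟨g, hg, L, hL, rfl⟩
      exact ⟨_, ⟨g, hg, rfl⟩, L, hL, rfl⟩

end Basic

end Pool.Agent.Helper491_Par
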