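import Pool.Agent.Helper491_Par.Comp

/-!
# The lower triangular maps of `K × K`
-/

set_option autoImplicit false

namespace Pool.Agent.Helper491_Par

open Module

section

variable (F : Type) {K : Type} [Field F] [Field K] [Algebra F K]

/-- The map `(x, y) ↦ (α x, γ x + β y)`, as a linear automorphism over `F`. -/
noncomputable def bor (α β : Kˣ) (γ : K) : (K × K) ≃ₗ[F] (K × K) where
  toFun v := (α * v.1, γ * v.1 + β * v.2)
  map_add' v w := by
    ext
    · simp [mul_add]
    · simp only [Prod.fst_add, Prod.snd_add, mul_add]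
      ring
  map_smul' c v := by
    ext
    · simp
    · simp [smul_add]
  invFun v := ((α : K)⁻¹ * v.1, (β : K)⁻¹ * (v.2 - γ * ((α : K)⁻¹ * v.1)))
  left_inv v := by
    ext
    · simp
    · simp
  right_inv v := by
    ext
    · simp
    · simp

@[simp] theorem bor_apply (α β : Kˣ) (γ : K) (v : K × K) :
    bor F α β γ v = (α * v.1, γ * v.1 + β * v.2) := rfl

@[simp] theorem bor_symm_apply (α β : Kˣ) (γ : K) (v : K × K) :
    (bor F α β γ).symm v = ((α : K)⁻¹ * v.1, (β : K)⁻¹ * (v.2 - γ * ((α : K)⁻¹ * v.1))) := rfl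

theorem bor_trans_symm (α β α' β' : Kˣ) (γ γ' : K) :
    (bor F α β γ).trans (bor F α' β' γ').symm =
      bor F (α * α'⁻¹) (β * β'⁻¹) ((β' : K)⁻¹ * (γ - γ' * ((α' : K)⁻¹ * α))) := by
  ext v
  · simp; ring
  · simp; ring

theorem bor_mul (α β α' β' : Kˣ) (γ γ' : K) :
    (bor F α β γ).trans (bor F α' β' γ') =
      bor F (α' * α) (β' * β) (γ' * α + β' * γ) := by
  ext v
  · simp; ring
  · simp; ring

/-- The set of all these maps. -/
def BorSet : Set ((K × K) ≃ₗ[F] (K × K)) := {g | ∃ α β : Kˣ, ∃ γ : K, g = bor F α β γ}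

theorem borSet_closed : ∀ a ∈ BorSet (K := K) F, ∀ b ∈ BorSet (K := K) F,
    a.trans b.symm ∈ BorSet (K := K) F := by
  rintro _ ⟨α, β, γ, rfl⟩ _ ⟨α', β', γ', rfl⟩
  exact ⟨_, _, _, bor_trans_symm F _ _ _ _ _ _⟩

theorem map_bor_span (α β : Kˣ) (γ : K) (f1 f2 : K × K) :
    (Submodule.span F {f1, f2}).map ((bor F α β γ : (K × K) ≃ₗ[F] (K × K)) : (K × K) →ₗ[F] (K × K)) =
      Submodule.span F {bor F α β γ f1, bor F α β γ f2} := by
  rw [Submodule.map_span, Set.image_pair]
  rfl

theorem bor_mem_Rl (α β : Kˣ) (γ : K) {L : Submodule F (K × K)} (hL : L ∈ Rl F K (K × K)) :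
    L.map ((bor F α β γ : (K × K) ≃ₗ[F] (K × K)) : (K × K) →ₗ[F] (K × K)) ∈ Rl F K (K × K) := by
  obtain ⟨f1, f2, hf, rfl⟩ := hL
  refine ⟨bor F α β γ f1, bor F α β γ f2, ?_, map_bor_span F α β γ f1 f2⟩
  rw [li_iff_det] at hf ⊢
  simp only [bor_apply]
  have : (α : K) * f1.1 * (γ * f2.1 + β * f2.2) - (γ * f1.1 + β * f1.2) * (α * f2.1) =
      α * β * (f1.1 * f2.2 - f1.2 * f2.1) := by ring
  rw [this]
  exact mul_ne_zero (mul_ne_zero α.ne_zero β.ne_zero) hf

theorem finrank_of_li {Y : Type} [AddCommGroup Y] [Module F Y] {e1 e2 : Y}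
    (h : LinearIndependent F ![e1, e2]) : finrank F (Submodule.span F {e1, e2}) = 2 := by
  have h1 := finrank_span_eq_card h
  have h2 : Set.range ![e1, e2] = {e1, e2} := by
    ext x
    simp [eq_comm, or_comm]
  rw [h2] at h1
  simpa using h1

theorem finrank_of_mem_Rl {Y : Type} [AddCommGroup Y] [Module F Y] [Module K Y]
    [IsScalarTower F K Y] {L : Submodule F Y}
    (hL : L ∈ Rl F K Y) : finrank F L = 2 := by
  obtain ⟨e1, e2, he, rfl⟩ := hL
  apply finrank_of_li
  rw [LinearIndependent.pair_iff] at he ⊢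
  intro s t hst
  have := he (algebraMap F K s) (algebraMap F K t) (by
    simpa only [algebraMap_smul] using hst)
  exact ⟨by simpa using this.1, by simpa using this.2⟩

/-- Change of basis in the span of two vectors. -/
theorem span_change {Y : Type} [AddCommGroup Y] [Module F Y] (e1 e2 : Y) (a b c d : F)
    (h : a * d - b * c ≠ 0) :
    Submodule.span F {a • e1 + b • e2, c • e1 + d • e2} = Submodule.span F {e1, e2} := by
  apply le_antisymm
  · rw [Submodule.span_le]
    rintro x (rfl | rfl)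
    · exact Submodule.mem_span_pair.2 ⟨_, _, rfl⟩
    · exact Submodule.mem_span_pair.2 ⟨_, _, rfl⟩
  · rw [Submodule.span_le]
    set D := a * d - b * c with hD
    rintro x (rfl | rfl)
    · refine Submodule.mem_span_pair.2 ⟨d / D, -(b / D), ?_⟩
      have h1 : d / D * a + -(b / D) * c = 1 := by
        field_simp; rw [hD]; ring
      have h2 : d / D * b + -(b / D) * d = 0 := by ring
      have : (d / D) • (a • x + b • e2) + -(b / D) • (c • x + d • e2) =
          (d / D * a + -(b / D) * c) • x + (d / D * b + -(b / D) * d) • e2 := by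
        simp only [smul_add, smul_smul, add_smul]; abel
      rw [this, h1, h2]; simp
    · refine Submodule.mem_span_pair.2 ⟨-(c / D), a / D, ?_⟩
      have h1 : -(c / D) * a + a / D * c = 0 := by ring
      have h2 : -(c / D) * b + a / D * d = 1 := by
        field_simp; rw [hD]; ring
      have : -(c / D) • (a • e1 + b • x) + (a / D) • (c • e1 + d • x) =
          (-(c / D) * a + a / D * c) • e1 + (-(c / D) * b + a / D * d) • x := by
        simp only [smul_add, smul_smul, add_smul]; abel
      rw [this, h1, h2]; simp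

end

end Pool.Agent.Helper491_Par
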