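import Pool.Agent.Helper491_Par.Asm

/-!
# Counting switches which contain a given block
-/

set_option autoImplicit false

namespace Pool.Agent.Helper491_Par.Sw

open Module

section

variable {F K1 K2 U : Type} [Field F] [Fintype F] [Field K1] [Finite K1] [Algebra F K1] [Field K2]
  [Algebra F K2] [Algebra K1 K2] [IsScalarTower F K1 K2] [AddCommGroup U] [Module F U]

omit [Finite K1] in
/-- The projection of a new block. -/
theorem map_fst_Bk (ι : K1 →ₗ[F] U) (f : K1 →ₗ[F] K2) (β : K2) (κ : K1) :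
    (Bk ι f β κ).map (LinearMap.fst F U K2) =
      (LinearMap.range (dl F K1)).map (ι ∘ₗ LinearMap.mulLeft F κ) := by
  unfold Bk
  ext u
  constructor
  · rintro ⟨_, ⟨x, rfl⟩, rfl⟩
    exact ⟨_, ⟨x, rfl⟩, rfl⟩
  · rintro ⟨_, ⟨x, rfl⟩, rfl⟩
    exact ⟨_, ⟨x, rfl⟩, rfl⟩

theorem finrank_fst {ι : K1 →ₗ[F] U} (hι : Function.Injective ι) {f : K1 →ₗ[F] K2} {β : K2}
    {B : Submodule F (U × K2)} (hB : B ∈ Bl ι f β) :
    finrank F (B.map (LinearMap.fst F U K2)) + 1 = finrank F K1 := by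
  obtain ⟨κ, hκ, rfl⟩ := hB
  rw [map_fst_Bk, ← finrank_range_dl (F := F) (K1 := K1)]
  congr 1
  have hinj : Function.Injective (ι ∘ₗ LinearMap.mulLeft F κ) := by
    intro x y h
    exact mul_left_cancel₀ hκ (hι h)
  exact (LinearEquiv.finrank_eq (Submodule.equivMapOfInjective _ hinj _)).symm

omit [Finite K1] in
theorem fst_le {ι : K1 →ₗ[F] U} {f : K1 →ₗ[F] K2} {β : K2}
    {B : Submodule F (U × K2)} (hB : B ∈ Bl ι f β) :
    B.map (LinearMap.fst F U K2) ≤ LinearMap.range ι := by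
  rintro _ ⟨v, hv, rfl⟩
  exact fst_mem hB hv

/-- Two blocks with the same projection. -/
theorem scale_of_fst {ι ι' : K1 →ₗ[F] U} (hι : Function.Injective ι) (hιι : ι' = ι)
    {f f' : K1 →ₗ[F] K2} {β β' : K2} {κ κ' : K1} (hκ : κ ≠ 0) (hκ' : κ' ≠ 0)
    (h : (Bk ι' f' β' κ').map (LinearMap.fst F U K2) = (Bk ι f β κ).map (LinearMap.fst F U K2)) :
    ∃ a : F, a ≠ 0 ∧ κ' = algebraMap F K1 a * κ := by
  subst hιι
  rw [map_fst_Bk, map_fst_Bk] at h
  obtain ⟨a, ha⟩ := scale (F := F) (κ := κ' / κ) (fun x => by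
    have h1 : ι' (κ' * dl F K1 x) ∈ (LinearMap.range (dl F K1)).map (ι' ∘ₗ LinearMap.mulLeft F κ) := by
      rw [← h]
      exact ⟨_, ⟨x, rfl⟩, rfl⟩
    obtain ⟨_, ⟨y, rfl⟩, hy⟩ := h1
    refine ⟨y, ?_⟩
    have h2 : κ * dl F K1 y = κ' * dl F K1 x := hι hy
    field_simp
    exact h2.symm)
  have hκa : κ' = algebraMap F K1 a * κ := by
    rw [← ha, div_mul_cancel₀ _ hκ]
  refine ⟨a, ?_, hκa⟩
  rintro rfl
  rw [map_zero, zero_mul] at hκa
  exact hκ' hκa

theorem bl_distinct {ι : K1 →ₗ[F] U} (hι : Function.Injective ι) {f : K1 →ₗ[F] K2} {β : K2}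
    {B B' : Submodule F (U × K2)} (hB : B ∈ Bl ι f β) (hB' : B' ∈ Bl ι f β)
    (h : B'.map (LinearMap.fst F U K2) = B.map (LinearMap.fst F U K2)) : B' = B := by
  obtain ⟨κ, hκ, rfl⟩ := hB
  obtain ⟨κ', hκ', rfl⟩ := hB'
  obtain ⟨a, ha, rfl⟩ := scale_of_fst hι rfl hκ hκ' h
  exact Bk_scale ι f β κ ha

/-- The number of linear forms with value different from `-1` at `1`. -/
theorem card_dual : Nat.card {δ : K1 →ₗ[F] F // δ 1 ≠ -1} =
    Fintype.card F ^ finrank F K1 - Fintype.card F ^ (finrank F K1 - 1) := by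
  classical
  obtain ⟨ω, hω⟩ := exists_trace_one (F := F) (K1 := K1)
  let δ0 : K1 →ₗ[F] F := (Algebra.trace F K1) ∘ₗ LinearMap.mulLeft F ω
  have hδ0 : δ0 1 = 1 := by
    show Algebra.trace F K1 (ω * 1) = 1
    rw [mul_one, hω]
  let ev : (K1 →ₗ[F] F) →ₗ[F] F := LinearMap.applyₗ (1 : K1)
  have hev : ∀ δ, ev δ = δ 1 := fun δ => rfl
  have hsurj : LinearMap.range ev = ⊤ := by
    rw [LinearMap.range_eq_top]
    intro a
    exact ⟨a • δ0, by rw [hev, LinearMap.smul_apply, hδ0, smul_eq_mul, mul_one]⟩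
  have hfr : finrank F (K1 →ₗ[F] F) = finrank F K1 := by
    rw [Module.finrank_linearMap, Module.finrank_self, mul_one]
  have hk := LinearMap.finrank_range_add_finrank_ker ev
  rw [hsurj, finrank_top, Module.finrank_self, hfr] at hk
  have hker : Nat.card (LinearMap.ker ev) = Fintype.card F ^ (finrank F K1 - 1) := by
    rw [Module.natCard_eq_pow_finrank (K := F), Nat.card_eq_fintype_card]
    congr 1
    omega
  have htot : Nat.card (K1 →ₗ[F] F) = Fintype.card F ^ finrank F K1 := by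
    rw [Module.natCard_eq_pow_finrank (K := F), hfr, Nat.card_eq_fintype_card]
  have hfin : Finite (K1 →ₗ[F] F) := Module.finite_of_finite F
  have heq : Nat.card {δ : K1 →ₗ[F] F // δ 1 = -1} = Nat.card (LinearMap.ker ev) := by
    apply Nat.card_congr
    exact
      { toFun := fun δ => ⟨δ.1 + δ0, by
          rw [LinearMap.mem_ker, hev, LinearMap.add_apply, δ.2, hδ0]; ring⟩
        invFun := fun δ => ⟨δ.1 - δ0, by
          have := δ.2
          rw [LinearMap.mem_ker, hev] at this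
          rw [LinearMap.sub_apply, this, hδ0]; ring⟩
        left_inv := fun δ => by simp
        right_inv := fun δ => by simp }
  have hsum : Nat.card {δ : K1 →ₗ[F] F // δ 1 = -1} + Nat.card {δ : K1 →ₗ[F] F // δ 1 ≠ -1} =
      Nat.card (K1 →ₗ[F] F) := by
    have := Nat.card_congr (Equiv.sumCompl (fun δ : K1 →ₗ[F] F => δ 1 = -1))
    rw [Nat.card_sum] at this
    exact this
  rw [heq, hker, htot] at hsum
  omega

/-- The number of switches at `E` which contain `B`. -/
theorem perE [Fintype K2] {ι : K1 →ₗ[F] U} (hι : Function.Injective ι)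
    (B : Submodule F (U × K2)) :
    Nat.card {p : (K1 →ₗ[F] K2) × K2 // p.2 ≠ 0 ∧ B ∈ Bl ι p.1 p.2} ≤
      (Fintype.card F ^ finrank F K1 - Fintype.card F ^ (finrank F K1 - 1)) * Fintype.card K2 := by
  classical
  by_cases hne : Nonempty {p : (K1 →ₗ[F] K2) × K2 // p.2 ≠ 0 ∧ B ∈ Bl ι p.1 p.2}
  swap
  · rw [not_nonempty_iff] at hne
    rw [Nat.card_eq_zero.2 (Or.inl hne)]
    exact Nat.zero_le _
  obtain ⟨⟨⟨f0, β0⟩, hβ0, κ0, hκ0, hB0⟩⟩ := hne
  simp only at hβ0 hB0
  obtain ⟨ω, hω⟩ := exists_trace_one (F := F) (K1 := K1)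
  have hκ0' : algebraMap K1 K2 κ0 ≠ 0 := by rwa [Ne, map_eq_zero]
  set v0 : K2 := β0 * algebraMap K1 K2 κ0 with hv0
  have hv00 : v0 ≠ 0 := mul_ne_zero hβ0 hκ0'
  -- normalise `κ`
  have hnorm : ∀ p : {p : (K1 →ₗ[F] K2) × K2 // p.2 ≠ 0 ∧ B ∈ Bl ι p.1 p.2},
      B = Bk ι p.1.1 p.1.2 κ0 := by
    rintro ⟨⟨f, β⟩, hβ, κ, hκ, hB⟩
    simp only at hB ⊢
    have h1 : (Bk ι f β κ).map (LinearMap.fst F U K2) = (Bk ι f0 β0 κ0).map (LinearMap.fst F U K2) := by
      rw [← hB, ← hB0]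
    obtain ⟨a, ha, rfl⟩ := scale_of_fst hι rfl hκ0 hκ h1
    rw [hB, Bk_scale ι f β κ0 ha]
  let hh : {p : (K1 →ₗ[F] K2) × K2 // p.2 ≠ 0 ∧ B ∈ Bl ι p.1 p.2} → (K1 →ₗ[F] K2) := fun p =>
    (p.1.1 - f0) ∘ₗ (LinearMap.mulLeft F κ0 ∘ₗ dl F K1) +
      mr F (p.1.2 - β0) ∘ₗ LinearMap.mulLeft F κ0
  have hhap : ∀ p x, hh p x = p.1.1 (κ0 * dl F K1 x) - f0 (κ0 * dl F K1 x) +
      (p.1.2 - β0) * algebraMap K1 K2 (κ0 * x) := fun p x => rfl
  have hhmem : ∀ p x, hh p x ∈ Submodule.span F {v0} := by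
    intro p x
    have h0 : Bk ι p.1.1 p.1.2 κ0 ≤ Bk ι f0 β0 κ0 := (hnorm p).symm.le.trans hB0.le
    have h1 : gB ι p.1.1 p.1.2 κ0 x ∈ Bk ι f0 β0 κ0 := h0 ⟨x, rfl⟩
    rw [gB_apply, mem_Bk] at h1
    obtain ⟨y, hy1, hy2⟩ := h1
    simp only at hy1 hy2
    have h2 : κ0 * dl F K1 y = κ0 * dl F K1 x := hι hy1
    have h3 : dl F K1 (y - x) = 0 := by
      rw [map_sub, mul_left_cancel₀ hκ0 h2, sub_self]
    obtain ⟨a, ha⟩ := dl_eq_zero.1 h3
    rw [Submodule.mem_span_singleton]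
    refine ⟨a, ?_⟩
    have hya : y = x + algebraMap F K1 a := by rw [← ha]; ring
    rw [h2] at hy2
    rw [hhap, Algebra.smul_def, hv0, IsScalarTower.algebraMap_apply F K1 K2]
    rw [hya] at hy2
    simp only [map_mul, map_add] at hy2 ⊢
    linear_combination hy2
  let e0 : F ≃ₗ[F] Submodule.span F {v0} := LinearEquiv.toSpanNonzeroSingleton F K2 v0 hv00
  let dd : {p : (K1 →ₗ[F] K2) × K2 // p.2 ≠ 0 ∧ B ∈ Bl ι p.1 p.2} → (K1 →ₗ[F] F) := fun p =>
    (e0.symm : Submodule.span F {v0} →ₗ[F] F) ∘ₗ (hh p).codRestrict (Submodule.span F {v0}) (hhmem p)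
  have hdd : ∀ p x, hh p x = dd p x • v0 := by
    intro p x
    have h1 : e0 (dd p x) = ⟨hh p x, hhmem p x⟩ := by
      simp only [dd, LinearMap.comp_apply, LinearEquiv.coe_coe, LinearEquiv.apply_symm_apply]
      rfl
    have h2 := congrArg (fun y : Submodule.span F {v0} => (y : K2)) h1
    simp only [e0, LinearEquiv.toSpanNonzeroSingleton_apply] at h2
    exact h2.symm
  have hdl1 : dl F K1 (1 : K1) = 0 := dl_eq_zero.2 ⟨1, (map_one _).symm⟩
  have hβeq : ∀ p, p.1.2 - β0 = algebraMap F K2 (dd p 1) * β0 := by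
    intro p
    have h1 := hdd p 1
    rw [hhap, hdl1, mul_zero, map_zero, map_zero, sub_zero, zero_add, mul_one, Algebra.smul_def,
      hv0] at h1
    apply mul_right_cancel₀ hκ0'
    rw [h1]; ring
  let Φ : {p : (K1 →ₗ[F] K2) × K2 // p.2 ≠ 0 ∧ B ∈ Bl ι p.1 p.2} →
      {δ : K1 →ₗ[F] F // δ 1 ≠ -1} × K2 := fun p =>
    (⟨dd p, by
      intro h
      have h1 := hβeq p
      rw [h, map_neg, map_one] at h1
      apply p.2.1
      linear_combination h1⟩, p.1.1 (κ0 * ω))
  have hΦ : Function.Injective Φ := by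
    intro p p' h
    have h1 : dd p = dd p' := congrArg (fun z => z.1.1) h
    have h2 : p.1.1 (κ0 * ω) = p'.1.1 (κ0 * ω) := congrArg Prod.snd h
    have hβ : p.1.2 = p'.1.2 := by
      have h3 := hβeq p
      rw [h1, ← hβeq p'] at h3
      linear_combination h3
    have hf : ∀ x, p.1.1 (κ0 * dl F K1 x) = p'.1.1 (κ0 * dl F K1 x) := by
      intro x
      have h3 := hdd p x
      rw [h1, ← hdd p' x, hhap, hhap, hβ] at h3
      linear_combination h3
    have hff : p.1.1 = p'.1.1 := by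
      apply LinearMap.ext
      intro x
      -- decompose `x / κ0`
      set y := x / κ0 with hy
      set t := Algebra.trace F K1 y with ht
      have h4 : y - algebraMap F K1 t * ω ∈ LinearMap.range (dl F K1) := by
        rw [range_dl, LinearMap.mem_ker, map_sub, ← Algebra.smul_def, map_smul, hω, smul_eq_mul,
          mul_one, ← ht, sub_self]
      obtain ⟨z, hz⟩ := h4
      have h5 : x = κ0 * dl F K1 z + t • (κ0 * ω) := by
        rw [hz, Algebra.smul_def, hy]
        field_simp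
        ring
      rw [h5, map_add, map_add, map_smul, map_smul, hf, h2]
    exact Subtype.ext (Prod.ext hff hβ)
  have hfin : Finite (K1 →ₗ[F] F) := Module.finite_of_finite F
  have hcard := Nat.card_le_card_of_injective Φ hΦ
  rw [Nat.card_prod, card_dual, Nat.card_eq_fintype_card (α := K2)] at hcard
  exact hcard

/-- The subspaces `E` of `U` of dimension `k` which contain a given `(k - 1)`-dimensional one. -/
theorem card_over [Fintype U] {k : ℕ} (hk : 1 ≤ k) (X : Submodule F U) (hX : finrank F X + 1 = k)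
    (T : Finset (Submodule F U)) (hT : ∀ E ∈ T, finrank F E = k ∧ X ≤ E) :
    T.card * (Fintype.card F ^ k - Fintype.card F ^ (k - 1)) ≤ Fintype.card U - 1 := by
  classical
  have hcard : ∀ E ∈ T, ((Finset.univ.filter (fun u : U => u ∈ E ∧ u ∉ X)).card) =
      Fintype.card F ^ k - Fintype.card F ^ (k - 1) := by
    intro E hE
    have h1 : (Finset.univ.filter (fun u : U => u ∈ E ∧ u ∉ X)) =
        (Finset.univ.filter (fun u : U => u ∈ E)) \ (Finset.univ.filter (fun u : U => u ∈ X)) := by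
      ext u
      simp
    have hc : ∀ Y : Submodule F U, (Finset.univ.filter (fun u : U => u ∈ Y)).card =
        Fintype.card F ^ finrank F Y := by
      intro Y
      rw [← Fintype.card_subtype]
      exact Module.card_eq_pow_finrank (K := F) (V := Y)
    rw [h1, Finset.card_sdiff_of_subset, hc, hc, (hT E hE).1]
    · congr 2
      omega
    · intro u hu
      rw [Finset.mem_filter] at hu ⊢
      exact ⟨hu.1, (hT E hE).2 hu.2⟩
  have hdisj : ∀ E ∈ T, ∀ E' ∈ T, E ≠ E' →
      Disjoint (Finset.univ.filter (fun u : U => u ∈ E ∧ u ∉ X))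
        (Finset.univ.filter (fun u : U => u ∈ E' ∧ u ∉ X)) := by
    intro E hE E' hE' hne
    rw [Finset.disjoint_left]
    intro u hu hu'
    obtain ⟨-, huE, huX⟩ := Finset.mem_filter.1 hu
    obtain ⟨-, huE', -⟩ := Finset.mem_filter.1 hu'
    apply hne
    have key : ∀ E : Submodule F U, finrank F E = k → X ≤ E → u ∈ E →
        E = X ⊔ Submodule.span F {u} := by
      intro E h1 h2 h3
      symm
      have hfd : FiniteDimensional F E := Module.Finite.of_finite
      apply Submodule.eq_of_le_of_finrank_le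
      · exact sup_le h2 (by rwa [Submodule.span_singleton_le_iff_mem])
      · rw [h1, ← hX]
        have h4 : X < X ⊔ Submodule.span F {u} := by
          refine lt_of_le_of_ne le_sup_left ?_
          intro h
          apply huX
          rw [h]
          exact Submodule.mem_sup_right (Submodule.mem_span_singleton_self u)
        have hfd2 : FiniteDimensional F (X ⊔ Submodule.span F {u} : Submodule F U) :=
          Module.Finite.of_finite
        exact Submodule.finrank_lt_finrank_of_lt h4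
    rw [key E (hT E hE).1 (hT E hE).2 huE, key E' (hT E' hE').1 (hT E' hE').2 huE']
  have hsum : ∑ E ∈ T, (Finset.univ.filter (fun u : U => u ∈ E ∧ u ∉ X)).card =
      (T.biUnion (fun E => Finset.univ.filter (fun u : U => u ∈ E ∧ u ∉ X))).card :=
    (Finset.card_biUnion hdisj).symm
  rw [Finset.sum_congr rfl hcard, Finset.sum_const, smul_eq_mul] at hsum
  rw [hsum]
  have hsub : T.biUnion (fun E => Finset.univ.filter (fun u : U => u ∈ E ∧ u ∉ X)) ⊆
      Finset.univ.erase 0 := by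
    intro u hu
    obtain ⟨E, hE, hu'⟩ := Finset.mem_biUnion.1 hu
    obtain ⟨-, -, huX⟩ := Finset.mem_filter.1 hu'
    rw [Finset.mem_erase]
    refine ⟨?_, Finset.mem_univ _⟩
    rintro rfl
    exact huX X.zero_mem
  have h1 := Finset.card_le_card hsub
  rwa [Finset.card_erase_of_mem (Finset.mem_univ _), Finset.card_univ] at h1

end

end Pool.Agent.Helper491_Par.Sw
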