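import Mathlib

/-!
# Packing: every set of `m` cells is used equally often
-/

set_option autoImplicit false

namespace Pool.Agent.Helper491_Par.Comb

open Finset

variable (s m : ℕ)

/-- The cells. -/
abbrev Cell := Fin s × Fin m

/-- The standard blocks. -/
def blk (b : Fin s) : Finset (Cell s m) := univ.filter (fun c => c.1 = b)

theorem card_blk (b : Fin s) : (blk s m b).card = m := by
  have : blk s m b = (univ : Finset (Fin m)).map ⟨fun i => (b, i), fun i j h => (Prod.mk.inj h).2⟩ := by
    ext ⟨x, y⟩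
    rw [blk, mem_filter, mem_map]
    constructor
    · rintro ⟨-, h⟩
      exact ⟨y, mem_univ _, Prod.ext h.symm rfl⟩
    · rintro ⟨i, -, h⟩
      exact ⟨mem_univ _, (congrArg Prod.fst h).symm⟩
  rw [this, card_map, card_univ, Fintype.card_fin]

/-- The blocks of a permutation. -/
def bl (π : Equiv.Perm (Cell s m)) (b : Fin s) : Finset (Cell s m) := (blk s m b).map π.toEmbedding

theorem card_bl (π : Equiv.Perm (Cell s m)) (b : Fin s) : (bl s m π b).card = m := by
  unfold bl
  rw [card_map, card_blk]

theorem mem_bl (π : Equiv.Perm (Cell s m)) (b : Fin s) (i : Cell s m) :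
    i ∈ bl s m π b ↔ (π.symm i).1 = b := by
  unfold bl blk
  simp only [mem_map, mem_filter, mem_univ, true_and, Equiv.coe_toEmbedding]
  constructor
  · rintro ⟨a, ha, rfl⟩
    simpa using ha
  · intro h
    exact ⟨π.symm i, h, by simp⟩

theorem bl_part (π : Equiv.Perm (Cell s m)) (i : Cell s m) : ∃! b, i ∈ bl s m π b :=
  ⟨(π.symm i).1, (mem_bl s m π _ i).2 rfl, fun b hb => ((mem_bl s m π b i).1 hb).symm⟩

/-- The number of pairs with block `T`. -/
def cnt (T : Finset (Cell s m)) : ℕ :=
  (univ.filter (fun p : Equiv.Perm (Cell s m) × Fin s => bl s m p.1 p.2 = T)).card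

theorem exists_perm {T T' : Finset (Cell s m)} (h : T.card = T'.card) :
    ∃ σ : Equiv.Perm (Cell s m), T.map σ.toEmbedding = T' := by
  classical
  let e : {x // x ∈ T} ≃ {x // x ∈ T'} := Finset.equivOfCardEq h
  refine ⟨e.extendSubtype, ?_⟩
  apply Finset.eq_of_subset_of_card_le
  · intro x hx
    obtain ⟨y, hy, rfl⟩ := mem_map.1 hx
    exact e.extendSubtype_mem y hy
  · rw [card_map, h]

theorem cnt_le {T T' : Finset (Cell s m)} (h : T.card = T'.card) : cnt s m T ≤ cnt s m T' := by
  classical
  obtain ⟨σ, hσ⟩ := exists_perm s m h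
  unfold cnt
  refine Finset.card_le_card_of_injOn (fun p => (p.1.trans σ, p.2)) ?_ ?_
  · intro p hp
    have hp' := (mem_filter.1 (mem_coe.1 hp)).2
    refine mem_coe.2 (mem_filter.2 ⟨mem_univ _, ?_⟩)
    rw [← hσ, ← hp']
    unfold bl
    rw [map_map]
    rfl
  · intro p _ p' _ h
    simp only [Prod.mk.injEq] at h
    have h1 : p.1 = p'.1 := by
      have := congrArg (fun τ : Equiv.Perm (Cell s m) => τ.trans σ.symm) h.1
      simpa [Equiv.trans_assoc] using this
    exact Prod.ext h1 h.2

theorem cnt_eq {T T' : Finset (Cell s m)} (h : T.card = T'.card) : cnt s m T = cnt s m T' :=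
  le_antisymm (cnt_le s m h) (cnt_le s m h.symm)

theorem sum_cnt : ∑ T ∈ powersetCard m (univ : Finset (Cell s m)), cnt s m T = (s * m).factorial * s := by
  classical
  have h1 : (univ : Finset (Equiv.Perm (Cell s m) × Fin s)).card =
      ∑ T ∈ powersetCard m (univ : Finset (Cell s m)),
        (univ.filter (fun p : Equiv.Perm (Cell s m) × Fin s => bl s m p.1 p.2 = T)).card := by
    apply Finset.card_eq_sum_card_fiberwise
    intro p _
    exact mem_coe.2 (mem_powersetCard.2 ⟨subset_univ _, card_bl s m p.1 p.2⟩)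
  have h2 : (univ : Finset (Equiv.Perm (Cell s m) × Fin s)).card = (s * m).factorial * s := by
    rw [card_univ, Fintype.card_prod, Fintype.card_perm, Fintype.card_prod, Fintype.card_fin,
      Fintype.card_fin]
  rw [← h2, h1]
  rfl

theorem cnt_mul {T : Finset (Cell s m)} (hT : T.card = m) :
    cnt s m T * (s * m).choose m = (s * m).factorial * s := by
  rw [← sum_cnt, Finset.sum_congr rfl (fun T' hT' => cnt_eq s m
    ((mem_powersetCard.1 hT').2.trans hT.symm)), sum_const, card_powersetCard, card_univ,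
    Fintype.card_prod, Fintype.card_fin, Fintype.card_fin, smul_eq_mul, mul_comm]

/-- **Packing.** -/
theorem pack {O : Type} (Q : Finset (Cell s m) → Set O) (w a R : ℕ)
    (hw : ∀ T : Finset (Cell s m), T.card = m → cnt s m T = w) (hR : R * w ≤ a)
    (hQ : ∀ T : Finset (Cell s m), T.card = m → (Q T).Finite ∧ a ≤ (Q T).ncard) :
    ∃ f : Equiv.Perm (Cell s m) → Fin R → Fin s → O,
      (∀ π r b, f π r b ∈ Q (bl s m π b)) ∧
      ∀ π r b π' r' b', bl s m π b = bl s m π' b' → f π r b = f π' r' b' →
        π = π' ∧ r = r' ∧ b = b' := by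
  classical
  have key : ∀ T : Finset (Cell s m), ∃ g : Equiv.Perm (Cell s m) × Fin R × Fin s → O, T.card = m →
      (∀ p, bl s m p.1 p.2.2 = T → g p ∈ Q T) ∧
      (∀ p p', bl s m p.1 p.2.2 = T → bl s m p'.1 p'.2.2 = T → g p = g p' → p = p') := by
    intro T
    by_cases hT : T.card = m
    · obtain ⟨hfin, ha⟩ := hQ T hT
      have hcard : (univ.filter (fun p : Equiv.Perm (Cell s m) × Fin R × Fin s =>
          bl s m p.1 p.2.2 = T)).card ≤ hfin.toFinset.card := by
        have h1 : (univ.filter (fun p : Equiv.Perm (Cell s m) × Fin R × Fin s =>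
            bl s m p.1 p.2.2 = T)).card = R * w := by
          have h0 : R * w = ((univ : Finset (Fin R)) ×ˢ
              (univ.filter (fun p : Equiv.Perm (Cell s m) × Fin s => bl s m p.1 p.2 = T))).card := by
            rw [card_product, card_univ, Fintype.card_fin, ← hw T hT]
            rfl
          rw [h0]
          refine Finset.card_nbij' (fun p => (p.2.1, (p.1, p.2.2))) (fun p => (p.2.1, p.1, p.2.2))
            ?_ ?_ ?_ ?_
          · intro p hp
            rw [mem_coe, mem_filter] at hp
            rw [mem_coe, mem_product, mem_filter]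
            exact ⟨mem_univ _, mem_univ _, hp.2⟩
          · intro p hp
            rw [mem_coe, mem_product, mem_filter] at hp
            rw [mem_coe, mem_filter]
            exact ⟨mem_univ _, hp.2.2⟩
          · intro p _; rfl
          · intro p _; rfl
        rw [h1, ← Set.ncard_eq_toFinset_card _ hfin]
        exact hR.trans ha
      have hne : ∀ p : Equiv.Perm (Cell s m) × Fin R × Fin s, bl s m p.1 p.2.2 = T → Nonempty O := by
        intro p hp
        have h2 : 0 < hfin.toFinset.card :=
          lt_of_lt_of_le (card_pos.2 ⟨p, mem_filter.2 ⟨mem_univ _, hp⟩⟩) hcard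
        obtain ⟨o, _⟩ := card_pos.1 h2
        exact ⟨o⟩
      obtain ⟨e⟩ : Nonempty ({p // p ∈ univ.filter (fun p : Equiv.Perm (Cell s m) × Fin R × Fin s =>
          bl s m p.1 p.2.2 = T)} ↪ {o // o ∈ hfin.toFinset}) := by
        apply Function.Embedding.nonempty_of_card_le
        rw [Fintype.card_coe, Fintype.card_coe]
        exact hcard
      by_cases hO : Nonempty O
      · refine ⟨fun p => if h : bl s m p.1 p.2.2 = T then
          ((e ⟨p, mem_filter.2 ⟨mem_univ _, h⟩⟩ : {o // o ∈ hfin.toFinset}) : O) else hO.some,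
          fun _ => ⟨?_, ?_⟩⟩
        · intro p hp
          simp only [dif_pos hp]
          exact hfin.mem_toFinset.1 (e ⟨p, mem_filter.2 ⟨mem_univ _, hp⟩⟩).2
        · intro p p' hp hp' h
          simp only [dif_pos hp, dif_pos hp'] at h
          have := e.injective (Subtype.ext h)
          exact congrArg Subtype.val this
      · have hno : ∀ p : Equiv.Perm (Cell s m) × Fin R × Fin s, ¬ bl s m p.1 p.2.2 = T :=
          fun p hp => hO (hne p hp)
        by_cases hP : Nonempty (Equiv.Perm (Cell s m) × Fin R × Fin s)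
        · -- `Fin R × Fin s` is nonempty, so that some set has a block; then `O` is nonempty
          exfalso
          obtain ⟨p⟩ := hP
          have h3 := hQ (bl s m p.1 p.2.2) (card_bl s m _ _)
          have h4 : 0 < cnt s m (bl s m p.1 p.2.2) :=
            card_pos.2 ⟨(p.1, p.2.2), mem_filter.2 ⟨mem_univ _, rfl⟩⟩
          rw [hw _ (card_bl s m _ _)] at h4
          have h5 : 0 < R := lt_of_le_of_lt (Nat.zero_le _) p.2.1.2
          have h6 : 0 < (Q (bl s m p.1 p.2.2)).ncard :=
            lt_of_lt_of_le (Nat.mul_pos h5 h4) (hR.trans h3.2)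
          obtain ⟨o, _⟩ := (Set.ncard_pos h3.1).1 h6
          exact hO ⟨o⟩
        · refine ⟨fun p => (hP ⟨p⟩).elim, fun _ => ⟨fun p => (hP ⟨p⟩).elim, fun p => (hP ⟨p⟩).elim⟩⟩
    · by_cases hP : Nonempty (Equiv.Perm (Cell s m) × Fin R × Fin s)
      · obtain ⟨p⟩ := hP
        have h3 := hQ (bl s m p.1 p.2.2) (card_bl s m _ _)
        have h4 : 0 < cnt s m (bl s m p.1 p.2.2) :=
          card_pos.2 ⟨(p.1, p.2.2), mem_filter.2 ⟨mem_univ _, rfl⟩⟩
        rw [hw _ (card_bl s m _ _)] at h4
        have h5 : 0 < R := lt_of_le_of_lt (Nat.zero_le _) p.2.1.2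
        have h6 : 0 < (Q (bl s m p.1 p.2.2)).ncard :=
          lt_of_lt_of_le (Nat.mul_pos h5 h4) (hR.trans h3.2)
        obtain ⟨o, _⟩ := (Set.ncard_pos h3.1).1 h6
        exact ⟨fun _ => o, fun h => absurd h hT⟩
      · exact ⟨fun p => (hP ⟨p⟩).elim, fun h => absurd h hT⟩
  choose g hg using key
  refine ⟨fun π r b => g (bl s m π b) (π, r, b), ?_, ?_⟩
  · intro π r b
    exact (hg _ (card_bl s m π b)).1 (π, r, b) rfl
  · intro π r b π' r' b' hb h
    simp only at h
    rw [← hb] at h
    have := (hg _ (card_bl s m π b)).2 (π, r, b) (π', r', b') rfl hb.symm h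
    simp only [Prod.mk.injEq] at this
    exact this

end Pool.Agent.Helper491_Par.Comb
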