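import Pool.Agent.Helper491_Par.Basic

/-!
# Lines which span the whole space over an extension field, and towers of fields
-/

set_option autoImplicit false

namespace Pool.Agent.Helper491_Par

open Module

/-- The set of all `F`-spans of the `K`-bases `e1, e2` (for a two-dimensional `K`-space `Y`): the lines
over `F` which are not contained in a one-dimensional `K`-subspace. -/
def Rl (F K : Type) [Field F] [Field K] (Y : Type) [AddCommGroup Y] [Module F Y] [Module K Y] :
    Set (Submodule F Y) :=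
  {E | ∃ e1 e2 : Y, LinearIndependent K ![e1, e2] ∧ E = Submodule.span F {e1, e2}}

theorem li_iff_det {K : Type} [Field K] (f1 f2 : K × K) :
    LinearIndependent K ![f1, f2] ↔ f1.1 * f2.2 - f1.2 * f2.1 ≠ 0 := by
  rw [LinearIndependent.pair_iff]
  constructor
  · intro h h0
    have h1 := h f2.2 (-f1.2) (by
      ext
      · simp only [Prod.fst_add, Prod.smul_fst, smul_eq_mul, Prod.fst_zero]
        linear_combination h0
      · simp only [Prod.snd_add, Prod.smul_snd, smul_eq_mul, Prod.snd_zero]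
        ring)
    have h2 := h f2.1 (-f1.1) (by
      ext
      · simp only [Prod.fst_add, Prod.smul_fst, smul_eq_mul, Prod.fst_zero]
        ring
      · simp only [Prod.snd_add, Prod.smul_snd, smul_eq_mul, Prod.snd_zero]
        linear_combination -h0)
    have h3 := h 0 1 (by
      ext
      · simp [h2.1]
      · simp [h1.1])
    exact one_ne_zero h3.2
  · intro h s t hst
    have h1 := congrArg Prod.fst hst
    have h2 := congrArg Prod.snd hst
    simp only [Prod.fst_add, Prod.smul_fst, smul_eq_mul, Prod.fst_zero] at h1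
    simp only [Prod.snd_add, Prod.smul_snd, smul_eq_mul, Prod.snd_zero] at h2
    constructor
    · have : s * (f1.1 * f2.2 - f1.2 * f2.1) = 0 := by linear_combination f2.2 * h1 - f2.1 * h2
      exact (mul_eq_zero.1 this).resolve_right h
    · have : t * (f1.1 * f2.2 - f1.2 * f2.1) = 0 := by linear_combination f1.1 * h2 - f1.2 * h1
      exact (mul_eq_zero.1 this).resolve_right h

section Tower

variable {F K' : Type} [Field F] [Field K'] [Algebra F K']
  {Y : Type} [AddCommGroup Y] [Module F Y] [Module K' Y] [IsScalarTower F K' Y]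

/-- The map `(a, b) ↦ a e1 + b e2`. -/
noncomputable def emb (F : Type) {K' : Type} [Field F] [Field K'] [Algebra F K']
    {Y : Type} [AddCommGroup Y] [Module F Y] [Module K' Y] [IsScalarTower F K' Y]
    (e1 e2 : Y) : (K' × K') →ₗ[F] Y where
  toFun p := p.1 • e1 + p.2 • e2
  map_add' p q := by
    simp only [Prod.fst_add, Prod.snd_add, add_smul]
    abel
  map_smul' c p := by
    simp [smul_add]

@[simp] theorem emb_apply (e1 e2 : Y) (p : K' × K') :
    emb F e1 e2 p = p.1 • e1 + p.2 • e2 := rfl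

theorem emb_injective {e1 e2 : Y} (h : LinearIndependent K' ![e1, e2]) :
    Function.Injective (emb F e1 e2 : (K' × K') →ₗ[F] Y) := by
  rw [← LinearMap.ker_eq_bot, LinearMap.ker_eq_bot']
  intro p hp
  rw [LinearIndependent.pair_iff] at h
  have := h p.1 p.2 hp
  exact Prod.ext this.1 this.2

theorem mem_range_emb {e1 e2 v : Y} :
    v ∈ LinearMap.range (emb F e1 e2 : (K' × K') →ₗ[F] Y) ↔ v ∈ Submodule.span K' {e1, e2} := by
  rw [Submodule.mem_span_pair, LinearMap.mem_range]
  constructor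
  · rintro ⟨p, rfl⟩
    exact ⟨p.1, p.2, rfl⟩
  · rintro ⟨a, b, rfl⟩
    exact ⟨(a, b), rfl⟩

theorem map_emb_span (e1 e2 : Y) (f1 f2 : K' × K') :
    (Submodule.span F {f1, f2}).map (emb F e1 e2) =
      Submodule.span F {emb F e1 e2 f1, emb F e1 e2 f2} := by
  rw [Submodule.map_span, Set.image_pair]

theorem span_map_emb {e1 e2 : Y} {L : Submodule F (K' × K')} (hL : L ∈ Rl F K' (K' × K')) :
    Submodule.span K' ((L.map (emb F e1 e2) : Submodule F Y) : Set Y) =
      Submodule.span K' {e1, e2} := by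
  obtain ⟨f1, f2, hf, rfl⟩ := hL
  rw [map_emb_span, Submodule.span_span_of_tower]
  rw [li_iff_det] at hf
  apply le_antisymm
  · rw [Submodule.span_le]
    rintro x (rfl | rfl)
    · exact Submodule.mem_span_pair.2 ⟨_, _, rfl⟩
    · exact Submodule.mem_span_pair.2 ⟨_, _, rfl⟩
  · rw [Submodule.span_le]
    set d := f1.1 * f2.2 - f1.2 * f2.1 with hd
    rintro x (rfl | rfl)
    · refine Submodule.mem_span_pair.2 ⟨f2.2 / d, -(f1.2 / d), ?_⟩
      simp only [emb_apply, smul_add, smul_smul]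
      have h1 : f2.2 / d * f1.1 + -(f1.2 / d) * f2.1 = 1 := by
        field_simp
        rw [hd]; ring
      have h2 : f2.2 / d * f1.2 + -(f1.2 / d) * f2.2 = 0 := by
        field_simp
        ring
      have : (f2.2 / d * f1.1) • x + (f2.2 / d * f1.2) • e2 +
          ((-(f1.2 / d) * f2.1) • x + (-(f1.2 / d) * f2.2) • e2) =
          (f2.2 / d * f1.1 + -(f1.2 / d) * f2.1) • x +
            (f2.2 / d * f1.2 + -(f1.2 / d) * f2.2) • e2 := by
        rw [add_smul, add_smul]; abel
      rw [this, h1, h2]; simp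
    · refine Submodule.mem_span_pair.2 ⟨-(f2.1 / d), f1.1 / d, ?_⟩
      simp only [emb_apply, smul_add, smul_smul]
      have h1 : -(f2.1 / d) * f1.1 + f1.1 / d * f2.1 = 0 := by
        field_simp
        ring
      have h2 : -(f2.1 / d) * f1.2 + f1.1 / d * f2.2 = 1 := by
        field_simp
        rw [hd]; ring
      have : (-(f2.1 / d) * f1.1) • e1 + (-(f2.1 / d) * f1.2) • x +
          ((f1.1 / d * f2.1) • e1 + (f1.1 / d * f2.2) • x) =
          (-(f2.1 / d) * f1.1 + f1.1 / d * f2.1) • e1 +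
            (-(f2.1 / d) * f1.2 + f1.1 / d * f2.2) • x := by
        rw [add_smul, add_smul]; abel
      rw [this, h1, h2]; simp

end Tower

section Comp

variable {F K' K : Type} [Field F] [Field K'] [Field K] [Algebra F K'] [Algebra K' K] [Algebra F K]
  [IsScalarTower F K' K] {Y : Type} [AddCommGroup Y] [Module F Y] [Module K' Y] [Module K Y]
  [IsScalarTower F K' Y] [IsScalarTower K' K Y]

theorem li_restrict {e1 e2 : Y} (h : LinearIndependent K ![e1, e2]) :
    LinearIndependent K' ![e1, e2] := by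
  rw [LinearIndependent.pair_iff] at h ⊢
  intro s t hst
  have := h (algebraMap K' K s) (algebraMap K' K t) (by
    simpa only [algebraMap_smul] using hst)
  exact ⟨by simpa using this.1, by simpa using this.2⟩

theorem li_emb {e1 e2 : Y} (h : LinearIndependent K ![e1, e2]) {f1 f2 : K' × K'}
    (hf : LinearIndependent K' ![f1, f2]) :
    LinearIndependent K ![emb F e1 e2 f1, emb F e1 e2 f2] := by
  rw [li_iff_det] at hf
  rw [LinearIndependent.pair_iff] at h ⊢
  intro s t hst
  have h0 := h (s * algebraMap K' K f1.1 + t * algebraMap K' K f2.1)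
    (s * algebraMap K' K f1.2 + t * algebraMap K' K f2.2) (by
      rw [← hst]
      simp only [emb_apply, smul_add, add_smul, mul_smul, algebraMap_smul]
      abel)
  have hd : algebraMap K' K (f1.1 * f2.2 - f1.2 * f2.1) ≠ 0 := by
    rwa [Ne, map_eq_zero]
  rw [map_sub, map_mul, map_mul] at hd
  constructor
  · have : s * (algebraMap K' K f1.1 * algebraMap K' K f2.2 -
        algebraMap K' K f1.2 * algebraMap K' K f2.1) = 0 := by
      linear_combination algebraMap K' K f2.2 * h0.1 - algebraMap K' K f2.1 * h0.2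
    exact (mul_eq_zero.1 this).resolve_right hd
  · have : t * (algebraMap K' K f1.1 * algebraMap K' K f2.2 -
        algebraMap K' K f1.2 * algebraMap K' K f2.1) = 0 := by
      linear_combination algebraMap K' K f1.1 * h0.2 - algebraMap K' K f1.2 * h0.1
    exact (mul_eq_zero.1 this).resolve_right hd

/-- **Composition.** -/
theorem splits_comp (h1 : Splits (Rl K' K Y)) (h2 : Splits (Rl F K' (K' × K'))) :
    Splits (Rl F K Y) := by
  classical
  obtain ⟨P, hP1, hP2, hP3⟩ := h1
  obtain ⟨Q, hQ1, hQ2, hQ3⟩ := h2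
  have hex : ∀ D : Submodule K' Y, D ∈ Rl K' K Y →
      ∃ e : Y × Y, LinearIndependent K ![e.1, e.2] ∧ D = Submodule.span K' {e.1, e.2} := by
    rintro D ⟨e1, e2, he, hD⟩
    exact ⟨(e1, e2), he, hD⟩
  choose! e he1 he2 using hex
  have hPR : ∀ S ∈ P, ∀ D ∈ S, D ∈ Rl K' K Y := fun S hS D hD => hP3 ▸ ⟨S, hS, hD⟩
  have hQR : ∀ S ∈ Q, ∀ L ∈ S, L ∈ Rl F K' (K' × K') := fun S hS L hL => hQ3 ▸ ⟨S, hS, hL⟩
  have hinj : ∀ D ∈ Rl K' K Y,
      Function.Injective (emb F (e D).1 (e D).2 : (K' × K') →ₗ[F] Y) :=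
    fun D hD => emb_injective (li_restrict (K := K) (he1 D hD))
  have hrec : ∀ D ∈ Rl K' K Y, ∀ L ∈ Rl F K' (K' × K'),
      Submodule.span K' ((L.map (emb F (e D).1 (e D).2) : Submodule F Y) : Set Y) = D := by
    intro D hD L hL
    rw [span_map_emb hL]
    exact (he2 D hD).symm
  refine ⟨{T | ∃ S ∈ P, ∃ S0 ∈ Q,
    T = {E : Submodule F Y | ∃ D : {D // D ∈ S}, ∃ L ∈ S0,
      E = L.map (emb F (e D.1).1 (e D.1).2 : (K' × K') →ₗ[F] Y)}}, ?_, ?_, ?_⟩
  · rintro T ⟨S, hS, S0, hS0, rfl⟩
    refine isSpread_lift (I := {D // D ∈ S})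
      (fun D => (emb F (e D.1).1 (e D.1).2 : (K' × K') →ₗ[F] Y))
      (fun D => hinj D.1 (hPR S hS D.1 D.2)) ?_ (hQ1 S0 hS0)
    intro v hv
    obtain ⟨D, ⟨hD, hvD⟩, hDu⟩ := (hP1 S hS).2 v hv
    refine ⟨⟨D, hD⟩, ?_, ?_⟩
    · show v ∈ LinearMap.range (emb F (e D).1 (e D).2 : (K' × K') →ₗ[F] Y)
      rw [mem_range_emb, ← he2 D (hPR S hS D hD)]
      exact hvD
    · rintro ⟨D', hD'⟩ h
      have h' : v ∈ LinearMap.range (emb F (e D').1 (e D').2 : (K' × K') →ₗ[F] Y) := h
      rw [mem_range_emb, ← he2 D' (hPR S hS D' hD')] at h'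
      exact Subtype.ext (hDu D' ⟨hD', h'⟩)
  · rintro T ⟨S, hS, S0, hS0, rfl⟩ T' ⟨S', hS', S0', hS0', rfl⟩ E ⟨⟨D, hD⟩, L, hL, hE⟩
      ⟨⟨D', hD'⟩, L', hL', hE'⟩
    simp only at hE hE'
    have h1 := hrec D (hPR S hS D hD) L (hQR S0 hS0 L hL)
    have h2 := hrec D' (hPR S' hS' D' hD') L' (hQR S0' hS0' L' hL')
    rw [← hE] at h1
    rw [← hE'] at h2
    have hDD : D = D' := h1.symm.trans h2
    subst hDD
    have hSS : S = S' := hP2 S hS S' hS' D hD hD'
    subst hSS
    have hLL : L = L' := Submodule.map_injective_of_injective (hinj D (hPR S hS D hD))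
      (hE.symm.trans hE')
    subst hLL
    rw [hQ2 S0 hS0 S0' hS0' L hL hL']
  · ext E
    constructor
    · rintro ⟨T, ⟨S, hS, S0, hS0, rfl⟩, ⟨D, hD⟩, L, hL, rfl⟩
      obtain ⟨f1, f2, hf, rfl⟩ := hQR S0 hS0 L hL
      exact ⟨_, _, li_emb (he1 D (hPR S hS D hD)) hf, map_emb_span _ _ _ _⟩
    · rintro ⟨g1, g2, hg, rfl⟩
      have hD : Submodule.span K' {g1, g2} ∈ Rl K' K Y := ⟨g1, g2, hg, rfl⟩
      set D := Submodule.span K' {g1, g2} with hDdef
      have hDP : D ∈ ⋃₀ P := hP3 ▸ hD
      obtain ⟨S, hS, hDS⟩ := hDP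
      have hm1 : g1 ∈ LinearMap.range (emb F (e D).1 (e D).2 : (K' × K') →ₗ[F] Y) := by
        rw [mem_range_emb, ← he2 D hD, hDdef]
        exact Submodule.subset_span (by simp)
      have hm2 : g2 ∈ LinearMap.range (emb F (e D).1 (e D).2 : (K' × K') →ₗ[F] Y) := by
        rw [mem_range_emb, ← he2 D hD, hDdef]
        exact Submodule.subset_span (by simp)
      obtain ⟨f1, hf1⟩ := hm1
      obtain ⟨f2, hf2⟩ := hm2
      have hf : LinearIndependent K' ![f1, f2] := by
        have hg' : LinearIndependent K' ![g1, g2] := li_restrict (K := K) hg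
        rw [LinearIndependent.pair_iff] at hg' ⊢
        intro s t hst
        apply hg' s t
        rw [← hf1, ← hf2]
        have h3 := congrArg (emb F (e D).1 (e D).2 : (K' × K') →ₗ[F] Y) hst
        simp only [emb_apply, Prod.fst_add, Prod.snd_add, Prod.smul_fst, Prod.smul_snd,
          smul_eq_mul, Prod.fst_zero, Prod.snd_zero, zero_smul, add_zero] at h3 ⊢
        rw [← h3]
        simp only [smul_add, add_smul, mul_smul]
        abel
      have hL : Submodule.span F {f1, f2} ∈ Rl F K' (K' × K') := ⟨f1, f2, hf, rfl⟩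
      have hLQ : Submodule.span F {f1, f2} ∈ ⋃₀ Q := hQ3 ▸ hL
      obtain ⟨S0, hS0, hLS0⟩ := hLQ
      refine ⟨_, ⟨S, hS, S0, hS0, rfl⟩, ⟨D, hDS⟩, _, hLS0, ?_⟩
      rw [map_emb_span, hf1, hf2]

end Comp

end Pool.Agent.Helper491_Par
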