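import Pool.Agent.Helper491_Par.FinF

/-!
# Doubling
-/

set_option autoImplicit false

namespace Pool.Agent.Helper491_Par

open Module

section

variable {F : Type} [Field F] {V W : Type} [AddCommGroup V] [Module F V] [AddCommGroup W]
  [Module F W]

/-- A partition of `V` into subspaces of dimension `m` such that the lines not contained in one of
them are a disjoint union of line spreads. -/
def Good (F : Type) [Field F] (V : Type) [AddCommGroup V] [Module F V] (m : ℕ) : Prop :=
  ∃ D : Set (Submodule F V), (∀ X ∈ D, finrank F X = m) ∧ (∀ v : V, v ≠ 0 → ∃! X, X ∈ D ∧ v ∈ X) ∧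
    Splits {E : Submodule F V | finrank F E = 2 ∧ ∀ X ∈ D, ¬ E ≤ X}

/-- Lifting an exact cover. -/
theorem cover_lift {I : Type} (φ : I → W →ₗ[F] V) (hinj : ∀ i, Function.Injective (φ i))
    (hpart : ∀ v : V, v ≠ 0 → ∃! i, v ∈ LinearMap.range (φ i))
    {S : Set (Submodule F W)} (hS : ∀ v : W, v ≠ 0 → ∃! L, L ∈ S ∧ v ∈ L) :
    ∀ v : V, v ≠ 0 → ∃! E, E ∈ {E : Submodule F V | ∃ i, ∃ L ∈ S, E = L.map (φ i)} ∧ v ∈ E := by
  intro v hv
  obtain ⟨i, ⟨w, rfl⟩, hi⟩ := hpart v hv
  have hw : w ≠ 0 := by
    rintro rfl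
    exact hv (map_zero _)
  obtain ⟨L, ⟨hL, hwL⟩, hLu⟩ := hS w hw
  refine ⟨L.map (φ i), ⟨⟨i, L, hL, rfl⟩, Submodule.mem_map_of_mem hwL⟩, ?_⟩
  rintro E ⟨⟨j, L', hL', rfl⟩, hE⟩
  obtain ⟨w', hw', hww⟩ := hE
  have hj : j = i := hi j ⟨w', hww⟩
  subst hj
  have : w' = w := hinj j hww
  subst this
  rw [hLu L' ⟨hL', hw'⟩]

theorem finrank_map_inj {φ : W →ₗ[F] V} (h : Function.Injective φ) (L : Submodule F W) :
    finrank F (L.map φ) = finrank F L :=
  (LinearEquiv.finrank_eq (Submodule.equivMapOfInjective φ h L)).symm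

/-- A subspace of positive dimension has a nonzero vector. -/
theorem exists_ne_of_finrank {L : Submodule F W} (h : finrank F L ≠ 0) : ∃ w ∈ L, w ≠ 0 := by
  by_contra hcon
  push Not at hcon
  apply h
  have : L = ⊥ := by
    rw [Submodule.eq_bot_iff]
    exact hcon
  rw [this, finrank_bot]

/-- The family determines the index. -/
theorem index_eq {I : Type} (φ : I → W →ₗ[F] V) (hinj : ∀ i, Function.Injective (φ i))
    (hpart : ∀ v : V, v ≠ 0 → ∃! i, v ∈ LinearMap.range (φ i)) {i j : I} {L L' : Submodule F W}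
    (hL : finrank F L ≠ 0) (h : L.map (φ i) ≤ L'.map (φ j)) : i = j := by
  obtain ⟨w, hw, hw0⟩ := exists_ne_of_finrank hL
  have h1 : φ i w ∈ L.map (φ i) := Submodule.mem_map_of_mem hw
  have h2 : φ i w ≠ 0 := by
    rw [Ne, ← map_zero (φ i)]
    exact fun h => hw0 (hinj i h)
  obtain ⟨w', -, hw'⟩ := h h1
  exact (hpart _ h2).unique ⟨w, rfl⟩ ⟨w', hw'⟩

/-- Lifting a splitting. -/
theorem Splits.lift {I : Type} (φ : I → W →ₗ[F] V) (hinj : ∀ i, Function.Injective (φ i))
    (hpart : ∀ v : V, v ≠ 0 → ∃! i, v ∈ LinearMap.range (φ i))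
    {ℒ : Set (Submodule F W)} (h : Splits ℒ) :
    Splits {E : Submodule F V | ∃ i, ∃ L ∈ ℒ, E = L.map (φ i)} := by
  obtain ⟨P, hP1, hP2, hP3⟩ := h
  refine ⟨{T | ∃ S ∈ P, T = {E : Submodule F V | ∃ i, ∃ L ∈ S, E = L.map (φ i)}}, ?_, ?_, ?_⟩
  · rintro T ⟨S, hS, rfl⟩
    exact isSpread_lift φ hinj hpart (hP1 S hS)
  · rintro T ⟨S, hS, rfl⟩ T' ⟨S', hS', rfl⟩ E ⟨i, L, hL, rfl⟩ ⟨j, L', hL', h⟩
    have hf : finrank F L ≠ 0 := by rw [(hP1 S hS).1 L hL]; norm_num
    have hij : i = j := index_eq φ hinj hpart hf h.le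
    subst hij
    have : L = L' := Submodule.map_injective_of_injective (hinj i) h
    subst this
    rw [hP2 S hS S' hS' L hL hL']
  · ext E
    constructor
    · rintro ⟨T, ⟨S, hS, rfl⟩, i, L, hL, rfl⟩
      exact ⟨i, L, hP3 ▸ ⟨S, hS, hL⟩, rfl⟩
    · rintro ⟨i, L, hL, rfl⟩
      rw [← hP3] at hL
      obtain ⟨S, hS, hLS⟩ := hL
      exact ⟨_, ⟨S, hS, rfl⟩, i, L, hLS, rfl⟩

theorem Good.map {m : ℕ} (e : W ≃ₗ[F] V) (h : Good F W m) : Good F V m := by
  obtain ⟨D, hD1, hD2, hD3⟩ := h
  refine ⟨{Y | ∃ X ∈ D, Y = X.map (e : W →ₗ[F] V)}, ?_, ?_, ?_⟩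
  · rintro Y ⟨X, hX, rfl⟩
    rw [finrank_map_inj e.injective, hD1 X hX]
  · have := cover_lift (I := Unit) (fun _ => (e : W →ₗ[F] V)) (fun _ => e.injective)
      (fun v _ => ⟨(), ⟨e.symm v, by simp⟩, fun _ _ => rfl⟩) hD2
    convert this using 6
    simp
  · refine (hD3.map e).of_eq ?_
    ext E
    constructor
    · rintro ⟨L, ⟨hL1, hL2⟩, rfl⟩
      refine ⟨by rw [finrank_map_inj e.injective, hL1], ?_⟩
      rintro Y ⟨X, hX, rfl⟩ hle
      exact hL2 X hX ((Submodule.map_le_map_iff_of_injective e.injective _ _).1 hle)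
    · rintro ⟨hE1, hE2⟩
      refine ⟨E.map (e.symm : V →ₗ[F] W), ⟨by rw [finrank_map_inj e.symm.injective, hE1], ?_⟩, ?_⟩
      · intro X hX hle
        apply hE2 _ ⟨X, hX, rfl⟩
        rw [← map_map_equiv e.symm E]
        exact Submodule.map_mono hle
      · exact (map_map_equiv e.symm E).symm

theorem good_base {m : ℕ} (h : finrank F V = m) : Good F V m := by
  refine ⟨{⊤}, ?_, ?_, ?_⟩
  · rintro X rfl
    rw [finrank_top, h]
  · intro v _
    exact ⟨⊤, ⟨rfl, trivial⟩, fun X hX => hX.1⟩
  · refine splits_empty.of_eq ?_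
    ext E
    simp

end

section

variable {F K : Type} [Field F] [Field K] [Algebra F K]

/-- The embeddings of `K` as the one-dimensional subspaces of `K × K`. -/
noncomputable def phi (F : Type) {K : Type} [Field F] [Field K] [Algebra F K] (i : Option K) :
    K →ₗ[F] K × K where
  toFun x := match i with
    | none => (0, x)
    | some c => (x, c * x)
  map_add' x y := by
    cases i with
    | none => simp
    | some c => simp [mul_add]
  map_smul' a x := by
    cases i with
    | none => simp
    | some c => simp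

theorem phi_none (x : K) : phi F (none : Option K) x = (0, x) := rfl

theorem phi_some (c x : K) : phi F (some c) x = (x, c * x) := rfl

theorem phi_injective (i : Option K) : Function.Injective (phi F i) := by
  cases i with
  | none =>
    intro x y h
    rw [phi_none, phi_none] at h
    exact (Prod.mk.inj h).2
  | some c =>
    intro x y h
    rw [phi_some, phi_some] at h
    exact (Prod.mk.inj h).1

theorem phi_part (v : K × K) (hv : v ≠ 0) : ∃! i : Option K, v ∈ LinearMap.range (phi F i) := by
  by_cases h : v.1 = 0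
  · refine ⟨none, ⟨v.2, by rw [phi_none]; exact Prod.ext h.symm rfl⟩, ?_⟩
    rintro i ⟨x, hx⟩
    cases i with
    | none => rfl
    | some c =>
      exfalso
      rw [phi_some] at hx
      apply hv
      have h1 : x = v.1 := congrArg Prod.fst hx
      rw [h] at h1
      rw [← hx, h1]; simp
  · refine ⟨some (v.2 / v.1), ⟨v.1, by rw [phi_some]; exact Prod.ext rfl (div_mul_cancel₀ _ h)⟩, ?_⟩
    rintro i ⟨x, hx⟩
    cases i with
    | none =>
      exfalso
      rw [phi_none] at hx
      exact h (congrArg Prod.fst hx).symm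
    | some c =>
      rw [phi_some] at hx
      have h1 : x = v.1 := congrArg Prod.fst hx
      have h2 : c * x = v.2 := congrArg Prod.snd hx
      rw [h1] at h2
      rw [← h2, mul_div_cancel_right₀ _ h]

theorem phi_det {i : Option K} {v w : K × K} (hv : v ∈ LinearMap.range (phi F i))
    (hw : w ∈ LinearMap.range (phi F i)) : v.1 * w.2 - v.2 * w.1 = 0 := by
  obtain ⟨x, rfl⟩ := hv
  obtain ⟨y, rfl⟩ := hw
  cases i with
  | none => rw [phi_none, phi_none]; simp
  | some c => rw [phi_some, phi_some]; ring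

theorem phi_of_det {i : Option K} {v w : K × K} (hv : v ∈ LinearMap.range (phi F i)) (hv0 : v ≠ 0)
    (h : v.1 * w.2 - v.2 * w.1 = 0) : w ∈ LinearMap.range (phi F i) := by
  obtain ⟨x, rfl⟩ := hv
  have hx : x ≠ 0 := by
    rintro rfl
    exact hv0 (map_zero _)
  cases i with
  | none =>
    rw [phi_none] at h
    simp only [zero_mul, zero_sub, neg_eq_zero] at h
    refine ⟨w.2, ?_⟩
    rw [phi_none]
    exact Prod.ext ((mul_eq_zero.1 h).resolve_left hx).symm rfl
  | some c =>
    rw [phi_some] at h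
    refine ⟨w.1, ?_⟩
    rw [phi_some]
    refine Prod.ext rfl ?_
    have : x * (w.2 - c * w.1) = 0 := by linear_combination h
    exact (sub_eq_zero.1 ((mul_eq_zero.1 this).resolve_left hx)).symm

/-- A two-dimensional space has a basis. -/
theorem exists_basis_two {V : Type} [AddCommGroup V] [Module F V] {E : Submodule F V}
    (h : finrank F E = 2) : ∃ e1 e2 : V, LinearIndependent F ![e1, e2] ∧
      E = Submodule.span F {e1, e2} := by
  have hfd : FiniteDimensional F E := finite_of_finrank_pos (by rw [h]; norm_num)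
  obtain ⟨e1, he1, he10⟩ := exists_ne_of_finrank (F := F) (L := E) (by rw [h]; norm_num)
  have hne : ∃ e2 ∈ E, e2 ∉ Submodule.span F {e1} := by
    by_contra hcon
    push Not at hcon
    have h1 : E ≤ Submodule.span F {e1} := hcon
    have h2 := Submodule.finrank_mono h1
    rw [h, finrank_span_singleton he10] at h2
    omega
  obtain ⟨e2, he2, he2'⟩ := hne
  have hli : LinearIndependent F ![e1, e2] := by
    rw [LinearIndependent.pair_iff]
    intro s t hst
    have ht : t = 0 := by
      by_contra ht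
      apply he2'
      rw [Submodule.mem_span_singleton]
      refine ⟨-(s / t), ?_⟩
      have : t • (-(s / t)) • e1 = t • e2 := by
        rw [smul_smul]
        have : t * -(s / t) = -s := by field_simp
        rw [this, neg_smul]
        exact neg_eq_of_add_eq_zero_right hst
      exact smul_right_injective V ht this
    subst ht
    refine ⟨?_, rfl⟩
    rw [zero_smul, add_zero] at hst
    exact (smul_eq_zero.1 hst).resolve_right he10
  refine ⟨e1, e2, hli, ?_⟩
  symm
  apply Submodule.eq_of_le_of_finrank_eq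
  · rw [Submodule.span_le]
    rintro x (rfl | rfl)
    · exact he1
    · exact he2
  · rw [finrank_of_li F hli, h]

/-- A line not contained in a one-dimensional `K`-subspace. -/
theorem mem_Rl_iff (E : Submodule F (K × K)) :
    E ∈ Rl F K (K × K) ↔ finrank F E = 2 ∧ ∀ i, ¬ E ≤ LinearMap.range (phi F i) := by
  constructor
  · intro h
    refine ⟨finrank_of_mem_Rl F (K := K) h, ?_⟩
    obtain ⟨e1, e2, he, rfl⟩ := h
    intro i hle
    rw [li_iff_det] at he
    exact he (phi_det (hle (Submodule.subset_span (by simp)))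
      (hle (Submodule.subset_span (by simp))))
  · rintro ⟨h1, h2⟩
    obtain ⟨e1, e2, he, rfl⟩ := exists_basis_two h1
    refine ⟨e1, e2, ?_, rfl⟩
    rw [li_iff_det]
    intro h0
    have he1 : e1 ≠ 0 := by
      rintro rfl
      rw [LinearIndependent.pair_iff] at he
      exact one_ne_zero (he 1 0 (by simp)).1
    obtain ⟨i, hi, -⟩ := phi_part (F := F) e1 he1
    apply h2 i
    rw [Submodule.span_le]
    rintro x (rfl | rfl)
    · exact hi
    · exact phi_of_det hi he1 h0

/-- **Doubling.** -/
theorem good_double {m : ℕ} (hK : Good F K m) (hR : Splits (Rl F K (K × K))) :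
    Good F (K × K) m := by
  obtain ⟨D, hD1, hD2, hD3⟩ := hK
  refine ⟨{E | ∃ i, ∃ L ∈ D, E = L.map (phi F i)}, ?_,
    cover_lift (phi F) phi_injective phi_part hD2, ?_⟩
  · rintro E ⟨i, L, hL, rfl⟩
    rw [finrank_map_inj (phi_injective i), hD1 L hL]
  · refine (hR.union (hD3.lift (phi F) phi_injective phi_part) ?_).of_eq ?_
    · rintro E hE ⟨i, L, hL, rfl⟩
      rw [mem_Rl_iff] at hE
      exact hE.2 i (by rintro _ ⟨x, -, rfl⟩; exact ⟨x, rfl⟩)
    · ext E
      constructor
      · rintro (hE | ⟨i, L, ⟨hL1, hL2⟩, rfl⟩)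
        · rw [mem_Rl_iff] at hE
          refine ⟨hE.1, ?_⟩
          rintro Y ⟨i, L, hL, rfl⟩ hle
          apply hE.2 i
          intro x hx
          obtain ⟨y, -, hy⟩ := hle hx
          exact ⟨y, hy⟩
        · refine ⟨by rw [finrank_map_inj (phi_injective i), hL1], ?_⟩
          rintro Y ⟨j, X, hX, rfl⟩ hle
          have hij : i = j := index_eq (phi F) phi_injective phi_part
            (by rw [hL1]; norm_num) hle
          subst hij
          exact hL2 X hX ((Submodule.map_le_map_iff_of_injective (phi_injective i) _ _).1 hle)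
      · rintro ⟨hE1, hE2⟩
        by_cases h : ∃ i, E ≤ LinearMap.range (phi F i)
        · right
          obtain ⟨i, hi⟩ := h
          have hEe : (E.comap (phi F i)).map (phi F i) = E := by
            rw [Submodule.map_comap_eq, inf_eq_right.2 hi]
          refine ⟨i, E.comap (phi F i), ⟨?_, ?_⟩, hEe.symm⟩
          · rw [← finrank_map_inj (phi_injective i), hEe, hE1]
          · intro X hX hle
            apply hE2 _ ⟨i, X, hX, rfl⟩
            rw [← hEe]
            exact Submodule.map_mono hle
        · left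
          push Not at h
          exact (mem_Rl_iff E).2 ⟨hE1, h⟩

end

/-- **Main induction.** -/
theorem good_all (F : Type) [Field F] [Fintype F] (m : ℕ) (hm : Odd m) : ∀ e : ℕ,
    (2 < Fintype.card F ∨ e ≤ 1) → ∀ (V : Type) [AddCommGroup V] [Module F V],
    finrank F V = 2 ^ e * m → Good F V m := by
  intro e
  induction e with
  | zero =>
    intro _ V _ _ h
    exact good_base (by rw [h]; simp)
  | succ e ih =>
    intro hq V _ _ h
    have hpos : 0 < 2 ^ e * m := Nat.mul_pos (by positivity) hm.pos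
    obtain ⟨p, hp⟩ := CharP.exists F
    have hpp : Fact p.Prime := ⟨CharP.char_is_prime F p⟩
    have : NeZero (2 ^ e * m) := ⟨hpos.ne'⟩
    set K := FiniteField.Extension F p (2 ^ e * m) with hKdef
    have hK : finrank F K = 2 ^ e * m := FiniteField.finrank_extension F p (2 ^ e * m)
    have hfdV : FiniteDimensional F V :=
      finite_of_finrank_pos (by rw [h]; exact Nat.mul_pos (by positivity) hm.pos)
    have hfin : finrank F (K × K) = finrank F V := by
      rw [finrank_prod, hK, h, pow_succ]; ring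
    have hgK : Good F K m := ih (by
      rcases hq with h | h
      · exact Or.inl h
      · exact Or.inr (by omega)) K hK
    have hR : Splits (Rl F K (K × K)) := splits_all (2 ^ e * m) F K hK (by
      rcases hq with h | h
      · left; rw [Nat.card_eq_fintype_card]; exact h
      · right
        have : e = 0 := by omega
        rw [this]; simpa using hm)
    exact (good_double hgK hR).map (LinearEquiv.ofFinrankEq _ _ hfin)

end Pool.Agent.Helper491_Par
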