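import Pool.Agent.Helper491_Par.Weil.Bound

/-!
# Equidistribution of the values of a multiplicative character at several linear forms
-/

set_option autoImplicit false

namespace Pool.Agent.Helper491_Par.Equi

open Polynomial Finset Pool.Agent.Helper491_Par.Weil

variable {F L : Type} [Field F] [Field L] [Algebra F L] {k : ℕ}

/-- The linear form with coefficients `a`. -/
def lf (a : Fin k → F) (x : Fin k → L) : L := ∑ i, algebraMap F L (a i) * x i

theorem lf_add_single (a : Fin k → F) (x : Fin k → L) (i : Fin k) (y : L) :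
    lf a (x + Pi.single i y) = lf a x + algebraMap F L (a i) * y := by
  unfold lf
  simp only [Pi.add_apply, mul_add, sum_add_distrib]
  congr 1
  rw [Finset.sum_eq_single i]
  · simp
  · intro j _ hj
    rw [Pi.single_eq_of_ne hj, mul_zero]
  · intro h; exact absurd (mem_univ i) h

theorem lf_sub (a b : Fin k → F) (x : Fin k → L) : lf (a - b) x = lf a x - lf b x := by
  unfold lf
  simp only [Pi.sub_apply, map_sub, sub_mul, sum_sub_distrib]

theorem lf_smul (c : F) (a : Fin k → F) (x : Fin k → L) :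
    lf (c • a) x = algebraMap F L c * lf a x := by
  unfold lf
  simp only [Pi.smul_apply, smul_eq_mul, map_mul, mul_sum, mul_assoc]

variable [Fintype L]

/-- Averaging over a coordinate. -/
theorem avg {R : Type} [CommSemiring R] (i : Fin k) (g : (Fin k → L) → R) :
    (Fintype.card L : R) * ∑ x, g x = ∑ x, ∑ y : L, g (x + (Pi.single i y : Fin k → L)) := by
  rw [sum_comm]
  have h : ∀ y : L, ∑ x, g (x + (Pi.single i y : Fin k → L)) = ∑ x, g x := fun y =>
    Equiv.sum_comp (Equiv.addRight (Pi.single i y : Fin k → L)) g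
  rw [sum_congr rfl (fun y _ => h y), sum_const, card_univ, nsmul_eq_mul]

open Classical in
/-- The number of zeros of a nonzero linear form. -/
theorem card_zero {c : Fin k → F} (hc : c ≠ 0) :
    Fintype.card L * (univ.filter (fun x : Fin k → L => lf c x = 0)).card =
      Fintype.card L ^ k := by
  obtain ⟨i, hi⟩ : ∃ i, c i ≠ 0 := by
    by_contra hcon
    push Not at hcon
    exact hc (funext hcon)
  have hi' : algebraMap F L (c i) ≠ 0 := by rwa [Ne, map_eq_zero]
  have h1 := avg (R := ℕ) i (fun x : Fin k → L => if lf c x = 0 then 1 else 0)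
  rw [← card_filter, Nat.cast_id] at h1
  rw [h1]
  have h2 : ∀ x : Fin k → L,
      ∑ y : L, (if lf c (x + (Pi.single i y : Fin k → L)) = 0 then 1 else 0) = 1 := by
    intro x
    rw [← card_filter, card_eq_one]
    refine ⟨-(lf c x / algebraMap F L (c i)), ?_⟩
    ext y
    rw [mem_filter, mem_singleton, lf_add_single]
    constructor
    · rintro ⟨-, h⟩
      field_simp
      linear_combination h
    · rintro rfl
      refine ⟨mem_univ _, ?_⟩
      field_simp
      ring
  rw [sum_congr rfl (fun x _ => h2 x), sum_const, card_univ, smul_eq_mul, mul_one,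
    Fintype.card_fun, Fintype.card_fin]

/-- The bound for one variable. -/
theorem one_var (M D : ℕ) : ∃ K : ℝ, 0 ≤ K ∧ ∀ (L : Type) [Field L] [Fintype L]
    (ψ : MulChar L ℂ), orderOf ψ = M → ∀ (I : Type) (A : Finset I) (j : I → ℕ) (α β : I → L),
    A.card ≤ D → (∀ a ∈ A, α a ≠ 0) → (∀ a ∈ A, j a ≤ M) →
    (∀ a ∈ A, ∀ b ∈ A, a ≠ b → β a / α a ≠ β b / α b) → (∃ a ∈ A, ¬ M ∣ j a) →
    ‖∑ y : L, ψ (∏ a ∈ A, (β a + α a * y) ^ j a)‖ ≤ K * Real.sqrt (Fintype.card L) := by
  classical
  have hw : ∀ t : ℕ, ∃ K : ℝ, 0 ≤ K ∧ (2 ≤ t → ∀ (E : Type) [Field E] [Fintype E],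
    t ∣ Fintype.card E - 1 → ∀ ψ : MulChar E ℂ, ψ ≠ 1 → ψ ^ t = 1 → ∀ f : E[X],
    f.natDegree ≤ D * M → f ≠ 0 → Cop t f →
    ‖∑ x : E, ψ (f.eval x)‖ ≤ K * Real.sqrt (Fintype.card E)) := by
    intro t
    by_cases ht : 2 ≤ t
    · obtain ⟨K, hK, h⟩ := wele t (D * M) ht
      exact ⟨K, hK, fun _ => h⟩
    · exact ⟨0, le_rfl, fun h => absurd h ht⟩
  choose K hK0 hK using hw
  refine ⟨∑ t ∈ range (M + 1), K t, sum_nonneg fun t _ => hK0 t, ?_⟩
  intro L _ _ ψ hψ I A j α β hAD hα hj hdist hex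
  obtain ⟨a0, ha0, hja0⟩ := hex
  have hM0 : 0 < M := by
    rcases Nat.eq_zero_or_pos M with h | h
    · exfalso
      apply hja0
      have := hj a0 ha0
      rw [h] at this ⊢
      rw [Nat.le_zero.1 this]
    · exact h
  set g := Nat.gcd M (A.gcd j) with hg
  have hgM : g ∣ M := Nat.gcd_dvd_left _ _
  have hgj : ∀ a ∈ A, g ∣ j a := fun a ha => (Nat.gcd_dvd_right _ _).trans (Finset.gcd_dvd ha)
  have hg0 : 0 < g := Nat.pos_of_dvd_of_pos hgM hM0
  obtain ⟨t, ht⟩ := hgM
  have ht0 : t ≠ 0 := by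
    rintro rfl
    omega
  have ht1 : t ≠ 1 := by
    rintro rfl
    rw [mul_one] at ht
    apply hja0
    rw [ht]
    exact hgj a0 ha0
  have ht2 : 2 ≤ t := by omega
  have htM : t ≤ M := by
    rw [ht]
    exact Nat.le_mul_of_pos_left t hg0
  have hMcard : M ∣ Fintype.card L - 1 := by
    rw [← hψ]
    rw [orderOf_dvd_iff_pow_eq_one]
    ext u
    rw [MulChar.pow_apply_coe, MulChar.one_apply_coe, ← map_pow, ← Units.val_pow_eq_pow_val]
    have : u ^ (Fintype.card L - 1) = 1 := by
      rw [← Fintype.card_units]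
      exact pow_card_eq_one
    rw [this]
    simp
  set f : L[X] := ∏ a ∈ A, (C (β a) + C (α a) * X) ^ (j a / g) with hf
  have hne : ∀ a ∈ A, (C (β a) + C (α a) * X : L[X]) ≠ 0 := by
    intro a ha h0
    have := congrArg (fun p => coeff p 1) h0
    simp at this
    exact hα a ha this
  have hf0 : f ≠ 0 := Finset.prod_ne_zero_iff.2 fun a ha => pow_ne_zero _ (hne a ha)
  have hdeg : f.natDegree ≤ D * M := by
    rw [hf]
    refine (natDegree_prod_le _ _).trans ?_
    calc ∑ a ∈ A, ((C (β a) + C (α a) * X : L[X]) ^ (j a / g)).natDegree ≤ ∑ a ∈ A, M := by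
          refine sum_le_sum fun a ha => ?_
          refine natDegree_pow_le.trans ?_
          have h1 : (C (β a) + C (α a) * X : L[X]).natDegree ≤ 1 := by
            compute_degree
          calc j a / g * (C (β a) + C (α a) * X : L[X]).natDegree ≤ j a / g * 1 :=
                Nat.mul_le_mul_left _ h1
            _ = j a / g := mul_one _
            _ ≤ j a := Nat.div_le_self _ _
            _ ≤ M := hj a ha
      _ = A.card * M := by rw [sum_const, smul_eq_mul]
      _ ≤ D * M := Nat.mul_le_mul_right _ hAD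
  -- multiplicities
  have hmult : ∀ a ∈ A, rootMultiplicity (-(β a / α a)) f = j a / g := by
    intro a ha
    have hfac : ∀ b ∈ A, rootMultiplicity (-(β a / α a)) (C (β b) + C (α b) * X : L[X]) =
        if b = a then 1 else 0 := by
      intro b hb
      have e1 : (C (β b) + C (α b) * X : L[X]) = C (α b) * (X - C (-(β b / α b))) := by
        rw [mul_sub, ← C_mul]
        have : α b * -(β b / α b) = - β b := by
          have := hα b hb
          field_simp
        rw [this, C_neg]
        ring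
      have hmul := hne b hb
      rw [e1] at hmul ⊢
      rw [rootMultiplicity_mul hmul, rootMultiplicity_C, zero_add, rootMultiplicity_X_sub_C]
      by_cases hab : b = a
      · rw [if_pos (by rw [hab]), if_pos hab]
      · rw [if_neg, if_neg hab]
        intro h
        exact hdist a ha b hb (fun h => hab h.symm) (neg_inj.1 h)
    have hprod : ∀ s ⊆ A, rootMultiplicity (-(β a / α a))
        (∏ b ∈ s, (C (β b) + C (α b) * X : L[X]) ^ (j b / g)) = if a ∈ s then j a / g else 0 := by
      intro s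
      induction s using Finset.induction_on with
      | empty =>
        intro _
        rw [prod_empty, ← C_1, rootMultiplicity_C]
        simp
      | insert b s hbs ih =>
        intro hsub
        have hbA : b ∈ A := hsub (mem_insert_self _ _)
        have hsA : s ⊆ A := fun x hx => hsub (mem_insert_of_mem hx)
        rw [prod_insert hbs, rootMultiplicity_mul (mul_ne_zero (pow_ne_zero _ (hne b hbA))
          (Finset.prod_ne_zero_iff.2 fun c hc => pow_ne_zero _ (hne c (hsA hc)))), ih hsA,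
          rm_pow _ _ (hne b hbA), hfac b hbA]
        by_cases hab : b = a
        · subst hab
          rw [if_pos rfl, if_neg hbs, if_pos (mem_insert_self _ _)]
          simp
        · rw [if_neg hab, mul_zero, zero_add]
          by_cases has : a ∈ s
          · rw [if_pos has, if_pos (mem_insert_of_mem has)]
          · rw [if_neg has, if_neg]
            intro h
            rcases mem_insert.1 h with h | h
            · exact hab h.symm
            · exact has h
    have := hprod A (subset_refl _)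
    rw [if_pos ha] at this
    exact this
  have hcop : Cop t f := by
    intro s hs
    have h1 : ∀ a ∈ A, M ∣ s * j a := by
      intro a ha
      have h2 := hs (-(β a / α a))
      rw [hmult a ha] at h2
      have h3 := Nat.mul_dvd_mul_left g h2
      rw [← ht] at h3
      have h4 : g * (s * (j a / g)) = s * j a := by
        have := Nat.div_mul_cancel (hgj a ha)
        calc g * (s * (j a / g)) = s * (j a / g * g) := by ring
          _ = s * j a := by rw [this]
      rwa [h4] at h3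
    have h2 : M ∣ s * A.gcd j := by
      have h3 : M ∣ A.gcd (fun a => s * j a) := Finset.dvd_gcd h1
      rw [Finset.gcd_mul_left] at h3
      simpa using h3
    have h3 : M ∣ s * g := by
      rw [hg, ← Nat.gcd_mul_left]
      exact Nat.dvd_gcd (Dvd.intro_left s rfl) h2
    rw [ht, mul_comm g t] at h3
    exact Nat.dvd_of_mul_dvd_mul_right hg0 h3
  have hψg : ψ ^ g ≠ 1 := by
    intro h1
    have h2 := orderOf_dvd_of_pow_eq_one h1
    rw [hψ] at h2
    have h3 := Nat.le_of_dvd hg0 h2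
    have h4 : g * 2 ≤ g * t := Nat.mul_le_mul_left g ht2
    omega
  have hψgt : (ψ ^ g) ^ t = 1 := by
    rw [← pow_mul, ← ht, ← hψ]
    exact pow_orderOf_eq_one ψ
  have hsum : ∀ y : L, ψ (∏ a ∈ A, (β a + α a * y) ^ j a) = (ψ ^ g) (f.eval y) := by
    intro y
    rw [MulChar.pow_apply' _ hg0.ne', ← map_pow]
    congr 1
    rw [hf, eval_prod, ← prod_pow]
    refine prod_congr rfl fun a ha => ?_
    rw [eval_pow, ← pow_mul, Nat.div_mul_cancel (hgj a ha)]
    simp
  rw [sum_congr rfl (fun y _ => hsum y)]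
  refine (hK t ht2 L (Dvd.dvd.trans ⟨g, by rw [ht]; ring⟩ hMcard) (ψ ^ g) hψg hψgt f hdeg hf0 hcop).trans ?_
  exact mul_le_mul_of_nonneg_right
    (single_le_sum (f := K) (fun i _ => hK0 i) (mem_range.2 (by omega))) (Real.sqrt_nonneg _)

theorem mc_norm_le_one {L : Type} [Field L] [Fintype L] (χ : MulChar L ℂ) (x : L) : ‖χ x‖ ≤ 1 := by
  classical
  exact Pool.Agent.H435R3.Weil.WELE.mc_norm_le_one χ x

/-- The bound for several variables. -/
theorem sum_bound (M D : ℕ) : ∃ K : ℝ, 0 ≤ K ∧ ∀ (k : ℕ) (F L I : Type) [Field F] [Field L] [Fintype L]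
    [Algebra F L] [Fintype I] (ψ : MulChar L ℂ), orderOf ψ = M → Fintype.card I ≤ D →
    ∀ (v : I → Fin k → F), (∀ a, v a ≠ 0) → (∀ a b, a ≠ b → ∀ c : F, v a ≠ c • v b) →
    ∀ j : I → ℕ, (∀ a, j a ≤ M) → (∃ a, ¬ M ∣ j a) →
    ‖∑ x : Fin k → L, ψ (∏ a, (lf (v a) x) ^ j a)‖ * Real.sqrt (Fintype.card L) ≤
      K * (Fintype.card L : ℝ) ^ k := by
  classical
  obtain ⟨K, hK, hone⟩ := one_var M D
  refine ⟨K + D ^ 2, by positivity, ?_⟩
  intro k F L I _ _ _ _ _ ψ hψ hD v hv hind j hj ⟨a0, ha0⟩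
  obtain ⟨i, hi⟩ : ∃ i, v a0 i ≠ 0 := by
    by_contra hcon
    push Not at hcon
    exact hv a0 (funext hcon)
  set Q : ℝ := (Fintype.card L : ℝ) with hQ
  have hQ1 : 1 ≤ Q := by
    rw [hQ]; exact_mod_cast Fintype.card_pos
  have hs1 : 1 ≤ Real.sqrt Q := Real.one_le_sqrt.2 hQ1
  have hsq : Real.sqrt Q * Real.sqrt Q = Q := Real.mul_self_sqrt (by linarith)
  set Ai : Finset I := univ.filter (fun a => v a i ≠ 0) with hAi
  set gen : (Fin k → L) → Prop := fun x => ∀ a ∈ Ai, ∀ b ∈ Ai, a ≠ b →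
    lf (v a) x / algebraMap F L (v a i) ≠ lf (v b) x / algebraMap F L (v b i) with hgen
  have hinner : ∀ x : Fin k → L,
      ‖∑ y : L, ψ (∏ a, (lf (v a) (x + (Pi.single i y : Fin k → L))) ^ j a)‖ ≤
        K * Real.sqrt Q + if gen x then 0 else Q := by
    intro x
    by_cases hx : gen x
    · rw [if_pos hx, add_zero]
      have h1 : ∀ y : L, ψ (∏ a, (lf (v a) (x + (Pi.single i y : Fin k → L))) ^ j a) =
          ψ (∏ a ∈ univ.filter (fun a => ¬ v a i ≠ 0), (lf (v a) x) ^ j a) *
            ψ (∏ a ∈ Ai, (lf (v a) x + algebraMap F L (v a i) * y) ^ j a) := by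
        intro y
        rw [← map_mul]
        congr 1
        rw [← Finset.prod_filter_mul_prod_filter_not univ (fun a => v a i ≠ 0), mul_comm]
        congr 1
        · refine prod_congr rfl fun a ha => ?_
          rw [mem_filter] at ha
          rw [lf_add_single, not_not.1 ha.2, map_zero, zero_mul, add_zero]
        · refine prod_congr rfl fun a _ => ?_
          rw [lf_add_single]
      rw [sum_congr rfl (fun y _ => h1 y), ← mul_sum, norm_mul]
      have h2 := hone L ψ hψ I Ai j (fun a => algebraMap F L (v a i)) (fun a => lf (v a) x)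
        ((card_le_univ _).trans hD)
        (fun a ha => by
          rw [Ne, map_eq_zero]
          exact (mem_filter.1 ha).2)
        (fun a _ => hj a) (fun a ha b hb hab => hx a ha b hb hab)
        ⟨a0, mem_filter.2 ⟨mem_univ _, hi⟩, ha0⟩
      calc _ ≤ 1 * (K * Real.sqrt Q) := mul_le_mul (mc_norm_le_one ψ _) h2 (norm_nonneg _) zero_le_one
        _ = K * Real.sqrt Q := one_mul _
    · rw [if_neg hx]
      have h1 : ‖∑ y : L, ψ (∏ a, (lf (v a) (x + (Pi.single i y : Fin k → L))) ^ j a)‖ ≤ Q := by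
        refine (norm_sum_le _ _).trans ?_
        calc ∑ y : L, ‖ψ (∏ a, (lf (v a) (x + (Pi.single i y : Fin k → L))) ^ j a)‖
            ≤ ∑ y : L, (1 : ℝ) := sum_le_sum fun y _ => mc_norm_le_one ψ _
          _ = Q := by simp [hQ]
      have h2 : 0 ≤ K * Real.sqrt Q := by positivity
      linarith
  -- the number of the bad `x`
  have hbad : ((univ.filter (fun x : Fin k → L => ¬ gen x)).card : ℝ) * Q ≤ (D : ℝ) ^ 2 * Q ^ k := by
    have hsub : univ.filter (fun x : Fin k → L => ¬ gen x) ⊆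
        (univ.filter (fun p : I × I => p.1 ∈ Ai ∧ p.2 ∈ Ai ∧ p.1 ≠ p.2)).biUnion
          (fun p => univ.filter (fun x : Fin k → L =>
            lf ((v p.1 i)⁻¹ • v p.1 - (v p.2 i)⁻¹ • v p.2) x = 0)) := by
      intro x hx
      rw [mem_filter] at hx
      have hx2 := hx.2
      simp only [hgen] at hx2
      push Not at hx2
      obtain ⟨a, ha, b, hb, hab, h⟩ := hx2
      rw [mem_biUnion]
      refine ⟨(a, b), mem_filter.2 ⟨mem_univ _, ha, hb, hab⟩, mem_filter.2 ⟨mem_univ _, ?_⟩⟩
      rw [lf_sub, lf_smul, lf_smul, map_inv₀, map_inv₀, sub_eq_zero]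
      rw [div_eq_inv_mul, div_eq_inv_mul] at h
      exact h
    have h1 := (card_le_card hsub).trans card_biUnion_le
    have h2 : ∀ p ∈ univ.filter (fun p : I × I => p.1 ∈ Ai ∧ p.2 ∈ Ai ∧ p.1 ≠ p.2),
        ((univ.filter (fun x : Fin k → L =>
            lf ((v p.1 i)⁻¹ • v p.1 - (v p.2 i)⁻¹ • v p.2) x = 0)).card : ℝ) * Q = Q ^ k := by
      intro p hp
      obtain ⟨-, hp1, hp2, hp12⟩ := mem_filter.1 hp
      have hne : (v p.1 i)⁻¹ • v p.1 - (v p.2 i)⁻¹ • v p.2 ≠ 0 := by
        intro h0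
        have hi1 : v p.1 i ≠ 0 := (mem_filter.1 hp1).2
        apply hind p.1 p.2 hp12 (v p.1 i * (v p.2 i)⁻¹)
        rw [mul_smul, ← sub_eq_zero.1 h0, smul_smul, mul_inv_cancel₀ hi1, one_smul]
      have := card_zero (F := F) (L := L) hne
      rw [mul_comm, hQ]
      exact_mod_cast this
    calc ((univ.filter (fun x : Fin k → L => ¬ gen x)).card : ℝ) * Q
        ≤ (∑ p ∈ univ.filter (fun p : I × I => p.1 ∈ Ai ∧ p.2 ∈ Ai ∧ p.1 ≠ p.2),
          ((univ.filter (fun x : Fin k → L =>
            lf ((v p.1 i)⁻¹ • v p.1 - (v p.2 i)⁻¹ • v p.2) x = 0)).card : ℝ)) * Q := by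
          apply mul_le_mul_of_nonneg_right _ (by linarith)
          exact_mod_cast h1
      _ = ∑ p ∈ univ.filter (fun p : I × I => p.1 ∈ Ai ∧ p.2 ∈ Ai ∧ p.1 ≠ p.2), Q ^ k := by
          rw [sum_mul]
          exact sum_congr rfl h2
      _ = ((univ.filter (fun p : I × I => p.1 ∈ Ai ∧ p.2 ∈ Ai ∧ p.1 ≠ p.2)).card : ℝ) * Q ^ k := by
          rw [sum_const, nsmul_eq_mul]
      _ ≤ (D : ℝ) ^ 2 * Q ^ k := by
          apply mul_le_mul_of_nonneg_right _ (by positivity)
          have h3 := card_le_univ (univ.filter (fun p : I × I => p.1 ∈ Ai ∧ p.2 ∈ Ai ∧ p.1 ≠ p.2))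
          rw [Fintype.card_prod] at h3
          have h4 : Fintype.card I * Fintype.card I ≤ D * D := Nat.mul_le_mul hD hD
          rw [pow_two]
          exact_mod_cast h3.trans h4
  have havg := avg (R := ℂ) i (fun x : Fin k → L => ψ (∏ a, (lf (v a) x) ^ j a))
  have hmain : Q * ‖∑ x : Fin k → L, ψ (∏ a, (lf (v a) x) ^ j a)‖ ≤
      Q ^ k * (K * Real.sqrt Q) + (D : ℝ) ^ 2 * Q ^ k := by
    calc Q * ‖∑ x : Fin k → L, ψ (∏ a, (lf (v a) x) ^ j a)‖
        = ‖(Fintype.card L : ℂ) * ∑ x : Fin k → L, ψ (∏ a, (lf (v a) x) ^ j a)‖ := by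
          rw [norm_mul, Complex.norm_natCast, hQ]
      _ = ‖∑ x : Fin k → L, ∑ y : L, ψ (∏ a, (lf (v a) (x + (Pi.single i y : Fin k → L))) ^ j a)‖ := by
          rw [havg]
      _ ≤ ∑ x : Fin k → L, ‖∑ y : L, ψ (∏ a, (lf (v a) (x + (Pi.single i y : Fin k → L))) ^ j a)‖ :=
          norm_sum_le _ _
      _ ≤ ∑ x : Fin k → L, (K * Real.sqrt Q + if gen x then 0 else Q) :=
          sum_le_sum fun x _ => hinner x
      _ = Q ^ k * (K * Real.sqrt Q) + ((univ.filter (fun x : Fin k → L => ¬ gen x)).card : ℝ) * Q := by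
          rw [sum_add_distrib, sum_const, card_univ, Fintype.card_fun, Fintype.card_fin,
            nsmul_eq_mul]
          congr 1
          · push_cast
            rfl
          · rw [← sum_filter_add_sum_filter_not univ (fun x => gen x)]
            have e1 : ∑ x ∈ univ.filter (fun x : Fin k → L => gen x), (if gen x then 0 else Q) = 0 :=
              sum_eq_zero fun x hx => if_pos (mem_filter.1 hx).2
            have e2 : ∑ x ∈ univ.filter (fun x : Fin k → L => ¬ gen x), (if gen x then 0 else Q) =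
                ∑ x ∈ univ.filter (fun x : Fin k → L => ¬ gen x), Q :=
              sum_congr rfl fun x hx => if_neg (mem_filter.1 hx).2
            rw [e1, e2, zero_add, sum_const, nsmul_eq_mul]
      _ ≤ _ := by linarith
  have hk0 : 0 ≤ Q ^ k := by positivity
  have h5 : Real.sqrt Q * (‖∑ x : Fin k → L, ψ (∏ a, (lf (v a) x) ^ j a)‖ * Real.sqrt Q) ≤
      Real.sqrt Q * ((K + D ^ 2) * Q ^ k) := by
    calc Real.sqrt Q * (‖∑ x : Fin k → L, ψ (∏ a, (lf (v a) x) ^ j a)‖ * Real.sqrt Q)
        = Real.sqrt Q * Real.sqrt Q * ‖∑ x : Fin k → L, ψ (∏ a, (lf (v a) x) ^ j a)‖ := by ring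
      _ = Q * ‖∑ x : Fin k → L, ψ (∏ a, (lf (v a) x) ^ j a)‖ := by rw [hsq]
      _ ≤ Q ^ k * (K * Real.sqrt Q) + (D : ℝ) ^ 2 * Q ^ k := hmain
      _ ≤ Q ^ k * (K * Real.sqrt Q) + (D : ℝ) ^ 2 * Q ^ k * Real.sqrt Q := by
          have : 0 ≤ (D : ℝ) ^ 2 * Q ^ k := by positivity
          nlinarith
      _ = Real.sqrt Q * ((K + D ^ 2) * Q ^ k) := by ring
  exact le_of_mul_le_mul_left h5 (by linarith)

/-- Detection of a value of the character. -/
theorem detect {L : Type} [Field L] [Fintype L] (ψ : MulChar L ℂ) {M : ℕ} (hψ : orderOf ψ = M)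
    (hM : 0 < M) {z : ℂ} (hz : z ^ M = 1) (y : L) :
    ∑ j ∈ Icc 1 M, (ψ y * z⁻¹) ^ j = if ψ y = z then (M : ℂ) else 0 := by
  have hz0 : z ≠ 0 := by
    rintro rfl
    rw [zero_pow hM.ne'] at hz
    exact zero_ne_one hz
  by_cases hy : y = 0
  · have h0 : ψ y = 0 := by rw [hy]; exact MulChar.map_zero ψ
    rw [h0, if_neg (fun h => hz0 h.symm), zero_mul]
    apply sum_eq_zero
    intro j hj
    rw [zero_pow (by have := (mem_Icc.1 hj).1; omega)]
  · have hu : IsUnit y := isUnit_iff_ne_zero.2 hy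
    have h1 : ψ y ^ M = 1 := by
      rw [← MulChar.pow_apply' ψ hM.ne', ← hψ, pow_orderOf_eq_one, MulChar.one_apply hu]
    set w := ψ y * z⁻¹ with hw
    have hwM : w ^ M = 1 := by
      rw [hw, mul_pow, inv_pow, h1, hz]; simp
    have hsum : ∑ j ∈ Icc 1 M, w ^ j = w * ∑ j ∈ range M, w ^ j := by
      rw [mul_sum]
      refine Finset.sum_nbij' (fun j => j - 1) (fun j => j + 1) ?_ ?_ ?_ ?_ ?_
      · intro a ha
        rw [mem_Icc] at ha
        rw [mem_range]; omega
      · intro a ha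
        rw [mem_range] at ha
        rw [mem_Icc]; omega
      · intro a ha
        rw [mem_Icc] at ha
        show a - 1 + 1 = a
        omega
      · intro a _
        show a + 1 - 1 = a
        omega
      · intro a ha
        rw [mem_Icc] at ha
        show w ^ a = w * w ^ (a - 1)
        rw [← pow_succ']
        congr 1
        omega
    rw [hsum]
    by_cases hyz : ψ y = z
    · rw [if_pos hyz]
      have : w = 1 := by rw [hw, hyz, mul_inv_cancel₀ hz0]
      rw [this]
      simp
    · rw [if_neg hyz]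
      have hw1 : w ≠ 1 := by
        intro h
        apply hyz
        rw [hw] at h
        field_simp at h
        exact h
      have h2 := mul_geom_sum w M
      rw [hwM, sub_self] at h2
      rw [(mul_eq_zero.1 h2).resolve_left (sub_ne_zero.2 hw1), mul_zero]

/-- **Equidistribution.** -/
theorem equi (M D : ℕ) (hM : 0 < M) : ∃ K : ℝ, 0 ≤ K ∧ ∀ (k : ℕ) (F L I : Type) [Field F] [Field L]
    [Fintype L] [Algebra F L] [Fintype I] (ψ : MulChar L ℂ), orderOf ψ = M → Fintype.card I = D →
    ∀ (v : I → Fin k → F), (∀ a, v a ≠ 0) → (∀ a b, a ≠ b → ∀ c : F, v a ≠ c • v b) →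
    ∀ z : I → ℂ, (∀ a, z a ^ M = 1) →
    (Fintype.card L : ℝ) ^ k - K * ((Fintype.card L : ℝ) ^ k / Real.sqrt (Fintype.card L)) ≤
      (M : ℝ) ^ D * ({x : Fin k → L | ∀ a, ψ (lf (v a) x) = z a}.ncard : ℝ) := by
  classical
  obtain ⟨K, hK, hb⟩ := sum_bound M D
  refine ⟨D + (M : ℝ) ^ D * K, by positivity, ?_⟩
  intro k F L I _ _ _ _ _ ψ hψ hD v hv hind z hz
  set Q : ℝ := (Fintype.card L : ℝ) with hQ
  have hQ1 : 1 ≤ Q := by
    rw [hQ]; exact_mod_cast Fintype.card_pos
  have hs1 : 1 ≤ Real.sqrt Q := Real.one_le_sqrt.2 hQ1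
  have hsq : Real.sqrt Q * Real.sqrt Q = Q := Real.mul_self_sqrt (by linarith)
  have hz0 : ∀ a, z a ≠ 0 := by
    intro a h
    have := hz a
    rw [h, zero_pow hM.ne'] at this
    exact zero_ne_one this
  set S : (I → ℕ) → ℂ := fun p => ∑ x : Fin k → L, ψ (∏ a, (lf (v a) x) ^ p a) with hS
  -- expansion
  have hexp : ((M : ℂ) ^ D) * (({x : Fin k → L | ∀ a, ψ (lf (v a) x) = z a}.ncard : ℕ) : ℂ) =
      ∑ p ∈ Fintype.piFinset (fun _ : I => Icc 1 M), (∏ a, (z a)⁻¹ ^ p a) * S p := by
    have h1 : ∀ x : Fin k → L, ∏ a, ∑ j ∈ Icc 1 M, (ψ (lf (v a) x) * (z a)⁻¹) ^ j =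
        if (∀ a, ψ (lf (v a) x) = z a) then (M : ℂ) ^ D else 0 := by
      intro x
      rw [prod_congr rfl (fun a _ => detect ψ hψ hM (hz a) (lf (v a) x))]
      by_cases h : ∀ a, ψ (lf (v a) x) = z a
      · rw [if_pos h, prod_congr rfl (fun a _ => if_pos (h a)), prod_const, card_univ, hD]
      · rw [if_neg h]
        push Not at h
        obtain ⟨a, ha⟩ := h
        exact prod_eq_zero (mem_univ a) (if_neg ha)
    have h2 : (M : ℂ) ^ D * (({x : Fin k → L | ∀ a, ψ (lf (v a) x) = z a}.ncard : ℕ) : ℂ) =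
        ∑ x : Fin k → L, ∏ a, ∑ j ∈ Icc 1 M, (ψ (lf (v a) x) * (z a)⁻¹) ^ j := by
      rw [sum_congr rfl (fun x _ => h1 x), ← sum_filter, sum_const, nsmul_eq_mul, mul_comm]
      congr 2
      rw [Set.ncard_eq_toFinset_card']
      congr 1
      ext x
      simp
    rw [h2]
    rw [sum_congr rfl (fun x _ => prod_univ_sum (fun _ : I => Icc 1 M)
      (fun a j => (ψ (lf (v a) x) * (z a)⁻¹) ^ j))]
    rw [sum_comm]
    refine sum_congr rfl fun p _ => ?_
    simp only [hS]
    rw [mul_sum]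
    refine sum_congr rfl fun x _ => ?_
    rw [map_prod, ← prod_mul_distrib]
    refine prod_congr rfl fun a _ => ?_
    rw [mul_pow, map_pow, mul_comm]
  -- the main term
  set pM : I → ℕ := fun _ => M with hpM
  have hpMmem : pM ∈ Fintype.piFinset (fun _ : I => Icc 1 M) := by
    rw [Fintype.mem_piFinset]
    intro a
    exact mem_Icc.2 ⟨hM, le_rfl⟩
  set Z : Finset (Fin k → L) := univ.filter (fun x => ∃ a, lf (v a) x = 0) with hZ
  have hSM : S pM = (((univ \ Z).card : ℕ) : ℂ) := by
    have h1 : ∀ x : Fin k → L, ψ (∏ a, (lf (v a) x) ^ M) = if x ∈ univ \ Z then 1 else 0 := by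
      intro x
      by_cases hx : ∃ a, lf (v a) x = 0
      · rw [if_neg (by rw [mem_sdiff, hZ, mem_filter]; exact fun h => h.2 ⟨mem_univ _, hx⟩)]
        obtain ⟨a, ha⟩ := hx
        rw [prod_eq_zero (mem_univ a) (by rw [ha, zero_pow hM.ne'])]
        exact MulChar.map_zero ψ
      · rw [if_pos (by rw [mem_sdiff, hZ, mem_filter]; exact ⟨mem_univ _, fun h => hx h.2⟩)]
        push Not at hx
        have hu : IsUnit (∏ a, lf (v a) x) :=
          isUnit_iff_ne_zero.2 (prod_ne_zero_iff.2 fun a _ => hx a)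
        rw [prod_pow, map_pow, ← MulChar.pow_apply' ψ hM.ne', ← hψ, pow_orderOf_eq_one,
          MulChar.one_apply hu]
    simp only [hS, hpM]
    rw [sum_congr rfl (fun x _ => h1 x), ← sum_filter, sum_const, nsmul_eq_mul, mul_one]
    congr 2
    ext x
    simp
  have hZcard : (Z.card : ℝ) * Q ≤ D * Q ^ k := by
    have hsub : Z ⊆ univ.biUnion (fun a : I => univ.filter (fun x : Fin k → L => lf (v a) x = 0)) := by
      intro x hx
      obtain ⟨-, a, ha⟩ := mem_filter.1 hx
      exact mem_biUnion.2 ⟨a, mem_univ _, mem_filter.2 ⟨mem_univ _, ha⟩⟩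
    have h1 := (card_le_card hsub).trans card_biUnion_le
    calc (Z.card : ℝ) * Q ≤ (∑ a : I, ((univ.filter
          (fun x : Fin k → L => lf (v a) x = 0)).card : ℝ)) * Q := by
          apply mul_le_mul_of_nonneg_right _ (by linarith)
          exact_mod_cast h1
      _ = ∑ a : I, Q ^ k := by
          rw [sum_mul]
          refine sum_congr rfl fun a _ => ?_
          have := card_zero (F := F) (L := L) (hv a)
          rw [mul_comm, hQ]
          exact_mod_cast this
      _ = D * Q ^ k := by rw [sum_const, card_univ, hD, nsmul_eq_mul]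
  have hQk : 0 < Q ^ k := by positivity
  have hdiv : Q ^ k / Q ≤ Q ^ k / Real.sqrt Q := by
    apply div_le_div_of_nonneg_left hQk.le (by linarith)
    nlinarith
  have hmainlow : Q ^ k - D * (Q ^ k / Real.sqrt Q) ≤ (((univ \ Z).card : ℕ) : ℝ) := by
    have h1 : ((univ \ Z).card : ℝ) = Q ^ k - Z.card := by
      have h2 := card_sdiff_add_card_eq_card (subset_univ Z)
      rw [card_univ, Fintype.card_fun, Fintype.card_fin] at h2
      have h3 : (((univ \ Z).card : ℕ) : ℝ) + (Z.card : ℝ) = Q ^ k := by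
        rw [hQ]; exact_mod_cast h2
      linarith
    have h2 : (Z.card : ℝ) ≤ D * (Q ^ k / Q) := by
      rw [← mul_div_assoc, le_div_iff₀ (by linarith)]
      exact hZcard
    have h3 : (D : ℝ) * (Q ^ k / Q) ≤ D * (Q ^ k / Real.sqrt Q) :=
      mul_le_mul_of_nonneg_left hdiv (Nat.cast_nonneg D)
    rw [h1]; linarith
  -- the other terms
  have hrest : ‖∑ p ∈ (Fintype.piFinset (fun _ : I => Icc 1 M)).erase pM,
      (∏ a, (z a)⁻¹ ^ p a) * S p‖ ≤ (M : ℝ) ^ D * (K * (Q ^ k / Real.sqrt Q)) := by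
    refine (norm_sum_le _ _).trans ?_
    have h1 : ∀ p ∈ (Fintype.piFinset (fun _ : I => Icc 1 M)).erase pM,
        ‖(∏ a, (z a)⁻¹ ^ p a) * S p‖ ≤ K * (Q ^ k / Real.sqrt Q) := by
      intro p hp
      obtain ⟨hp1, hp2⟩ := mem_erase.1 hp
      rw [Fintype.mem_piFinset] at hp2
      have hnz : ‖∏ a, (z a)⁻¹ ^ p a‖ = 1 := by
        rw [norm_prod]
        apply prod_eq_one
        intro a _
        rw [norm_pow, norm_inv, Complex.norm_eq_one_of_pow_eq_one (hz a) hM.ne', inv_one, one_pow]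
      rw [norm_mul, hnz, one_mul]
      have hex : ∃ a, ¬ M ∣ p a := by
        by_contra hcon
        push Not at hcon
        apply hp1
        funext a
        have h2 := mem_Icc.1 (hp2 a)
        exact le_antisymm h2.2 (Nat.le_of_dvd (by omega) (hcon a))
      have h2 := hb k F L I ψ hψ hD.le v hv hind p (fun a => (mem_Icc.1 (hp2 a)).2) hex
      rw [← mul_div_assoc, le_div_iff₀ (by linarith)]
      exact h2
    calc _ ≤ ∑ p ∈ (Fintype.piFinset (fun _ : I => Icc 1 M)).erase pM,
          K * (Q ^ k / Real.sqrt Q) := sum_le_sum h1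
      _ = (((Fintype.piFinset (fun _ : I => Icc 1 M)).erase pM).card : ℝ) *
          (K * (Q ^ k / Real.sqrt Q)) := by rw [sum_const, nsmul_eq_mul]
      _ ≤ (M : ℝ) ^ D * (K * (Q ^ k / Real.sqrt Q)) := by
          apply mul_le_mul_of_nonneg_right _ (by positivity)
          have h3 := card_le_card (erase_subset pM (Fintype.piFinset (fun _ : I => Icc 1 M)))
          rw [Fintype.card_piFinset, prod_const, card_univ, hD, Nat.card_Icc] at h3
          simp only [Nat.add_sub_cancel] at h3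
          exact_mod_cast h3
  have hsplit := add_sum_erase (Fintype.piFinset (fun _ : I => Icc 1 M))
    (fun p => (∏ a, (z a)⁻¹ ^ p a) * S p) hpMmem
  have hone : (∏ a, (z a)⁻¹ ^ pM a) = 1 := by
    apply prod_eq_one
    intro a _
    rw [hpM]
    simp only
    rw [inv_pow, hz a, inv_one]
  simp only [hone, one_mul] at hsplit
  rw [hSM] at hsplit
  rw [← hexp] at hsplit
  have hnorm : ‖((((M : ℝ) ^ D * ({x : Fin k → L | ∀ a, ψ (lf (v a) x) = z a}.ncard : ℝ) -
      (((univ \ Z).card : ℕ) : ℝ) : ℝ)) : ℂ)‖ ≤ (M : ℝ) ^ D * (K * (Q ^ k / Real.sqrt Q)) := by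
    refine le_trans (le_of_eq ?_) hrest
    congr 1
    push_cast
    rw [← hsplit]
    ring
  rw [Complex.norm_real, Real.norm_eq_abs, abs_le] at hnorm
  have := hnorm.1
  nlinarith [hmainlow]

end Pool.Agent.Helper491_Par.Equi
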