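import Pool.Agent.Helper491_Par.Odd

/-!
# Finite fields: the lines of `K × K` over `F` not contained in a one-dimensional `K`-subspace
are the disjoint union of line spreads, if `|F| > 2` or `[K : F]` is odd.
-/

set_option autoImplicit false

namespace Pool.Agent.Helper491_Par

open Module

theorem exists_c (F : Type) [Field F] [Finite F] : ∃ c : F, ∀ z : F, z ^ 2 ≠ z + c := by
  by_contra hcon
  push Not at hcon
  have hsurj : Function.Surjective (fun z : F => z ^ 2 - z) := fun c => by
    obtain ⟨z, hz⟩ := hcon c
    exact ⟨z, by simp only; rw [hz]; ring⟩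
  have hinj := Finite.injective_iff_surjective.2 hsurj
  have : (0 : F) = 1 := hinj (by simp)
  exact zero_ne_one this

section

variable {F K : Type} [Field F] [Field K] [Algebra F K]

theorem splits_odd [Finite K] (h : Odd (finrank F K)) : Splits (Rl F K (K × K)) := by
  have : Finite F := Finite.of_injective _ (algebraMap F K).injective
  obtain ⟨c, hc⟩ := exists_c F
  exact splits_odd_aux (quadClosed_of_odd h) hc

theorem quadData_finite [Fintype F] [Finite K] (h : finrank F K = 2) :
    QuadData F K (FiniteField.frobeniusAlgHom F K) where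
  rank := h
  inv x := by
    have h1 := FiniteField.orderOf_frobeniusAlgHom F K
    rw [h] at h1
    have h2 := pow_orderOf_eq_one (FiniteField.frobeniusAlgHom F K)
    rw [h1] at h2
    have h3 := DFunLike.congr_fun h2 x
    rw [pow_two] at h3
    exact h3
  fixed x hx := by
    have h1 : x ∈ (⊥ : IntermediateField F K) := (IsGalois.mem_bot_iff_fixed x).2 (fun f => by
      obtain ⟨n, hn⟩ := (FiniteField.bijective_frobeniusAlgEquivOfAlgebraic_pow F K).2 f
      rw [← hn]
      simp only [AlgEquiv.coe_pow]
      exact Function.iterate_fixed hx _)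
    obtain ⟨a, ha⟩ := IntermediateField.mem_bot.1 h1
    exact ⟨a, ha.symm⟩

theorem exists_ext [Fintype F] [Finite K] (h : finrank F K = 2) (h3 : 2 < Fintype.card F) :
    ∃ P R : K, Ext (FiniteField.frobeniusAlgHom F K) P R := by
  set σ := FiniteField.frobeniusAlgHom F K with hσ
  have hd : QuadData F K σ := quadData_finite h
  have hσx : ∀ x, σ x = x ^ Fintype.card F := fun x => rfl
  -- an element of `F` different from `0`, `1`
  obtain ⟨a, ha0, ha1⟩ : ∃ a : F, a ≠ 0 ∧ a ≠ 1 := by
    classical
    by_contra hcon
    push Not at hcon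
    have : (Finset.univ : Finset F) ⊆ {0, 1} := by
      intro x _
      by_cases hx : x = 0
      · simp [hx]
      · simp [hcon x hx]
    have h4 := Finset.card_le_card this
    have h5 : ({0, 1} : Finset F).card ≤ 2 := Finset.card_le_two
    rw [Finset.card_univ] at h4
    omega
  obtain ⟨w, hw⟩ := exists_not_mem hd
  have hδ : w - σ w ≠ 0 := by
    intro h0
    obtain ⟨b, hb⟩ := hd.fixed w (sub_eq_zero.1 h0).symm
    exact hw b hb
  set δ := w - σ w with hδdef
  have hσδ : σ δ = -δ := by
    rw [hδdef, map_sub, hd.inv]; ring
  obtain ⟨α, hα⟩ := FiniteField.norm_surjective F K a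
  obtain ⟨y, hy⟩ := Algebra.trace_surjective F K (-(a + 1))
  have hαα : α * σ α = algebraMap F K a := by
    rw [← hα, FiniteField.algebraMap_norm_eq_prod_pow, h, hσx, Nat.card_eq_fintype_card]
    simp [Finset.prod_range_succ]
  have hyy : y + σ y = -(algebraMap F K a + 1) := by
    have : algebraMap F K (Algebra.trace F K y) = y + σ y := by
      rw [FiniteField.algebraMap_trace_eq_sum_pow, h, hσx, Nat.card_eq_fintype_card]
      simp [Finset.sum_range_succ]
    rw [← this, hy]
    simp
  have haK : algebraMap F K a ≠ 0 := by rwa [Ne, map_eq_zero]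
  have hα0 : α ≠ 0 := by
    rintro rfl
    rw [zero_mul] at hαα
    exact haK hαα.symm
  refine ⟨y / δ, α / δ, div_ne_zero hα0 hδ, ?_⟩
  intro x hx c hcx
  have hσx0 : σ x ≠ 0 := by rwa [Ne, map_eq_zero]
  set z := α * (σ x / x) with hz
  have h1 : y + z = algebraMap F K c * δ := by
    have : (y + z) * x = algebraMap F K c * δ * x := by
      rw [hz]
      field_simp
      field_simp at hcx
      linear_combination hcx
    exact mul_right_cancel₀ hx this
  have h2 : σ y + σ z = -(algebraMap F K c * δ) := by
    rw [← map_add, h1, map_mul, hσδ, AlgHom.commutes]; ring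
  have h4 : z + σ z = algebraMap F K a + 1 := by linear_combination h1 + h2 - hyy
  have h5 : z * σ z = algebraMap F K a := by
    rw [hz, map_mul, map_div₀, hd.inv, ← hαα]
    field_simp
  have h6 : (z - algebraMap F K a) * (z - 1) = 0 := by
    linear_combination z * h4 - h5
  have h7 : ∃ b : F, z = algebraMap F K b ∧ (b = a ∨ b = 1) := by
    rcases mul_eq_zero.1 h6 with h | h
    · exact ⟨a, sub_eq_zero.1 h, Or.inl rfl⟩
    · exact ⟨1, by rw [map_one]; exact sub_eq_zero.1 h, Or.inr rfl⟩
  obtain ⟨b, hb, hb'⟩ := h7
  have h8 : σ z = z := by rw [hb, AlgHom.commutes]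
  rw [h8, hb, ← map_mul] at h5
  have h9 : b * b = a := (algebraMap F K).injective h5
  rcases hb' with rfl | rfl
  · apply ha1
    have : b * (b - 1) = 0 := by linear_combination h9
    exact sub_eq_zero.1 ((mul_eq_zero.1 this).resolve_left ha0)
  · apply ha1
    rw [← h9, mul_one]

theorem splits_two [Finite K] (h : finrank F K = 2) (h3 : 2 < Nat.card F) :
    Splits (Rl F K (K × K)) := by
  have : Finite F := Finite.of_injective _ (algebraMap F K).injective
  have := Fintype.ofFinite F
  rw [Nat.card_eq_fintype_card] at h3
  obtain ⟨P, R, hPR⟩ := exists_ext h h3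
  exact splits_two_aux (quadData_finite h) hPR

end

/-- **The relative splitting.** -/
theorem splits_all (n : ℕ) : ∀ (F K : Type) [Field F] [Field K] [Algebra F K] [Finite K],
    finrank F K = n → (2 < Nat.card F ∨ Odd n) → Splits (Rl F K (K × K)) := by
  induction n using Nat.strong_induction_on with
  | _ n ih =>
    intro F K _ _ _ _ hn h
    by_cases hodd : Odd n
    · exact splits_odd (hn ▸ hodd)
    · have h3 : 2 < Nat.card F := h.resolve_right hodd
      have heven : Even n := Nat.not_odd_iff_even.1 hodd
      have hF : Finite F := Finite.of_injective _ (algebraMap F K).injective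
      have hfd : FiniteDimensional F K := inferInstance
      have hcard : Nat.card Gal(K/F) = n := by
        rw [IsGalois.card_aut_eq_finrank, hn]
      have hfin : Finite Gal(K/F) := inferInstance
      obtain ⟨τ, hτ⟩ := exists_prime_orderOf_dvd_card' 2
        (by rw [hcard]; exact even_iff_two_dvd.1 heven : 2 ∣ Nat.card Gal(K/F))
      let K' : IntermediateField F K := IntermediateField.fixedField (Subgroup.zpowers τ)
      have h2 : finrank K' K = 2 := by
        rw [IntermediateField.finrank_fixedField_eq_card, Nat.card_zpowers, hτ]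
      have hn' : finrank F K' * 2 = n := by rw [← h2, finrank_mul_finrank, hn]
      have hpos : 0 < n := hn ▸ finrank_pos
      have hK' : 2 < Nat.card K' :=
        h3.trans_le (Nat.card_le_card_of_injective _ (algebraMap F K').injective)
      exact splits_comp (K' := K') (splits_two h2 hK')
        (ih (finrank F K') (by omega) F K' rfl (Or.inl h3))

end Pool.Agent.Helper491_Par
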