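import Pool.Agent.Helper491_Par.PartII

/-!
# Nearly all the `k`-dimensional subspaces are covered by disjoint spreads
-/

set_option autoImplicit false

namespace Pool.Agent.Helper491_Par

open Module Finset Sw

/-- The number of members of a spread. -/
theorem spread_card {F V : Type} [Field F] [Fintype F] [AddCommGroup V] [Module F V] [Finite V]
    {k : ℕ} {S : Set (Submodule F V)} (hS : IsKSpread k S) :
    S.ncard * (Fintype.card F ^ k - 1) = Fintype.card F ^ finrank F V - 1 := by
  classical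
  have hVf : Fintype V := Fintype.ofFinite V
  have hfin : S.Finite := Set.toFinite S
  rw [Set.ncard_eq_toFinset_card S hfin]
  have key := Finset.card_mul_eq_card_mul (s := (Finset.univ.filter (fun v : V => v ≠ 0)))
    (t := hfin.toFinset) (fun (v : V) (W : Submodule F V) => v ∈ W) (m := 1)
    (n := Fintype.card F ^ k - 1) ?_ ?_
  · rw [mul_one] at key
    rw [← key, filter_ne', card_erase_of_mem (mem_univ _), card_univ,
      Module.card_eq_pow_finrank (K := F) (V := V)]
  · intro v hv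
    obtain ⟨W, ⟨hW, hvW⟩, hu⟩ := hS.2 v (by simpa using hv)
    rw [card_eq_one]
    refine ⟨W, ?_⟩
    ext X
    rw [mem_bipartiteAbove, mem_singleton, Set.Finite.mem_toFinset]
    constructor
    · rintro ⟨h1, h2⟩
      exact hu X ⟨h1, h2⟩
    · rintro rfl
      exact ⟨hW, hvW⟩
  · intro W hW
    rw [Set.Finite.mem_toFinset] at hW
    have h1 : (Finset.bipartiteBelow (fun (v : V) (W : Submodule F V) => v ∈ W)
        (Finset.univ.filter (fun v : V => v ≠ 0)) W) = (univ.filter (· ∈ W)).erase 0 := by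
      ext v
      simp only [mem_bipartiteBelow, mem_filter, mem_univ, true_and, mem_erase]
    rw [h1, card_erase_of_mem (by simp), ← Fintype.card_subtype,
      Module.card_eq_pow_finrank (K := F) (V := W), hS.1 W hW]

/-- A bound for the number of `k`-dimensional subspaces. -/
theorem grass_card {F V : Type} [Field F] [Fintype F] [AddCommGroup V] [Module F V] [Finite V]
    (k : ℕ) : {W : Submodule F V | finrank F W = k}.ncard * BB F k ≤
      (Fintype.card F ^ finrank F V) ^ k := by
  classical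
  have hVf : Fintype V := Fintype.ofFinite V
  let Φ : (Σ W : {W : Submodule F V // finrank F W = k},
      {s : Fin k → W.1 // LinearIndependent F s}) → (Fin k → V) := fun p i => (p.2.1 i : V)
  have hspan : ∀ p : (Σ W : {W : Submodule F V // finrank F W = k},
      {s : Fin k → W.1 // LinearIndependent F s}),
      Submodule.span F (Set.range (Φ p)) = p.1.1 := by
    rintro ⟨⟨W, hW⟩, ⟨s, hs⟩⟩
    have hfd : FiniteDimensional F W := Module.Finite.of_finite
    apply Submodule.eq_of_le_of_finrank_eq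
    · rw [Submodule.span_le]
      rintro _ ⟨i, rfl⟩
      exact (s i).2
    · have h1 : LinearIndependent F (fun i => (s i : V)) :=
        hs.map' W.subtype (Submodule.ker_subtype W)
      have h2 := finrank_span_eq_card h1
      rw [Fintype.card_fin] at h2
      rw [hW]
      exact h2
  have hΦ : Function.Injective Φ := by
    intro p p' h
    have h1 : p.1 = p'.1 := Subtype.ext (by rw [← hspan p, ← hspan p', h])
    obtain ⟨W, s⟩ := p
    obtain ⟨W', s'⟩ := p'
    simp only at h1
    subst h1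
    congr 1
    apply Subtype.ext
    funext i
    exact Subtype.ext (congrFun h i)
  have hc := Nat.card_le_card_of_injective Φ hΦ
  rw [Nat.card_sigma] at hc
  have h2 : ∀ W : {W : Submodule F V // finrank F W = k},
      Nat.card {s : Fin k → W.1 // LinearIndependent F s} = BB F k := by
    rintro ⟨W, hW⟩
    rw [card_linearIndependent (by rw [hW]), hW]
    rfl
  simp only [h2, sum_const, smul_eq_mul, card_univ] at hc
  rw [← Nat.card_eq_fintype_card, Nat.card_eq_fintype_card (α := Fin k → V), Fintype.card_fun,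
    Fintype.card_fin, Module.card_eq_pow_finrank (K := F) (V := V)] at hc
  exact hc

/-- The two parts together. -/
theorem NP_all (F : Type) [Field F] [Fintype F] (k : ℕ) (hk : 2 ≤ k) (ε : ℝ) (hε : 0 < ε) :
    ∃ n0 : ℕ, ∀ n : ℕ, n0 ≤ n → k ∣ n → ∀ (V : Type) [AddCommGroup V] [Module F V],
      finrank F V = n → NP F V k ε := by
  obtain ⟨n', m0, hn', hkn', hI⟩ := partI F k hk (ε / 2) (by positivity)
  have hII : ∀ n2 : ℕ, ∃ m : ℕ, 0 < n2 → k ∣ n2 → ∀ n1 : ℕ, m ≤ n1 → ∀ (U : Type)
      [AddCommGroup U] [Module F U], finrank F U = n1 → ∀ ε1 : ℝ, 0 ≤ ε1 → NP F U k ε1 →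
      ∀ (V : Type) [AddCommGroup V] [Module F V], finrank F V = n1 + n2 →
      NP F V k (ε1 + ε / 2) := by
    intro n2
    by_cases h : 0 < n2 ∧ k ∣ n2
    · obtain ⟨m, hm⟩ := partII F k hk n2 h.1 h.2 (ε / 2) (by positivity)
      exact ⟨m, fun _ _ => hm⟩
    · refine ⟨0, fun h1 h2 => ?_⟩
      exact absurd ⟨h1, h2⟩ h
  choose m hm using hII
  -- the thresholds
  set mm := ∑ i ∈ range (n' + k), m i with hmm
  refine ⟨mm + m0 + n' + k, ?_⟩
  intro n hn hkn V _ _ hV
  have hk0 : 0 < k := by omega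
  -- `n1` is the largest multiple of `n'` at most `n - k`
  set n1 := n' * ((n - k) / n') with hn1
  have h1 : n1 ≤ n - k := Nat.mul_div_le _ _
  have h2 : n - k < n1 + n' := by
    have := Nat.lt_mul_div_succ (n - k) hn'
    rw [Nat.mul_succ] at this
    exact this
  set n2 := n - n1 with hn2
  have h3 : k ≤ n2 := by omega
  have h4 : n2 < n' + k := by omega
  have h5 : k ∣ n2 := by
    apply Nat.dvd_sub hkn
    exact hkn'.trans (Dvd.intro _ rfl)
  have h6 : m n2 ≤ mm := by
    rw [hmm]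
    exact single_le_sum (f := m) (fun i _ => Nat.zero_le _) (mem_range.2 h4)
  have h7 : n = n1 + n2 := by omega
  have hU : finrank F (Fin n1 → F) = n1 := by
    rw [finrank_fintype_fun_eq_card, Fintype.card_fin]
  have := hm n2 (by omega) h5 n1 (by omega) (Fin n1 → F) hU (ε / 2) (by positivity)
    (hI n1 (by omega) (Dvd.intro _ rfl) (Fin n1 → F) hU) V (by rw [hV]; exact h7)
  rwa [add_halves] at this

/-- The fraction of the subspaces covered. -/
theorem fraction (F : Type) [Field F] [Fintype F] (k : ℕ) (hk : 2 ≤ k) (ε : ℝ) (hε : 0 < ε) :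
    ∃ n0 : ℕ, ∀ n : ℕ, n0 ≤ n → k ∣ n → ∀ (V : Type) [AddCommGroup V] [Module F V] [Finite V],
      finrank F V = n → ∃ (N : ℕ) (S : Fin N → Set (Submodule F V)), (∀ i, IsKSpread k (S i)) ∧
        (∀ i j W, W ∈ S i → W ∈ S j → i = j) ∧
        (1 - ε) * ({W : Submodule F V | finrank F W = k}.ncard : ℝ) ≤
          ((⋃ i, S i).ncard : ℝ) := by
  classical
  by_cases hε1 : 1 ≤ ε
  · refine ⟨0, ?_⟩
    intro n _ _ V _ _ _ _
    refine ⟨0, fun i => i.elim0, fun i => i.elim0, fun i => i.elim0, ?_⟩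
    have h3 : (1 - ε) * ({W : Submodule F V | finrank F W = k}.ncard : ℝ) ≤ 0 :=
      mul_nonpos_of_nonpos_of_nonneg (by linarith) (Nat.cast_nonneg _)
    exact h3.trans (Nat.cast_nonneg _)
  push Not at hε1
  obtain ⟨n0, hn0⟩ := NP_all F k hk (ε / 2) (by positivity)
  obtain ⟨j, hj⟩ := exists_nat_gt (2 / ε)
  refine ⟨n0 + j, ?_⟩
  intro n hn hkn V _ _ _ hV
  obtain ⟨N, ⟨S, hS1, hS2⟩, hN⟩ := hn0 n (by omega) hkn V hV
  refine ⟨N, S, hS1, hS2, ?_⟩
  set q := Fintype.card F with hq
  have hq2 : 2 ≤ q := Fintype.one_lt_card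
  have hq1R : (1 : ℝ) < q := by exact_mod_cast hq2
  have hqk : 2 ≤ q ^ k := le_trans hq2 (Nat.le_self_pow (by omega) q)
  have hqkR : (0 : ℝ) < (q : ℝ) ^ k - 1 := by
    have : (1 : ℝ) < (q : ℝ) ^ k := one_lt_pow₀ hq1R (by omega)
    linarith
  have hQ : j < q ^ n := lt_of_le_of_lt (by omega : j ≤ n) (Nat.lt_pow_self hq2)
  have hQR : 2 / ε < (q : ℝ) ^ n := hj.trans (by exact_mod_cast hQ)
  -- the number of covered subspaces
  have hdisj : ∀ i ∈ (univ : Finset (Fin N)), ∀ j ∈ (univ : Finset (Fin N)), i ≠ j →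
      Disjoint ((Set.toFinite (S i)).toFinset) ((Set.toFinite (S j)).toFinset) := by
    intro i _ j _ hij
    rw [Finset.disjoint_left]
    intro W h1 h2
    rw [Set.Finite.mem_toFinset] at h1 h2
    exact hij (hS2 i j W h1 h2)
  have hcov : (⋃ i, S i).ncard = ∑ i, (S i).ncard := by
    have h1 : (⋃ i, S i) = ((univ.biUnion (fun i => (Set.toFinite (S i)).toFinset) :
        Finset (Submodule F V)) : Set (Submodule F V)) := by
      ext W
      simp
    rw [h1, Set.ncard_coe_finset, card_biUnion hdisj]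
    exact sum_congr rfl fun i _ => (Set.ncard_eq_toFinset_card _ _).symm
  have hcov2 : (⋃ i, S i).ncard * (q ^ k - 1) = N * (q ^ n - 1) := by
    rw [hcov, sum_mul]
    have : ∀ i ∈ (univ : Finset (Fin N)), (S i).ncard * (q ^ k - 1) = q ^ n - 1 := by
      intro i _
      rw [spread_card (hS1 i), hV]
    rw [sum_congr rfl this, sum_const, card_univ, Fintype.card_fin, smul_eq_mul]
  have hQ1 : 1 ≤ q ^ n := Nat.one_le_pow _ _ (by omega)
  have hcov3 : ((⋃ i, S i).ncard : ℝ) * ((q : ℝ) ^ k - 1) = N * ((q : ℝ) ^ n - 1) := by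
    have h1 : (((⋃ i, S i).ncard * (q ^ k - 1) : ℕ) : ℝ) = ((N * (q ^ n - 1) : ℕ) : ℝ) := by
      rw [hcov2]
    rw [Nat.cast_mul, Nat.cast_mul, Nat.cast_sub (by omega), Nat.cast_sub (by omega)] at h1
    push_cast at h1
    exact h1
  have htot : ({W : Submodule F V | finrank F W = k}.ncard : ℝ) * BB F k ≤ ((q : ℝ) ^ n) ^ k := by
    have h1 := grass_card (F := F) (V := V) k
    rw [hV] at h1
    exact_mod_cast h1
  have hBB0 : 0 < BB F k := by
    unfold BB
    apply prod_pos
    intro i _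
    have h1 : Fintype.card F ^ (i : ℕ) < Fintype.card F ^ k :=
      Nat.pow_lt_pow_right (by omega) i.2
    omega
  have hBB0' : (0 : ℝ) < BB F k := by exact_mod_cast hBB0
  rw [hV] at hN
  set Q : ℝ := (q : ℝ) ^ n with hQd
  set C : ℝ := ((⋃ i, S i).ncard : ℝ) with hC
  set T : ℝ := ({W : Submodule F V | finrank F W = k}.ncard : ℝ) with hT
  have hQpos : 0 < Q := by positivity
  have hQm1 : (1 - ε / 2) * Q ≤ Q - 1 := by
    have h1 : 1 ≤ ε / 2 * Q := by
      rw [div_lt_iff₀ hε] at hQR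
      linarith
    linarith
  have hQk : Q ^ k = Q ^ (k - 1) * Q := by
    rw [← pow_succ]
    congr 1
    omega
  -- compare
  have h1 : (1 - ε) * Q ^ k ≤ C * BB F k := by
    have h2 : (1 - ε / 2) * (((q : ℝ) ^ k - 1) * Q ^ (k - 1)) * (Q - 1) ≤
        C * BB F k * ((q : ℝ) ^ k - 1) := by
      calc (1 - ε / 2) * (((q : ℝ) ^ k - 1) * Q ^ (k - 1)) * (Q - 1)
          ≤ N * BB F k * (Q - 1) := mul_le_mul_of_nonneg_right hN (by
            have h0 : 0 ≤ (1 - ε / 2) * Q := mul_nonneg (by linarith) hQpos.le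
            linarith)
        _ = (C * ((q : ℝ) ^ k - 1)) * BB F k := by rw [hcov3]; ring
        _ = _ := by ring
    have h3 : (1 - ε / 2) * Q ^ (k - 1) * (Q - 1) ≤ C * BB F k := by
      have h4 : ((1 - ε / 2) * Q ^ (k - 1) * (Q - 1)) * ((q : ℝ) ^ k - 1) ≤
          C * BB F k * ((q : ℝ) ^ k - 1) := by
        refine le_trans (le_of_eq ?_) h2
        ring
      exact le_of_mul_le_mul_right h4 hqkR
    refine le_trans ?_ h3
    have h5 : (1 - ε / 2) * Q ^ (k - 1) * ((1 - ε / 2) * Q) ≤ (1 - ε / 2) * Q ^ (k - 1) * (Q - 1) :=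
      mul_le_mul_of_nonneg_left hQm1 (mul_nonneg (by linarith) (by positivity))
    refine le_trans ?_ h5
    rw [hQk]
    have h6 : (1 - ε / 2) * Q ^ (k - 1) * ((1 - ε / 2) * Q) =
        (1 - ε) * (Q ^ (k - 1) * Q) + ε ^ 2 / 4 * (Q ^ (k - 1) * Q) := by ring
    rw [h6]
    have h7 : 0 ≤ ε ^ 2 / 4 * (Q ^ (k - 1) * Q) := by positivity
    linarith
  have h2 : (1 - ε) * T * BB F k ≤ C * BB F k := by
    refine le_trans ?_ h1
    rw [mul_assoc]
    exact mul_le_mul_of_nonneg_left htot (by linarith)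
  exact le_of_mul_le_mul_right h2 hBB0'

end Pool.Agent.Helper491_Par
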