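import Pool.Agent.Helper491_Par.Cnt

/-!
# The hypergraph of switches
-/

set_option autoImplicit false

set_option linter.unusedSectionVars false

namespace Pool.Agent.Helper491_Par.Sw

open Module Finset

open scoped LinearAlgebra.Projectivization

section

variable {F K1 K2 U : Type} [Field F] [Fintype F] [Field K1] [Fintype K1] [Algebra F K1] [Field K2]
  [Fintype K2] [Algebra F K2] [Algebra K1 K2] [IsScalarTower F K1 K2] [AddCommGroup U] [Module F U]
  [Fintype U]

/-- The coset of `f`. -/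
def cc (f : K1 →ₗ[F] K2) : K1 →ₗ[F] K2 := f - mr F (f 1)

omit [Fintype F] [Fintype K1] [Fintype K2] in
theorem cc_add (f : K1 →ₗ[F] K2) : cc f + mr F (f 1) = f := sub_add_cancel _ _

omit [Fintype F] [Fintype K1] [Fintype K2] in
theorem cc_one (f : K1 →ₗ[F] K2) : cc f 1 = 0 := by
  unfold cc
  rw [LinearMap.sub_apply, mr_apply, map_one (algebraMap K1 K2), mul_one, sub_self]

omit [Fintype F] [Fintype K1] [Fintype K2] in
theorem cc_of {c : K1 →ₗ[F] K2} (hc : c 1 = 0) (a : K2) :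
    cc (c + mr F a) = c ∧ (c + mr F a : K1 →ₗ[F] K2) 1 = a := by
  have h1 : (c + mr F a : K1 →ₗ[F] K2) 1 = a := by
    rw [LinearMap.add_apply, mr_apply, map_one (algebraMap K1 K2), mul_one, hc, zero_add]
  refine ⟨?_, h1⟩
  unfold cc
  rw [h1, add_sub_cancel_right]

/-- The data. -/
structure Dat (F K1 K2 U : Type) [Field F] [Fintype F] [Field K1] [Algebra F K1] [Field K2]
    [Algebra F K2] [Algebra K1 K2] [AddCommGroup U] [Module F U] (k N : ℕ) where
  S : Fin N → Set (Submodule F U)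
  hS : ∀ i, IsKSpread k (S i)
  hdisj : ∀ i j W, W ∈ S i → W ∈ S j → i = j
  ι : Submodule F U → (K1 →ₗ[F] U)
  hι : ∀ i, ∀ E ∈ S i, Function.Injective (ι E) ∧ LinearMap.range (ι E) = E
  hk : finrank F K1 = k
  hk2 : 2 ≤ k

variable {k N : ℕ} (D : Dat F K1 K2 U k N)

/-- The switches. -/
def Edge : Type := {p : Submodule F U × (K1 →ₗ[F] K2) × K2 // (∃ i, p.1 ∈ D.S i) ∧ p.2.2 ≠ 0}

variable {D}

/-- The subspace of `U`. -/
def Edge.E (e : Edge D) : Submodule F U := e.1.1
/-- The map. -/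
def Edge.f (e : Edge D) : K1 →ₗ[F] K2 := e.1.2.1
/-- The factor. -/
def Edge.β (e : Edge D) : K2 := e.1.2.2
omit [Fintype K1] [Fintype K2] [IsScalarTower F K1 K2] [Fintype U] in
theorem Edge.hβ (e : Edge D) : e.β ≠ 0 := e.2.2
/-- The index of the spread. -/
noncomputable def Edge.i (e : Edge D) : Fin N := e.2.1.choose
omit [Fintype K1] [Fintype K2] [IsScalarTower F K1 K2] [Fintype U] in
theorem Edge.hi (e : Edge D) : e.E ∈ D.S e.i := e.2.1.choose_spec
/-- The class of the factor. -/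
def Edge.j (e : Edge D) : ℙ K1 K2 := Projectivization.mk K1 e.β e.hβ

omit [Fintype K1] [Fintype K2] [IsScalarTower F K1 K2] [Fintype U] in
theorem Edge.ext' {e e' : Edge D} (h1 : e.E = e'.E) (h2 : e.f = e'.f) (h3 : e.β = e'.β) : e = e' :=
  Subtype.ext (Prod.ext h1 (Prod.ext h2 h3))

omit [Fintype K1] [Fintype K2] [IsScalarTower F K1 K2] [Fintype U] in
theorem Edge.i_eq {e : Edge D} {i : Fin N} (h : e.E ∈ D.S i) : e.i = i := D.hdisj _ _ _ e.hi h

omit [Fintype K1] [Fintype K2] [IsScalarTower F K1 K2] [Fintype U] in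
theorem Edge.hι (e : Edge D) : Function.Injective (D.ι e.E) ∧ LinearMap.range (D.ι e.E) = e.E :=
  D.hι _ _ e.hi

variable (D)

/-- The vertices. -/
abbrev Vx (F K1 K2 U : Type) [Field F] [Field K1] [Algebra F K1] [Field K2]
    [Algebra F K2] [Algebra K1 K2] [AddCommGroup U] [Module F U] (N : ℕ) : Type :=
  (Fin N × (K1 →ₗ[F] K2) × ℙ K1 K2) ⊕ ((K1 →ₗ[F] K2) × Submodule F U) ⊕ Submodule F (U × K2)

open Classical in
/-- The vertices of an edge. -/
noncomputable def Av (e : Edge D) : Finset (Vx F K1 K2 U N) :=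
  {Sum.inl (e.i, cc e.f, e.j), Sum.inr (Sum.inl (cc e.f, e.E))} ∪
    (univ.filter (fun κ : K1 => κ ≠ 0)).image
      (fun κ => Sum.inr (Sum.inr (Bk (D.ι e.E) e.f e.β κ)))

variable {D}

theorem mem_Av1 {e : Edge D} {i : Fin N} {c : K1 →ₗ[F] K2} {j : ℙ K1 K2} :
    (Sum.inl (i, c, j) : Vx F K1 K2 U N) ∈ Av D e ↔ i = e.i ∧ c = cc e.f ∧ j = e.j := by
  unfold Av
  simp

theorem mem_Av2 {e : Edge D} {c : K1 →ₗ[F] K2} {E : Submodule F U} :
    (Sum.inr (Sum.inl (c, E)) : Vx F K1 K2 U N) ∈ Av D e ↔ c = cc e.f ∧ E = e.E := by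
  unfold Av
  simp

theorem mem_Av3 {e : Edge D} {B : Submodule F (U × K2)} :
    (Sum.inr (Sum.inr B) : Vx F K1 K2 U N) ∈ Av D e ↔ B ∈ Bl (D.ι e.E) e.f e.β := by
  unfold Av Bl
  simp only [ne_eq, mem_union, mem_insert, reduceCtorEq, mem_singleton, Sum.inr.injEq, or_self,
    mem_image, mem_filter, mem_univ, true_and, false_or, Set.mem_ofPred_eq]
  constructor
  · rintro ⟨κ, hκ, h⟩
    exact ⟨κ, hκ, h.symm⟩
  · rintro ⟨κ, hκ, h⟩
    exact ⟨κ, hκ, h.symm⟩

theorem card_Av (e : Edge D) : (Av D e).card ≤ Fintype.card K1 + 2 := by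
  classical
  unfold Av
  refine (card_union_le _ _).trans ?_
  have h1 : ({Sum.inl (e.i, cc e.f, e.j), Sum.inr (Sum.inl (cc e.f, e.E))} :
      Finset (Vx F K1 K2 U N)).card ≤ 2 := card_le_two
  have h2 : ((univ.filter (fun κ : K1 => κ ≠ 0)).image
      (fun κ => (Sum.inr (Sum.inr (Bk (D.ι e.E) e.f e.β κ)) : Vx F K1 K2 U N))).card ≤
      Fintype.card K1 := card_image_le.trans (card_le_univ _)
  omega

theorem nonempty_Av (e : Edge D) : (Av D e).Nonempty :=
  ⟨Sum.inl (e.i, cc e.f, e.j), mem_Av1.2 ⟨rfl, rfl, rfl⟩⟩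

noncomputable instance : Fintype (Edge D) := by
  classical
  have h1 : Finite (K1 →ₗ[F] K2) := Module.finite_of_finite F
  have h2 : Finite (Submodule F U) := inferInstance
  unfold Edge
  exact Fintype.ofFinite _

/-- A nonzero vector of `K2` is a multiple of the representative. -/
theorem exists_tau (e : Edge D) : ∃ τ : K1ˣ, e.β = τ • e.j.rep := by
  obtain ⟨u, hu⟩ := Projectivization.exists_smul_eq_mk_rep K1 e.β e.hβ
  refine ⟨u⁻¹, ?_⟩
  have h1 : e.j.rep = u • e.β := hu.symm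
  rw [h1, smul_smul, inv_mul_cancel, one_smul]

open Classical in
/-- The degree of a vertex of the first kind. -/
theorem deg1 (i : Fin N) (c : K1 →ₗ[F] K2) (j : ℙ K1 K2) :
    (univ.filter (fun e : Edge D => (Sum.inl (i, c, j) : Vx F K1 K2 U N) ∈ Av D e)).card ≤
      (Fintype.card U - 1) * Fintype.card K2 := by
  choose τ hτ using (fun e : Edge D => exists_tau e)
  have h1 : (Fintype.card U - 1) * Fintype.card K2 =
      ((univ.erase (0 : U)) ×ˢ (univ : Finset K2)).card := by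
    rw [card_product, card_erase_of_mem (mem_univ _), card_univ, card_univ]
  rw [h1]
  refine Finset.card_le_card_of_injOn (fun e => (D.ι e.E (τ e : K1), e.f 1)) ?_ ?_
  · intro e _
    rw [mem_coe, mem_product, mem_erase]
    refine ⟨⟨?_, mem_univ _⟩, mem_univ _⟩
    intro h
    exact (τ e).ne_zero (e.hι.1 (h.trans (map_zero _).symm))
  · intro e he e' he' h
    obtain ⟨hi, hc, hj⟩ := mem_Av1.1 (mem_filter.1 (mem_coe.1 he)).2
    obtain ⟨hi', hc', hj'⟩ := mem_Av1.1 (mem_filter.1 (mem_coe.1 he')).2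
    rw [Prod.mk.injEq] at h
    have hne : D.ι e.E (τ e : K1) ≠ 0 := fun h0 =>
      (τ e).ne_zero (e.hι.1 (h0.trans (map_zero _).symm))
    have hEm : D.ι e.E (τ e : K1) ∈ e.E := by
      have h2 : D.ι e.E (τ e : K1) ∈ LinearMap.range (D.ι e.E) := ⟨_, rfl⟩
      rwa [e.hι.2] at h2
    have hEm' : D.ι e.E (τ e : K1) ∈ e'.E := by
      rw [h.1]
      have h2 : D.ι e'.E (τ e' : K1) ∈ LinearMap.range (D.ι e'.E) := ⟨_, rfl⟩
      rwa [e'.hι.2] at h2
    have hES : e.E ∈ D.S i := hi ▸ e.hi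
    have hES' : e'.E ∈ D.S i := hi' ▸ e'.hi
    have hEE : e.E = e'.E := ((D.hS i).2 _ hne).unique ⟨hES, hEm⟩ ⟨hES', hEm'⟩
    have hττ : (τ e : K1) = τ e' := by
      have h2 := h.1
      rw [hEE] at h2
      exact e'.hι.1 h2
    have hββ : e.β = e'.β := by
      rw [hτ e, hτ e', ← hj, ← hj', Units.ext hττ]
    have hff : e.f = e'.f := by
      rw [← cc_add e.f, ← cc_add e'.f, ← hc, ← hc', h.2]
    exact Edge.ext' hEE hff hββ

open Classical in
/-- The degree of a vertex of the second kind. -/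
theorem deg2 (c : K1 →ₗ[F] K2) (E : Submodule F U) :
    (univ.filter (fun e : Edge D => (Sum.inr (Sum.inl (c, E)) : Vx F K1 K2 U N) ∈ Av D e)).card ≤
      Fintype.card K2 * Fintype.card K2 := by
  have h1 : Fintype.card K2 * Fintype.card K2 = (univ : Finset (K2 × K2)).card := by
    rw [card_univ, Fintype.card_prod]
  rw [h1]
  refine Finset.card_le_card_of_injOn (fun e => (e.β, e.f 1)) (fun e _ => mem_coe.2 (mem_univ _)) ?_
  intro e he e' he' h
  obtain ⟨hc, hE⟩ := mem_Av2.1 (mem_filter.1 (mem_coe.1 he)).2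
  obtain ⟨hc', hE'⟩ := mem_Av2.1 (mem_filter.1 (mem_coe.1 he')).2
  rw [Prod.mk.injEq] at h
  have hff : e.f = e'.f := by
    rw [← cc_add e.f, ← cc_add e'.f, ← hc, ← hc', h.2]
  exact Edge.ext' (hE.symm.trans hE') hff h.1

open Classical in
/-- The degree of a vertex of the third kind. -/
theorem deg3 (B : Submodule F (U × K2)) :
    (univ.filter (fun e : Edge D => (Sum.inr (Sum.inr B) : Vx F K1 K2 U N) ∈ Av D e)).card ≤
      (Fintype.card U - 1) * Fintype.card K2 := by
  set X := univ.filter (fun e : Edge D => (Sum.inr (Sum.inr B) : Vx F K1 K2 U N) ∈ Av D e) with hX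
  set T : Finset (Submodule F U) := X.image Edge.E with hT
  set P := (Fintype.card F ^ finrank F K1 - Fintype.card F ^ (finrank F K1 - 1)) * Fintype.card K2
    with hP
  have hfib : ∀ E ∈ T, (X.filter (fun e => e.E = E)).card ≤ P := by
    intro E hE
    obtain ⟨e0, he0, rfl⟩ := mem_image.1 hE
    have h1 := perE (K2 := K2) e0.hι.1 B
    refine le_trans ?_ h1
    have hfinH : Finite (K1 →ₗ[F] K2) := Module.finite_of_finite F
    rw [← Fintype.card_coe, ← Nat.card_eq_fintype_card]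
    refine Nat.card_le_card_of_injective
      (fun e => ⟨(e.1.f, e.1.β), e.1.hβ, ?_⟩) ?_
    · obtain ⟨h2, h3⟩ := mem_filter.1 e.2
      have h4 := mem_Av3.1 (mem_filter.1 h2).2
      rw [h3] at h4
      exact h4
    · rintro ⟨e, he⟩ ⟨e', he'⟩ h
      have h2 : (e.f, e.β) = (e'.f, e'.β) := congrArg Subtype.val h
      rw [Prod.mk.injEq] at h2
      exact Subtype.ext (Edge.ext' ((mem_filter.1 he).2.trans (mem_filter.1 he').2.symm) h2.1 h2.2)
  have hsum : X.card = ∑ E ∈ T, (X.filter (fun e => e.E = E)).card := card_eq_sum_card_image _ X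
  have hle : X.card ≤ T.card * P := by
    rw [hsum]
    calc ∑ E ∈ T, (X.filter (fun e => e.E = E)).card ≤ ∑ E ∈ T, P := sum_le_sum hfib
      _ = T.card * P := by rw [sum_const, smul_eq_mul]
  refine hle.trans ?_
  by_cases hTe : T = ∅
  · rw [hTe, card_empty, zero_mul]
    exact Nat.zero_le _
  obtain ⟨E1, hE1⟩ := nonempty_iff_ne_empty.2 hTe
  obtain ⟨e1, he1, -⟩ := mem_image.1 hE1
  have hB1 := mem_Av3.1 (mem_filter.1 he1).2
  have hfr := finrank_fst e1.hι.1 hB1
  have hk1 : 1 ≤ finrank F K1 := by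
    have := D.hk
    have := D.hk2
    omega
  have hover := card_over hk1 (B.map (LinearMap.fst F U K2)) hfr T (by
    intro E hE
    obtain ⟨e, he, rfl⟩ := mem_image.1 hE
    refine ⟨?_, ?_⟩
    · rw [(D.hS e.i).1 e.E e.hi, D.hk]
    · have h2 := fst_le (mem_Av3.1 (mem_filter.1 he).2)
      rwa [e.hι.2] at h2)
  calc T.card * P = (T.card * (Fintype.card F ^ finrank F K1 -
        Fintype.card F ^ (finrank F K1 - 1))) * Fintype.card K2 := by rw [hP]; ring
    _ ≤ _ := Nat.mul_le_mul_right _ hover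

/-- Two distinct vertices determine the subspace. -/
theorem E_eq {u v : Vx F K1 K2 U N} (huv : u ≠ v) {e e' : Edge D} (hu : u ∈ Av D e)
    (hv : v ∈ Av D e) (hu' : u ∈ Av D e') (hv' : v ∈ Av D e') : e.E = e'.E := by
  -- the second kind
  have h2 : ∀ c E, (Sum.inr (Sum.inl (c, E)) : Vx F K1 K2 U N) ∈ Av D e →
      (Sum.inr (Sum.inl (c, E)) : Vx F K1 K2 U N) ∈ Av D e' → e.E = e'.E := by
    intro c E h h'
    rw [← (mem_Av2.1 h).2, ← (mem_Av2.1 h').2]
  -- the first and the third kind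
  have h13 : ∀ i c j B, (Sum.inl (i, c, j) : Vx F K1 K2 U N) ∈ Av D e →
      (Sum.inl (i, c, j) : Vx F K1 K2 U N) ∈ Av D e' →
      (Sum.inr (Sum.inr B) : Vx F K1 K2 U N) ∈ Av D e →
      (Sum.inr (Sum.inr B) : Vx F K1 K2 U N) ∈ Av D e' → e.E = e'.E := by
    intro i c j B h1 h1' h3 h3'
    have hi : e.E ∈ D.S i := (mem_Av1.1 h1).1 ▸ e.hi
    have hi' : e'.E ∈ D.S i := (mem_Av1.1 h1').1 ▸ e'.hi
    have hB := mem_Av3.1 h3
    have hB' := mem_Av3.1 h3'
    have hfr := finrank_fst e.hι.1 hB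
    have hk := D.hk
    have hk2 := D.hk2
    obtain ⟨x, hx, hx0⟩ : ∃ x ∈ B.map (LinearMap.fst F U K2), x ≠ 0 := by
      by_contra hcon
      push Not at hcon
      have h0 : B.map (LinearMap.fst F U K2) = ⊥ := by
        rw [Submodule.eq_bot_iff]
        exact hcon
      rw [h0, finrank_bot] at hfr
      omega
    have hxE : x ∈ e.E := by
      have := fst_le hB hx
      rwa [e.hι.2] at this
    have hxE' : x ∈ e'.E := by
      have := fst_le hB' hx
      rwa [e'.hι.2] at this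
    exact ((D.hS i).2 x hx0).unique ⟨hi, hxE⟩ ⟨hi', hxE'⟩
  rcases u with ⟨i, c, j⟩ | ⟨c, E⟩ | B
  · rcases v with ⟨i', c', j'⟩ | ⟨c', E'⟩ | B'
    · exfalso
      apply huv
      obtain ⟨a1, a2, a3⟩ := mem_Av1.1 hu
      obtain ⟨b1, b2, b3⟩ := mem_Av1.1 hv
      rw [a1, a2, a3, b1, b2, b3]
    · exact h2 _ _ hv hv'
    · exact h13 i c j B' hu hu' hv hv'
  · exact h2 _ _ hu hu'
  · rcases v with ⟨i', c', j'⟩ | ⟨c', E'⟩ | B'
    · exact h13 i' c' j' B hv hv' hu hu'
    · exact h2 _ _ hv hv'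
    · -- two blocks
      have hB := mem_Av3.1 hu
      have hB' := mem_Av3.1 hv
      have hC := mem_Av3.1 hu'
      have hC' := mem_Av3.1 hv'
      have hne : B'.map (LinearMap.fst F U K2) ≠ B.map (LinearMap.fst F U K2) := by
        intro h
        apply huv
        rw [bl_distinct e.hι.1 hB hB' h]
      have key : ∀ e0 : Edge D, B ∈ Bl (D.ι e0.E) e0.f e0.β → B' ∈ Bl (D.ι e0.E) e0.f e0.β →
          e0.E = B.map (LinearMap.fst F U K2) ⊔ B'.map (LinearMap.fst F U K2) := by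
        intro e0 h0 h0'
        have f1 := finrank_fst e0.hι.1 h0
        have f2 := finrank_fst e0.hι.1 h0'
        have l1 : B.map (LinearMap.fst F U K2) ≤ e0.E := by
          have := fst_le h0
          rwa [e0.hι.2] at this
        have l2 : B'.map (LinearMap.fst F U K2) ≤ e0.E := by
          have := fst_le h0'
          rwa [e0.hι.2] at this
        symm
        have hfd : FiniteDimensional F e0.E := Module.Finite.of_finite
        have hfd2 : FiniteDimensional F
            (B.map (LinearMap.fst F U K2) ⊔ B'.map (LinearMap.fst F U K2) : Submodule F U) :=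
          Module.Finite.of_finite
        apply Submodule.eq_of_le_of_finrank_le (sup_le l1 l2)
        rw [(D.hS e0.i).1 e0.E e0.hi, ← D.hk, ← f1]
        have h4 : B.map (LinearMap.fst F U K2) <
            B.map (LinearMap.fst F U K2) ⊔ B'.map (LinearMap.fst F U K2) := by
          refine lt_of_le_of_ne le_sup_left ?_
          intro h
          have h5 : B'.map (LinearMap.fst F U K2) ≤ B.map (LinearMap.fst F U K2) := by
            rw [h]
            exact le_sup_right
          have hfd3 : FiniteDimensional F (B.map (LinearMap.fst F U K2) : Submodule F U) :=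
            Module.Finite.of_finite
          exact hne (Submodule.eq_of_le_of_finrank_eq h5 (by omega))
        exact Submodule.finrank_lt_finrank_of_lt h4
      rw [key e hB hB', key e' hC hC']

open Classical in
/-- The codegrees. -/
theorem codeg {u v : Vx F K1 K2 U N} (huv : u ≠ v) :
    (univ.filter (fun e : Edge D => u ∈ Av D e ∧ v ∈ Av D e)).card ≤
      Nat.card (K1 →ₗ[F] K2) * Fintype.card K2 := by
  have hfinH : Finite (K1 →ₗ[F] K2) := Module.finite_of_finite F
  rw [← Fintype.card_coe, ← Nat.card_eq_fintype_card, ← Nat.card_eq_fintype_card (α := K2),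
    ← Nat.card_prod]
  refine Nat.card_le_card_of_injective (fun e => (e.1.f, e.1.β)) ?_
  rintro ⟨e, he⟩ ⟨e', he'⟩ h
  rw [Prod.mk.injEq] at h
  obtain ⟨-, h1, h2⟩ := mem_filter.1 he
  obtain ⟨-, h1', h2'⟩ := mem_filter.1 he'
  exact Subtype.ext (Edge.ext' (E_eq huv h1 h2 h1' h2') h.1 h.2)

/-- The number of edges. -/
theorem total : N * Nat.card {c : K1 →ₗ[F] K2 // c 1 = 0} * Nat.card (ℙ K1 K2) *
    ((Fintype.card U - 1) * Fintype.card K2) ≤ Fintype.card (Edge D) := by
  classical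
  have hfinH : Finite (K1 →ₗ[F] K2) := Module.finite_of_finite F
  have h1 : N * Nat.card {c : K1 →ₗ[F] K2 // c 1 = 0} * Nat.card (ℙ K1 K2) *
      ((Fintype.card U - 1) * Fintype.card K2) =
      Nat.card ((Fin N × {c : K1 →ₗ[F] K2 // c 1 = 0} × ℙ K1 K2) × ({u : U // u ≠ 0} × K2)) := by
    rw [Nat.card_prod, Nat.card_prod, Nat.card_prod, Nat.card_prod, Nat.card_eq_fintype_card (α := Fin N),
      Fintype.card_fin, Nat.card_eq_fintype_card (α := {u : U // u ≠ 0}),
      Nat.card_eq_fintype_card (α := K2), Fintype.card_subtype_compl, Fintype.card_subtype_eq]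
    ring
  rw [h1, ← Nat.card_eq_fintype_card]
  have hex : ∀ (i : Fin N) (u : {u : U // u ≠ 0}), ∃ E ∈ D.S i, ∃ t : K1, D.ι E t = u.1 := by
    intro i u
    obtain ⟨E, ⟨hE, hu⟩, -⟩ := (D.hS i).2 u.1 u.2
    refine ⟨E, hE, ?_⟩
    have h2 : u.1 ∈ LinearMap.range (D.ι E) := by
      rw [(D.hι i E hE).2]; exact hu
    exact h2
  choose EE hEE tt htt using hex
  have ht0 : ∀ i u, tt i u ≠ 0 := by
    intro i u h
    have := htt i u
    rw [h, map_zero] at this
    exact u.2 this.symm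
  have hr0 : ∀ (i : Fin N) (u : {u : U // u ≠ 0}) (j : ℙ K1 K2), tt i u • j.rep ≠ 0 :=
    fun i u j => smul_ne_zero (ht0 i u) j.rep_nonzero
  let Φ : ((Fin N × {c : K1 →ₗ[F] K2 // c 1 = 0} × ℙ K1 K2) × ({u : U // u ≠ 0} × K2)) → Edge D :=
    fun p => ⟨(EE p.1.1 p.2.1, p.1.2.1.1 + mr F p.2.2, tt p.1.1 p.2.1 • p.1.2.2.rep),
      ⟨p.1.1, hEE _ _⟩, hr0 _ _ _⟩
  refine Nat.card_le_card_of_injective Φ ?_
  rintro ⟨⟨i, ⟨c, hc⟩, j⟩, u, a⟩ ⟨⟨i', ⟨c', hc'⟩, j'⟩, u', a'⟩ h
  have hE : EE i u = EE i' u' := congrArg Edge.E h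
  have hf : c + mr F a = c' + mr F a' := congrArg Edge.f h
  have hβ : tt i u • j.rep = tt i' u' • j'.rep := congrArg Edge.β h
  have hii : i = i' := D.hdisj _ _ _ (hEE i u) (hE ▸ hEE i' u')
  subst hii
  have hcc : c = c' := by
    rw [← (cc_of hc a).1, ← (cc_of hc' a').1, hf]
  subst hcc
  have haa : a = a' := by
    rw [← (cc_of hc a).2, ← (cc_of hc a').2, hf]
  subst haa
  have hjj : j = j' := by
    rw [← j.mk_rep, ← j'.mk_rep, Projectivization.mk_eq_mk_iff' K1 _ _ j.rep_nonzero j'.rep_nonzero]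
    refine ⟨(tt i u)⁻¹ * tt i u', ?_⟩
    rw [mul_smul, ← hβ, smul_smul, inv_mul_cancel₀ (ht0 i u), one_smul]
  subst hjj
  have htt' : tt i u = tt i u' := smul_left_injective K1 j.rep_nonzero hβ
  have huu : u = u' := by
    apply Subtype.ext
    rw [← htt i u, ← htt i u', hE, htt']
  subst huu
  rfl

end

end Pool.Agent.Helper491_Par.Sw
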