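import Pool.Agent.Helper491_Par.Two

/-!
# Extensions `K / F` of odd degree
The lines of `K × K` over `F` which are not contained in a one-dimensional `K`-subspace are the
disjoint union of line spreads.
-/

set_option autoImplicit false

namespace Pool.Agent.Helper491_Par

open Module

section

variable {F K : Type} [Field F] [Field K] [Algebra F K]

/-- `F` is closed under the quadratic equations with a solution in `K`. -/
def QuadClosed (F K : Type) [Field F] [Field K] [Algebra F K] : Prop :=
  ∀ (p q : F) (z : K), z ^ 2 = algebraMap F K p * z + algebraMap F K q → ∃ a : F, z = algebraMap F K a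

theorem quadClosed_of_odd (h : Odd (finrank F K)) : QuadClosed F K := by
  intro p q z hz
  have hfd : FiniteDimensional F K := finite_of_finrank_pos h.pos
  have hint : IsIntegral F z := Algebra.IsIntegral.isIntegral z
  have hdvd : (minpoly F z).natDegree ∣ finrank F K := minpoly.degree_dvd hint
  have hodd : Odd (minpoly F z).natDegree := Odd.of_dvd_nat h hdvd
  set f : Polynomial F := Polynomial.X ^ 2 - (Polynomial.C p * Polynomial.X + Polynomial.C q) with hf
  have hfd2 : f.natDegree = 2 := by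
    rw [hf]
    compute_degree!
  have hf0 : f ≠ 0 := by
    intro h0
    rw [h0] at hfd2
    simp at hfd2
  have hroot : Polynomial.aeval z f = 0 := by
    rw [hf]
    simp [hz]
  have hle : (minpoly F z).natDegree ≤ 2 := by
    rw [← hfd2]
    exact Polynomial.natDegree_le_of_dvd (minpoly.dvd F z hroot) hf0
  have h1 : (minpoly F z).natDegree = 1 := by
    obtain ⟨k, hk⟩ := hodd
    omega
  obtain ⟨a, ha⟩ := minpoly.natDegree_eq_one_iff.1 h1
  exact ⟨a, ha.symm⟩

/-- The vector has coordinates independent over `F`. -/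
def Rk (F : Type) {K : Type} [Field F] [Field K] [Algebra F K] (v : K × K) : Prop :=
  ∀ s t : F, algebraMap F K s * v.1 + algebraMap F K t * v.2 = 0 → s = 0 ∧ t = 0

/-- Action of a matrix over `F`. -/
def act (a b c d : F) (v : K × K) : K × K :=
  (algebraMap F K a * v.1 + algebraMap F K b * v.2, algebraMap F K c * v.1 + algebraMap F K d * v.2)

/-- The main rigidity property: `A v = κ v` implies that `A` is scalar. -/
theorem eigen (hq : QuadClosed F K) {v : K × K} (hv : Rk F v) {κ : K} {a b c d : F}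
    (h1 : algebraMap F K a * v.1 + algebraMap F K b * v.2 = κ * v.1)
    (h2 : algebraMap F K c * v.1 + algebraMap F K d * v.2 = κ * v.2) :
    b = 0 ∧ c = 0 ∧ a = d ∧ κ = algebraMap F K a := by
  have hv1 : v.1 ≠ 0 := by
    intro h0
    have := hv 1 0 (by rw [h0]; simp)
    exact one_ne_zero this.1
  have hκ : κ ^ 2 = algebraMap F K (a + d) * κ + algebraMap F K (b * c - a * d) := by
    have h3 : (κ ^ 2 - (algebraMap F K (a + d) * κ + algebraMap F K (b * c - a * d))) * v.1 = 0 := by
      simp only [map_add, map_sub, map_mul]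
      linear_combination (-κ + algebraMap F K d) * h1 - algebraMap F K b * h2
    exact sub_eq_zero.1 ((mul_eq_zero.1 h3).resolve_right hv1)
  obtain ⟨k, hk⟩ := hq _ _ _ hκ
  rw [hk] at h1 h2
  have h4 := hv (a - k) b (by rw [map_sub]; linear_combination h1)
  have h5 := hv c (d - k) (by rw [map_sub]; linear_combination h2)
  have h6 : a = k := sub_eq_zero.1 h4.1
  have h7 : d = k := sub_eq_zero.1 h5.2
  exact ⟨h4.2, h5.1, h6.trans h7.symm, by rw [hk, h6]⟩

theorem Rk.act {v : K × K} (hv : Rk F v) {κ : K} (hκ : κ ≠ 0) {a b c d : F} (h : a * d - b * c ≠ 0) :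
    Rk F (κ • act a b c d v) := by
  intro s t hst
  simp only [Helper491_Par.act, Prod.smul_fst, Prod.smul_snd, smul_eq_mul] at hst
  have h1 : κ * (algebraMap F K (s * a + t * c) * v.1 + algebraMap F K (s * b + t * d) * v.2) = 0 := by
    simp only [map_add, map_mul]
    linear_combination hst
  have h2 := hv _ _ ((mul_eq_zero.1 h1).resolve_left hκ)
  constructor
  · have : s * (a * d - b * c) = 0 := by linear_combination d * h2.1 - c * h2.2
    exact (mul_eq_zero.1 this).resolve_right h
  · have : t * (a * d - b * c) = 0 := by linear_combination a * h2.2 - b * h2.1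
    exact (mul_eq_zero.1 this).resolve_right h

/-- Equivalence of vectors under scalars of `K` and matrices over `F`. -/
def Eqv (F : Type) {K : Type} [Field F] [Field K] [Algebra F K] (v w : K × K) : Prop :=
  ∃ κ : K, κ ≠ 0 ∧ ∃ a b c d : F, a * d - b * c ≠ 0 ∧ w = κ • act a b c d v

theorem eqv_refl (v : K × K) : Eqv F v v :=
  ⟨1, one_ne_zero, 1, 0, 0, 1, by simp, by ext <;> simp [act]⟩

theorem eqv_symm {v w : K × K} (h : Eqv F v w) : Eqv F w v := by
  obtain ⟨κ, hκ, a, b, c, d, hd, rfl⟩ := h
  have hD : algebraMap F K a * algebraMap F K d - algebraMap F K b * algebraMap F K c ≠ 0 := by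
    rw [← map_mul, ← map_mul, ← map_sub]
    rwa [Ne, map_eq_zero]
  refine ⟨κ⁻¹ * (algebraMap F K a * algebraMap F K d - algebraMap F K b * algebraMap F K c)⁻¹,
    mul_ne_zero (inv_ne_zero hκ) (inv_ne_zero hD), d, -b, -c, a, ?_, ?_⟩
  · intro h0; apply hd; linear_combination h0
  · ext
    · simp only [act, Prod.smul_fst, Prod.smul_snd, smul_eq_mul, map_neg]
      field_simp
      ring
    · simp only [act, Prod.smul_fst, Prod.smul_snd, smul_eq_mul, map_neg]
      field_simp
      ring

theorem eqv_trans {u v w : K × K} (h : Eqv F u v) (h' : Eqv F v w) : Eqv F u w := by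
  obtain ⟨κ, hκ, a, b, c, d, hd, rfl⟩ := h
  obtain ⟨κ', hκ', a', b', c', d', hd', rfl⟩ := h'
  refine ⟨κ' * κ, mul_ne_zero hκ' hκ, a' * a + b' * c, a' * b + b' * d, c' * a + d' * c,
    c' * b + d' * d, ?_, ?_⟩
  · have : (a' * a + b' * c) * (c' * b + d' * d) - (a' * b + b' * d) * (c' * a + d' * c) =
        (a' * d' - b' * c') * (a * d - b * c) := by ring
    rw [this]
    exact mul_ne_zero hd' hd
  · ext
    · simp only [act, Prod.smul_fst, Prod.smul_snd, smul_eq_mul, map_add, map_mul]
      ring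
    · simp only [act, Prod.smul_fst, Prod.smul_snd, smul_eq_mul, map_add, map_mul]
      ring

/-- The setoid. -/
def std (F K : Type) [Field F] [Field K] [Algebra F K] : Setoid (K × K) :=
  ⟨Eqv F, eqv_refl, eqv_symm, eqv_trans⟩

/-- A representative of the class of `v`. -/
noncomputable def rep (F : Type) {K : Type} [Field F] [Field K] [Algebra F K] (v : K × K) : K × K :=
  (Quotient.mk (std F K) v).out

theorem rep_eqv (v : K × K) : Eqv F (rep F v) v := Quotient.exact (s := std F K) (Quotient.out_eq _)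

theorem rep_eq_of_eqv {v w : K × K} (h : Eqv F v w) : rep F v = rep F w := by
  unfold rep
  rw [Quotient.sound (s := std F K) h]

theorem rep_rep (v : K × K) : rep F (rep F v) = rep F v := rep_eq_of_eqv (rep_eqv v)

theorem rk_rep {v : K × K} (hv : Rk F v) : Rk F (rep F v) := by
  obtain ⟨κ, hκ, a, b, c, d, hd, h⟩ := eqv_symm (rep_eqv (F := F) v)
  rw [h]
  exact hv.act hκ hd

/-- The matrix of the quadratic extension: `M (x, y) = (y, c x + y)`. -/
def MM (c : F) (v : K × K) : K × K := (v.2, algebraMap F K c * v.1 + v.2)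

/-- The form `x (c x + y) - y ^ 2`. -/
def QQ (c : F) (v : K × K) : K := v.1 * (algebraMap F K c * v.1 + v.2) - v.2 * v.2

theorem QQ_ne (hq : QuadClosed F K) {c : F} (hc : ∀ z : F, z ^ 2 ≠ z + c) {v : K × K} (hv : v ≠ 0) :
    QQ c v ≠ 0 := by
  intro h
  unfold QQ at h
  by_cases h1 : v.1 = 0
  · apply hv
    rw [h1] at h
    have : v.2 * v.2 = 0 := by linear_combination -h
    exact Prod.ext h1 (mul_self_eq_zero.1 this)
  · have h2 : (v.2 / v.1) ^ 2 = algebraMap F K 1 * (v.2 / v.1) + algebraMap F K c := by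
      rw [map_one]
      field_simp
      linear_combination -h
    obtain ⟨a, ha⟩ := hq _ _ _ h2
    rw [ha] at h2
    apply hc a
    apply (algebraMap F K).injective
    rw [map_pow, map_add, h2, map_one, one_mul]

theorem rk_ne_zero {v : K × K} (hv : Rk F v) : v ≠ 0 := by
  rintro rfl
  have := hv 1 0 (by simp)
  exact one_ne_zero this.1

/-- The block `F v + F M v`. -/
def Bk (c : F) (v : K × K) : Submodule F (K × K) := Submodule.span F {v, MM c v}

theorem bk_mem_Rl (hq : QuadClosed F K) {c : F} (hc : ∀ z : F, z ^ 2 ≠ z + c) {v : K × K}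
    (hv : v ≠ 0) : Bk c v ∈ Rl F K (K × K) := by
  refine ⟨v, MM c v, ?_, rfl⟩
  rw [li_iff_det]
  exact QQ_ne hq hc hv

/-- The scalars of a map `bor` are in `F`, up to a common factor. -/
def Rat (F : Type) {K : Type} [Field F] [Field K] [Algebra F K] (α β : Kˣ) (γ : K) : Prop :=
  ∃ l : K, l ≠ 0 ∧ ∃ a b e : F, (α : K) = l * algebraMap F K a ∧ (β : K) = l * algebraMap F K b ∧
    γ = l * algebraMap F K e

theorem rat_ne {α β : Kˣ} {l : K} {a b : F} (h1 : (α : K) = l * algebraMap F K a)
    (h2 : (β : K) = l * algebraMap F K b) : a ≠ 0 ∧ b ≠ 0 := by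
  constructor
  · rintro rfl
    rw [map_zero, mul_zero] at h1
    exact α.ne_zero h1
  · rintro rfl
    rw [map_zero, mul_zero] at h2
    exact β.ne_zero h2

/-- The base spread in the odd case. -/
def S1 (c : F) : Set (Submodule F (K × K)) :=
  {E | (∃ l : K, l ≠ 0 ∧ E = ll F l) ∨
    ∃ v : K × K, Rk F v ∧ ∃ (α β : Kˣ) (γ : K), Rat F α β γ ∧
      E = (Bk c (rep F v)).map ((bor F α β γ : (K × K) ≃ₗ[F] (K × K)) : (K × K) →ₗ[F] (K × K))}

theorem S1_subset (hq : QuadClosed F K) {c : F} (hc : ∀ z : F, z ^ 2 ≠ z + c)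
    {L : Submodule F (K × K)} (hL : L ∈ S1 c) : L ∈ Rl F K (K × K) := by
  rcases hL with ⟨l, hl, rfl⟩ | ⟨v, hv, α, β, γ, -, rfl⟩
  · exact ll_mem_Rl hl
  · exact bor_mem_Rl F α β γ (bk_mem_Rl hq hc (rk_ne_zero (rk_rep hv)))

/-- Elements of the blocks `bor (Bk r)`. -/
theorem mem_map_bk {c : F} {α β : Kˣ} {γ : K} {r w : K × K} :
    w ∈ (Bk c r).map ((bor F α β γ : (K × K) ≃ₗ[F] (K × K)) : (K × K) →ₗ[F] (K × K)) ↔
      ∃ s t : F,
        w.1 = α * (algebraMap F K s * r.1 + algebraMap F K t * r.2) ∧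
        w.2 = γ * (algebraMap F K s * r.1 + algebraMap F K t * r.2) +
          β * (algebraMap F K s * r.2 + algebraMap F K t * (algebraMap F K c * r.1 + r.2)) := by
  unfold Bk
  rw [map_bor_span, Submodule.mem_span_pair]
  constructor
  · rintro ⟨s, t, rfl⟩
    refine ⟨s, t, ?_, ?_⟩
    · simp only [MM, bor_apply, Prod.fst_add, Prod.smul_fst]
      rw [Algebra.smul_def, Algebra.smul_def]
      ring
    · simp only [MM, bor_apply, Prod.snd_add, Prod.smul_snd]
      rw [Algebra.smul_def, Algebra.smul_def]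
      ring
  · rintro ⟨s, t, h1, h2⟩
    refine ⟨s, t, ?_⟩
    ext
    · simp only [MM, bor_apply, Prod.fst_add, Prod.smul_fst]
      rw [h1, Algebra.smul_def, Algebra.smul_def]; ring
    · simp only [MM, bor_apply, Prod.snd_add, Prod.smul_snd]
      rw [h2, Algebra.smul_def, Algebra.smul_def]; ring

theorem nrm_ne {c : F} (hc : ∀ z : F, z ^ 2 ≠ z + c) {s t : F} (h : s ≠ 0 ∨ t ≠ 0) :
    s * (s + t) - t * (t * c) ≠ 0 := by
  intro h0
  by_cases ht : t = 0
  · rw [ht] at h0
    have : s = 0 := by
      have : s * s = 0 := by linear_combination h0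
      exact mul_self_eq_zero.1 this
    rcases h with h | h
    · exact h this
    · exact h ht
  · apply hc (-s / t)
    field_simp
    linear_combination h0

/-- A nonzero element `w` of a rational block `bor (Bk r)` is equivalent to `r`; the matrix. -/
theorem eqv_of_mem {c : F} (hc : ∀ z : F, z ^ 2 ≠ z + c) {α β : Kˣ} {γ l : K} {a b e : F}
    (h1 : (α : K) = l * algebraMap F K a)
    (h2 : (β : K) = l * algebraMap F K b) (h3 : γ = l * algebraMap F K e) {r w : K × K} (hw : w ≠ 0)
    {s t : F} (hs : w.1 = α * (algebraMap F K s * r.1 + algebraMap F K t * r.2))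
    (ht : w.2 = γ * (algebraMap F K s * r.1 + algebraMap F K t * r.2) +
          β * (algebraMap F K s * r.2 + algebraMap F K t * (algebraMap F K c * r.1 + r.2))) :
    (a * s) * (e * t + b * (s + t)) - (a * t) * (e * s + b * (t * c)) ≠ 0 ∧
      w = l • act (a * s) (a * t) (e * s + b * (t * c)) (e * t + b * (s + t)) r := by
  obtain ⟨ha, hb⟩ := rat_ne h1 h2
  have hst : s ≠ 0 ∨ t ≠ 0 := by
    by_contra hcon
    push Not at hcon
    apply hw
    rw [hcon.1, hcon.2] at hs ht
    ext
    · rw [hs]; simp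
    · rw [ht]; simp
  constructor
  · have : (a * s) * (e * t + b * (s + t)) - (a * t) * (e * s + b * (t * c)) =
        a * b * (s * (s + t) - t * (t * c)) := by ring
    rw [this]
    exact mul_ne_zero (mul_ne_zero ha hb) (nrm_ne hc hst)
  · ext
    · simp only [act, Prod.smul_fst, smul_eq_mul, map_mul]
      rw [hs, h1]; ring
    · simp only [act, Prod.smul_snd, smul_eq_mul, map_add, map_mul]
      rw [ht, h2, h3]; ring

/-- Two matrices with proportional values at `r` are proportional. -/
theorem eigen2 (hq : QuadClosed F K) {r : K × K} (hr : Rk F r) {κ l : K} (hκ : κ ≠ 0) (hl : l ≠ 0)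
    {a b c d a' b' c' d' : F} (hd' : a' * d' - b' * c' ≠ 0)
    (h : κ • act a b c d r = l • act a' b' c' d' r) :
    ∃ μ : F, μ ≠ 0 ∧ a = μ * a' ∧ b = μ * b' ∧ c = μ * c' ∧ d = μ * d' ∧
      l = κ * algebraMap F K μ := by
  have h1 := congrArg Prod.fst h
  have h2 := congrArg Prod.snd h
  simp only [act, Prod.smul_fst, Prod.smul_snd, smul_eq_mul] at h1 h2
  have hD' : algebraMap F K (a' * d' - b' * c') ≠ 0 := by rwa [Ne, map_eq_zero]
  have e1 : algebraMap F K (d' * a - b' * c) * r.1 + algebraMap F K (d' * b - b' * d) * r.2 =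
      (algebraMap F K (a' * d' - b' * c') * (l / κ)) * r.1 := by
    field_simp
    simp only [map_sub, map_mul]
    linear_combination algebraMap F K d' * h1 - algebraMap F K b' * h2
  have e2 : algebraMap F K (a' * c - c' * a) * r.1 + algebraMap F K (a' * d - c' * b) * r.2 =
      (algebraMap F K (a' * d' - b' * c') * (l / κ)) * r.2 := by
    field_simp
    simp only [map_sub, map_mul]
    linear_combination algebraMap F K a' * h2 - algebraMap F K c' * h1
  obtain ⟨h3, h4, h5, h6⟩ := eigen hq hr e1 e2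
  set D := a' * d' - b' * c' with hDdef
  have hp : d' * a - b' * c ≠ 0 := by
    intro h0
    rw [h0, map_zero] at h6
    exact mul_ne_zero hD' (div_ne_zero hl hκ) h6
  refine ⟨(d' * a - b' * c) / D, div_ne_zero hp hd', ?_, ?_, ?_, ?_, ?_⟩
  · rw [div_mul_eq_mul_div, eq_div_iff hd', hDdef]
    linear_combination b' * h4
  · rw [div_mul_eq_mul_div, eq_div_iff hd', hDdef]
    linear_combination a' * h3 - b' * h5
  · rw [div_mul_eq_mul_div, eq_div_iff hd', hDdef]
    linear_combination d' * h4
  · rw [div_mul_eq_mul_div, eq_div_iff hd', hDdef]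
    linear_combination c' * h3 - d' * h5
  · rw [map_div₀, ← h6]
    field_simp

theorem map_bor_scale (L : Submodule F (K × K)) {f : F} (hf : f ≠ 0) {α β α' β' : Kˣ} {γ γ' : K}
    (h1 : (α' : K) = algebraMap F K f * α) (h2 : (β' : K) = algebraMap F K f * β)
    (h3 : γ' = algebraMap F K f * γ) :
    L.map ((bor F α' β' γ' : (K × K) ≃ₗ[F] (K × K)) : (K × K) →ₗ[F] (K × K)) =
      L.map ((bor F α β γ : (K × K) ≃ₗ[F] (K × K)) : (K × K) →ₗ[F] (K × K)) := by
  have hf' : algebraMap F K f ≠ 0 := by rwa [Ne, map_eq_zero]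
  ext w
  rw [Submodule.mem_map, Submodule.mem_map]
  constructor
  · rintro ⟨u, hu, rfl⟩
    refine ⟨f • u, L.smul_mem f hu, ?_⟩
    simp only [LinearEquiv.coe_coe, bor_apply, Prod.smul_fst, Prod.smul_snd]
    rw [h1, h2, h3, Algebra.smul_def, Algebra.smul_def]
    ext
    · simp only; ring
    · simp only; ring
  · rintro ⟨u, hu, rfl⟩
    refine ⟨f⁻¹ • u, L.smul_mem _ hu, ?_⟩
    simp only [LinearEquiv.coe_coe, bor_apply, Prod.smul_fst, Prod.smul_snd]
    rw [h1, h2, h3, Algebra.smul_def, Algebra.smul_def, map_inv₀]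
    ext
    · simp only; field_simp
    · simp only; field_simp

theorem map_bor_one (L : Submodule F (K × K)) :
    L.map ((bor F 1 1 0 : (K × K) ≃ₗ[F] (K × K)) : (K × K) →ₗ[F] (K × K)) = L := by
  have : ((bor F 1 1 0 : (K × K) ≃ₗ[F] (K × K)) : (K × K) →ₗ[F] (K × K)) = LinearMap.id := by
    ext v <;> simp
  rw [this, Submodule.map_id]

theorem map_map_bor (L : Submodule F (K × K)) (α β α' β' : Kˣ) (γ γ' : K) :
    (L.map ((bor F α β γ : (K × K) ≃ₗ[F] (K × K)) : (K × K) →ₗ[F] (K × K))).map
      ((bor F α' β' γ' : (K × K) ≃ₗ[F] (K × K)) : (K × K) →ₗ[F] (K × K)) =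
      L.map ((bor F (α' * α) (β' * β) (γ' * α + β' * γ) : (K × K) ≃ₗ[F] (K × K)) :
        (K × K) →ₗ[F] (K × K)) := by
  rw [← bor_mul, LinearEquiv.coe_trans, Submodule.map_comp]

theorem not_rk_of_mem_ll {l : K} {v : K × K} (hv : v ≠ 0) (h : v ∈ ll F l) : ¬ Rk F v := by
  intro hrk
  rw [mem_ll] at h
  obtain ⟨s, t, rfl⟩ := h
  have := hrk t (-s) (by simp only [map_neg]; ring)
  apply hv
  rw [this.1, neg_eq_zero.1 this.2]
  simp

theorem S1_spread (hq : QuadClosed F K) {c : F} (hc : ∀ z : F, z ^ 2 ≠ z + c) :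
    IsSpread (S1 (K := K) c) := by
  refine ⟨fun L hL => finrank_of_mem_Rl F (K := K) (S1_subset hq hc hL), ?_⟩
  intro v hv
  by_cases hrk : Rk F v
  · -- a vector of rank two
    obtain ⟨κ, hκ, A1, A2, A3, A4, hdet, hvr⟩ := rep_eqv (F := F) v
    set r := rep F v with hr
    have hrr : Rk F r := rk_rep hrk
    have hst : A1 ≠ 0 ∨ A2 ≠ 0 := by
      by_contra hcon
      push Not at hcon
      apply hdet
      rw [hcon.1, hcon.2]; ring
    have hN := nrm_ne hc hst
    set N := A1 * (A1 + A2) - A2 * (A2 * c) with hNdef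
    set b := (A1 * A4 - A2 * A3) / N with hb
    set e := (A3 * (A1 + A2) - A4 * (A2 * c)) / N with he
    have hb0 : b ≠ 0 := div_ne_zero hdet hN
    have hbK : algebraMap F K b ≠ 0 := by rwa [Ne, map_eq_zero]
    have hA3 : e * A1 + b * (A2 * c) = A3 := by
      rw [he, hb]
      field_simp
      rw [hNdef]; ring
    have hA4 : e * A2 + b * (A1 + A2) = A4 := by
      rw [he, hb]
      field_simp
      rw [hNdef]; ring
    have hv1 : v.1 = κ * (algebraMap F K A1 * r.1 + algebraMap F K A2 * r.2) := by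
      conv_lhs => rw [hvr]
      rfl
    have hv2 : v.2 = κ * (algebraMap F K A3 * r.1 + algebraMap F K A4 * r.2) := by
      conv_lhs => rw [hvr]
      rfl
    refine ⟨(Bk c r).map ((bor F (Units.mk0 κ hκ)
      (Units.mk0 (κ * algebraMap F K b) (mul_ne_zero hκ hbK)) (κ * algebraMap F K e) :
      (K × K) ≃ₗ[F] (K × K)) : (K × K) →ₗ[F] (K × K)), ⟨Or.inr ⟨v, hrk, _, _, _,
        ⟨κ, hκ, 1, b, e, by simp, by simp, rfl⟩, rfl⟩, ?_⟩, ?_⟩
    · rw [mem_map_bk]
      refine ⟨A1, A2, ?_, ?_⟩
      · rw [hv1, Units.val_mk0]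
      · rw [hv2, Units.val_mk0, ← hA3, ← hA4]
        simp only [map_add, map_mul]
        ring
    · rintro E ⟨⟨l, hl, rfl⟩ | ⟨v', hv', α, β, γ, ⟨l, hl, a', b', e', h1, h2, h3⟩, rfl⟩, hE⟩
      · exact absurd hrk (not_rk_of_mem_ll hv hE)
      · rw [mem_map_bk] at hE
        obtain ⟨s', t', hs', ht'⟩ := hE
        obtain ⟨hdet', hv'r⟩ := eqv_of_mem hc h1 h2 h3 hv hs' ht'
        have hrep : rep F v' = r := by
          rw [← rep_rep v', hr]
          exact rep_eq_of_eqv ⟨l, hl, _, _, _, _, hdet', hv'r⟩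
        rw [hrep] at hv'r hs' ht' ⊢
        obtain ⟨μ, hμ, m1, m2, m3, m4, m5⟩ := eigen2 hq hrr hκ hl hdet'
          (hvr.symm.trans hv'r)
        obtain ⟨ha', hb'⟩ := rat_ne h1 h2
        have hst' : s' ≠ 0 ∨ t' ≠ 0 := by
          by_contra hcon
          push Not at hcon
          rcases hst with h0 | h0
          · apply h0; rw [m1, hcon.1]; ring
          · apply h0; rw [m2, hcon.2]; ring
        have hN' := nrm_ne hc hst'
        have k1 : (a' * e - e') * s' + (a' * b - b') * (t' * c) = 0 := by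
          have : μ * ((a' * e - e') * s' + (a' * b - b') * (t' * c)) = 0 := by
            linear_combination hA3 + m3 - e * m1 - b * c * m2
          exact (mul_eq_zero.1 this).resolve_left hμ
        have k2 : (a' * e - e') * t' + (a' * b - b') * (s' + t') = 0 := by
          have : μ * ((a' * e - e') * t' + (a' * b - b') * (s' + t')) = 0 := by
            linear_combination hA4 + m4 - e * m2 - b * (m1 + m2)
          exact (mul_eq_zero.1 this).resolve_left hμ
        have k3 : a' * b = b' := by
          have : (a' * b - b') * (s' * (s' + t') - t' * (t' * c)) = 0 := by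
            linear_combination s' * k2 - t' * k1
          exact sub_eq_zero.1 ((mul_eq_zero.1 this).resolve_right hN')
        have k4 : a' * e = e' := by
          have : (a' * e - e') * (s' * (s' + t') - t' * (t' * c)) = 0 := by
            linear_combination (s' + t') * k1 - t' * c * k2
          exact sub_eq_zero.1 ((mul_eq_zero.1 this).resolve_right hN')
        apply map_bor_scale _ (mul_ne_zero hμ ha')
        · rw [h1, m5, Units.val_mk0, map_mul]; ring
        · rw [h2, m5, Units.val_mk0, ← k3]; simp only [map_mul]; ring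
        · rw [h3, m5, ← k4]; simp only [map_mul]; ring
  · -- a vector of rank one
    have hll : ∃ l : K, l ≠ 0 ∧ v ∈ ll F l := by
      unfold Rk at hrk
      push Not at hrk
      obtain ⟨s, t, hst, hne⟩ := hrk
      by_cases ht : t = 0
      · have hs : algebraMap F K s ≠ 0 := by
          rw [Ne, map_eq_zero]
          exact fun hs => hne hs ht
        rw [ht, map_zero, zero_mul, add_zero] at hst
        have h1 : v.1 = 0 := (mul_eq_zero.1 hst).resolve_left hs
        refine ⟨v.2, fun h2 => hv (Prod.ext h1 h2), mem_ll.2 ⟨0, 1, ?_⟩⟩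
        ext
        · simp [h1]
        · simp
      · have ht' : algebraMap F K t ≠ 0 := by rwa [Ne, map_eq_zero]
        have h2 : v.2 = algebraMap F K (-s / t) * v.1 := by
          rw [map_div₀, map_neg]
          field_simp
          linear_combination hst
        refine ⟨v.1, fun h1 => hv (Prod.ext h1 (by rw [h2, h1, mul_zero]; rfl)),
          mem_ll.2 ⟨1, -s / t, ?_⟩⟩
        ext
        · simp
        · simp [h2]
    obtain ⟨l, hl, hvl⟩ := hll
    refine ⟨ll F l, ⟨Or.inl ⟨l, hl, rfl⟩, hvl⟩, ?_⟩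
    rintro E ⟨⟨l', hl', rfl⟩ | ⟨v', hv', α, β, γ, ⟨l', hl', a', b', e', h1, h2, h3⟩, rfl⟩, hE⟩
    · rw [mem_ll] at hvl hE
      obtain ⟨s, t, hst⟩ := hvl
      obtain ⟨s', t', hst'⟩ := hE
      rw [hst, Prod.mk.injEq] at hst'
      by_cases hs : s = 0
      · have ht : t ≠ 0 := by
          rintro rfl
          apply hv
          rw [hst, hs]; simp
        have ht' : t' ≠ 0 := by
          rintro rfl
          rw [map_zero, zero_mul] at hst'
          exact mul_ne_zero (by rwa [Ne, map_eq_zero]) hl hst'.2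
        calc ll F l' = ll F (algebraMap F K t' * l') := (ll_eq_of_mul ht').symm
          _ = ll F (algebraMap F K t * l) := by rw [hst'.2]
          _ = ll F l := ll_eq_of_mul ht
      · have hs' : s' ≠ 0 := by
          rintro rfl
          rw [map_zero, zero_mul] at hst'
          exact mul_ne_zero (by rwa [Ne, map_eq_zero]) hl hst'.1
        calc ll F l' = ll F (algebraMap F K s' * l') := (ll_eq_of_mul hs').symm
          _ = ll F (algebraMap F K s * l) := by rw [hst'.1]
          _ = ll F l := ll_eq_of_mul hs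
    · exfalso
      rw [mem_map_bk] at hE
      obtain ⟨s', t', hs', ht'⟩ := hE
      obtain ⟨hdet', hv'r⟩ := eqv_of_mem hc h1 h2 h3 hv hs' ht'
      apply hrk
      rw [hv'r]
      exact (rk_rep hv').act hl' hdet'

theorem rat_mul {α β α' β' : Kˣ} {γ γ' : K} (h : Rat F α β γ) (h' : Rat F α' β' γ') :
    Rat F (α' * α) (β' * β) (γ' * α + β' * γ) := by
  obtain ⟨l, hl, a, b, e, h1, h2, h3⟩ := h
  obtain ⟨l', hl', a', b', e', h1', h2', h3'⟩ := h'
  refine ⟨l * l', mul_ne_zero hl hl', a' * a, b' * b, e' * a + b' * e, ?_, ?_, ?_⟩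
  · rw [Units.val_mul, h1, h1', map_mul]; ring
  · rw [Units.val_mul, h2, h2', map_mul]; ring
  · rw [h3, h3', h1, h2', map_add, map_mul, map_mul]; ring

theorem rat_inv {α β : Kˣ} {γ : K} (h : Rat F α β γ) :
    Rat F α⁻¹ β⁻¹ (-((β : K)⁻¹ * γ * (α : K)⁻¹)) := by
  obtain ⟨l, hl, a, b, e, h1, h2, h3⟩ := h
  obtain ⟨ha, hb⟩ := rat_ne h1 h2
  have haK : algebraMap F K a ≠ 0 := by rwa [Ne, map_eq_zero]
  have hbK : algebraMap F K b ≠ 0 := by rwa [Ne, map_eq_zero]
  refine ⟨l⁻¹, inv_ne_zero hl, a⁻¹, b⁻¹, -(b⁻¹ * e * a⁻¹), ?_, ?_, ?_⟩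
  · rw [Units.val_inv_eq_inv_val, h1, map_inv₀, mul_inv]
  · rw [Units.val_inv_eq_inv_val, h2, map_inv₀, mul_inv]
  · rw [h3, h1, h2, map_neg, map_mul, map_mul, map_inv₀, map_inv₀]
    field_simp

theorem map_bor_inv (L L' : Submodule F (K × K)) (α β : Kˣ) (γ : K)
    (h : L.map ((bor F α β γ : (K × K) ≃ₗ[F] (K × K)) : (K × K) →ₗ[F] (K × K)) = L') :
    L = L'.map ((bor F α⁻¹ β⁻¹ (-((β : K)⁻¹ * γ * (α : K)⁻¹)) : (K × K) ≃ₗ[F] (K × K)) :
      (K × K) →ₗ[F] (K × K)) := by
  rw [← h, map_map_bor]
  have e1 : α⁻¹ * α = 1 := inv_mul_cancel α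
  have e2 : β⁻¹ * β = 1 := inv_mul_cancel β
  have e3 : -((β : K)⁻¹ * γ * (α : K)⁻¹) * α + ((β⁻¹ : Kˣ) : K) * γ = 0 := by
    rw [Units.val_inv_eq_inv_val]
    field_simp
    ring
  rw [e1, e2, e3, map_bor_one]

/-- The stabiliser property, basic form. -/
theorem rat_of_map (hq : QuadClosed F K) {c : F} (hc : ∀ z : F, z ^ 2 ≠ z + c) {r r' : K × K}
    (hr : Rk F r) (hr' : Rk F r') (hrr : rep F r = r) (hrr' : rep F r' = r') {α β : Kˣ} {γ : K}
    (h : (Bk c r).map ((bor F α β γ : (K × K) ≃ₗ[F] (K × K)) : (K × K) →ₗ[F] (K × K)) = Bk c r') :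
    Rat F α β γ := by
  have hm1 : bor F α β γ r ∈ Bk c r' := by
    rw [← h]
    exact Submodule.mem_map_of_mem (Submodule.subset_span (by simp))
  have hm2 : bor F α β γ (MM c r) ∈ Bk c r' := by
    rw [← h]
    exact Submodule.mem_map_of_mem (Submodule.subset_span (by simp))
  unfold Bk at hm1 hm2
  rw [Submodule.mem_span_pair] at hm1 hm2
  obtain ⟨p, q, hpq⟩ := hm1
  obtain ⟨p', q', hpq'⟩ := hm2
  have e1 := congrArg Prod.fst hpq
  have e2 := congrArg Prod.fst hpq'
  have e3 := congrArg Prod.snd hpq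
  have e4 := congrArg Prod.snd hpq'
  simp only [MM, bor_apply, Prod.fst_add, Prod.smul_fst] at e1 e2
  simp only [MM, bor_apply, Prod.snd_add, Prod.smul_snd] at e3 e4
  rw [Algebra.smul_def, Algebra.smul_def] at e1 e2 e3 e4
  have hα := α.ne_zero
  have hdet : q' * p - q * p' ≠ 0 := by
    intro h0
    have h0K : algebraMap F K q' * algebraMap F K p = algebraMap F K q * algebraMap F K p' := by
      rw [← map_mul, ← map_mul, sub_eq_zero.1 h0]
    have f1 : algebraMap F K q' * r.1 + algebraMap F K (-q) * r.2 = 0 := by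
      have : (α : K) * (algebraMap F K q' * r.1 + algebraMap F K (-q) * r.2) = 0 := by
        rw [map_neg]
        linear_combination -algebraMap F K q' * e1 + algebraMap F K q * e2 + r'.1 * h0K
      exact (mul_eq_zero.1 this).resolve_left hα
    have f2 : algebraMap F K p' * r.1 + algebraMap F K (-p) * r.2 = 0 := by
      have : (α : K) * (algebraMap F K p' * r.1 + algebraMap F K (-p) * r.2) = 0 := by
        rw [map_neg]
        linear_combination -algebraMap F K p' * e1 + algebraMap F K p * e2 - r'.2 * h0K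
      exact (mul_eq_zero.1 this).resolve_left hα
    have g1 := hr _ _ f1
    have g2 := hr _ _ f2
    have hp : p = 0 := neg_eq_zero.1 g2.2
    have hq' : q = 0 := neg_eq_zero.1 g1.2
    rw [hp, hq', map_zero, zero_mul, zero_mul, add_zero] at e1
    have hx : r.1 = 0 := (mul_eq_zero.1 e1.symm).resolve_left hα
    have := hr 1 0 (by rw [hx]; simp)
    exact one_ne_zero this.1
  have hne : -algebraMap F K q' * r.1 + algebraMap F K q * r.2 ≠ 0 := by
    intro h0
    have := hr (-q') q (by rw [map_neg]; exact h0)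
    apply hdet
    rw [neg_eq_zero.1 this.1, this.2]; ring
  have hx'0 : r'.1 ≠ 0 := by
    intro h0
    have := hr' 1 0 (by rw [h0]; simp)
    exact one_ne_zero this.1
  have hprop : r'.1 * (algebraMap F K p' * r.1 - algebraMap F K p * r.2) =
      r'.2 * (-algebraMap F K q' * r.1 + algebraMap F K q * r.2) := by
    linear_combination r.1 * e2 - r.2 * e1
  have hκ : r'.1 / (-algebraMap F K q' * r.1 + algebraMap F K q * r.2) ≠ 0 := div_ne_zero hx'0 hne
  have heqv : r' = (r'.1 / (-algebraMap F K q' * r.1 + algebraMap F K q * r.2)) •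
      act (-q') q p' (-p) r := by
    ext
    · simp only [act, Prod.smul_fst, smul_eq_mul, map_neg]
      exact (div_mul_cancel₀ _ hne).symm
    · simp only [act, Prod.smul_snd, smul_eq_mul, map_neg]
      rw [div_mul_eq_mul_div, eq_div_iff hne]
      linear_combination -hprop
  have hdet' : (-q') * (-p) - q * p' ≠ 0 := by
    intro h0; apply hdet; linear_combination h0
  have hrr2 : r' = r := by
    rw [← hrr, ← hrr']
    exact (rep_eq_of_eqv ⟨_, hκ, _, _, _, _, hdet', heqv⟩).symm
  rw [hrr2] at heqv e1 e2 e3 e4 hκ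
  set κ := r.1 / (-algebraMap F K q' * r.1 + algebraMap F K q * r.2) with hκdef
  have i1 : algebraMap F K (-q') * r.1 + algebraMap F K q * r.2 = κ⁻¹ * r.1 := by
    have := congrArg Prod.fst heqv
    simp only [act, Prod.smul_fst, smul_eq_mul] at this
    rw [eq_inv_mul_iff_mul_eq₀ hκ]
    exact this.symm
  have i2 : algebraMap F K p' * r.1 + algebraMap F K (-p) * r.2 = κ⁻¹ * r.2 := by
    have := congrArg Prod.snd heqv
    simp only [act, Prod.smul_snd, smul_eq_mul] at this
    rw [eq_inv_mul_iff_mul_eq₀ hκ]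
    exact this.symm
  obtain ⟨j1, j2, j3, -⟩ := eigen hq hr i1 i2
  have j4 : q' = p := neg_inj.1 j3
  rw [j1, map_zero, zero_mul, add_zero] at e1 e3
  rw [j2, j4, map_zero, zero_mul, zero_add] at e2 e4
  have hx0 : r.1 ≠ 0 := by
    intro h0
    have := hr 1 0 (by rw [h0]; simp)
    exact one_ne_zero this.1
  have k1 : (α : K) = algebraMap F K p := by
    have : ((α : K) - algebraMap F K p) * r.1 = 0 := by linear_combination -e1
    exact sub_eq_zero.1 ((mul_eq_zero.1 this).resolve_right hx0)
  have k2 : (β : K) = algebraMap F K p := by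
    have : ((β : K) - algebraMap F K p) * QQ c r = 0 := by
      unfold QQ
      linear_combination r.2 * e3 - r.1 * e4
    exact sub_eq_zero.1 ((mul_eq_zero.1 this).resolve_right (QQ_ne hq hc (rk_ne_zero hr)))
  have k3 : γ = 0 := by
    have : γ * r.1 = 0 := by linear_combination -e3 - r.2 * k2
    exact (mul_eq_zero.1 this).resolve_right hx0
  exact ⟨1, one_ne_zero, p, p, 0, by rw [k1, one_mul], by rw [k2, one_mul], by rw [k3]; simp⟩

/-- A block of the second kind has no nonzero vector with first coordinate zero. -/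
theorem no_zero_fst {c : F} {α β : Kˣ} {γ : K} {r w : K × K} (hr : Rk F r)
    (h : w ∈ (Bk c r).map ((bor F α β γ : (K × K) ≃ₗ[F] (K × K)) : (K × K) →ₗ[F] (K × K)))
    (hw : w.1 = 0) : w.2 = 0 := by
  rw [mem_map_bk] at h
  obtain ⟨s, t, h1, h2⟩ := h
  rw [hw] at h1
  have h3 := hr s t ((mul_eq_zero.1 h1.symm).resolve_left α.ne_zero)
  rw [h2, h3.1, h3.2]; simp

theorem S1_stab (hq : QuadClosed F K) {c : F} (hc : ∀ z : F, z ^ 2 ≠ z + c) {α β : Kˣ} {γ : K}
    {L : Submodule F (K × K)} (hL : L ∈ S1 c)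
    (hgL : L.map ((bor F α β γ : (K × K) ≃ₗ[F] (K × K)) : (K × K) →ₗ[F] (K × K)) ∈ S1 c) :
    Rat F α β γ := by
  rcases hL with ⟨l, hl, rfl⟩ | ⟨v, hv, α1, β1, γ1, hrat1, rfl⟩
  · have hmem : ((0 : K), (β : K) * l) ∈ (ll F l).map
        ((bor F α β γ : (K × K) ≃ₗ[F] (K × K)) : (K × K) →ₗ[F] (K × K)) := by
      rw [map_bor_ll]
      exact Submodule.subset_span (by simp)
    have hmem1 : ((α : K) * l, γ * l) ∈ (ll F l).map
        ((bor F α β γ : (K × K) ≃ₗ[F] (K × K)) : (K × K) →ₗ[F] (K × K)) := by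
      rw [map_bor_ll]
      exact Submodule.subset_span (by simp)
    rcases hgL with ⟨l', hl', hE⟩ | ⟨v, hv, α1, β1, γ1, -, hE⟩
    · rw [hE, mem_ll] at hmem hmem1
      obtain ⟨s, t, hst⟩ := hmem
      obtain ⟨s', t', hst'⟩ := hmem1
      rw [Prod.mk.injEq] at hst hst'
      refine ⟨l' / l, div_ne_zero hl' hl, s', t, t', ?_, ?_, ?_⟩
      · field_simp
        linear_combination hst'.1
      · field_simp
        linear_combination hst.2
      · field_simp
        linear_combination hst'.2
    · exfalso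
      rw [hE] at hmem
      have := no_zero_fst (rk_rep hv) hmem rfl
      exact mul_ne_zero β.ne_zero hl this
  · rcases hgL with ⟨l', hl', hE⟩ | ⟨v', hv', α2, β2, γ2, hrat2, hE⟩
    · exfalso
      rw [map_map_bor] at hE
      have hmem : ((0 : K), l') ∈ ll F l' := Submodule.subset_span (by simp)
      rw [← hE] at hmem
      exact hl' (no_zero_fst (rk_rep hv) hmem rfl)
    · have h3 := map_bor_inv _ _ _ _ _ hE.symm
      rw [map_map_bor, map_map_bor] at h3
      have h4 := rat_of_map hq hc (rk_rep hv) (rk_rep hv') (rep_rep v) (rep_rep v') h3.symm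
      -- recover the rationality of the map from that of the composite
      have h5 := rat_mul (rat_mul (rat_inv hrat1) h4) hrat2
      convert h5 using 1
      · rw [mul_inv_cancel_right, mul_inv_cancel_left]
      · rw [mul_inv_cancel_right, mul_inv_cancel_left]
      · simp only [Units.val_mul, Units.val_inv_eq_inv_val]
        field_simp
        ring

theorem ll_rat {α β : Kˣ} {γ : K} (h : Rat F α β γ) (l : K) (hl : l ≠ 0) :
    ∃ l' : K, l' ≠ 0 ∧ (ll F l).map ((bor F α β γ : (K × K) ≃ₗ[F] (K × K)) : (K × K) →ₗ[F] (K × K)) =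
      ll F l' := by
  obtain ⟨h0, hh, a, b, e, h1, h2, h3⟩ := h
  obtain ⟨ha, hb⟩ := rat_ne h1 h2
  refine ⟨h0 * l, mul_ne_zero hh hl, ?_⟩
  rw [map_bor_ll, h1, h2, h3]
  unfold ll
  rw [← span_change F (h0 * l, (0 : K)) ((0 : K), h0 * l) a e 0 b
    (by rw [mul_zero, sub_zero]; exact mul_ne_zero ha hb)]
  congr 2
  · ext
    · simp [Algebra.smul_def]; ring
    · simp [Algebra.smul_def]; ring
  · congr 1
    ext
    · simp
    · simp [Algebra.smul_def]; ring

/-- **Extensions in which `F` is quadratically closed.** -/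
theorem splits_odd_aux (hq : QuadClosed F K) {c : F} (hc : ∀ z : F, z ^ 2 ≠ z + c) :
    Splits (Rl F K (K × K)) := by
  refine splits_orbit (BorSet F) (borSet_closed F) (S1_spread hq hc) ?_ ?_
  · rintro _ ⟨α, β, γ, rfl⟩ L hL hgL
    have hrat := S1_stab hq hc hL hgL
    rintro L' (⟨l, hl, rfl⟩ | ⟨v, hv, α1, β1, γ1, hrat1, rfl⟩)
    · left
      exact ll_rat hrat l hl
    · right
      exact ⟨v, hv, _, _, _, rat_mul hrat1 hrat, map_map_bor _ _ _ _ _ _ _⟩
  · intro E
    constructor
    · rintro ⟨e1, e2, he, rfl⟩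
      rcases dich (F := F) he with ⟨a, b, w, ha, hw, hE⟩ | hli
      · refine ⟨bor F (Units.mk0 a ha) (Units.mk0 w hw) b, ⟨_, _, _, rfl⟩, ll F 1,
          Or.inl ⟨1, one_ne_zero, rfl⟩, ?_⟩
        rw [map_bor_ll, hE]
        simp only [Units.val_mk0, mul_one]
      · have hdet := (li_iff_det e1 e2).1 he
        set v : K × K := (e1.1, e2.1) with hv
        have hrk : Rk F v := by
          intro s t hst
          rw [LinearIndependent.pair_iff] at hli
          apply hli
          rw [Algebra.smul_def, Algebra.smul_def]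
          exact hst
        obtain ⟨κ, hκ, A1, A2, A3, A4, hdA, hvr⟩ := rep_eqv (F := F) v
        set r := rep F v with hr
        have hrr : Rk F r := rk_rep hrk
        have hQ : QQ c r ≠ 0 := QQ_ne hq hc (rk_ne_zero hrr)
        have hx : e1.1 = κ * (algebraMap F K A1 * r.1 + algebraMap F K A2 * r.2) :=
          congrArg Prod.fst hvr
        have hy : e2.1 = κ * (algebraMap F K A3 * r.1 + algebraMap F K A4 * r.2) :=
          congrArg Prod.snd hvr
        have hΔ : algebraMap F K (A1 * A4 - A2 * A3) ≠ 0 := by rwa [Ne, map_eq_zero]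
        set u := algebraMap F K A4 * e1.2 - algebraMap F K A2 * e2.2 with hu
        set w := algebraMap F K A1 * e2.2 - algebraMap F K A3 * e1.2 with hw
        have hβ : r.1 * w - r.2 * u ≠ 0 := by
          intro h0
          have h1 : (κ * algebraMap F K (A1 * A4 - A2 * A3)) * (r.1 * w - r.2 * u) =
              algebraMap F K (A1 * A4 - A2 * A3) * (e1.1 * e2.2 - e1.2 * e2.1) := by
            rw [hx, hy, hu, hw, map_sub, map_mul, map_mul]
            ring
          rw [h0, mul_zero] at h1
          exact mul_ne_zero hΔ hdet h1.symm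
        have hch := span_change F e1 e2 A4 (-A2) (-A3) A1
          (by intro h0; apply hdA; linear_combination h0)
        refine ⟨bor F (Units.mk0 (κ * algebraMap F K (A1 * A4 - A2 * A3)) (mul_ne_zero hκ hΔ))
          (Units.mk0 ((r.1 * w - r.2 * u) / QQ c r) (div_ne_zero hβ hQ))
          ((u * (algebraMap F K c * r.1 + r.2) - r.2 * w) / QQ c r), ⟨_, _, _, rfl⟩,
          Bk c r, Or.inr ⟨v, hrk, 1, 1, 0, ⟨1, one_ne_zero, 1, 1, 0, by simp, by simp, by simp⟩, ?_⟩,
          ?_⟩
        · rw [map_bor_one]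
        · unfold Bk
          rw [map_bor_span, ← hch]
          congr 2
          · ext
            · simp only [bor_apply, Units.val_mk0, Prod.fst_add, Prod.smul_fst]
              rw [Algebra.smul_def, Algebra.smul_def, hx, hy, map_sub, map_mul, map_mul, map_neg]
              ring
            · simp only [bor_apply, Units.val_mk0, Prod.snd_add, Prod.smul_snd]
              rw [Algebra.smul_def, Algebra.smul_def, map_neg]
              have : algebraMap F K A4 * e1.2 + -algebraMap F K A2 * e2.2 = u := by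
                rw [hu]; ring
              rw [this]
              field_simp
              unfold QQ
              ring
          · congr 1
            ext
            · simp only [MM, bor_apply, Units.val_mk0, Prod.fst_add, Prod.smul_fst]
              rw [Algebra.smul_def, Algebra.smul_def, hx, hy, map_sub, map_mul, map_mul, map_neg]
              ring
            · simp only [MM, bor_apply, Units.val_mk0, Prod.snd_add, Prod.smul_snd]
              rw [Algebra.smul_def, Algebra.smul_def, map_neg]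
              have : -algebraMap F K A3 * e1.2 + algebraMap F K A1 * e2.2 = w := by
                rw [hw]; ring
              rw [this]
              field_simp
              unfold QQ
              ring
    · rintro ⟨_, ⟨α, β, γ, rfl⟩, L, hL, rfl⟩
      exact bor_mem_Rl F α β γ (S1_subset hq hc hL)

end

end Pool.Agent.Helper491_Par
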