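import Pool.Agent.Helper491_Par.Equi
import Pool.Agent.Helper491_Par.Comb

/-!
# Orbits of subspaces of a finite field under a group of multiplications
-/

set_option autoImplicit false

namespace Pool.Agent.Helper491_Par

open Module Finset

/-- A `k`-spread: every nonzero vector lies in exactly one of the `k`-dimensional subspaces. -/
def IsKSpread {F V : Type} [Field F] [AddCommGroup V] [Module F V] (k : ℕ)
    (S : Set (Submodule F V)) : Prop :=
  (∀ W ∈ S, finrank F W = k) ∧ ∀ v : V, v ≠ 0 → ∃! W, W ∈ S ∧ v ∈ W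

/-- `N` pairwise disjoint `k`-spreads. -/
def Pack (F V : Type) [Field F] [AddCommGroup V] [Module F V] (k N : ℕ) : Prop :=
  ∃ S : Fin N → Set (Submodule F V), (∀ i, IsKSpread k (S i)) ∧
    ∀ i j W, W ∈ S i → W ∈ S j → i = j

section

variable {F L : Type} [Field F] [Field L] [Algebra F L]

/-- Multiplication by a unit. -/
def mulE (F : Type) {L : Type} [Field F] [Field L] [Algebra F L] (g : Lˣ) : L ≃ₗ[F] L where
  toFun x := g * x
  map_add' x y := mul_add _ _ _
  map_smul' c x := by simp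
  invFun x := (g : L)⁻¹ * x
  left_inv x := by simp
  right_inv x := by simp

@[simp] theorem mulE_apply (g : Lˣ) (x : L) : mulE F g x = g * x := rfl

/-- The product `g W`. -/
def gW (g : Lˣ) (W : Submodule F L) : Submodule F L := W.map (mulE F g : L →ₗ[F] L)

theorem mem_gW {g : Lˣ} {W : Submodule F L} {x : L} : x ∈ gW g W ↔ ∃ w ∈ W, (g : L) * w = x :=
  Submodule.mem_map

theorem gW_mul (g h : Lˣ) (W : Submodule F L) : gW g (gW h W) = gW (g * h) W := by
  ext x
  simp only [mem_gW]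
  constructor
  · rintro ⟨_, ⟨w, hw, rfl⟩, rfl⟩
    exact ⟨w, hw, by rw [Units.val_mul, mul_assoc]⟩
  · rintro ⟨w, hw, rfl⟩
    exact ⟨_, ⟨w, hw, rfl⟩, by rw [Units.val_mul, mul_assoc]⟩

theorem gW_one (W : Submodule F L) : gW 1 W = W := by
  ext x
  simp [mem_gW]

theorem finrank_gW (g : Lˣ) (W : Submodule F L) : finrank F (gW g W) = finrank F W :=
  LinearEquiv.finrank_map_eq (mulE F g) W

variable (ψ : MulChar L ℂ)

/-- The orbit. -/
def Orb (W : Submodule F L) : Set (Submodule F L) := {X | ∃ g : Lˣ, ψ g = 1 ∧ X = gW g W}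

/-- The type of a subspace: the values of the character. -/
def Ty (W : Submodule F L) : Set ℂ := {z | ∃ x ∈ W, x ≠ 0 ∧ ψ x = z}

/-- The points of the subspace have different values. -/
def Gd (k : ℕ) (W : Submodule F L) : Prop :=
  finrank F W = k ∧ ∀ x ∈ W, ∀ y ∈ W, x ≠ 0 → y ≠ 0 → ψ x = ψ y → ∃ l : F, y = l • x

variable {ψ}

theorem self_mem_Orb (W : Submodule F L) : W ∈ Orb ψ W := ⟨1, by simp, (gW_one W).symm⟩

theorem Orb_eq {W X : Submodule F L} (h : X ∈ Orb ψ W) : Orb ψ X = Orb ψ W := by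
  obtain ⟨g, hg, rfl⟩ := h
  ext Y
  constructor
  · rintro ⟨h, hh, rfl⟩
    exact ⟨h * g, by rw [Units.val_mul, map_mul, hg, hh, one_mul], gW_mul _ _ _⟩
  · rintro ⟨h, hh, rfl⟩
    refine ⟨h * g⁻¹, ?_, ?_⟩
    · rw [Units.val_mul, map_mul, hh, one_mul]
      have h1 : ψ (g : L) * ψ ((g⁻¹ : Lˣ) : L) = 1 := by
        rw [← map_mul]
        simp
      rwa [hg, one_mul] at h1
    · rw [gW_mul]
      simp

theorem Ty_eq {W X : Submodule F L} (h : X ∈ Orb ψ W) : Ty ψ X = Ty ψ W := by
  obtain ⟨g, hg, rfl⟩ := h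
  ext z
  constructor
  · rintro ⟨x, hx, hx0, rfl⟩
    obtain ⟨w, hw, rfl⟩ := mem_gW.1 hx
    exact ⟨w, hw, right_ne_zero_of_mul hx0, by rw [map_mul, hg, one_mul]⟩
  · rintro ⟨x, hx, hx0, rfl⟩
    exact ⟨g * x, mem_gW.2 ⟨x, hx, rfl⟩, mul_ne_zero g.ne_zero hx0, by rw [map_mul, hg, one_mul]⟩

/-- A union of orbits whose types partition the values of the character is a spread. -/
theorem orb_spread {k : ℕ} {I : Type} (E : I → Submodule F L) (hE : ∀ i, Gd ψ k (E i))
    (hT : ∀ v : L, v ≠ 0 → ∃! i, ψ v ∈ Ty ψ (E i)) :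
    IsKSpread k {X | ∃ i, X ∈ Orb ψ (E i)} := by
  constructor
  · rintro X ⟨i, g, hg, rfl⟩
    rw [finrank_gW, (hE i).1]
  · intro v hv
    obtain ⟨i, ⟨x, hx, hx0, hxv⟩, hi⟩ := hT v hv
    set g : Lˣ := Units.mk0 (v / x) (div_ne_zero hv hx0) with hg
    have hgv : (g : L) * x = v := by
      rw [hg, Units.val_mk0, div_mul_cancel₀ _ hx0]
    have hψx : ψ x ≠ 0 := fun h => hx0 (by
      by_contra h0
      have := (isUnit_iff_ne_zero.2 h0).map ψ
      exact this.ne_zero h)
    have hψg : ψ (g : L) = 1 := by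
      have h1 : ψ (g : L) * ψ x = ψ x := by
        rw [← map_mul, hgv, hxv]
      exact mul_right_cancel₀ hψx (h1.trans (one_mul _).symm)
    refine ⟨gW g (E i), ⟨⟨i, g, hψg, rfl⟩, mem_gW.2 ⟨x, hx, hgv⟩⟩, ?_⟩
    rintro X ⟨⟨i', g', hg', rfl⟩, hvX⟩
    obtain ⟨x', hx', hx'v⟩ := mem_gW.1 hvX
    have hx'0 : x' ≠ 0 := by
      rintro rfl
      rw [mul_zero] at hx'v
      exact hv hx'v.symm
    have hψx' : ψ x' = ψ v := by rw [← hx'v, map_mul, hg', one_mul]
    have hii : i' = i := hi i' ⟨x', hx', hx'0, hψx'⟩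
    subst hii
    obtain ⟨l, hl⟩ := (hE i').2 x hx x' hx' hx0 hx'0 (hxv.trans hψx'.symm)
    have hl0 : l ≠ 0 := by
      rintro rfl
      rw [zero_smul] at hl
      exact hx'0 hl
    have hgg : (g : L) = g' * algebraMap F L l := by
      apply mul_right_cancel₀ hx0
      rw [hgv, ← hx'v, hl, Algebra.smul_def]
      ring
    ext y
    simp only [mem_gW]
    constructor
    · rintro ⟨w, hw, rfl⟩
      refine ⟨l⁻¹ • w, (E i').smul_mem _ hw, ?_⟩
      rw [hgg, Algebra.smul_def, map_inv₀]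
      have : algebraMap F L l ≠ 0 := by rwa [Ne, map_eq_zero]
      field_simp
    · rintro ⟨w, hw, rfl⟩
      refine ⟨l • w, (E i').smul_mem _ hw, ?_⟩
      rw [hgg, Algebra.smul_def]
      ring

end

section

variable {F L : Type} [Field F] [Fintype F] [Field L] [Fintype L] [Algebra F L]

/-- The number of bases of a `k`-dimensional space. -/
def BB (F : Type) [Fintype F] (k : ℕ) : ℕ :=
  ∏ i : Fin k, (Fintype.card F ^ k - Fintype.card F ^ (i : ℕ))

/-- The orbits of a given type. -/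
def OT (F : Type) {L : Type} [Field F] [Field L] [Algebra F L] (ψ : MulChar L ℂ) (k : ℕ) (T : Set ℂ) :
    Set (Set (Submodule F L)) :=
  {O | ∃ W : Submodule F L, Gd ψ k W ∧ Ty ψ W = T ∧ O = Orb ψ W}

open Classical in
theorem count_orb {ψ : MulChar L ℂ} {k : ℕ} {T : Set ℂ} (hF : ∀ l : F, l ≠ 0 → ψ (algebraMap F L l) = 1)
    (X : Finset (Fin k → L)) (hX : ∀ x ∈ X, LinearIndependent F x ∧
      Gd ψ k (Submodule.span F (Set.range x)) ∧ Ty ψ (Submodule.span F (Set.range x)) = T) :
    X.card * (Fintype.card F - 1) ≤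
      (OT F ψ k T).ncard * (Fintype.card {g : Lˣ // ψ g = 1} * BB F k) := by
  set f : (Fin k → L) → Set (Submodule F L) := fun x => Orb ψ (Submodule.span F (Set.range x)) with hf
  have hfib : ∀ O ∈ X.image f, ((X.filter (fun x => f x = O)).card) * (Fintype.card F - 1) ≤
      Fintype.card {g : Lˣ // ψ g = 1} * BB F k := by
    intro O hO
    obtain ⟨x0, hx0, rfl⟩ := mem_image.1 hO
    set E0 := Submodule.span F (Set.range x0) with hE0
    have hE0k : finrank F E0 = k := (hX x0 hx0).2.1.1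
    have hg : ∀ x ∈ X.filter (fun x => f x = f x0), ∃ g : Lˣ, ψ g = 1 ∧
        Submodule.span F (Set.range x) = gW g E0 := by
      intro x hx
      have h1 : Submodule.span F (Set.range x) ∈ f x0 := by
        rw [← (mem_filter.1 hx).2]
        exact self_mem_Orb _
      exact h1
    choose! g hg1 hg2 using hg
    have hBB : Nat.card {s : Fin k → E0 // LinearIndependent F s} = BB F k := by
      rw [card_linearIndependent (by rw [hE0k]), hE0k]
      rfl
    -- the injection
    have hmem : ∀ x ∈ X.filter (fun x => f x = f x0), ∀ l : Fˣ, ∀ i : Fin k,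
        (l : F)⁻¹ • ((g x : L)⁻¹ * x i) ∈ E0 := by
      intro x hx l i
      apply E0.smul_mem
      have h1 : x i ∈ gW (g x) E0 := by
        rw [← hg2 x hx]
        exact Submodule.subset_span ⟨i, rfl⟩
      obtain ⟨w, hw, hwx⟩ := mem_gW.1 h1
      rw [← hwx]
      simpa using hw
    have hli : ∀ x ∈ X.filter (fun x => f x = f x0), ∀ l : Fˣ,
        LinearIndependent F (fun i => (l : F)⁻¹ • ((g x : L)⁻¹ * x i)) := by
      intro x hx l
      have h1 := (hX x (mem_filter.1 hx).1).1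
      have h2 := h1.map' ((mulE F (g x)⁻¹ : L ≃ₗ[F] L) : L →ₗ[F] L) (LinearEquiv.ker _)
      have h3 := h2.units_smul (fun _ => l⁻¹)
      have h4 : (fun i => (l : F)⁻¹ • ((g x : L)⁻¹ * x i)) =
          ((fun _ => l⁻¹ : Fin k → Fˣ) • (⇑((mulE F (g x)⁻¹ : L ≃ₗ[F] L) : L →ₗ[F] L) ∘ x)) := by
        funext i
        simp [mulE, Units.smul_def]
      rw [h4]
      exact h3
    let Φ : {x // x ∈ X.filter (fun x => f x = f x0)} × Fˣ →
        {g : Lˣ // ψ g = 1} × {s : Fin k → E0 // LinearIndependent F s} := fun p =>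
      (⟨Units.map (algebraMap F L) p.2 * g p.1.1, by
        have h1 := hF (p.2 : F) p.2.ne_zero
        have h2 := hg1 p.1.1 p.1.2
        rw [Units.val_mul, map_mul]
        rw [h2, mul_one]
        exact h1⟩,
       ⟨fun i => ⟨_, hmem p.1.1 p.1.2 p.2 i⟩, by
        have h1 := hli p.1.1 p.1.2 p.2
        exact LinearIndependent.of_comp E0.subtype h1⟩)
    have hΦ : Function.Injective Φ := by
      rintro ⟨⟨x, hx⟩, l⟩ ⟨⟨x', hx'⟩, l'⟩ h
      have h1 := congrArg (fun p => ((p.1 : Lˣ) : L)) h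
      have h2 := congrArg Prod.snd h
      simp only [Φ, Units.val_mul] at h1
      have h3 : ∀ i, (l : F)⁻¹ • ((g x : L)⁻¹ * x i) = (l' : F)⁻¹ • ((g x' : L)⁻¹ * x' i) := by
        intro i
        have := congrArg (fun s : {s : Fin k → E0 // LinearIndependent F s} => ((s.1 i : E0) : L)) h2
        exact this
      have h4 : algebraMap F L l * g x = algebraMap F L l' * g x' := h1
      have hl : algebraMap F L l ≠ 0 := by
        rw [Ne, map_eq_zero]; exact l.ne_zero
      have hl' : algebraMap F L l' ≠ 0 := by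
        rw [Ne, map_eq_zero]; exact l'.ne_zero
      have hxx : x = x' := by
        funext i
        have h5 := h3 i
        rw [Algebra.smul_def, Algebra.smul_def, map_inv₀, map_inv₀] at h5
        have h6 : (algebraMap F L l * g x)⁻¹ * x i = (algebraMap F L l' * g x')⁻¹ * x' i := by
          rw [mul_inv, mul_inv, mul_assoc, mul_assoc]
          exact h5
        rw [h4] at h6
        exact mul_left_cancel₀ (inv_ne_zero (mul_ne_zero hl' (g x').ne_zero)) h6
      subst hxx
      have h7 : algebraMap F L l = algebraMap F L l' := mul_right_cancel₀ (g x).ne_zero h4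
      have h8 : l = l' := Units.ext ((algebraMap F L).injective h7)
      rw [h8]
    have hcard := Nat.card_le_card_of_injective Φ hΦ
    rw [Nat.card_prod, Nat.card_prod, hBB, Nat.card_eq_fintype_card (α := Fˣ),
      Fintype.card_units, Nat.card_eq_fintype_card (α := {g : Lˣ // ψ g = 1}),
      Nat.card_eq_fintype_card, Fintype.card_coe] at hcard
    exact hcard
  have himg : (X.image f).card ≤ (OT F ψ k T).ncard := by
    have h1 : ((X.image f : Finset (Set (Submodule F L))) : Set (Set (Submodule F L))) ⊆ OT F ψ k T := by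
      intro O hO
      obtain ⟨x, hx, rfl⟩ := mem_image.1 (mem_coe.1 hO)
      exact ⟨_, (hX x hx).2.1, (hX x hx).2.2, rfl⟩
    rw [← Set.ncard_coe_finset]
    exact Set.ncard_le_ncard h1 (Set.toFinite _)
  have hsum : X.card = ∑ O ∈ X.image f, (X.filter (fun x => f x = O)).card :=
    card_eq_sum_card_image f X
  rw [hsum, sum_mul]
  calc ∑ O ∈ X.image f, (X.filter (fun x => f x = O)).card * (Fintype.card F - 1)
      ≤ ∑ O ∈ X.image f, Fintype.card {g : Lˣ // ψ g = 1} * BB F k := sum_le_sum hfib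
    _ = (X.image f).card * (Fintype.card {g : Lˣ // ψ g = 1} * BB F k) := by
        rw [sum_const, smul_eq_mul]
    _ ≤ _ := Nat.mul_le_mul_right _ himg

open Classical in
/-- The size of the kernel of the character. -/
theorem ker_card {ψ : MulChar L ℂ} {M : ℕ} (hψ : orderOf ψ = M) :
    Fintype.card {g : Lˣ // ψ g = 1} * M ≤ Fintype.card L - 1 := by
  obtain ⟨u, hu⟩ := IsCyclic.exists_generator (α := Lˣ)
  have hord : ∀ j : ℕ, ψ (u : L) ^ j = 1 → M ∣ j := by
    intro j hj
    rw [← hψ, orderOf_dvd_iff_pow_eq_one]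
    ext v
    obtain ⟨n, hn⟩ := Subgroup.mem_zpowers_iff.1 (hu v)
    rw [MulChar.pow_apply_coe, MulChar.one_apply_coe]
    have h1 : ∀ w : Lˣ, ψ (w : L) = ((Units.map (ψ : L →* ℂ) w : ℂˣ) : ℂ) := fun w => rfl
    have h2 : (Units.map (ψ : L →* ℂ) u) ^ j = 1 := by
      ext
      rw [Units.val_pow_eq_pow_val, ← h1, hj, Units.val_one]
    rw [h1, ← hn, map_zpow, ← Units.val_pow_eq_pow_val, ← zpow_natCast, ← zpow_mul, mul_comm, zpow_mul,
      zpow_natCast, h2, one_zpow, Units.val_one]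
  let Φ : {g : Lˣ // ψ g = 1} × Fin M → Lˣ := fun p => p.1.1 * u ^ (p.2 : ℕ)
  have hΦ : Function.Injective Φ := by
    rintro ⟨⟨g, hg⟩, i⟩ ⟨⟨g', hg'⟩, j⟩ h
    simp only [Φ] at h
    have h1 := congrArg (fun w : Lˣ => ψ (w : L)) h
    simp only [Units.val_mul, Units.val_pow_eq_pow_val, map_mul, map_pow, hg, hg', one_mul] at h1
    have hu0 : ψ (u : L) ≠ 0 := (u.isUnit.map ψ).ne_zero
    have hij : i = j := by
      rcases le_total (i : ℕ) (j : ℕ) with hle | hle
      · have h2 : ψ (u : L) ^ ((j : ℕ) - i) = 1 := by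
          have h3 : ψ (u : L) ^ (j : ℕ) = ψ (u : L) ^ (i : ℕ) * ψ (u : L) ^ ((j : ℕ) - i) := by
            rw [← pow_add]; congr 1; omega
          rw [h3] at h1
          exact (mul_eq_left₀ (pow_ne_zero _ hu0)).1 h1.symm
        have h3 := Nat.eq_zero_of_dvd_of_lt (hord _ h2) (by omega)
        exact Fin.ext (by omega)
      · have h2 : ψ (u : L) ^ ((i : ℕ) - j) = 1 := by
          have h3 : ψ (u : L) ^ (i : ℕ) = ψ (u : L) ^ (j : ℕ) * ψ (u : L) ^ ((i : ℕ) - j) := by
            rw [← pow_add]; congr 1; omega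
          rw [h3] at h1
          exact (mul_eq_left₀ (pow_ne_zero _ hu0)).1 h1
        have h3 := Nat.eq_zero_of_dvd_of_lt (hord _ h2) (by omega)
        exact Fin.ext (by omega)
    subst hij
    have h2 : g = g' := mul_right_cancel h
    subst h2
    rfl
  have h1 := Fintype.card_le_of_injective Φ hΦ
  rwa [Fintype.card_prod, Fintype.card_fin, Fintype.card_units] at h1

end

end Pool.Agent.Helper491_Par
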