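import Pool.Agent.Helper491_Par.Hyp
import Pool.Agent.R128.IT.NibT

/-!
# Adding a fixed number of dimensions
-/

set_option autoImplicit false
set_option linter.unusedSectionVars false

namespace Pool.Agent.Helper491_Par.Sw

open Module Finset

open scoped LinearAlgebra.Projectivization

section

variable {F K1 K2 U : Type} [Field F] [Fintype F] [Field K1] [Fintype K1] [Algebra F K1] [Field K2]
  [Fintype K2] [Algebra F K2] [Algebra K1 K2] [IsScalarTower F K1 K2] [AddCommGroup U] [Module F U]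
  [Fintype U]

/-- The number of cosets. -/
theorem card_C : Nat.card {c : K1 →ₗ[F] K2 // c 1 = 0} =
    (Fintype.card F ^ finrank F K2) ^ (finrank F K1 - 1) := by
  let ev : (K1 →ₗ[F] K2) →ₗ[F] K2 := LinearMap.applyₗ (1 : K1)
  have hev : ∀ δ, ev δ = δ 1 := fun δ => rfl
  have hsurj : LinearMap.range ev = ⊤ := by
    rw [LinearMap.range_eq_top]
    intro a
    exact ⟨mr F a, by rw [hev, mr_apply, map_one (algebraMap K1 K2), mul_one]⟩
  have hk := LinearMap.finrank_range_add_finrank_ker ev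
  rw [hsurj, finrank_top, Module.finrank_linearMap] at hk
  have hpos : 0 < finrank F K1 := finrank_pos
  have h1 : finrank F (LinearMap.ker ev) = finrank F K2 * (finrank F K1 - 1) := by
    obtain ⟨r, hr⟩ : ∃ r, finrank F K1 = r + 1 := ⟨finrank F K1 - 1, by omega⟩
    rw [hr] at hk ⊢
    rw [Nat.add_sub_cancel]
    have : (r + 1) * finrank F K2 = finrank F K2 + finrank F K2 * r := by ring
    omega
  have h2 : Nat.card {c : K1 →ₗ[F] K2 // c 1 = 0} = Nat.card (LinearMap.ker ev) :=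
    Nat.card_congr (Equiv.subtypeEquivRight fun c => by rw [LinearMap.mem_ker, hev])
  rw [h2, Module.natCard_eq_pow_finrank (K := F), h1, Nat.card_eq_fintype_card, pow_mul]

theorem G_eq {ι ι' : K1 →ₗ[F] U} {f f' : K1 →ₗ[F] K2} (h : G ι f = G ι' f') :
    LinearMap.range ι = LinearMap.range ι' := by
  have key : ∀ {ι ι' : K1 →ₗ[F] U} {f f' : K1 →ₗ[F] K2}, G ι f = G ι' f' →
      LinearMap.range ι ≤ LinearMap.range ι' := by
    rintro ι ι' f f' h _ ⟨x, rfl⟩
    have h1 : (ι x, f x) ∈ G ι' f' := by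
      rw [← h]
      exact ⟨x, rfl⟩
    obtain ⟨y, hy, -⟩ := mem_G.1 h1
    exact ⟨y, hy⟩
  exact le_antisymm (key h) (key h.symm)

theorem G_eq' {ι : K1 →ₗ[F] U} (hι : Function.Injective ι) {f f' : K1 →ₗ[F] K2}
    (h : G ι f = G ι f') : f = f' := by
  apply LinearMap.ext
  intro x
  have h1 : (ι x, f x) ∈ G ι f' := by
    rw [← h]
    exact ⟨x, rfl⟩
  obtain ⟨y, hy1, hy2⟩ := mem_G.1 h1
  simp only at hy1 hy2
  rw [hι hy1] at hy2
  exact hy2.symm

theorem G_ne {ι ι' : K1 →ₗ[F] U} (hι : Function.Injective ι) {f f' : K1 →ₗ[F] K2}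
    {β : K2} (hβ : β ≠ 0) (h : G ι f ∈ Bl ι' f' β) : False := by
  obtain ⟨κ, hκ, hG⟩ := h
  have h1 : ((0 : U), β * algebraMap K1 K2 κ) ∈ G ι f := by
    rw [hG, mem_Bk]
    have h2 : dl F K1 (1 : K1) = 0 := dl_eq_zero.2 ⟨1, (map_one _).symm⟩
    exact ⟨1, by rw [h2, mul_zero, map_zero], by rw [h2, mul_zero, map_zero, zero_add, mul_one]⟩
  obtain ⟨x, hx1, hx2⟩ := mem_G.1 h1
  simp only at hx1 hx2
  have hx : x = 0 := hι (hx1.trans (map_zero _).symm)
  rw [hx, map_zero] at hx2
  have h3 : algebraMap K1 K2 κ ≠ 0 := by rwa [Ne, map_eq_zero]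
  exact mul_ne_zero hβ h3 hx2.symm

variable {k N : ℕ}

/-- **The packing from a matching.** -/
theorem pack_of_matching (D : Dat F K1 K2 U k N) (M : Finset (Edge D))
    (hM : ∀ e ∈ M, ∀ f ∈ M, e ≠ f → Disjoint (Av D e) (Av D f)) :
    ∃ n : ℕ, Pack F (U × K2) k n ∧
      N * Nat.card {c : K1 →ₗ[F] K2 // c 1 = 0} + M.card ≤
        n + N * Nat.card {c : K1 →ₗ[F] K2 // c 1 = 0} * Nat.card (ℙ K1 K2) := by
  classical
  have hfinH : Finite (K1 →ₗ[F] K2) := Module.finite_of_finite F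
  have : Fintype {c : K1 →ₗ[F] K2 // c 1 = 0} := Fintype.ofFinite _
  have : Fintype (ℙ K1 K2) := Fintype.ofFinite _
  have hMeq : ∀ e ∈ M, ∀ f ∈ M, ∀ v, v ∈ Av D e → v ∈ Av D f → e = f := by
    intro e he f hf v hve hvf
    by_contra hne
    exact Finset.disjoint_left.1 (hM e he f hf hne) hve hvf
  set Gd : Finset (Fin N × {c : K1 →ₗ[F] K2 // c 1 = 0}) := univ.filter
    (fun p => ∀ j : ℙ K1 K2, ∃ e ∈ M, e.i = p.1 ∧ cc e.f = p.2.1 ∧ e.j = j) with hGd
  refine ⟨Fintype.card {p // p ∈ Gd}, ?_, ?_⟩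
  · have hex : ∀ (p : {p // p ∈ Gd}) (j : ℙ K1 K2), ∃ e ∈ M, e.i = p.1.1 ∧ cc e.f = p.1.2.1 ∧ e.j = j :=
      fun p j => (mem_filter.1 p.2).2 j
    choose e heM hei hec hej using hex
    have hcf : ∀ p j, p.1.2.1 + mr F ((e p j).f 1) = (e p j).f := by
      intro p j
      rw [← hec p j]
      exact cc_add _
    refine Pack.of_fintype (fun p : {p // p ∈ Gd} => SS (D.S p.1.1) D.ι p.1.2.1
      (fun j => (e p j).E) (fun j => (e p j).f 1) (fun j => (e p j).β)) ?_ ?_
    · intro p
      refine asm D.hk (D.hS _) (D.hι _) _ ?_ ?_ (fun j => (e p j).hβ) (fun j => hej p j)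
      · intro j
        have h := (e p j).hi
        rw [hei p j] at h
        exact h
      · intro j j' h
        have h1 : e p j = e p j' := by
          refine hMeq _ (heM p j) _ (heM p j') (Sum.inr (Sum.inl (p.1.2.1, (e p j).E)))
            (mem_Av2.2 ⟨(hec p j).symm, rfl⟩) (mem_Av2.2 ⟨(hec p j').symm, h⟩)
        rw [← hej p j, ← hej p j', h1]
    · intro p p' W hW hW'
      rcases hW with ⟨E, hE, a, -, rfl⟩ | ⟨j, hW⟩
      · rcases hW' with ⟨E', hE', a', -, hEq⟩ | ⟨j', hW'⟩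
        · have h1 := G_eq hEq
          rw [(D.hι _ E hE).2, (D.hι _ E' hE').2] at h1
          subst h1
          have h2 := G_eq' (D.hι _ E hE).1 hEq
          have h3 : p.1.1 = p'.1.1 := D.hdisj _ _ _ hE hE'
          have h4 : p.1.2.1 = p'.1.2.1 := by
            rw [← (cc_of p.1.2.2 a).1, ← (cc_of p'.1.2.2 a').1, h2]
          exact Subtype.ext (Prod.ext h3 (Subtype.ext h4))
        · exact (G_ne (D.hι _ E hE).1 (e p' j').hβ hW').elim
      · rcases hW' with ⟨E', hE', a', -, rfl⟩ | ⟨j', hW'⟩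
        · exact (G_ne (D.hι _ E' hE').1 (e p j).hβ hW).elim
        · simp only [hcf] at hW hW'
          have h1 : e p j = e p' j' := hMeq _ (heM p j) _ (heM p' j') (Sum.inr (Sum.inr W))
            (mem_Av3.2 hW) (mem_Av3.2 hW')
          have h3 : p.1.1 = p'.1.1 := by rw [← hei p j, ← hei p' j', h1]
          have h4 : p.1.2.1 = p'.1.2.1 := by rw [← hec p j, ← hec p' j', h1]
          exact Subtype.ext (Prod.ext h3 (Subtype.ext h4))
  · -- counting
    rw [Fintype.card_coe]
    let g : Edge D → Fin N × {c : K1 →ₗ[F] K2 // c 1 = 0} × ℙ K1 K2 :=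
      fun e => (e.i, ⟨cc e.f, cc_one _⟩, e.j)
    have hginj : Set.InjOn g (M : Set (Edge D)) := by
      intro e he f hf h
      simp only [g, Prod.mk.injEq, Subtype.mk.injEq] at h
      exact hMeq e he f hf (Sum.inl (e.i, cc e.f, e.j)) (mem_Av1.2 ⟨rfl, rfl, rfl⟩)
        (mem_Av1.2 ⟨h.1, h.2.1, h.2.2⟩)
    have hcardM : (M.image g).card = M.card := card_image_of_injOn hginj
    -- the bad indices
    have hbad : ((univ \ Gd).card) ≤ (univ \ (M.image g)).card := by
      have hex : ∀ p ∈ univ \ Gd, ∃ j : ℙ K1 K2, (p.1, p.2, j) ∉ M.image g := by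
        intro p hp
        rw [mem_sdiff, hGd, mem_filter] at hp
        by_contra hcon
        push Not at hcon
        apply hp.2
        refine ⟨mem_univ _, fun j => ?_⟩
        obtain ⟨e, he, heq⟩ := mem_image.1 (hcon j)
        simp only [g, Prod.mk.injEq] at heq
        refine ⟨e, he, heq.1, ?_, heq.2.2⟩
        rw [← heq.2.1]
      choose! jj hjj using hex
      refine Finset.card_le_card_of_injOn (fun p => (p.1, p.2, jj p)) ?_ ?_
      · intro p hp
        rw [mem_coe, mem_sdiff]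
        exact ⟨mem_univ _, hjj p hp⟩
      · intro p _ p' _ h
        simp only [Prod.mk.injEq] at h
        exact Prod.ext h.1 h.2.1
    have h1 := card_sdiff_add_card_eq_card (subset_univ Gd)
    have h2 := card_sdiff_add_card_eq_card (subset_univ (M.image g))
    rw [card_univ, Fintype.card_prod, Fintype.card_fin] at h1
    rw [card_univ, Fintype.card_prod, Fintype.card_prod, Fintype.card_fin, hcardM] at h2
    rw [Nat.card_eq_fintype_card, Nat.card_eq_fintype_card]
    have h3 : N * (Fintype.card {c : K1 →ₗ[F] K2 // c 1 = 0} * Fintype.card (ℙ K1 K2)) =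
        N * Fintype.card {c : K1 →ₗ[F] K2 // c 1 = 0} * Fintype.card (ℙ K1 K2) := by ring
    omega

end

/-- **Part II.** -/
theorem partII (F : Type) [Field F] [Fintype F] (k : ℕ) (hk : 2 ≤ k) (n2 : ℕ) (hn2 : 0 < n2)
    (hkn : k ∣ n2) (ε : ℝ) (hε : 0 < ε) :
    ∃ n0 : ℕ, ∀ n1 : ℕ, n0 ≤ n1 → ∀ (U : Type) [AddCommGroup U] [Module F U], finrank F U = n1 →
      ∀ ε1 : ℝ, 0 ≤ ε1 → NP F U k ε1 → ∀ (V : Type) [AddCommGroup V] [Module F V],
      finrank F V = n1 + n2 → NP F V k (ε1 + ε) := by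
  classical
  -- the fields
  obtain ⟨p, hp⟩ := CharP.exists F
  have hpp : Fact p.Prime := ⟨CharP.char_is_prime F p⟩
  have hkne : NeZero k := ⟨by omega⟩
  obtain ⟨s, hs⟩ := hkn
  have hsne : NeZero s := ⟨by rintro rfl; omega⟩
  let K1 := FiniteField.Extension F p k
  have hK1 : finrank F K1 = k := FiniteField.finrank_extension F p k
  have hp1 : CharP K1 p := charP_of_injective_algebraMap (algebraMap F K1).injective p
  let K2 := FiniteField.Extension K1 p s
  have hK2' : finrank K1 K2 = s := FiniteField.finrank_extension K1 p s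
  let _ : Algebra F K2 := ((algebraMap K1 K2).comp (algebraMap F K1)).toAlgebra
  have hst : IsScalarTower F K1 K2 := IsScalarTower.of_algebraMap_eq (fun x => rfl)
  have hfd1 : FiniteDimensional F K1 := Module.Finite.of_finite
  have hfd12 : FiniteDimensional K1 K2 := Module.Finite.of_finite
  have hK2 : finrank F K2 = n2 := by
    rw [← Module.finrank_mul_finrank F K1 K2, hK1, hK2', hs]
  have : Fintype K1 := Fintype.ofFinite K1
  have : Fintype K2 := Fintype.ofFinite K2
  set q := Fintype.card F with hq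
  have hq2 : 2 ≤ q := Fintype.one_lt_card
  set r := Nat.card (ℙ K1 K2) with hr
  have hr0 : 0 < r := by
    have hne : Nonempty (ℙ K1 K2) := ⟨Projectivization.mk K1 (1 : K2) one_ne_zero⟩
    exact Nat.card_pos
  have hr0' : (0 : ℝ) < r := by exact_mod_cast hr0
  set ε' := min ε 1 with hε'
  have hε'0 : 0 < ε' := lt_min hε one_pos
  obtain ⟨κ, hκ, hnib⟩ := R128.IT.nibble_T' (Fintype.card K1 + 2) (ε' / r) (by positivity)
  set C0 := Nat.card (K1 →ₗ[F] K2) * Fintype.card K2 with hC0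
  obtain ⟨n0, hn0⟩ := exists_nat_gt (max (Fintype.card K2 : ℝ) ((C0 + 1) / κ))
  refine ⟨n0, ?_⟩
  intro n1 hn1 U _ _ hU ε1 hε1 hNP V _ _ hV
  have hn1' : max (Fintype.card K2 : ℝ) ((C0 + 1) / κ) < n1 :=
    hn0.trans_le (by exact_mod_cast hn1)
  have hn1K : Fintype.card K2 < n1 := by
    exact_mod_cast (le_max_left _ _).trans_lt hn1'
  have hn1C : (C0 + 1 : ℝ) / κ < n1 := (le_max_right _ _).trans_lt hn1'
  have hfdU : FiniteDimensional F U := finite_of_finrank_pos (by rw [hU]; omega)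
  have hfdV : FiniteDimensional F V := finite_of_finrank_pos (by rw [hV]; omega)
  have hfinU : Finite U := Module.finite_of_finite F
  have : Fintype U := Fintype.ofFinite U
  have hUcard : Fintype.card U = q ^ n1 := by
    rw [Module.card_eq_pow_finrank (K := F), hU]
  have hUbig : n1 ≤ Fintype.card U - 1 := by
    rw [hUcard]
    have := Nat.lt_pow_self (n := n1) (by omega : 1 < q)
    omega
  obtain ⟨N, ⟨S, hS, hdisj⟩, hNlow⟩ := hNP
  -- the parametrisations
  have hιex : ∀ E : Submodule F U, ∃ ι : K1 →ₗ[F] U, finrank F E = k →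
      Function.Injective ι ∧ LinearMap.range ι = E := by
    intro E
    by_cases h : finrank F E = k
    · let e := LinearEquiv.ofFinrankEq K1 E (hK1.trans h.symm)
      refine ⟨E.subtype ∘ₗ (e : K1 →ₗ[F] E), fun _ => ⟨?_, ?_⟩⟩
      · intro x y hxy
        exact e.injective (Subtype.ext hxy)
      · rw [LinearMap.range_comp, LinearEquiv.range, Submodule.map_top, Submodule.range_subtype]
    · exact ⟨0, fun h' => absurd h' h⟩
  choose ι hι using hιex
  let D : Dat F K1 K2 U k N :=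
    { S := S, hS := hS, hdisj := hdisj, ι := ι,
      hι := fun i E hE => hι E ((hS i).1 E hE), hk := hK1, hk2 := hk }
  -- the nibble
  set DD := (Fintype.card U - 1) * Fintype.card K2 with hDD
  have hK2pos : 0 < Fintype.card K2 := Fintype.card_pos
  have hDD0 : 0 < DD := Nat.mul_pos (by omega) hK2pos
  have hDD0' : (0 : ℝ) < DD := by exact_mod_cast hDD0
  have hdeg : ∀ v : Vx F K1 K2 U N,
      ((univ.filter (fun e : Edge D => v ∈ Av D e)).card : ℕ) ≤ DD := by
    intro v
    rcases v with ⟨i, c, j⟩ | ⟨c, E⟩ | B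
    · exact deg1 i c j
    · exact (deg2 c E).trans (Nat.mul_le_mul_right _ (by omega))
    · exact deg3 B
  have hsumw : ∀ s : Finset (Edge D), ∑ _e ∈ s, (1 / (DD : ℝ)) = s.card / DD := by
    intro s
    rw [sum_const, nsmul_eq_mul]; ring
  have hCκ : ((C0 : ℝ) + 1) / DD ≤ κ := by
    rw [div_le_iff₀ hDD0']
    rw [div_lt_iff₀ hκ] at hn1C
    have h1 : (n1 : ℝ) ≤ DD := by
      have : n1 ≤ DD := hUbig.trans (Nat.le_mul_of_pos_right _ hK2pos)
      exact_mod_cast this
    nlinarith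
  obtain ⟨M, hM1, -, hM3⟩ := hnib (Edge D) (Vx F K1 K2 U N) (Av D) (fun _ => 1 / (DD : ℝ))
    (fun _ => by positivity) (fun e => nonempty_Av e) (fun e => card_Av e)
    (fun v => by
      rw [hsumw, div_le_one hDD0']
      refine le_trans (le_of_eq ?_) ((Nat.cast_le (α := ℝ)).2 (hdeg v))
      congr!)
    (fun u v huv => by
      rw [hsumw]
      refine le_trans ?_ hCκ
      apply div_le_div_of_nonneg_right _ hDD0'.le
      have h1 := codeg (D := D) huv
      have h2 : (((univ.filter (fun e : Edge D => u ∈ Av D e ∧ v ∈ Av D e)).card : ℕ) : ℝ) ≤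
          ((C0 : ℕ) : ℝ) := (Nat.cast_le (α := ℝ)).2 h1
      refine le_trans (le_trans (le_of_eq ?_) h2) (by linarith)
      congr!)
    (fun _ => by
      refine le_trans ?_ hCκ
      apply div_le_div_of_nonneg_right _ hDD0'.le
      have : (0 : ℝ) ≤ C0 := Nat.cast_nonneg _
      linarith)
  rw [hsumw] at hM3
  obtain ⟨n, hpack, hncard⟩ := pack_of_matching D M hM1
  have htot := total (D := D)
  set cC := Nat.card {c : K1 →ₗ[F] K2 // c 1 = 0} with hcC
  have hfinal : (1 - ε') * ((N : ℝ) * cC) ≤ n := by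
    have h1 : ((N * cC * r * DD : ℕ) : ℝ) ≤ ((Fintype.card (Edge D) : ℕ) : ℝ) := by
      exact_mod_cast htot
    have hθ : 0 ≤ 1 - ε' / r := by
      have h2 : ε' / r ≤ 1 := by
        rw [div_le_one hr0']
        have h3 : ε' ≤ 1 := min_le_right _ _
        have h4 : (1 : ℝ) ≤ r := by exact_mod_cast hr0
        linarith
      linarith
    have h2 : (N : ℝ) * cC * r ≤ ((univ : Finset (Edge D)).card : ℝ) / DD := by
      rw [le_div_iff₀ hDD0', card_univ]
      push_cast at h1
      exact h1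
    have h3 : (1 - ε' / r) * ((N : ℝ) * cC * r) ≤ M.card :=
      (mul_le_mul_of_nonneg_left h2 hθ).trans hM3
    have h4 : ((N * cC + M.card : ℕ) : ℝ) ≤ ((n + N * cC * r : ℕ) : ℝ) := by exact_mod_cast hncard
    push_cast at h4
    have h5 : (1 - ε' / r) * ((N : ℝ) * cC * r) = (N : ℝ) * cC * r - ε' * ((N : ℝ) * cC) := by
      field_simp
    rw [h5] at h3
    linarith
  have hfinUK : finrank F (U × K2) = finrank F V := by
    have : FiniteDimensional F K2 := Module.Finite.of_finite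
    rw [finrank_prod, hU, hK2, hV]
  have hfdUK : FiniteDimensional F (U × K2) := Module.Finite.of_finite
  refine NP.map (LinearEquiv.ofFinrankEq (U × K2) V hfinUK) ⟨n, hpack, ?_⟩
  rw [hfinUK, hV]
  rw [hU] at hNlow
  have hcCval : (cC : ℝ) = ((q : ℝ) ^ n2) ^ (k - 1) := by
    rw [hcC, card_C, hK2, hK1]
    push_cast
    rfl
  set X : ℝ := (((q : ℝ) ^ k - 1) * ((q : ℝ) ^ n1) ^ (k - 1)) with hX
  have hq1 : (1 : ℝ) ≤ q := by exact_mod_cast (by omega : 1 ≤ q)
  have hX0 : 0 ≤ X := mul_nonneg (by linarith [one_le_pow₀ hq1 (n := k)]) (by positivity)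
  have hcC0 : (0 : ℝ) ≤ cC := Nat.cast_nonneg _
  have hsplit : (((q : ℝ) ^ k - 1) * ((q : ℝ) ^ (n1 + n2)) ^ (k - 1)) = X * cC := by
    rw [hcCval, hX, pow_add, mul_pow]; ring
  rw [hsplit]
  have hε'1 : ε' ≤ 1 := min_le_right _ _
  have hε'ε : ε' ≤ ε := min_le_left _ _
  have hBB : (0 : ℝ) ≤ BB F k := Nat.cast_nonneg _
  calc (1 - (ε1 + ε)) * (X * cC) ≤ ((1 - ε') * (1 - ε1)) * (X * cC) := by
        apply mul_le_mul_of_nonneg_right _ (mul_nonneg hX0 hcC0)
        nlinarith
    _ = (1 - ε') * cC * ((1 - ε1) * X) := by ring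
    _ ≤ (1 - ε') * cC * (N * BB F k) := by
        apply mul_le_mul_of_nonneg_left hNlow
        exact mul_nonneg (by linarith) hcC0
    _ = (1 - ε') * (N * cC) * BB F k := by ring
    _ ≤ n * BB F k := mul_le_mul_of_nonneg_right hfinal hBB

end Pool.Agent.Helper491_Par.Sw
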