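import Pool.Agent.Helper491_Par.Double

/-!
# A family of line spreads of the three-dimensional projective space

`K / F` quadratic. The spreads of the family have exactly one line in common with the spread of the
one-dimensional `K`-subspaces of `K × K`, and every other line is in exactly `q ^ 2` of them.
-/

set_option autoImplicit false

namespace Pool.Agent.Helper491_Par.LP

open Module Pool.Agent.Helper491_Par

open scoped LinearAlgebra.Projectivization

section Lines

variable {F K : Type} [Field F] [Field K] [Algebra F K]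

/-- The line `{(a y + b σ y, y + s (a y + b σ y))}`. -/
noncomputable def hr (σ : K →ₐ[F] K) (s a b : K) : Submodule F (K × K) :=
  LinearMap.range
    ({ toFun := fun y => (a * y + b * σ y, y + s * (a * y + b * σ y))
       map_add' := fun x y => by
        ext
        · simp only [map_add, Prod.fst_add]; ring
        · simp only [map_add, Prod.snd_add]; ring
       map_smul' := fun c x => by
        ext
        · simp [smul_add]
        · simp only [RingHom.id_apply, Prod.smul_snd, map_smul]
          simp only [Algebra.smul_def]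
          ring } :
      K →ₗ[F] K × K)

theorem mem_hr {σ : K →ₐ[F] K} {s a b : K} {v : K × K} :
    v ∈ hr σ s a b ↔ v.1 = a * (v.2 - s * v.1) + b * σ (v.2 - s * v.1) := by
  unfold hr
  rw [LinearMap.mem_range]
  constructor
  · rintro ⟨y, rfl⟩
    simp only [LinearMap.coe_mk, AddHom.coe_mk]
    have : y + s * (a * y + b * σ y) - s * (a * y + b * σ y) = y := by ring
    rw [this]
  · intro h
    refine ⟨v.2 - s * v.1, Prod.ext h.symm ?_⟩
    simp only [LinearMap.coe_mk, AddHom.coe_mk]
    rw [← h]; ring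

theorem exists_delta {σ : K →ₐ[F] K} (h : QuadData F K σ) :
    ∃ w : K, (∀ a : F, w ≠ algebraMap F K a) ∧ σ w - w ≠ 0 := by
  obtain ⟨w, hw⟩ := exists_not_mem h
  refine ⟨w, hw, ?_⟩
  intro h0
  obtain ⟨a, ha⟩ := h.fixed w (sub_eq_zero.1 h0)
  exact hw a ha

/-- Comparing coefficients. -/
theorem coeff_zero {σ : K →ₐ[F] K} (h : QuadData F K σ) {c d : K}
    (hh : ∀ x : K, c * x + d * σ x = 0) : c = 0 ∧ d = 0 := by
  obtain ⟨w, -, hne⟩ := exists_delta h
  have h2 := hh 1
  have h3 := hh w
  rw [map_one] at h2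
  have h4 : d * (σ w - w) = 0 := by linear_combination h3 - w * h2
  have h5 : d = 0 := (mul_eq_zero.1 h4).resolve_right hne
  refine ⟨?_, h5⟩
  rw [h5] at h2
  linear_combination h2

theorem hr_mem_Rl {σ : K →ₐ[F] K} (h : QuadData F K σ) {s a b : K} (hb : b ≠ 0) :
    hr σ s a b ∈ Rl F K (K × K) := by
  obtain ⟨w, hw, hne⟩ := exists_delta h
  have hli : LinearIndependent K ![(a + b, 1 + s * (a + b)),
      (a * w + b * σ w, w + s * (a * w + b * σ w))] := by
    rw [li_iff_det]
    simp only
    have : (a + b) * (w + s * (a * w + b * σ w)) - (1 + s * (a + b)) * (a * w + b * σ w) =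
      -b * (σ w - w) := by ring
    rw [this]
    exact mul_ne_zero (neg_ne_zero.2 hb) hne
  refine ⟨_, _, hli, ?_⟩
  apply le_antisymm
  · rintro _ ⟨y, rfl⟩
    obtain ⟨⟨c, d⟩, hcd, -⟩ := basis_one h hw y
    simp only at hcd
    refine Submodule.mem_span_pair.2 ⟨c, d, ?_⟩
    simp only [LinearMap.coe_mk, AddHom.coe_mk]
    ext
    · simp only [Prod.fst_add, Prod.smul_fst]
      rw [hcd, map_add, map_mul, AlgHom.commutes, AlgHom.commutes, Algebra.smul_def,
        Algebra.smul_def]
      ring
    · simp only [Prod.snd_add, Prod.smul_snd]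
      rw [hcd, map_add, map_mul, AlgHom.commutes, AlgHom.commutes, Algebra.smul_def,
        Algebra.smul_def]
      ring
  · rw [Submodule.span_le]
    rintro x (rfl | rfl)
    · exact ⟨1, by simp⟩
    · exact ⟨w, rfl⟩

theorem eq_of_le_Rl [Finite K] {L L' : Submodule F (K × K)} (hL : L ∈ Rl F K (K × K))
    (hL' : L' ∈ Rl F K (K × K)) (hle : L ≤ L') : L = L' := by
  have : FiniteDimensional F L' := Module.Finite.of_finite
  exact Submodule.eq_of_le_of_finrank_eq hle
    (by rw [finrank_of_mem_Rl F (K := K) hL, finrank_of_mem_Rl F (K := K) hL'])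

/-- When the graph `gr` is one of the lines `hr`. -/
theorem gr_eq_hr [Finite K] {σ : K →ₐ[F] K} (h : QuadData F K σ) {α β s b : K} (hβ : β ≠ 0)
    (hb : b ≠ 0) : (∃ a, gr σ α β = hr σ s a b) ↔ b * (β * σ β - (α - s) * σ (α - s)) = β := by
  constructor
  · rintro ⟨a, ha⟩
    have h1 : ∀ x : K, (a * (α - s) + b * σ β - 1) * x + (a * β + b * σ (α - s)) * σ x = 0 := by
      intro x
      have hx : (x, α * x + β * σ x) ∈ gr σ α β := mem_gr.2 rfl
      rw [ha, mem_hr] at hx
      simp only at hx
      have h2 : α * x + β * σ x - s * x = (α - s) * x + β * σ x := by ring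
      rw [h2, map_add, map_mul, map_mul, h.inv] at hx
      linear_combination -hx
    obtain ⟨h2, h3⟩ := coeff_zero h h1
    linear_combination β * h2 - (α - s) * h3
  · intro hb2
    refine ⟨-(b * σ (α - s)) / β, ?_⟩
    apply eq_of_le_Rl (gr_mem_Rl h hβ) (hr_mem_Rl h hb)
    intro v hv
    rw [mem_gr] at hv
    rw [mem_hr, hv]
    have h2 : α * v.1 + β * σ v.1 - s * v.1 = (α - s) * v.1 + β * σ v.1 := by ring
    rw [h2, map_add, map_mul, map_mul, h.inv]
    field_simp
    linear_combination -v.1 * hb2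

/-- When a line through `(0, y0)` is one of the lines `hr`. -/
theorem span_eq_hr [Finite K] {σ : K →ₐ[F] K} (h : QuadData F K σ) {x1 y1 y0 s b : K}
    (hx : x1 ≠ 0) (hy : y0 ≠ 0) (hb : b ≠ 0) :
    (∃ a, Submodule.span F {(x1, y1), ((0 : K), y0)} = hr σ s a b) ↔
      x1 = b * σ y0 * (σ ((y1 - s * x1) / y0) - (y1 - s * x1) / y0) := by
  have hy' : σ y0 ≠ 0 := by rwa [Ne, map_eq_zero]
  constructor
  · rintro ⟨a, ha⟩
    have h1 : ((0 : K), y0) ∈ hr σ s a b := by
      rw [← ha]; exact Submodule.subset_span (by simp)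
    have h2 : (x1, y1) ∈ hr σ s a b := by
      rw [← ha]; exact Submodule.subset_span (by simp)
    rw [mem_hr] at h1 h2
    simp only [mul_zero, sub_zero] at h1 h2
    rw [map_div₀]
    generalize y1 - s * x1 = z at h2 ⊢
    field_simp
    linear_combination y0 * h2 - z * h1
  · intro hb2
    refine ⟨-(b * σ y0) / y0, ?_⟩
    have hmem : Submodule.span F {(x1, y1), ((0 : K), y0)} ∈ Rl F K (K × K) :=
      ⟨_, _, by rw [li_iff_det]; simp [hx, hy], rfl⟩
    apply eq_of_le_Rl hmem (hr_mem_Rl h hb)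
    rw [Submodule.span_le]
    rintro v (rfl | rfl)
    · rw [SetLike.mem_coe, mem_hr]
      simp only
      conv_lhs => rw [hb2]
      rw [map_div₀]
      generalize y1 - s * x1 = z
      field_simp
      ring
    · rw [SetLike.mem_coe, mem_hr]
      simp only [mul_zero, sub_zero]
      field_simp
      ring

/-- A real line is of one of two types. -/
theorem two_types {σ : K →ₐ[F] K} (h : QuadData F K σ) [Finite K] {L : Submodule F (K × K)}
    (hL : L ∈ Rl F K (K × K)) :
    (∃ x1 y1 y0 : K, x1 ≠ 0 ∧ y0 ≠ 0 ∧ L = Submodule.span F {(x1, y1), ((0 : K), y0)}) ∨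
      ∃ α β : K, β ≠ 0 ∧ L = gr σ α β := by
  obtain ⟨e1, e2, he, rfl⟩ := id hL
  rcases dich (F := F) he with ⟨a, b, w, ha, hw, hE⟩ | hli
  · left
    exact ⟨a, b, w, ha, hw, hE⟩
  · right
    have hdet : e1.1 * σ e2.1 - e2.1 * σ e1.1 ≠ 0 := by
      intro h0
      rw [LinearIndependent.pair_iff] at hli
      by_cases h1 : e1.1 = 0
      · exact one_ne_zero (hli 1 0 (by rw [h1]; simp)).1
      · have h1' : σ e1.1 ≠ 0 := by rwa [Ne, map_eq_zero]
        have h2 : σ (e2.1 / e1.1) = e2.1 / e1.1 := by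
          rw [map_div₀]
          field_simp
          linear_combination h0
        obtain ⟨c, hc⟩ := h.fixed _ h2
        have h3 := hli c (-1) (by
          rw [Algebra.smul_def, ← hc, neg_smul, one_smul, div_mul_cancel₀ _ h1]; ring)
        exact one_ne_zero (neg_eq_zero.1 h3.2)
    set Δ := e1.1 * σ e2.1 - e2.1 * σ e1.1 with hΔ
    have hd2 : e1.1 * e2.2 - e1.2 * e2.1 ≠ 0 := (li_iff_det e1 e2).1 he
    have hβ : (e1.1 * e2.2 - e1.2 * e2.1) / Δ ≠ 0 := div_ne_zero hd2 hdet
    refine ⟨(e1.2 * σ e2.1 - e2.2 * σ e1.1) / Δ, (e1.1 * e2.2 - e1.2 * e2.1) / Δ, hβ, ?_⟩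
    apply eq_of_le_Rl hL (gr_mem_Rl h hβ)
    rw [Submodule.span_le]
    rintro v (rfl | rfl)
    · rw [SetLike.mem_coe, mem_gr]
      field_simp
      rw [hΔ]; ring
    · rw [SetLike.mem_coe, mem_gr]
      field_simp
      rw [hΔ]; ring

theorem gr_zero_fst {σ : K →ₐ[F] K} {α β y : K} (h : ((0 : K), y) ∈ gr σ α β) : y = 0 := by
  rw [mem_gr] at h
  simpa using h

end Lines

end Pool.Agent.Helper491_Par.LP
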