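import Pool.Agent.Helper491_Par.TA

/-!
# The family of spreads: counting
-/

set_option autoImplicit false
set_option linter.unusedSectionVars false

namespace Pool.Agent.Helper491_Par.LP

open Module Pool.Agent.Helper491_Par

open scoped LinearAlgebra.Projectivization

section Cnt

variable {F K : Type} [Field F] [Fintype F] [Field K] [Fintype K] [Algebra F K] {σ : K →ₐ[F] K}

/-- The representative of a class of `K^* / F^*`. -/
noncomputable def rho (r : ℙ F K) : K := r.rep

theorem rho_ne (r : ℙ F K) : rho r ≠ 0 := r.rep_nonzero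

theorem rho_exists {x : K} (hx : x ≠ 0) : ∃ r : ℙ F K, ∃ c : F, x = algebraMap F K c * rho r := by
  refine ⟨Projectivization.mk F x hx, ?_⟩
  obtain ⟨a, ha⟩ := (Projectivization.mk_eq_mk_iff' F x _ hx
    (Projectivization.rep_nonzero (Projectivization.mk F x hx))).1
    (Projectivization.mk_rep _).symm
  refine ⟨a, ?_⟩
  rw [Algebra.smul_def] at ha
  exact ha.symm

theorem rho_unique {x : K} (hx : x ≠ 0) {r r' : ℙ F K} {c c' : F} (h : x = algebraMap F K c * rho r)
    (h' : x = algebraMap F K c' * rho r') : r = r' := by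
  have key : ∀ (r : ℙ F K) (c : F), x = algebraMap F K c * rho r →
      Projectivization.mk F x hx = r := by
    intro r c h
    rw [← Projectivization.mk_rep r]
    apply (Projectivization.mk_eq_mk_iff' F x _ hx r.rep_nonzero).2
    exact ⟨c, by rw [h, Algebra.smul_def]; rfl⟩
  rw [← key r c h, ← key r' c' h']

theorem card_K (h : QuadData F K σ) : Nat.card K = Fintype.card F ^ 2 := by
  rw [Nat.card_eq_fintype_card, Module.card_eq_pow_finrank (K := F) (V := K), h.rank]

theorem one_lt_F : 1 < Fintype.card F := Fintype.one_lt_card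

theorem card_ne_zero' {X : Type} [Field X] [Fintype X] :
    Nat.card {x : X // x ≠ 0} = Fintype.card X - 1 := by
  classical
  rw [Nat.card_eq_fintype_card, Fintype.card_subtype_compl, Fintype.card_subtype_eq]

theorem card_P (h : QuadData F K σ) : Nat.card (ℙ F K) = Fintype.card F + 1 := by
  have h1 := Projectivization.card F K
  rw [card_K h, Nat.card_eq_fintype_card (α := F)] at h1
  have hq := one_lt_F (F := F)
  obtain ⟨q, hq'⟩ : ∃ q, Fintype.card F = q + 1 := ⟨Fintype.card F - 1, by omega⟩
  rw [hq'] at h1 hq ⊢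
  have h2 : (q + 1) ^ 2 - 1 = (q + 1 + 1) * q := by
    have : (q + 1) ^ 2 = (q + 1 + 1) * q + 1 := by ring
    omega
  rw [h2, Nat.add_sub_cancel] at h1
  exact (Nat.eq_of_mul_eq_mul_right (by omega) h1).symm

theorem card_fixed (h : QuadData F K σ) : Nat.card {z : K // σ z = z} = Fintype.card F := by
  rw [← Nat.card_eq_fintype_card]
  symm
  refine Nat.card_congr (Equiv.ofBijective
    (fun a : F => (⟨algebraMap F K a, AlgHom.commutes σ a⟩ : {z : K // σ z = z})) ⟨?_, ?_⟩)
  · intro a b hab
    exact (algebraMap F K).injective (congrArg Subtype.val hab)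
  · rintro ⟨z, hz⟩
    obtain ⟨a, ha⟩ := h.fixed z hz
    exact ⟨a, Subtype.ext ha.symm⟩

theorem card_coset (h : QuadData F K σ) {η τ0 : K} (h0 : σ τ0 - τ0 = η) :
    Nat.card {τ : K // σ τ - τ = η} = Fintype.card F := by
  rw [← card_fixed h]
  refine Nat.card_congr
    { toFun := fun τ => ⟨τ.1 - τ0, by
        have := τ.2
        rw [map_sub]; linear_combination this - h0⟩
      invFun := fun z => ⟨z.1 + τ0, by
        have := z.2
        rw [map_add]; linear_combination this + h0⟩
      left_inv := fun τ => Subtype.ext (by simp)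
      right_inv := fun z => Subtype.ext (by simp) }

theorem card_ncoset (h : QuadData F K σ) :
    Nat.card {τ : K // σ τ - τ ≠ 0} = Fintype.card F ^ 2 - Fintype.card F := by
  classical
  have h1 := card_coset h (η := 0) (τ0 := 0) (by simp)
  rw [Nat.card_eq_fintype_card] at h1
  rw [Nat.card_eq_fintype_card, Fintype.card_subtype_compl, h1, ← card_K h,
    Nat.card_eq_fintype_card]

theorem norm_mem (h : QuadData F K σ) (z : K) : ∃ c : F, z * σ z = algebraMap F K c := by
  obtain ⟨a, ha⟩ := h.fixed (z * σ z) (by rw [map_mul, h.inv]; ring)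
  exact ⟨a, ha⟩

theorem card_norm (h : QuadData F K σ) (hN : ∀ c : F, ∃ z : K, z * σ z = algebraMap F K c) {c : F}
    (hc : c ≠ 0) : Nat.card {z : K // z * σ z = algebraMap F K c} = Fintype.card F + 1 := by
  classical
  choose ν hν using norm_mem h
  have hfib : ∀ c : F, Nat.card {z : K // ν z = c} = Nat.card {z : K // z * σ z = algebraMap F K c} := by
    intro c
    apply Nat.card_congr
    apply Equiv.subtypeEquivRight
    intro z
    rw [hν z]
    exact ⟨fun h => by rw [h], fun h => (algebraMap F K).injective h⟩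
  have heq : ∀ c : F, c ≠ 0 → ∀ c' : F, c' ≠ 0 → Nat.card {z : K // z * σ z = algebraMap F K c} =
      Nat.card {z : K // z * σ z = algebraMap F K c'} := by
    intro c hc c' hc'
    obtain ⟨μ, hμ⟩ := hN (c' / c)
    have hμ0 : μ ≠ 0 := by
      rintro rfl
      rw [zero_mul] at hμ
      exact div_ne_zero hc' hc ((map_eq_zero (algebraMap F K)).1 hμ.symm)
    have hσμ : σ μ ≠ 0 := by rwa [Ne, map_eq_zero]
    have hcK : algebraMap F K c ≠ 0 := by rwa [Ne, map_eq_zero]
    rw [map_div₀, eq_div_iff hcK] at hμ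
    refine Nat.card_congr
      { toFun := fun z => ⟨μ * z.1, by
          have := z.2
          rw [map_mul]
          linear_combination μ * σ μ * this + hμ⟩
        invFun := fun z => ⟨μ⁻¹ * z.1, by
          have := z.2
          rw [map_mul, map_inv₀]
          have h2 : μ⁻¹ * z.1 * ((σ μ)⁻¹ * σ z.1) = z.1 * σ z.1 / (μ * σ μ) := by
            field_simp
          rw [h2, div_eq_iff (mul_ne_zero hμ0 hσμ)]
          linear_combination this - hμ⟩
        left_inv := fun z => Subtype.ext (by simp only; field_simp)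
        right_inv := fun z => Subtype.ext (by simp only; field_simp) }
  have hzero : Nat.card {z : K // z * σ z = algebraMap F K 0} = 1 := by
    rw [Nat.card_eq_one_iff_unique]
    refine ⟨⟨?_⟩, ⟨⟨0, by simp⟩⟩⟩
    rintro ⟨a, ha⟩ ⟨b, hb⟩
    have key : ∀ a : K, a * σ a = algebraMap F K 0 → a = 0 := by
      intro a ha
      rw [map_zero] at ha
      rcases mul_eq_zero.1 ha with h1 | h1
      · exact h1
      · rwa [map_eq_zero] at h1
    exact Subtype.ext ((key a ha).trans (key b hb).symm)
  have hsum : Nat.card K = ∑ c : F, Nat.card {z : K // ν z = c} := by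
    rw [← Nat.card_congr (Equiv.sigmaFiberEquiv ν), Nat.card_sigma]
  rw [card_K h, ← Finset.add_sum_erase _ _ (Finset.mem_univ (0 : F))] at hsum
  have hsum2 : ∑ x ∈ Finset.univ.erase (0 : F), Nat.card {z : K // ν z = x} =
      (Fintype.card F - 1) * Nat.card {z : K // z * σ z = algebraMap F K c} := by
    rw [Finset.sum_congr rfl (g := fun _ => Nat.card {z : K // z * σ z = algebraMap F K c})]
    · rw [Finset.sum_const, Finset.card_erase_of_mem (Finset.mem_univ _), Finset.card_univ,
        smul_eq_mul]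
    · intro x hx
      rw [hfib, heq x (Finset.ne_of_mem_erase hx) c hc]
  rw [hsum2, hfib, hzero] at hsum
  have hq := one_lt_F (F := F)
  obtain ⟨q, hq'⟩ : ∃ q, Fintype.card F = q + 1 := ⟨Fintype.card F - 1, by omega⟩
  rw [hq'] at hsum hq ⊢
  rw [Nat.add_sub_cancel] at hsum
  have h2 : (q + 1) ^ 2 = 1 + q * (q + 1 + 1) := by ring
  rw [h2] at hsum
  exact (Nat.eq_of_mul_eq_mul_left (by omega) (Nat.add_left_cancel hsum)).symm

theorem card_norm_zero : Nat.card {z : K // z * σ z = algebraMap F K 0} = 1 := by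
  rw [Nat.card_eq_one_iff_unique]
  refine ⟨⟨?_⟩, ⟨⟨0, by simp⟩⟩⟩
  rintro ⟨a, ha⟩ ⟨b, hb⟩
  have key : ∀ a : K, a * σ a = algebraMap F K 0 → a = 0 := by
    intro a ha
    rw [map_zero] at ha
    rcases mul_eq_zero.1 ha with h1 | h1
    · exact h1
    · rwa [map_eq_zero] at h1
  exact Subtype.ext ((key a ha).trans (key b hb).symm)

theorem card_nnorm (h : QuadData F K σ) (hN : ∀ c : F, ∃ z : K, z * σ z = algebraMap F K c) {β : K}
    (hβ : β ≠ 0) : Nat.card {z : K // β * σ β - z * σ z ≠ 0} =
      Fintype.card F ^ 2 - (Fintype.card F + 1) := by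
  classical
  obtain ⟨c, hc⟩ := norm_mem h β
  have hσβ : σ β ≠ 0 := by rwa [Ne, map_eq_zero]
  have hc0 : c ≠ 0 := by
    rintro rfl
    rw [map_zero] at hc
    exact mul_ne_zero hβ hσβ hc
  have h1 := card_norm h hN hc0
  have h2 : Nat.card {z : K // β * σ β - z * σ z = 0} = Fintype.card F + 1 := by
    rw [← h1]
    apply Nat.card_congr
    apply Equiv.subtypeEquivRight
    intro z
    rw [hc, sub_eq_zero, eq_comm]
  rw [Nat.card_eq_fintype_card] at h2
  rw [Nat.card_eq_fintype_card, Fintype.card_subtype_compl, h2, ← card_K h,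
    Nat.card_eq_fintype_card]

end Cnt

end Pool.Agent.Helper491_Par.LP
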