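import Pool.Agent.Helper491_Par.TB

/-!
# The family of spreads
-/

set_option autoImplicit false
set_option linter.unusedSectionVars false

namespace Pool.Agent.Helper491_Par.LP

open Module Pool.Agent.Helper491_Par

open scoped LinearAlgebra.Projectivization

section Fam

variable {F K : Type} [Field F] [Fintype F] [Field K] [Fintype K] [Algebra F K] {σ : K →ₐ[F] K}

/-- The index set of the family. -/
abbrev Ix (F K : Type) [Field F] [Fintype F] [Field K] [Algebra F K] : Type :=
  (K × {b : K // b ≠ 0}) ⊕ ((K × ℙ F K) ⊕ (ℙ F K × Fin (Fintype.card F)))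

/-- The common line with the spread of the one-dimensional `K`-subspaces. -/
def hole : Ix F K → Option K
  | .inl p => some p.1
  | .inr (.inl p) => some p.1
  | .inr (.inr _) => none

/-- The other lines of the spread. -/
def SS (σ : K →ₐ[F] K) : Ix F K → Set (Submodule F (K × K))
  | .inl p => {L | ∃ a, L = hr σ p.1 a p.2}
  | .inr (.inl p) => {L | ∃ a, L = hr σ p.1 a (rho p.2)}
  | .inr (.inr p) => {L | ∃ α, L = gr σ α (σ (rho p.1))⁻¹}

theorem sig_ne {b : K} (hb : b ≠ 0) : (σ b)⁻¹ ≠ 0 := inv_ne_zero (by rwa [Ne, map_eq_zero])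

theorem SS_real (h : QuadData F K σ) (x : Ix F K) {L : Submodule F (K × K)} (hL : L ∈ SS σ x) :
    L ∈ Rl F K (K × K) := by
  rcases x with ⟨s, b⟩ | ⟨s, r⟩ | ⟨r, m⟩
  · obtain ⟨a, rfl⟩ := hL
    exact hr_mem_Rl h b.2
  · obtain ⟨a, rfl⟩ := hL
    exact hr_mem_Rl h (rho_ne r)
  · obtain ⟨α, rfl⟩ := hL
    exact gr_mem_Rl h (sig_ne (rho_ne r))

theorem mem_range_phi_some {s : K} {p : K × K} :
    p ∈ LinearMap.range (phi F (some s)) ↔ p.2 - s * p.1 = 0 := by
  constructor
  · rintro ⟨x, rfl⟩
    rw [phi_some]; ring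
  · intro h
    exact ⟨p.1, Prod.ext rfl (sub_eq_zero.1 h).symm⟩

theorem mem_range_phi_none {p : K × K} :
    p ∈ LinearMap.range (phi F (none : Option K)) ↔ p.1 = 0 := by
  constructor
  · rintro ⟨x, rfl⟩
    rw [phi_none]
  · intro h
    exact ⟨p.2, Prod.ext h.symm rfl⟩

theorem hr_cover (s b : K) {p : K × K} (hp : p.2 - s * p.1 ≠ 0) :
    ∃! L : Submodule F (K × K), (∃ a, L = hr σ s a b) ∧ p ∈ L := by
  refine ⟨hr σ s ((p.1 - b * σ (p.2 - s * p.1)) / (p.2 - s * p.1)) b, ⟨⟨_, rfl⟩, ?_⟩, ?_⟩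
  · rw [mem_hr, div_mul_cancel₀ _ hp]; ring
  · rintro L ⟨⟨a, rfl⟩, hL⟩
    rw [mem_hr] at hL
    congr 1
    rw [eq_div_iff hp]
    linear_combination -hL

theorem hr_hole (s a b : K) {p : K × K} (hp : p.2 - s * p.1 = 0) (hp0 : p ≠ 0) :
    p ∉ hr σ s a b := by
  intro h
  rw [mem_hr, hp] at h
  simp only [mul_zero, map_zero, add_zero] at h
  rw [h, mul_zero, sub_zero] at hp
  exact hp0 (Prod.ext h hp)

theorem SS_cover (x : Ix F K) {p : K × K} (hp : p ∉ LinearMap.range (phi F (hole x))) :
    ∃! L, L ∈ SS σ x ∧ p ∈ L := by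
  rcases x with ⟨s, b⟩ | ⟨s, r⟩ | ⟨r, m⟩
  · exact hr_cover s b.1 (fun h => hp (mem_range_phi_some.2 h))
  · exact hr_cover s (rho r) (fun h => hp (mem_range_phi_some.2 h))
  · have hp1 : p.1 ≠ 0 := fun h => hp (mem_range_phi_none.2 h)
    refine ⟨gr σ ((p.2 - (σ (rho r))⁻¹ * σ p.1) / p.1) (σ (rho r))⁻¹, ⟨⟨_, rfl⟩, ?_⟩, ?_⟩
    · rw [mem_gr, div_mul_cancel₀ _ hp1]; ring
    · rintro L ⟨⟨a, rfl⟩, hL⟩
      rw [mem_gr] at hL
      congr 1
      rw [eq_div_iff hp1]
      linear_combination -hL

theorem SS_hole (x : Ix F K) {p : K × K} (hp : p ∈ LinearMap.range (phi F (hole x)))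
    (hp0 : p ≠ 0) {L : Submodule F (K × K)} (hL : L ∈ SS σ x) : p ∉ L := by
  rcases x with ⟨s, b⟩ | ⟨s, r⟩ | ⟨r, m⟩
  · obtain ⟨a, rfl⟩ := hL
    exact hr_hole s a b.1 (mem_range_phi_some.1 hp) hp0
  · obtain ⟨a, rfl⟩ := hL
    exact hr_hole s a (rho r) (mem_range_phi_some.1 hp) hp0
  · obtain ⟨α, rfl⟩ := hL
    intro h
    rw [mem_gr, mem_range_phi_none.1 hp] at h
    simp only [mul_zero, map_zero, add_zero] at h
    exact hp0 (Prod.ext (mem_range_phi_none.1 hp) h)

theorem card_hole_some (h : QuadData F K σ) (s : K) :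
    Nat.card {x : Ix F K // hole x = some s} = Fintype.card F ^ 2 + Fintype.card F := by
  rw [Nat.card_congr (Equiv.subtypeSum), Nat.card_sum, Nat.card_congr (Equiv.subtypeSum),
    Nat.card_sum]
  have h1 : Nat.card {p : K × {b : K // b ≠ 0} // hole (F := F) (.inl p) = some s} =
      Nat.card {b : K // b ≠ 0} := by
    refine Nat.card_congr
      { toFun := fun p => p.1.2
        invFun := fun b => ⟨(s, b), rfl⟩
        left_inv := ?_
        right_inv := fun b => rfl }
    rintro ⟨⟨s', b⟩, hb⟩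
    have : s' = s := Option.some.inj hb
    subst this
    rfl
  have h2 : Nat.card {p : K × ℙ F K // hole (F := F) (.inr (.inl p)) = some s} =
      Nat.card (ℙ F K) := by
    refine Nat.card_congr
      { toFun := fun p => p.1.2
        invFun := fun b => ⟨(s, b), rfl⟩
        left_inv := ?_
        right_inv := fun b => rfl }
    rintro ⟨⟨s', b⟩, hb⟩
    have : s' = s := Option.some.inj hb
    subst this
    rfl
  have h3 : Nat.card {p : ℙ F K × Fin (Fintype.card F) //
      hole (K := K) (.inr (.inr p)) = some s} = 0 := by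
    rw [Nat.card_eq_zero]
    left
    exact ⟨fun p => by have := p.2; simp [hole] at this⟩
  rw [h1, h2, h3, card_ne_zero', card_P h, ← Nat.card_eq_fintype_card (α := K), card_K h]
  have hq := one_lt_F (F := F)
  have : 1 ≤ Fintype.card F ^ 2 := Nat.one_le_pow _ _ (by omega)
  omega

theorem card_hole_none (h : QuadData F K σ) :
    Nat.card {x : Ix F K // hole x = none} = Fintype.card F ^ 2 + Fintype.card F := by
  rw [Nat.card_congr (Equiv.subtypeSum), Nat.card_sum, Nat.card_congr (Equiv.subtypeSum),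
    Nat.card_sum]
  have h1 : Nat.card {p : K × {b : K // b ≠ 0} // hole (F := F) (.inl p) = none} = 0 := by
    rw [Nat.card_eq_zero]
    left
    exact ⟨fun p => by have := p.2; simp [hole] at this⟩
  have h2 : Nat.card {p : K × ℙ F K // hole (F := F) (.inr (.inl p)) = none} = 0 := by
    rw [Nat.card_eq_zero]
    left
    exact ⟨fun p => by have := p.2; simp [hole] at this⟩
  have h3 : Nat.card {p : ℙ F K × Fin (Fintype.card F) //
      hole (K := K) (.inr (.inr p)) = none} = Nat.card (ℙ F K × Fin (Fintype.card F)) := by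
    exact Nat.card_congr (Equiv.subtypeUnivEquiv (fun p => rfl))
  rw [h1, h2, h3, Nat.card_prod, card_P h, Nat.card_eq_fintype_card, Fintype.card_fin]
  ring

theorem card_gr (h : QuadData F K σ) (hN : ∀ c : F, ∃ z : K, z * σ z = algebraMap F K c) {α β : K}
    (hβ : β ≠ 0) : Nat.card {x : Ix F K // gr σ α β ∈ SS σ x} = Fintype.card F ^ 2 := by
  have hσβ : σ β ≠ 0 := by rwa [Ne, map_eq_zero]
  obtain ⟨r0, c1, hr0⟩ := rho_exists (F := F) hβ
  obtain ⟨cβ, hcβ⟩ := norm_mem h β
  have hρ0 := rho_ne (F := F) r0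
  rw [Nat.card_congr (Equiv.subtypeSum), Nat.card_sum, Nat.card_congr (Equiv.subtypeSum),
    Nat.card_sum]
  have h1 : Nat.card {p : K × {b : K // b ≠ 0} // gr σ α β ∈ SS (F := F) σ (.inl p)} =
      Fintype.card F ^ 2 - (Fintype.card F + 1) := by
    rw [← card_nnorm h hN hβ]
    have key : ∀ p : K × {b : K // b ≠ 0}, gr σ α β ∈ SS (F := F) σ (.inl p) ↔
        (p.2 : K) * (β * σ β - (α - p.1) * σ (α - p.1)) = β := fun p => gr_eq_hr h hβ p.2.2
    refine Nat.card_congr
      { toFun := fun p => ⟨α - p.1.1, fun h0 => by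
          have := (key p.1).1 p.2
          rw [h0, mul_zero] at this
          exact hβ this.symm⟩
        invFun := fun z => ⟨(α - z.1, ⟨β / (β * σ β - z.1 * σ z.1), div_ne_zero hβ z.2⟩), by
          rw [key]
          simp only [sub_sub_cancel]
          exact div_mul_cancel₀ _ z.2⟩
        left_inv := ?_
        right_inv := ?_ }
    · rintro ⟨⟨s, b, hb⟩, hp⟩
      have h2 := (key _).1 hp
      simp only at h2
      have h3 : β * σ β - (α - s) * σ (α - s) ≠ 0 := by
        intro h0
        rw [h0, mul_zero] at h2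
        exact hβ h2.symm
      apply Subtype.ext
      refine Prod.ext (by simp) (Subtype.ext ?_)
      simp only
      rw [div_eq_iff h3, h2]
    · rintro ⟨z, hz⟩
      apply Subtype.ext
      simp
  have h2 : Nat.card {p : K × ℙ F K // gr σ α β ∈ SS (F := F) σ (.inr (.inl p))} =
      Nat.card {z : K // z * σ z = algebraMap F K (cβ - c1)} := by
    have key : ∀ p : K × ℙ F K, gr σ α β ∈ SS (F := F) σ (.inr (.inl p)) ↔
        rho p.2 * (β * σ β - (α - p.1) * σ (α - p.1)) = β := fun p => gr_eq_hr h hβ (rho_ne p.2)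
    have key2 : ∀ p : K × ℙ F K, rho p.2 * (β * σ β - (α - p.1) * σ (α - p.1)) = β → p.2 = r0 := by
      intro p hp
      obtain ⟨c2, hc2⟩ := norm_mem h (α - p.1)
      rw [hcβ, hc2, ← map_sub, mul_comm] at hp
      exact rho_unique hβ hp.symm hr0
    refine Nat.card_congr
      { toFun := fun p => ⟨α - p.1.1, by
          have h3 := (key p.1).1 p.2
          have h4 := key2 p.1 h3
          rw [h4] at h3
          rw [map_sub (algebraMap F K), ← hcβ]
          have : rho r0 * (algebraMap F K c1) = rho r0 *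
              (β * σ β - (α - p.1.1) * σ (α - p.1.1)) := by
            rw [h3, mul_comm, ← hr0]
          linear_combination (mul_left_cancel₀ hρ0 this)⟩
        invFun := fun z => ⟨(α - z.1, r0), by
          rw [key]
          simp only [sub_sub_cancel]
          rw [z.2, hcβ, ← map_sub, sub_sub_cancel, mul_comm, ← hr0]⟩
        left_inv := ?_
        right_inv := ?_ }
    · rintro ⟨⟨s, r⟩, hp⟩
      have h3 := key2 _ ((key _).1 hp)
      simp only at h3
      subst h3
      apply Subtype.ext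
      simp
    · rintro ⟨z, hz⟩
      apply Subtype.ext
      simp
  have hkey3 : ∀ r : ℙ F K, (∃ α', gr σ α β = gr σ α' (σ (rho r))⁻¹) ↔ r = r0 ∧ cβ = c1 := by
    intro r
    constructor
    · rintro ⟨α', hα'⟩
      have h3 : β = (σ (rho r))⁻¹ := (gr_inj h hα').2
      have hρ := rho_ne (F := F) r
      have hσρ : σ (rho r) ≠ 0 := by rwa [Ne, map_eq_zero]
      have h4 : β = algebraMap F K cβ * rho r := by
        have h5 : β * σ (rho r) = 1 := by rw [h3, inv_mul_cancel₀ hσρ]
        have h6 : σ β * rho r = 1 := by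
          have := congrArg σ h5
          rwa [map_mul, h.inv, map_one] at this
        rw [← hcβ]
        linear_combination -β * h6
      have h5 := rho_unique hβ h4 hr0
      refine ⟨h5, ?_⟩
      rw [h5] at h4
      exact (algebraMap F K).injective (mul_right_cancel₀ hρ0 (h4.symm.trans hr0))
    · rintro ⟨rfl, h3⟩
      refine ⟨α, ?_⟩
      congr 1
      have h4 : rho r * σ β = 1 := by
        have : β * (rho r * σ β) = β * 1 := by
          rw [mul_one]
          conv_rhs => rw [hr0, ← h3, ← hcβ]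
          ring
        exact mul_left_cancel₀ hβ this
      have h5 := congrArg σ h4
      rw [map_mul, h.inv, map_one] at h5
      exact eq_inv_of_mul_eq_one_right h5
  by_cases hc : cβ = c1
  · have h3 : Nat.card {p : ℙ F K × Fin (Fintype.card F) //
        gr σ α β ∈ SS (F := F) σ (.inr (.inr p))} = Fintype.card F := by
      have : Nat.card (Fin (Fintype.card F)) = Fintype.card F := by
        rw [Nat.card_eq_fintype_card, Fintype.card_fin]
      conv_rhs => rw [← this]
      refine Nat.card_congr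
        { toFun := fun p => p.1.2
          invFun := fun m => ⟨(r0, m), (hkey3 r0).2 ⟨rfl, hc⟩⟩
          left_inv := ?_
          right_inv := fun m => rfl }
      rintro ⟨⟨r, m⟩, hp⟩
      have h3 := ((hkey3 r).1 hp).1
      subst h3
      rfl
    rw [h1, h2, h3, hc, sub_self, card_norm_zero]
    have hq := one_lt_F (F := F)
    have : Fintype.card F + 1 ≤ Fintype.card F ^ 2 := by nlinarith
    omega
  · have h3 : Nat.card {p : ℙ F K × Fin (Fintype.card F) //
        gr σ α β ∈ SS (F := F) σ (.inr (.inr p))} = 0 := by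
      rw [Nat.card_eq_zero]
      left
      exact ⟨fun p => hc ((hkey3 p.1.1).1 p.2).2⟩
    rw [h1, h2, h3, card_norm h hN (sub_ne_zero.2 hc)]
    have hq := one_lt_F (F := F)
    have : Fintype.card F + 1 ≤ Fintype.card F ^ 2 := by nlinarith
    omega

theorem card_span (h : QuadData F K σ) {x1 y1 y0 : K} (hx : x1 ≠ 0) (hy : y0 ≠ 0) :
    Nat.card {x : Ix F K // Submodule.span F {(x1, y1), ((0 : K), y0)} ∈ SS σ x} =
      Fintype.card F ^ 2 := by
  have hσy : σ y0 ≠ 0 := by rwa [Ne, map_eq_zero]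
  obtain ⟨w, hw, hδ⟩ := exists_delta h
  have hsg : ∀ τ : K, ∃ c : F, σ τ - τ = algebraMap F K c * (σ w - w) := by
    intro τ
    obtain ⟨c, hc⟩ := h.fixed ((σ τ - τ) / (σ w - w)) (by
      rw [map_div₀, map_sub, map_sub, h.inv, h.inv, ← neg_sub (σ τ), ← neg_sub (σ w), neg_div_neg_eq])
    exact ⟨c, by rw [← hc, div_mul_cancel₀ _ hδ]⟩
  have hne : x1 / (σ y0 * (σ w - w)) ≠ 0 := div_ne_zero hx (mul_ne_zero hσy hδ)
  obtain ⟨r1, c1, hr1⟩ := rho_exists (F := F) hne
  rw [div_eq_iff (mul_ne_zero hσy hδ)] at hr1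
  have hρ1 := rho_ne (F := F) r1
  rw [Nat.card_congr (Equiv.subtypeSum), Nat.card_sum, Nat.card_congr (Equiv.subtypeSum),
    Nat.card_sum]
  have h1 : Nat.card {p : K × {b : K // b ≠ 0} //
      Submodule.span F {(x1, y1), ((0 : K), y0)} ∈ SS (F := F) σ (.inl p)} =
      Fintype.card F ^ 2 - Fintype.card F := by
    rw [← card_ncoset h]
    have key : ∀ p : K × {b : K // b ≠ 0},
        Submodule.span F {(x1, y1), ((0 : K), y0)} ∈ SS (F := F) σ (.inl p) ↔
        x1 = (p.2 : K) * σ y0 * (σ ((y1 - p.1 * x1) / y0) - (y1 - p.1 * x1) / y0) :=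
      fun p => span_eq_hr h hx hy p.2.2
    refine Nat.card_congr
      { toFun := fun p => ⟨(y1 - p.1.1 * x1) / y0, fun h0 => by
          have := (key p.1).1 p.2
          rw [h0, mul_zero] at this
          exact hx this⟩
        invFun := fun τ => ⟨((y1 - τ.1 * y0) / x1, ⟨x1 / (σ y0 * (σ τ.1 - τ.1)),
          div_ne_zero hx (mul_ne_zero hσy τ.2)⟩), by
          rw [key]
          have h3 : (y1 - (y1 - τ.1 * y0) / x1 * x1) / y0 = τ.1 := by
            rw [div_mul_cancel₀ _ hx, sub_sub_cancel, mul_div_cancel_right₀ _ hy]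
          simp only [h3]
          have h4 := τ.2
          field_simp⟩
        left_inv := ?_
        right_inv := ?_ }
    · rintro ⟨⟨s, b, hb⟩, hp⟩
      have h2 := (key _).1 hp
      simp only at h2
      have h3 : σ ((y1 - s * x1) / y0) - (y1 - s * x1) / y0 ≠ 0 := by
        intro h0
        rw [h0, mul_zero] at h2
        exact hx h2
      apply Subtype.ext
      refine Prod.ext ?_ (Subtype.ext ?_)
      · simp only
        rw [div_mul_cancel₀ _ hy, sub_sub_cancel, mul_div_cancel_right₀ _ hx]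
      · simp only
        rw [div_eq_iff (mul_ne_zero hσy h3)]
        conv_lhs => rw [h2]
        ring
    · rintro ⟨τ, hτ⟩
      apply Subtype.ext
      simp only
      rw [div_mul_cancel₀ _ hx, sub_sub_cancel, mul_div_cancel_right₀ _ hy]
  have h2 : Nat.card {p : K × ℙ F K //
      Submodule.span F {(x1, y1), ((0 : K), y0)} ∈ SS (F := F) σ (.inr (.inl p))} =
      Fintype.card F := by
    have hτ0 : σ (algebraMap F K c1 * w) - algebraMap F K c1 * w =
        algebraMap F K c1 * (σ w - w) := by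
      rw [map_mul, AlgHom.commutes]; ring
    refine Eq.trans ?_ (card_coset h hτ0)
    have key : ∀ p : K × ℙ F K,
        Submodule.span F {(x1, y1), ((0 : K), y0)} ∈ SS (F := F) σ (.inr (.inl p)) ↔
        x1 = rho p.2 * σ y0 * (σ ((y1 - p.1 * x1) / y0) - (y1 - p.1 * x1) / y0) :=
      fun p => span_eq_hr h hx hy (rho_ne p.2)
    have key2 : ∀ p : K × ℙ F K,
        x1 = rho p.2 * σ y0 * (σ ((y1 - p.1 * x1) / y0) - (y1 - p.1 * x1) / y0) → p.2 = r1 := by
      intro p hp
      obtain ⟨c2, hc2⟩ := hsg ((y1 - p.1 * x1) / y0)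
      rw [hc2] at hp
      have h3 : x1 / (σ y0 * (σ w - w)) = algebraMap F K c2 * rho p.2 := by
        rw [div_eq_iff (mul_ne_zero hσy hδ)]
        linear_combination hp
      have h4 : x1 / (σ y0 * (σ w - w)) = algebraMap F K c1 * rho r1 := by
        rw [div_eq_iff (mul_ne_zero hσy hδ)]
        exact hr1
      exact rho_unique hne h3 h4
    refine Nat.card_congr
      { toFun := fun p => ⟨(y1 - p.1.1 * x1) / y0, by
          have h3 := (key p.1).1 p.2
          have h4 := key2 p.1 h3
          rw [h4] at h3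
          have h5 : (rho r1 * σ y0) * (σ ((y1 - p.1.1 * x1) / y0) - (y1 - p.1.1 * x1) / y0) =
              (rho r1 * σ y0) * (algebraMap F K c1 * (σ w - w)) := by
            rw [← h3]
            linear_combination hr1
          exact mul_left_cancel₀ (mul_ne_zero hρ1 hσy) h5⟩
        invFun := fun τ => ⟨((y1 - τ.1 * y0) / x1, r1), by
          rw [key]
          have h3 : (y1 - (y1 - τ.1 * y0) / x1 * x1) / y0 = τ.1 := by
            rw [div_mul_cancel₀ _ hx, sub_sub_cancel, mul_div_cancel_right₀ _ hy]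
          simp only [h3]
          rw [τ.2]
          linear_combination hr1⟩
        left_inv := ?_
        right_inv := ?_ }
    · rintro ⟨⟨s, r⟩, hp⟩
      have h3 := key2 _ ((key _).1 hp)
      simp only at h3
      subst h3
      apply Subtype.ext
      refine Prod.ext ?_ rfl
      simp only
      rw [div_mul_cancel₀ _ hy, sub_sub_cancel, mul_div_cancel_right₀ _ hx]
    · rintro ⟨τ, hτ⟩
      apply Subtype.ext
      simp only
      rw [div_mul_cancel₀ _ hx, sub_sub_cancel, mul_div_cancel_right₀ _ hy]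
  have h3 : Nat.card {p : ℙ F K × Fin (Fintype.card F) //
      Submodule.span F {(x1, y1), ((0 : K), y0)} ∈ SS (F := F) σ (.inr (.inr p))} = 0 := by
    rw [Nat.card_eq_zero]
    left
    refine ⟨fun p => ?_⟩
    obtain ⟨α, hα⟩ := p.2
    have hmem : ((0 : K), y0) ∈ gr σ α (σ (rho p.1.1))⁻¹ := by
      rw [← hα]
      exact Submodule.subset_span (by simp)
    exact hy (gr_zero_fst hmem)
  rw [h1, h2, h3]
  have hq := one_lt_F (F := F)
  have : Fintype.card F ≤ Fintype.card F ^ 2 := by nlinarith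
  omega

/-- Every real line is in exactly `q ^ 2` spreads of the family. -/
theorem card_SS (h : QuadData F K σ) (hN : ∀ c : F, ∃ z : K, z * σ z = algebraMap F K c)
    {L : Submodule F (K × K)} (hL : L ∈ Rl F K (K × K)) :
    Nat.card {x : Ix F K // L ∈ SS σ x} = Fintype.card F ^ 2 := by
  rcases two_types h hL with ⟨x1, y1, y0, hx, hy, rfl⟩ | ⟨α, β, hβ, rfl⟩
  · exact card_span h hx hy
  · exact card_gr h hN hβ

end Fam

end Pool.Agent.Helper491_Par.LP
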