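import Pool.Agent.Helper491_Par.TC

/-!
# Distribution of the spreads, and cosets of a maximum rank distance code
-/

set_option autoImplicit false
set_option linter.unusedSectionVars false

namespace Pool.Agent.Helper491_Par.LP

open Module Pool.Agent.Helper491_Par

open scoped LinearAlgebra.Projectivization

section Assign

variable {F K : Type} [Field F] [Fintype F] [Field K] [Fintype K] [Algebra F K] {σ : K →ₐ[F] K}

theorem assign (h : QuadData F K σ) (hN : ∀ c : F, ∃ z : K, z * σ z = algebraMap F K c)
    (U B : Type) [Finite U] [Finite B] (lam : ℕ) (hU : Nat.card U = lam * Fintype.card F ^ 2)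
    (hB : Nat.card B = lam * (Fintype.card F ^ 2 + Fintype.card F)) :
    ∃ (S : Option K → B → Set (Submodule F (K × K)))
      (g : Submodule F (K × K) → U → Option K × B),
      (∀ i b L, L ∈ S i b → L ∈ Rl F K (K × K)) ∧
      (∀ i b p, p ∉ LinearMap.range (phi F i) → ∃! L, L ∈ S i b ∧ p ∈ L) ∧
      (∀ i b p, p ∈ LinearMap.range (phi F i) → p ≠ 0 → ∀ L ∈ S i b, p ∉ L) ∧
      (∀ L ∈ Rl F K (K × K), ∀ i b, L ∈ S i b ↔ ∃ u, g L u = (i, b)) ∧
      (∀ L ∈ Rl F K (K × K), Function.Injective (g L)) := by
  have hq := one_lt_F (F := F)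
  have hfinP : Finite (ℙ F K) := Nat.finite_of_card_ne_zero (by rw [card_P h]; omega)
  have hcard : ∀ i : Option K, Nat.card B = Nat.card (Fin lam × {x : Ix F K // hole x = i}) := by
    intro i
    rw [Nat.card_prod, Nat.card_eq_fintype_card (α := Fin lam), Fintype.card_fin, hB]
    cases i with
    | none => rw [card_hole_none h]
    | some s => rw [card_hole_some h]
  have he : ∀ i : Option K, Nonempty (B ≃ Fin lam × {x : Ix F K // hole x = i}) := fun i =>
    Finite.card_eq.1 (hcard i)
  let e : ∀ i : Option K, B ≃ Fin lam × {x : Ix F K // hole x = i} := fun i => (he i).some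
  let S : Option K → B → Set (Submodule F (K × K)) := fun i b => SS σ (e i b).2.1
  have hcount : ∀ L ∈ Rl F K (K × K), Nat.card U =
      Nat.card {p : Option K × B // L ∈ S p.1 p.2} := by
    intro L hL
    rw [hU, ← card_SS h hN hL]
    have : lam * Nat.card {x : Ix F K // L ∈ SS σ x} =
        Nat.card (Fin lam × {x : Ix F K // L ∈ SS σ x}) := by
      rw [Nat.card_prod, Nat.card_eq_fintype_card (α := Fin lam), Fintype.card_fin]
    rw [this]
    symm
    have key : ∀ (i : Option K) (b : B) (y : Fin lam × {x : Ix F K // hole x = i}), e i b = y →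
        ((hole y.2.1, (e (hole y.2.1)).symm (y.1, ⟨y.2.1, rfl⟩)) : Option K × B) = (i, b) := by
      rintro i b ⟨m, x, hx⟩ hy
      subst hx
      exact congrArg (Prod.mk (hole x)) ((Equiv.symm_apply_eq _).2 hy.symm)
    refine Nat.card_congr
      { toFun := fun p => ((e p.1.1 p.1.2).1, ⟨(e p.1.1 p.1.2).2.1, p.2⟩)
        invFun := fun y => ⟨(hole y.2.1, (e (hole y.2.1)).symm (y.1, ⟨y.2.1, rfl⟩)), by
          have hy := y.2.2
          simp only [S]
          rw [Equiv.apply_symm_apply]
          exact hy⟩
        left_inv := ?_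
        right_inv := ?_ }
    · rintro ⟨⟨i, b⟩, hp⟩
      exact Subtype.ext (key i b _ rfl)
    · rintro ⟨m, x, hx⟩
      simp only
      rw [Prod.mk.injEq]
      constructor
      · rw [Equiv.apply_symm_apply]
      · apply Subtype.ext
        simp only
        rw [Equiv.apply_symm_apply]
  have heq : ∀ L : Submodule F (K × K), ∃ f : U → Option K × B, L ∈ Rl F K (K × K) →
      (∀ i b, L ∈ S i b ↔ ∃ u, f u = (i, b)) ∧ Function.Injective f := by
    intro L
    by_cases hL : L ∈ Rl F K (K × K)
    · let E : U ≃ {p : Option K × B // L ∈ S p.1 p.2} := (Finite.card_eq.1 (hcount L hL)).some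
      refine ⟨fun u => (E u).1, fun _ => ⟨?_, ?_⟩⟩
      · intro i b
        constructor
        · intro h1
          exact ⟨E.symm ⟨(i, b), h1⟩, by simp only; rw [Equiv.apply_symm_apply]⟩
        · rintro ⟨u, hu⟩
          have := (E u).2
          simp only at hu
          rw [hu] at this
          exact this
      · intro u u' huu
        exact E.injective (Subtype.ext huu)
    · by_cases hB0 : Nonempty B
      · exact ⟨fun _ => (none, Classical.choice hB0), fun h => absurd h hL⟩
      · have hU0 : IsEmpty U := by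
          have : Nat.card B = 0 := by
            rw [Nat.card_eq_zero]; left; exact not_nonempty_iff.1 hB0
          rw [hB] at this
          have hlam : lam = 0 := by
            rcases Nat.mul_eq_zero.1 this with h1 | h1
            · exact h1
            · omega
          rw [hlam, zero_mul] at hU
          exact (Nat.card_eq_zero.1 hU).resolve_right (fun h => h.not_finite inferInstance)
        exact ⟨fun u => (hU0.false u).elim, fun h => absurd h hL⟩
  choose g hg using heq
  refine ⟨S, g, ?_, ?_, ?_, fun L hL => (hg L hL).1, fun L hL => (hg L hL).2⟩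
  · intro i b L hL
    exact SS_real h _ hL
  · intro i b p hp
    apply SS_cover
    rw [(e i b).2.2]
    exact hp
  · intro i b p hp hp0 L hL
    refine SS_hole (e i b).2.1 ?_ hp0 hL
    rw [(e i b).2.2]
    exact hp

end Assign

section Mrd

variable {F K : Type} [Field F] [Field K] [Algebra F K]
  {U : Type} [AddCommGroup U] [Module F U] [Module K U] [IsScalarTower F K U]

/-- The embeddings of `U × K` with pairwise intersection `U`. -/
noncomputable def emb (F : Type) {K : Type} [Field F] [Field K] [Algebra F K] (U : Type)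
    [AddCommGroup U] [Module F U] (i : Option K) : (U × K) →ₗ[F] (U × K) × K where
  toFun w := match i with
    | none => (w, 0)
    | some s => ((w.1, s * w.2), w.2)
  map_add' x y := by
    cases i with
    | none => simp
    | some c => simp [mul_add]
  map_smul' a x := by
    cases i with
    | none => simp
    | some c => simp

theorem emb_none (w : U × K) : emb F U (none : Option K) w = (w, 0) := rfl

theorem emb_some (s : K) (w : U × K) : emb F U (some s) w = ((w.1, s * w.2), w.2) := rfl

/-- The projection. -/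
def pr (F : Type) {K : Type} [Field F] [Field K] [Algebra F K] (U : Type)
    [AddCommGroup U] [Module F U] : ((U × K) × K) →ₗ[F] K × K where
  toFun v := (v.2, v.1.2)
  map_add' _ _ := rfl
  map_smul' _ _ := rfl

theorem pr_apply (v : (U × K) × K) : pr F U v = (v.2, v.1.2) := rfl

theorem pr_emb (i : Option K) (w : U × K) : pr F U (emb F U i w) = phi F i w.2 := by
  cases i with
  | none => rfl
  | some s => rfl

theorem emb_injective (i : Option K) : Function.Injective (emb F U i) := by
  cases i with
  | none =>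
    intro x y h
    rw [emb_none, emb_none] at h
    exact (Prod.mk.inj h).1
  | some s =>
    intro x y h
    rw [emb_some, emb_some, Prod.mk.injEq, Prod.mk.injEq] at h
    exact Prod.ext h.1.1 h.2

theorem mem_range_emb' {i : Option K} {v : (U × K) × K} :
    v ∈ LinearMap.range (emb F U i) ↔ pr F U v ∈ LinearMap.range (phi F i) := by
  constructor
  · rintro ⟨w, rfl⟩
    rw [pr_emb]
    exact ⟨_, rfl⟩
  · rintro ⟨x, hx⟩
    cases i with
    | none =>
      rw [phi_none, pr_apply, Prod.mk.injEq] at hx
      refine ⟨v.1, ?_⟩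
      rw [emb_none]
      exact Prod.ext rfl hx.1
    | some s =>
      rw [phi_some, pr_apply, Prod.mk.injEq] at hx
      refine ⟨(v.1.1, v.2), ?_⟩
      rw [emb_some]
      refine Prod.ext (Prod.ext rfl ?_) rfl
      simp only
      rw [← hx.1, hx.2]

/-- Sharing two embeddings means being in the kernel of the projection. -/
theorem pr_zero_of_two {i j : Option K} (hij : i ≠ j) {v : (U × K) × K}
    (hi : v ∈ LinearMap.range (emb F U i)) (hj : v ∈ LinearMap.range (emb F U j)) :
    pr F U v = 0 := by
  by_contra h0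
  obtain ⟨l, -, hl⟩ := phi_part (F := F) (pr F U v) h0
  exact hij ((hl i (mem_range_emb'.1 hi)).trans (hl j (mem_range_emb'.1 hj)).symm)

theorem emb_of_pr_zero {v : (U × K) × K} (h : pr F U v = 0) (i : Option K) :
    v = emb F U i (v.1.1, 0) := by
  rw [pr_apply] at h
  have h1 : v.2 = 0 := congrArg Prod.fst h
  have h2 : v.1.2 = 0 := congrArg Prod.snd h
  cases i with
  | none =>
    rw [emb_none]
    exact Prod.ext (Prod.ext rfl h2) h1
  | some s =>
    rw [emb_some]
    refine Prod.ext (Prod.ext rfl ?_) h1
    simp only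
    rw [h2, mul_zero]

/-- A line which is in no `range (emb i)` projects to a real line. -/
theorem real_of_not {W : Submodule F ((U × K) × K)} (hW : finrank F W = 2)
    (h : ¬ ∃ i, W ≤ LinearMap.range (emb F U i)) :
    W.map (pr F U) ∈ Rl F K (K × K) ∧ ∀ w ∈ W, pr F U w = 0 → w = 0 := by
  have hinj : ∀ w ∈ W, pr F U w = 0 → w = 0 := by
    intro w hw hw0
    by_contra hne
    apply h
    have hfd : FiniteDimensional F W := finite_of_finrank_pos (by rw [hW]; norm_num)
    obtain ⟨w', hw', hw'n⟩ : ∃ w' ∈ W, w' ∉ Submodule.span F {w} := by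
      by_contra hcon
      push Not at hcon
      have h1 : W ≤ Submodule.span F {w} := hcon
      have h2 := Submodule.finrank_mono h1
      rw [hW, finrank_span_singleton hne] at h2
      omega
    have hli : LinearIndependent F ![w, w'] := by
      rw [LinearIndependent.pair_iff]
      intro s t hst
      have ht : t = 0 := by
        by_contra ht
        apply hw'n
        rw [← Submodule.smul_mem_iff _ ht, ← neg_eq_of_add_eq_zero_right hst]
        exact Submodule.neg_mem _ (Submodule.smul_mem _ _ (Submodule.mem_span_singleton_self w))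
      subst ht
      refine ⟨?_, rfl⟩
      rw [zero_smul, add_zero] at hst
      exact (smul_eq_zero.1 hst).resolve_right hne
    have hspan : Submodule.span F {w, w'} = W := by
      apply Submodule.eq_of_le_of_finrank_eq
      · rw [Submodule.span_le]
        rintro x (rfl | rfl)
        · exact hw
        · exact hw'
      · rw [finrank_of_li F hli, hW]
    have hi : ∃ i, pr F U w' ∈ LinearMap.range (phi F i) := by
      by_cases h0 : pr F U w' = 0
      · exact ⟨none, by rw [h0]; exact Submodule.zero_mem _⟩
      · obtain ⟨i, hi, -⟩ := phi_part (F := F) _ h0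
        exact ⟨i, hi⟩
    obtain ⟨i, hi⟩ := hi
    refine ⟨i, ?_⟩
    rw [← hspan, Submodule.span_le]
    rintro x (rfl | rfl)
    · rw [SetLike.mem_coe, mem_range_emb', hw0]
      exact Submodule.zero_mem _
    · exact mem_range_emb'.2 hi
  refine ⟨?_, hinj⟩
  rw [mem_Rl_iff]
  constructor
  · have hinj2 : Function.Injective ((pr F U).domRestrict W) := by
      rw [injective_iff_map_eq_zero]
      rintro ⟨w, hw⟩ hw0
      exact Subtype.ext (hinj w hw hw0)
    have h1 := LinearMap.finrank_range_of_inj hinj2
    rw [LinearMap.range_domRestrict] at h1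
    rw [h1, hW]
  · intro i hle
    apply h
    refine ⟨i, ?_⟩
    intro w hw
    rw [mem_range_emb']
    exact hle ⟨w, hw, rfl⟩

/-- The relation between a line above the real line with basis `b1, b2` and the index of its
coset. -/
def Kap (F : Type) {K U : Type} [Field F] [Field K] [Algebra F K]
    [AddCommGroup U] [Module F U] [Module K U] (ω : K) (b1 b2 : K × K)
    (W : Submodule F ((U × K) × K)) (κ : U) : Prop :=
  ∃ w1 ∈ W, ∃ w2 ∈ W, pr F U w1 = b1 ∧ pr F U w2 = b2 ∧ w2.1.1 = ω • w1.1.1 + κ

theorem kap_exists {ω : K} {b1 b2 : K × K} {W : Submodule F ((U × K) × K)}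
    (h1 : b1 ∈ W.map (pr F U)) (h2 : b2 ∈ W.map (pr F U)) : ∃ κ : U, Kap F ω b1 b2 W κ := by
  obtain ⟨w1, hw1, h1⟩ := h1
  obtain ⟨w2, hw2, h2⟩ := h2
  exact ⟨w2.1.1 - ω • w1.1.1, w1, hw1, w2, hw2, h1, h2, by abel⟩

theorem kap_unique {ω : K} {b1 b2 : K × K} {W : Submodule F ((U × K) × K)} {κ κ' : U}
    (hinj : ∀ w ∈ W, pr F U w = 0 → w = 0) (h : Kap F ω b1 b2 W κ) (h' : Kap F ω b1 b2 W κ') :
    κ = κ' := by
  obtain ⟨w1, hw1, w2, hw2, h1, h2, h3⟩ := h
  obtain ⟨w1', hw1', w2', hw2', h1', h2', h3'⟩ := h'
  have e1 : w1 = w1' := sub_eq_zero.1 (hinj _ (W.sub_mem hw1 hw1') (by rw [map_sub, h1, h1', sub_self]))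
  have e2 : w2 = w2' := sub_eq_zero.1 (hinj _ (W.sub_mem hw2 hw2') (by rw [map_sub, h2, h2', sub_self]))
  subst e1 e2
  rw [h3] at h3'
  exact add_left_cancel h3'

/-- Every vector above the real line is on exactly one line of the coset. -/
theorem mrd {ω : K} (hω : ∀ a : F, ω ≠ algebraMap F K a) {b1 b2 : K × K}
    (hb : LinearIndependent F ![b1, b2]) (κ : U) {v : (U × K) × K}
    (hv : pr F U v ∈ Submodule.span F {b1, b2}) (hv0 : pr F U v ≠ 0) :
    ∃! W : Submodule F ((U × K) × K), (finrank F W = 2 ∧ v ∈ W) ∧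
      (W.map (pr F U) = Submodule.span F {b1, b2} ∧ Kap F ω b1 b2 W κ) := by
  obtain ⟨a, b, hab⟩ := Submodule.mem_span_pair.1 hv
  have hne : algebraMap F K a + algebraMap F K b * ω ≠ 0 := by
    intro h0
    by_cases hb0 : b = 0
    · rw [hb0, map_zero, zero_mul, add_zero, map_eq_zero] at h0
      apply hv0
      rw [← hab, h0, hb0]; simp
    · have hb' : algebraMap F K b ≠ 0 := by rwa [Ne, map_eq_zero]
      apply hω (-a / b)
      rw [map_div₀, map_neg, eq_div_iff hb']
      linear_combination h0
  have hsm : ∀ u : U, a • u + b • (ω • u + κ) = v.1.1 ↔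
      u = (algebraMap F K a + algebraMap F K b * ω)⁻¹ • (v.1.1 - b • κ) := by
    intro u
    have h1 : a • u + b • (ω • u + κ) =
        (algebraMap F K a + algebraMap F K b * ω) • u + b • κ := by
      rw [add_smul, mul_smul, algebraMap_smul, algebraMap_smul, smul_add]
      abel
    rw [h1, ← eq_sub_iff_add_eq, eq_inv_smul_iff₀ hne]
  set u0 := (algebraMap F K a + algebraMap F K b * ω)⁻¹ • (v.1.1 - b • κ) with hu0
  have hli : ∀ w1 w2 : (U × K) × K, pr F U w1 = b1 → pr F U w2 = b2 →
      LinearIndependent F ![w1, w2] := by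
    intro w1 w2 h1 h2
    rw [LinearIndependent.pair_iff] at hb ⊢
    intro s t hst
    apply hb s t
    rw [← h1, ← h2, ← map_smul, ← map_smul, ← map_add, hst, map_zero]
  have hmap : ∀ w1 w2 : (U × K) × K, pr F U w1 = b1 → pr F U w2 = b2 →
      (Submodule.span F {w1, w2}).map (pr F U) = Submodule.span F {b1, b2} := by
    intro w1 w2 h1 h2
    rw [Submodule.map_span, Set.image_pair, h1, h2]
  refine ⟨Submodule.span F {((u0, b1.2), b1.1), ((ω • u0 + κ, b2.2), b2.1)}, ⟨⟨?_, ?_⟩, ?_, ?_⟩, ?_⟩
  · exact finrank_of_li F (hli _ _ rfl rfl)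
  · refine Submodule.mem_span_pair.2 ⟨a, b, ?_⟩
    have h1 : a • b1.1 + b • b2.1 = v.2 := congrArg Prod.fst hab
    have h2 : a • b1.2 + b • b2.2 = v.1.2 := congrArg Prod.snd hab
    refine Prod.ext (Prod.ext ?_ h2) h1
    exact (hsm u0).2 rfl
  · exact hmap _ _ rfl rfl
  · exact ⟨((u0, b1.2), b1.1), Submodule.subset_span (by simp), ((ω • u0 + κ, b2.2), b2.1),
      Submodule.subset_span (by simp), rfl, rfl, rfl⟩
  · rintro W ⟨⟨hW2, hvW⟩, hWm, w1, hw1, w2, hw2, h1, h2, h3⟩
    have hfd : FiniteDimensional F W := finite_of_finrank_pos (by rw [hW2]; norm_num)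
    have hspan : Submodule.span F {w1, w2} = W := by
      apply Submodule.eq_of_le_of_finrank_eq
      · rw [Submodule.span_le]
        rintro x (rfl | rfl)
        · exact hw1
        · exact hw2
      · rw [finrank_of_li F (hli w1 w2 h1 h2), hW2]
    rw [← hspan] at hvW ⊢
    obtain ⟨a', b', hab'⟩ := Submodule.mem_span_pair.1 hvW
    have h4 : a' • b1 + b' • b2 = a • b1 + b • b2 := by
      rw [hab, ← hab', map_add, map_smul, map_smul, h1, h2]
    rw [LinearIndependent.pair_iff] at hb
    have h5 := hb (a' - a) (b' - b) (by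
      rw [sub_smul, sub_smul]
      have : a' • b1 - a • b1 + (b' • b2 - b • b2) = (a' • b1 + b' • b2) - (a • b1 + b • b2) := by
        abel
      rw [this, h4, sub_self])
    have ha : a' = a := sub_eq_zero.1 h5.1
    have hb' : b' = b := sub_eq_zero.1 h5.2
    have h6 : a • w1.1.1 + b • (ω • w1.1.1 + κ) = v.1.1 := by
      rw [← h3, ← hab', ha, hb']
      rfl
    have h7 := (hsm _).1 h6
    rw [pr_apply] at h1 h2
    have e1 : w1 = ((u0, b1.2), b1.1) := by
      rw [← h1]
      exact Prod.ext (Prod.ext h7 rfl) rfl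
    have e2 : w2 = ((ω • u0 + κ, b2.2), b2.1) := by
      rw [← h2]
      refine Prod.ext (Prod.ext ?_ rfl) rfl
      simp only
      rw [h3, h7]
    rw [e1, e2]

end Mrd

end Pool.Agent.Helper491_Par.LP
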