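import Pool.Agent.Helper491_Par.TD

/-!
# The recursion: line parallelisms with a sub-parallelism
-/

set_option autoImplicit false
set_option linter.unusedSectionVars false

namespace Pool.Agent.Helper491_Par.LP

open Module Pool.Agent.Helper491_Par

/-- A colouring of the lines of `U × K` such that every colour class is a spread, and such that the
colours in `A` induce spreads of `U`. -/
structure PS (F K U A B : Type) [Field F] [Field K] [Algebra F K] [AddCommGroup U] [Module F U]
    (c : Submodule F (U × K) → A ⊕ B) : Prop where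
  spread : ∀ v : U × K, v ≠ 0 → ∀ γ, ∃! W : Submodule F (U × K), finrank F W = 2 ∧ v ∈ W ∧ c W = γ
  sub : ∀ W : Submodule F (U × K), finrank F W = 2 → (∀ w ∈ W, w.2 = 0) → ∃ a, c W = .inl a
  ind : ∀ u : U, u ≠ 0 → ∀ a, ∀ W : Submodule F (U × K), finrank F W = 2 → (u, 0) ∈ W →
    c W = .inl a → ∀ w ∈ W, w.2 = 0

section Card

variable {F K U A B : Type} [Field F] [Fintype F] [Field K] [Fintype K] [Algebra F K]
  [AddCommGroup U] [Module F U] [Finite U] {c : Submodule F (U × K) → A ⊕ B}

theorem PS.finite_B (h : PS F K U A B c) : Finite B := by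
  have h1 : ((0 : U), (1 : K)) ≠ 0 := by
    intro h0
    exact one_ne_zero (congrArg Prod.snd h0)
  choose W hW using fun b : B => (h.spread _ h1 (.inr b)).exists
  apply Finite.of_injective W
  intro b b' hbb
  have h2 := (hW b).2.2
  rw [hbb, (hW b').2.2] at h2
  exact Sum.inr.inj h2.symm

theorem card_filter_mem' {F V : Type} [Field F] [Fintype F] [AddCommGroup V] [Module F V]
    [Fintype V] [DecidableEq V] (L : Submodule F V) [DecidablePred (· ∈ L)] :
    (Finset.univ.filter (· ∈ L)).card = Fintype.card F ^ finrank F L := by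
  rw [← Fintype.card_subtype]
  exact Module.card_eq_pow_finrank (K := F) (V := L)

theorem PS.card_B (h : PS F K U A B c) (hK : Nat.card K = Fintype.card F ^ 2) [Nontrivial U] :
    Nat.card B * Fintype.card F = Nat.card U * (Fintype.card F + 1) := by
  classical
  have hBf := h.finite_B
  have : Fintype B := Fintype.ofFinite B
  have : Fintype U := Fintype.ofFinite U
  obtain ⟨u0, hu0⟩ := exists_ne (0 : U)
  set v0 : U × K := (u0, 0) with hv0
  have hv0ne : v0 ≠ 0 := fun h0 => hu0 (congrArg Prod.fst h0)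
  have hli : ∀ w : U × K, w ∉ Submodule.span F {v0} → LinearIndependent F ![v0, w] := by
    intro w hw
    rw [LinearIndependent.pair_iff]
    intro s t hst
    have ht : t = 0 := by
      by_contra ht
      apply hw
      rw [← Submodule.smul_mem_iff _ ht, ← neg_eq_of_add_eq_zero_right hst]
      exact Submodule.neg_mem _ (Submodule.smul_mem _ _ (Submodule.mem_span_singleton_self v0))
    subst ht
    refine ⟨?_, rfl⟩
    rw [zero_smul, add_zero] at hst
    exact (smul_eq_zero.1 hst).resolve_right hv0ne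
  have hsp : ∀ w : U × K, w ∈ Submodule.span F {v0} → w.2 = 0 := by
    intro w hw
    obtain ⟨a, rfl⟩ := Submodule.mem_span_singleton.1 hw
    simp [hv0]
  have key := Finset.card_mul_eq_card_mul
    (s := Finset.univ.filter (fun w : U × K => w.2 ≠ 0)) (t := (Finset.univ : Finset B))
    (fun (w : U × K) (b : B) => c (Submodule.span F {v0, w}) = Sum.inr b) (m := 1)
    (n := Fintype.card F ^ 2 - Fintype.card F) ?_ ?_
  · have h1 : (Finset.univ.filter (fun w : U × K => w.2 ≠ 0)).card =
        Fintype.card U * (Fintype.card F ^ 2 - 1) := by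
      have h2 : (Finset.univ.filter (fun w : U × K => w.2 ≠ 0)) =
          (Finset.univ : Finset U) ×ˢ (Finset.univ.filter (fun x : K => x ≠ 0)) := by
        ext w
        simp
      rw [h2, Finset.card_product, Finset.card_univ, Finset.filter_ne', Finset.card_erase_of_mem
        (Finset.mem_univ _), Finset.card_univ, ← Nat.card_eq_fintype_card (α := K), hK]
    rw [h1, mul_one, Finset.card_univ] at key
    rw [Nat.card_eq_fintype_card, Nat.card_eq_fintype_card]
    have hq : 1 < Fintype.card F := Fintype.one_lt_card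
    obtain ⟨q, hq'⟩ : ∃ q, Fintype.card F = q + 1 := ⟨Fintype.card F - 1, by omega⟩
    rw [hq'] at key hq ⊢
    have e1 : (q + 1) ^ 2 - 1 = (q + 1 + 1) * q := by
      have : (q + 1) ^ 2 = (q + 1 + 1) * q + 1 := by ring
      omega
    have e2 : (q + 1) ^ 2 - (q + 1) = (q + 1) * q := by
      have : (q + 1) ^ 2 = (q + 1) * q + (q + 1) := by ring
      omega
    rw [e1, e2, ← mul_assoc, ← mul_assoc] at key
    exact (Nat.eq_of_mul_eq_mul_right (by omega) key).symm
  · intro w hw
    rw [Finset.mem_filter] at hw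
    have hw0 : w ∉ Submodule.span F {v0} := fun h0 => hw.2 (hsp w h0)
    have h2 := finrank_of_li F (hli w hw0)
    have hor : (∃ a, c (Submodule.span F {v0, w}) = .inl a) ∨
        ∃ b, c (Submodule.span F {v0, w}) = .inr b := by
      rcases c (Submodule.span F {v0, w}) with a | b
      · exact Or.inl ⟨a, rfl⟩
      · exact Or.inr ⟨b, rfl⟩
    rcases hor with ⟨a, hc⟩ | ⟨b, hc⟩
    · exact absurd (h.ind u0 hu0 a _ h2 (by rw [← hv0]; exact Submodule.subset_span (by simp)) hc w
        (Submodule.subset_span (by simp))) hw.2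
    · rw [Finset.card_eq_one]
      refine ⟨b, ?_⟩
      ext b'
      rw [Finset.mem_bipartiteAbove, Finset.mem_singleton, hc]
      simp [eq_comm]
  · intro b _
    obtain ⟨L, ⟨hL2, hvL, hcL⟩, hLu⟩ := h.spread v0 hv0ne (.inr b)
    have h1 : (Finset.bipartiteBelow (fun (w : U × K) (b : B) =>
        c (Submodule.span F {v0, w}) = Sum.inr b)
        (Finset.univ.filter (fun w : U × K => w.2 ≠ 0)) b) =
        (Finset.univ.filter (· ∈ L)) \ (Finset.univ.filter (· ∈ Submodule.span F {v0})) := by
      ext w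
      rw [Finset.mem_bipartiteBelow, Finset.mem_filter, Finset.mem_sdiff, Finset.mem_filter,
        Finset.mem_filter]
      constructor
      · rintro ⟨⟨-, hw⟩, hwS⟩
        have hw0 : w ∉ Submodule.span F {v0} := fun h0 => hw (hsp w h0)
        have h2 : Submodule.span F {v0, w} = L :=
          hLu _ ⟨finrank_of_li F (hli w hw0), Submodule.subset_span (by simp), hwS⟩
        refine ⟨⟨Finset.mem_univ _, ?_⟩, ?_⟩
        · rw [← h2]
          exact Submodule.subset_span (by simp)
        · rintro ⟨-, h3⟩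
          exact hw0 h3
      · rintro ⟨⟨-, hwL⟩, hw⟩
        have hw' : w ∉ Submodule.span F {v0} := fun h => hw ⟨Finset.mem_univ _, h⟩
        have h2 : Submodule.span F {v0, w} = L := by
          have hfd : FiniteDimensional F L := finite_of_finrank_pos (by rw [hL2]; norm_num)
          apply Submodule.eq_of_le_of_finrank_eq
          · rw [Submodule.span_le]
            rintro x (rfl | rfl)
            · exact hvL
            · exact hwL
          · rw [finrank_of_li F (hli w hw'), hL2]
        refine ⟨⟨Finset.mem_univ _, ?_⟩, ?_⟩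
        · intro hw0
          obtain ⟨a, ha⟩ := h.sub L hL2 (by
            rw [← h2]
            intro x hx
            obtain ⟨s, t, rfl⟩ := Submodule.mem_span_pair.1 hx
            simp [hv0, hw0])
          rw [hcL] at ha
          cases ha
        · rw [h2]; exact hcL
    rw [h1, Finset.card_sdiff_of_subset, card_filter_mem', card_filter_mem', hL2,
      finrank_span_singleton hv0ne, pow_one]
    intro w hw
    rw [Finset.mem_filter] at hw ⊢
    refine ⟨hw.1, ?_⟩
    have : Submodule.span F {v0} ≤ L := by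
      rw [Submodule.span_singleton_le_iff_mem]; exact hvL
    exact this hw.2

end Card

section Step

variable {F K U A B : Type} [Field F] [Fintype F] [Field K] [Fintype K] [Algebra F K]
  [AddCommGroup U] [Module F U] [Module K U] [IsScalarTower F K U]

/-- The new colours. -/
def mk : Option K → A ⊕ B → (A ⊕ B) ⊕ (K × B)
  | _, .inl a => .inl (.inl a)
  | none, .inr b => .inl (.inr b)
  | some s, .inr b => .inr (s, b)

theorem mk_inl_eq {i : Option K} {x : A ⊕ B} {a : A} (h : mk i x = .inl (.inl a)) : x = .inl a := by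
  rcases x with a' | b
  · have : a' = a := Sum.inl.inj (Sum.inl.inj h)
    rw [this]
  · cases i with
    | none => cases Sum.inl.inj h
    | some s => cases h

theorem mk_inr_eq {i j : Option K} {x : A ⊕ B} {b : B} (h : mk i x = mk j (.inr b)) :
    i = j ∧ x = .inr b := by
  rcases x with a' | b'
  · cases j with
    | none => cases Sum.inl.inj h
    | some s => cases h
  · cases i with
    | none =>
      cases j with
      | none => exact ⟨rfl, Sum.inl.inj h⟩
      | some s => cases h
    | some t =>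
      cases j with
      | none => cases h
      | some s =>
        have h1 := Sum.inr.inj h
        rw [Prod.mk.injEq] at h1
        exact ⟨by rw [h1.1], by rw [h1.2]⟩

theorem mk_surj (γ : (A ⊕ B) ⊕ (K × B)) :
    (∃ a, γ = .inl (.inl a)) ∨ ∃ i b, γ = mk i (.inr b) := by
  rcases γ with (a | b) | ⟨s, b⟩
  · exact Or.inl ⟨a, rfl⟩
  · exact Or.inr ⟨none, b, rfl⟩
  · exact Or.inr ⟨some s, b, rfl⟩

open Classical in
/-- The new colouring. -/
noncomputable def newc (c : Submodule F (U × K) → A ⊕ B)
    (g : Submodule F (K × K) → U → Option K × B) (kp : Submodule F ((U × K) × K) → U)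
    (W : Submodule F ((U × K) × K)) : (A ⊕ B) ⊕ (K × B) :=
  if h : ∃ i, W ≤ LinearMap.range (emb F U i) then
    mk h.choose (c (W.comap (emb F U h.choose)))
  else mk (g (W.map (pr F U)) (kp W)).1 (.inr (g (W.map (pr F U)) (kp W)).2)

theorem emb_zero (i : Option K) (u : U) : emb F U i (u, 0) = ((u, 0), 0) := by
  cases i <;> simp [emb_none, emb_some]

theorem map_comap_emb {W : Submodule F ((U × K) × K)} {i : Option K}
    (h : W ≤ LinearMap.range (emb F U i)) : (W.comap (emb F U i)).map (emb F U i) = W := by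
  rw [Submodule.map_comap_eq, inf_eq_right.2 h]

theorem finrank_comap_emb {W : Submodule F ((U × K) × K)} {i : Option K}
    (h : W ≤ LinearMap.range (emb F U i)) : finrank F (W.comap (emb F U i)) = finrank F W := by
  rw [← finrank_map_inj (emb_injective (U := U) i), map_comap_emb h]

theorem newc_emb {c : Submodule F (U × K) → A ⊕ B} (h : PS F K U A B c)
    (g : Submodule F (K × K) → U → Option K × B) (kp : Submodule F ((U × K) × K) → U)
    {W : Submodule F ((U × K) × K)} (hW : finrank F W = 2) {i : Option K}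
    (hi : W ≤ LinearMap.range (emb F U i)) :
    newc c g kp W = mk i (c (W.comap (emb F U i))) := by
  have hex : ∃ i, W ≤ LinearMap.range (emb F U i) := ⟨i, hi⟩
  unfold newc
  rw [dif_pos hex]
  set j := hex.choose with hj
  have hjW : W ≤ LinearMap.range (emb F U j) := hex.choose_spec
  by_cases hij : j = i
  · rw [hij]
  · have hz : ∀ w ∈ W, pr F U w = 0 := fun w hw => pr_zero_of_two hij (hjW hw) (hi hw)
    have hcm : W.comap (emb F U j) = W.comap (emb F U i) := by
      ext ⟨u, x⟩
      rw [Submodule.mem_comap, Submodule.mem_comap]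
      constructor
      · intro hx
        have h1 := emb_of_pr_zero (hz _ hx) j
        have h2 := (Prod.mk.inj (emb_injective j h1)).2
        rw [h2, emb_zero] at hx ⊢
        exact hx
      · intro hx
        have h1 := emb_of_pr_zero (hz _ hx) i
        have h2 := (Prod.mk.inj (emb_injective i h1)).2
        rw [h2, emb_zero] at hx ⊢
        exact hx
    obtain ⟨a, ha⟩ := h.sub (W.comap (emb F U i)) (by rw [finrank_comap_emb hi, hW]) (by
      rintro ⟨u, x⟩ hx
      rw [Submodule.mem_comap] at hx
      have h1 := emb_of_pr_zero (hz _ hx) i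
      exact (Prod.mk.inj (emb_injective i h1)).2)
    rw [hcm, ha]
    rfl

/-- A line through a vector of `range (emb i)` with the old colour. -/
theorem newc_lift {c : Submodule F (U × K) → A ⊕ B} (h : PS F K U A B c)
    (g : Submodule F (K × K) → U → Option K × B) (kp : Submodule F ((U × K) × K) → U)
    (i : Option K) {W0 : Submodule F (U × K)} (h2 : finrank F W0 = 2) :
    finrank F (W0.map (emb F U i)) = 2 ∧ newc c g kp (W0.map (emb F U i)) = mk i (c W0) := by
  have h1 : finrank F (W0.map (emb F U i)) = 2 := by rw [finrank_map_inj (emb_injective i), h2]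
  refine ⟨h1, ?_⟩
  rw [newc_emb h g kp h1 (i := i) (by rintro _ ⟨x, -, rfl⟩; exact ⟨x, rfl⟩),
    Submodule.comap_map_eq_of_injective (emb_injective i)]

theorem step_aux {c : Submodule F (U × K) → A ⊕ B} (h : PS F K U A B c)
    {S : Option K → B → Set (Submodule F (K × K))} {g : Submodule F (K × K) → U → Option K × B}
    (hS1 : ∀ i b L, L ∈ S i b → L ∈ Rl F K (K × K))
    (hS2 : ∀ i b p, p ∉ LinearMap.range (phi F i) → ∃! L, L ∈ S i b ∧ p ∈ L)
    (hS3 : ∀ i b p, p ∈ LinearMap.range (phi F i) → p ≠ 0 → ∀ L ∈ S i b, p ∉ L)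
    (hg1 : ∀ L ∈ Rl F K (K × K), ∀ i b, L ∈ S i b ↔ ∃ u, g L u = (i, b))
    (hg2 : ∀ L ∈ Rl F K (K × K), Function.Injective (g L))
    {kp : Submodule F ((U × K) × K) → U}
    (hk : ∀ L ∈ Rl F K (K × K), ∀ κ : U, ∀ v : (U × K) × K, pr F U v ∈ L → pr F U v ≠ 0 →
      ∃! W : Submodule F ((U × K) × K), (finrank F W = 2 ∧ v ∈ W) ∧
        (W.map (pr F U) = L ∧ kp W = κ)) :
    PS F K (U × K) (A ⊕ B) (K × B) (newc c g kp) := by
  -- lines over a real line are not in `range (emb i)`
  have hreal : ∀ W : Submodule F ((U × K) × K), W.map (pr F U) ∈ Rl F K (K × K) →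
      ¬ ∃ i, W ≤ LinearMap.range (emb F U i) := by
    rintro W hW ⟨i, hi⟩
    rw [mem_Rl_iff] at hW
    apply hW.2 i
    rintro _ ⟨w, hw, rfl⟩
    exact mem_range_emb'.1 (hi hw)
  have hnewr : ∀ W : Submodule F ((U × K) × K), ¬ (∃ i, W ≤ LinearMap.range (emb F U i)) →
      newc c g kp W = mk (g (W.map (pr F U)) (kp W)).1 (.inr (g (W.map (pr F U)) (kp W)).2) := by
    intro W hW
    unfold newc
    rw [dif_neg hW]
  -- the line of a given colour through a vector of `range (emb i)`
  have hA : ∀ v : (U × K) × K, v ≠ 0 → ∀ a : A, ∃! W : Submodule F ((U × K) × K),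
      finrank F W = 2 ∧ v ∈ W ∧ newc c g kp W = .inl (.inl a) := by
    intro v hv a
    have huniq : ∀ W : Submodule F ((U × K) × K), finrank F W = 2 →
        newc c g kp W = .inl (.inl a) → ∃ i, W ≤ LinearMap.range (emb F U i) ∧
          c (W.comap (emb F U i)) = .inl a := by
      intro W hW hc
      by_cases hex : ∃ i, W ≤ LinearMap.range (emb F U i)
      · obtain ⟨i, hi⟩ := hex
        rw [newc_emb h g kp hW hi] at hc
        exact ⟨i, hi, mk_inl_eq hc⟩
      · rw [hnewr W hex] at hc
        have := mk_inl_eq hc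
        cases this
    by_cases hp : pr F U v = 0
    · have hv0 := emb_of_pr_zero hp none
      have hu : v.1.1 ≠ 0 := by
        intro h0
        apply hv
        rw [hv0, h0]
        simp [emb_none]
      have hu' : ((v.1.1, (0 : K)) : U × K) ≠ 0 := fun h0 => hu (congrArg Prod.fst h0)
      obtain ⟨W0, ⟨h1, h2, h3⟩, h4⟩ := h.spread _ hu' (.inl a)
      obtain ⟨h5, h6⟩ := newc_lift h g kp none h1
      refine ⟨W0.map (emb F U none), ⟨h5, ?_, ?_⟩, ?_⟩
      · rw [hv0]
        exact ⟨_, h2, rfl⟩
      · rw [h6, h3]; rfl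
      · rintro W ⟨hW2, hvW, hWc⟩
        obtain ⟨i, hi, hci⟩ := huniq W hW2 hWc
        have hvi := emb_of_pr_zero hp i
        have h7 : W.comap (emb F U i) = W0 := by
          apply h4
          refine ⟨by rw [finrank_comap_emb hi, hW2], ?_, hci⟩
          rw [Submodule.mem_comap, ← hvi]
          exact hvW
        have h8 : ∀ w ∈ W0, w.2 = 0 := h.ind _ hu a W0 h1 h2 h3
        rw [← map_comap_emb hi, h7]
        ext x
        constructor
        · rintro ⟨w, hw, rfl⟩
          refine ⟨w, hw, ?_⟩
          have h9 : w = (w.1, 0) := Prod.ext rfl (h8 w hw)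
          rw [h9]
          cases i <;> simp [emb_none, emb_some]
        · rintro ⟨w, hw, rfl⟩
          refine ⟨w, hw, ?_⟩
          have h9 : w = (w.1, 0) := Prod.ext rfl (h8 w hw)
          rw [h9]
          cases i <;> simp [emb_none, emb_some]
    · obtain ⟨i, hi, hiu⟩ := phi_part (F := F) _ hp
      obtain ⟨v0, hv0⟩ := mem_range_emb'.2 hi
      have hv0' : v0 ≠ 0 := by
        rintro rfl
        rw [map_zero] at hv0
        exact hv hv0.symm
      obtain ⟨W0, ⟨h1, h2, h3⟩, h4⟩ := h.spread v0 hv0' (.inl a)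
      obtain ⟨h5, h6⟩ := newc_lift h g kp i h1
      refine ⟨W0.map (emb F U i), ⟨h5, ?_, ?_⟩, ?_⟩
      · rw [← hv0]
        exact ⟨_, h2, rfl⟩
      · rw [h6, h3]; rfl
      · rintro W ⟨hW2, hvW, hWc⟩
        obtain ⟨j, hj, hcj⟩ := huniq W hW2 hWc
        have hji : j = i := hiu j (mem_range_emb'.1 (hj hvW))
        subst hji
        rw [← map_comap_emb hj]
        congr 1
        apply h4
        refine ⟨by rw [finrank_comap_emb hj, hW2], ?_, hcj⟩
        rw [Submodule.mem_comap, hv0]
        exact hvW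
  have hBi : ∀ (i : Option K) (v : (U × K) × K), v ≠ 0 → v ∈ LinearMap.range (emb F U i) →
      ∀ b : B, ∃! W : Submodule F ((U × K) × K),
      finrank F W = 2 ∧ v ∈ W ∧ newc c g kp W = mk i (.inr b) := by
    rintro i v hv ⟨v0, hv0⟩ b
    have hv0' : v0 ≠ 0 := by
      rintro rfl
      rw [map_zero] at hv0
      exact hv hv0.symm
    obtain ⟨W0, ⟨h1, h2, h3⟩, h4⟩ := h.spread v0 hv0' (.inr b)
    obtain ⟨h5, h6⟩ := newc_lift h g kp i h1
    refine ⟨W0.map (emb F U i), ⟨h5, ?_, ?_⟩, ?_⟩
    · rw [← hv0]
      exact ⟨_, h2, rfl⟩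
    · rw [h6, h3]
    · rintro W ⟨hW2, hvW, hWc⟩
      by_cases hex : ∃ j, W ≤ LinearMap.range (emb F U j)
      · obtain ⟨j, hj⟩ := hex
        rw [newc_emb h g kp hW2 hj] at hWc
        obtain ⟨hji, hcj⟩ := mk_inr_eq hWc
        subst hji
        rw [← map_comap_emb hj]
        congr 1
        apply h4
        refine ⟨by rw [finrank_comap_emb hj, hW2], ?_, hcj⟩
        rw [Submodule.mem_comap, hv0]
        exact hvW
      · exfalso
        obtain ⟨hWr, hWinj⟩ := real_of_not hW2 hex
        rw [hnewr W hex] at hWc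
        obtain ⟨h7, h8⟩ := mk_inr_eq hWc
        have h9 : g (W.map (pr F U)) (kp W) = (i, b) := Prod.ext h7 (Sum.inr.inj h8)
        have h10 : W.map (pr F U) ∈ S i b := (hg1 _ hWr i b).2 ⟨_, h9⟩
        refine hS3 i b (pr F U v) ?_ ?_ _ h10 ⟨v, hvW, rfl⟩
        · rw [← mem_range_emb', ← hv0]
          exact ⟨_, rfl⟩
        · intro h0
          exact hv (hWinj v hvW h0)
  have hBo : ∀ (i : Option K) (v : (U × K) × K), v ∉ LinearMap.range (emb F U i) →
      ∀ b : B, ∃! W : Submodule F ((U × K) × K),
      finrank F W = 2 ∧ v ∈ W ∧ newc c g kp W = mk i (.inr b) := by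
    intro i v hvi b
    have hpi : pr F U v ∉ LinearMap.range (phi F i) := fun h0 => hvi (mem_range_emb'.2 h0)
    have hp0 : pr F U v ≠ 0 := fun h0 => hpi (by rw [h0]; exact Submodule.zero_mem _)
    obtain ⟨L, ⟨hL, hvL⟩, hLu⟩ := hS2 i b _ hpi
    have hLr := hS1 i b L hL
    obtain ⟨κ, hκ⟩ := (hg1 L hLr i b).1 hL
    obtain ⟨W, ⟨⟨hW2, hvW⟩, hWL, hWκ⟩, hWu⟩ := hk L hLr κ v hvL hp0
    have hWn : ¬ ∃ j, W ≤ LinearMap.range (emb F U j) := hreal W (by rw [hWL]; exact hLr)
    refine ⟨W, ⟨hW2, hvW, ?_⟩, ?_⟩
    · rw [hnewr W hWn, hWL, hWκ, hκ]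
    · rintro W' ⟨hW2', hvW', hWc'⟩
      by_cases hex : ∃ j, W' ≤ LinearMap.range (emb F U j)
      · exfalso
        obtain ⟨j, hj⟩ := hex
        rw [newc_emb h g kp hW2' hj] at hWc'
        obtain ⟨hji, -⟩ := mk_inr_eq hWc'
        subst hji
        exact hvi (hj hvW')
      · obtain ⟨hWr, -⟩ := real_of_not hW2' hex
        rw [hnewr W' hex] at hWc'
        obtain ⟨h7, h8⟩ := mk_inr_eq hWc'
        have h9 : g (W'.map (pr F U)) (kp W') = (i, b) := Prod.ext h7 (Sum.inr.inj h8)
        have h10 : W'.map (pr F U) ∈ S i b := (hg1 _ hWr i b).2 ⟨_, h9⟩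
        have h11 : W'.map (pr F U) = L := hLu _ ⟨h10, ⟨v, hvW', rfl⟩⟩
        apply hWu
        refine ⟨⟨hW2', hvW'⟩, h11, ?_⟩
        apply hg2 L hLr
        rw [hκ, ← h9, h11]
  refine ⟨?_, ?_, ?_⟩
  · intro v hv γ
    rcases mk_surj γ with ⟨a, rfl⟩ | ⟨i, b, rfl⟩
    · exact hA v hv a
    · by_cases hvi : v ∈ LinearMap.range (emb F U i)
      · exact hBi i v hv hvi b
      · exact hBo i v hvi b
  · intro W hW2 hW0
    have hle : W ≤ LinearMap.range (emb F U none) := by
      intro w hw
      exact ⟨w.1, by rw [emb_none]; exact Prod.ext rfl (hW0 w hw).symm⟩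
    rw [newc_emb h g kp hW2 hle]
    rcases c (W.comap (emb F U none)) with a | b
    · exact ⟨.inl a, rfl⟩
    · exact ⟨.inr b, rfl⟩
  · intro u hu γ W hW2 hmem hcW w hw
    have huv : (((u, 0) : (U × K) × K)) ≠ 0 := fun h0 => hu (congrArg Prod.fst h0)
    have hrange : ((u, 0) : (U × K) × K) ∈ LinearMap.range (emb F U none) := ⟨u, rfl⟩
    suffices hle : W ≤ LinearMap.range (emb F U none) by
      obtain ⟨x, hx⟩ := hle hw
      rw [← hx, emb_none]
    rcases γ with a | b
    · by_cases hex : ∃ i, W ≤ LinearMap.range (emb F U i)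
      · obtain ⟨i, hi⟩ := hex
        by_cases hp : pr F U ((u, 0) : (U × K) × K) = 0
        · rw [newc_emb h g kp hW2 hi] at hcW
          have hci := mk_inl_eq hcW
          have hvi := emb_of_pr_zero hp i
          have hu1 : u.1 ≠ 0 := by
            intro h0
            apply huv
            rw [hvi]
            simp only [h0]
            have : ((0 : U), (0 : K)) = 0 := rfl
            rw [this, map_zero]
          have h8 := h.ind _ hu1 a (W.comap (emb F U i)) (by rw [finrank_comap_emb hi, hW2])
            (by rw [Submodule.mem_comap, ← hvi]; exact hmem) hci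
          intro x hx
          obtain ⟨y, rfl⟩ := hi hx
          have hy := h8 y hx
          have h9 : y = (y.1, 0) := Prod.ext rfl hy
          refine ⟨y, ?_⟩
          rw [h9]
          cases i <;> simp [emb_none, emb_some]
        · obtain ⟨j, -, hju⟩ := phi_part (F := F) _ hp
          have e1 := hju i (mem_range_emb'.1 (hi hmem))
          have e2 := hju none (mem_range_emb'.1 hrange)
          rw [e2, ← e1]
          exact hi
      · rw [hnewr W hex] at hcW
        cases mk_inl_eq hcW
    · have h1 := hBi none _ huv hrange b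
      obtain ⟨W1, hW1, hu1⟩ := h1
      obtain ⟨v0, hv0⟩ := hrange
      by_cases hex : ∃ i, W ≤ LinearMap.range (emb F U i)
      · obtain ⟨i, hi⟩ := hex
        rw [newc_emb h g kp hW2 hi] at hcW
        have hcW' : mk i (c (W.comap (emb F U i))) = mk (K := K) none (Sum.inr b : A ⊕ B) := hcW
        obtain ⟨h2, -⟩ := mk_inr_eq hcW'
        rw [← h2]
        exact hi
      · exfalso
        obtain ⟨hWr, hWinj⟩ := real_of_not hW2 hex
        rw [hnewr W hex] at hcW
        have hcW' : mk (g (W.map (pr F U)) (kp W)).1 (.inr (g (W.map (pr F U)) (kp W)).2) =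
          mk (K := K) none (Sum.inr b : A ⊕ B) := hcW
        obtain ⟨h7, h8⟩ := mk_inr_eq hcW'
        have h9 : g (W.map (pr F U)) (kp W) = (none, b) := Prod.ext h7 (Sum.inr.inj h8)
        have h10 : W.map (pr F U) ∈ S none b := (hg1 _ hWr none b).2 ⟨_, h9⟩
        refine hS3 none b (pr F U ((u, 0) : (U × K) × K)) ?_ ?_ _ h10 ⟨_, hmem, rfl⟩
        · rw [← mem_range_emb']
          exact ⟨u, rfl⟩
        · intro h0
          exact huv (hWinj _ hmem h0)

end Step

end Pool.Agent.Helper491_Par.LP
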