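import Pool.Agent.Helper491_Par.Double

/-!
# A line parallelism of the three-dimensional projective space over the field with two elements
-/

set_option autoImplicit false
set_option linter.unusedSectionVars false

namespace Pool.Agent.Helper491_Par.LP

open Module Pool.Agent.Helper491_Par

/-- Vectors over the field with two elements. -/
abbrev T4 : Type := Bool × Bool × Bool × Bool

/-- Addition. -/
def xr (x y : T4) : T4 :=
  (x.1.xor y.1, x.2.1.xor y.2.1, x.2.2.1.xor y.2.2.1, x.2.2.2.xor y.2.2.2)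

/-- The zero vector. -/
def z4 : T4 := (false, false, false, false)

/-- The colours of pairs of vectors. -/
def tab : List (List (Fin 7)) :=
  [[0, 0, 0, 0, 0, 0, 0, 0, 0, 0, 0, 0, 0, 0, 0, 0],
   [0, 0, 0, 0, 1, 1, 2, 2, 3, 3, 4, 4, 5, 5, 6, 6],
   [0, 0, 0, 0, 4, 6, 4, 6, 1, 5, 1, 5, 3, 2, 3, 2],
   [0, 0, 0, 0, 5, 3, 3, 5, 6, 2, 2, 6, 4, 1, 1, 4],
   [0, 1, 4, 5, 0, 1, 4, 5, 2, 6, 0, 3, 2, 6, 0, 3],
   [0, 1, 6, 3, 1, 0, 3, 6, 4, 0, 5, 2, 0, 4, 2, 5],
   [0, 2, 4, 3, 4, 3, 0, 2, 5, 1, 6, 0, 6, 0, 5, 1],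
   [0, 2, 6, 5, 5, 6, 2, 0, 0, 4, 3, 1, 1, 3, 4, 0],
   [0, 3, 1, 6, 2, 4, 5, 0, 0, 3, 1, 6, 2, 4, 5, 0],
   [0, 3, 5, 2, 6, 0, 1, 4, 3, 0, 2, 5, 0, 6, 4, 1],
   [0, 4, 1, 2, 0, 5, 6, 3, 1, 2, 0, 4, 6, 3, 0, 5],
   [0, 4, 5, 6, 3, 2, 0, 1, 6, 5, 4, 0, 1, 0, 2, 3],
   [0, 5, 3, 4, 2, 0, 6, 1, 2, 0, 6, 1, 0, 5, 3, 4],
   [0, 5, 2, 1, 6, 4, 0, 3, 4, 6, 3, 0, 5, 0, 1, 2],
   [0, 6, 3, 1, 0, 2, 5, 4, 5, 4, 0, 2, 3, 1, 0, 6],
   [0, 6, 2, 4, 3, 5, 1, 0, 0, 1, 5, 3, 4, 2, 6, 0]]

/-- The number of a vector. -/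
def code (x : T4) : ℕ := 8 * x.1.toNat + 4 * x.2.1.toNat + 2 * x.2.2.1.toNat + x.2.2.2.toNat

/-- The colour of a pair. -/
def col (x y : T4) : Fin 7 := (tab.getD (code x) []).getD (code y) 0

theorem col_symm : ∀ x y : T4, col x y = col y x := by decide +kernel

theorem col_xr : ∀ x y : T4, x ≠ z4 → y ≠ z4 → x ≠ y → col x (xr x y) = col x y := by
  decide +kernel

theorem col_ex : ∀ x : T4, x ≠ z4 → ∀ γ : Fin 7, ∃ y : T4, y ≠ z4 ∧ x ≠ y ∧ col x y = γ := by
  decide +kernel

/-- The test of uniqueness. -/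
def tst (x y y' : T4) : Bool :=
  decide (x = z4) || (decide (y = z4) || (decide (x = y) || (decide (y' = z4) || (decide (x = y') ||
    (decide (col x y ≠ col x y') || (decide (y' = y) || decide (y' = xr x y)))))))

theorem col_uniq_aux : ∀ x y y' : T4, tst x y y' = true := by decide +kernel

theorem col_uniq (x y y' : T4) (h1 : x ≠ z4) (h2 : y ≠ z4) (h3 : x ≠ y) (h4 : y' ≠ z4)
    (h5 : x ≠ y') (h6 : col x y = col x y') : y' = y ∨ y' = xr x y := by
  have h := col_uniq_aux x y y'
  unfold tst at h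
  simp only [Bool.or_eq_true, decide_eq_true_eq] at h
  rcases h with h | h | h | h | h | h | h
  · exact absurd h h1
  · exact absurd h h2
  · exact absurd h h3
  · exact absurd h h4
  · exact absurd h h5
  · exact absurd h6 h
  · exact h

section

variable {F : Type} [Field F] [Fintype F]

theorem zero_or_one (h : Fintype.card F = 2) (a : F) : a = 0 ∨ a = 1 := by
  classical
  by_contra hcon
  push Not at hcon
  have h1 : ({0, 1, a} : Finset F).card ≤ 2 := by
    rw [← h]
    exact Finset.card_le_univ _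
  have h2 : ({0, 1, a} : Finset F).card = 3 := by
    rw [Finset.card_insert_of_notMem, Finset.card_insert_of_notMem, Finset.card_singleton]
    · simp [Ne.symm hcon.2]
    · simp [Ne.symm hcon.1]
  omega

theorem one_add_one (h : Fintype.card F = 2) : (1 : F) + 1 = 0 := by
  rcases zero_or_one h ((1 : F) + 1) with h1 | h1
  · exact h1
  · exact absurd (add_left_cancel (h1.trans (add_zero (1 : F)).symm)) one_ne_zero

open Classical in
/-- The bit. -/
noncomputable def bx (a : F) : Bool := decide (a ≠ 0)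

theorem bx_add (h : Fintype.card F = 2) (a b : F) : bx (a + b) = (bx a).xor (bx b) := by
  unfold bx
  rcases zero_or_one h a with rfl | rfl <;> rcases zero_or_one h b with rfl | rfl <;>
    simp [one_add_one h]

theorem bx_inj (h : Fintype.card F = 2) {a b : F} (hab : bx a = bx b) : a = b := by
  unfold bx at hab
  rcases zero_or_one h a with rfl | rfl <;> rcases zero_or_one h b with rfl | rfl <;>
    simp_all

/-- A vector over `F` with a given sequence of bits. -/
theorem bx_surj (b : Bool) : ∃ a : F, bx a = b := by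
  unfold bx
  cases b
  · exact ⟨0, by simp⟩
  · exact ⟨1, by simp⟩

theorem exists_theta (h : Fintype.card F = 2) (V : Type) [AddCommGroup V] [Module F V]
    (hV : finrank F V = 4) : ∃ θ : V → T4, Function.Bijective θ ∧ θ 0 = z4 ∧
      ∀ x y, θ (x + y) = xr (θ x) (θ y) := by
  have hfd : FiniteDimensional F V := finite_of_finrank_pos (by rw [hV]; norm_num)
  let e : V ≃ₗ[F] (Fin 4 → F) := LinearEquiv.ofFinrankEq V (Fin 4 → F) (by
    rw [hV, finrank_fintype_fun_eq_card, Fintype.card_fin])
  refine ⟨fun v => (bx (e v 0), bx (e v 1), bx (e v 2), bx (e v 3)), ⟨?_, ?_⟩, ?_, ?_⟩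
  · intro x y hxy
    simp only [Prod.mk.injEq] at hxy
    apply e.injective
    funext i
    fin_cases i
    · exact bx_inj h hxy.1
    · exact bx_inj h hxy.2.1
    · exact bx_inj h hxy.2.2.1
    · exact bx_inj h hxy.2.2.2
  · rintro ⟨a, b, c, d⟩
    obtain ⟨a', ha⟩ := bx_surj (F := F) a
    obtain ⟨b', hb⟩ := bx_surj (F := F) b
    obtain ⟨c', hc⟩ := bx_surj (F := F) c
    obtain ⟨d', hd⟩ := bx_surj (F := F) d
    refine ⟨e.symm ![a', b', c', d'], ?_⟩
    simp [ha, hb, hc, hd]
  · simp [bx, z4]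
  · intro x y
    simp only [map_add, Pi.add_apply, bx_add h]
    rfl

theorem line_two (h : Fintype.card F = 2) {V : Type} [AddCommGroup V] [Module F V]
    {W : Submodule F V} (hW : finrank F W = 2) {x y : V} (hx : x ∈ W) (hy : y ∈ W) (hx0 : x ≠ 0)
    (hy0 : y ≠ 0) (hxy : x ≠ y) {v : V} (hv : v ∈ W) : v = 0 ∨ v = x ∨ v = y ∨ v = x + y := by
  have hfd : FiniteDimensional F W := finite_of_finrank_pos (by rw [hW]; norm_num)
  have hxx : x + x = 0 := by
    rw [← one_smul F x, ← add_smul, one_add_one h, zero_smul]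
  have hli : LinearIndependent F ![x, y] := by
    rw [LinearIndependent.pair_iff]
    intro s t hst
    rcases zero_or_one h s with rfl | rfl <;> rcases zero_or_one h t with rfl | rfl
    · exact ⟨rfl, rfl⟩
    · exfalso; apply hy0; simpa using hst
    · exfalso; apply hx0; simpa using hst
    · exfalso; apply hxy
      rw [one_smul, one_smul] at hst
      exact add_left_cancel (hxx.trans hst.symm)
  have hspan : Submodule.span F {x, y} = W := by
    apply Submodule.eq_of_le_of_finrank_eq
    · rw [Submodule.span_le]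
      rintro z (rfl | rfl)
      · exact hx
      · exact hy
    · rw [finrank_of_li F hli, hW]
  rw [← hspan] at hv
  obtain ⟨s, t, rfl⟩ := Submodule.mem_span_pair.1 hv
  rcases zero_or_one h s with rfl | rfl <;> rcases zero_or_one h t with rfl | rfl <;> simp

/-- The line parallelism for `q = 2`. -/
theorem splits_q2 (h : Fintype.card F = 2) (V : Type) [AddCommGroup V] [Module F V]
    (hV : finrank F V = 4) : Splits {E : Submodule F V | finrank F E = 2} := by
  obtain ⟨θ, hθ, hθ0, hθa⟩ := exists_theta h V hV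
  have hn : ∀ x : V, x ≠ 0 → θ x ≠ z4 := fun x hx h0 => hx (hθ.1 (h0.trans hθ0.symm))
  have hxx : ∀ x : V, x + x = 0 := by
    intro x
    rw [← one_smul F x, ← add_smul, one_add_one h, zero_smul]
  let S : Fin 7 → Set (Submodule F V) := fun γ => {W | finrank F W = 2 ∧
    ∃ x ∈ W, ∃ y ∈ W, x ≠ 0 ∧ y ≠ 0 ∧ x ≠ y ∧ col (θ x) (θ y) = γ}
  have hsum : ∀ x y : V, x ≠ 0 → y ≠ 0 → x ≠ y → col (θ x) (θ (x + y)) = col (θ x) (θ y) := by
    intro x y hx hy hxy
    rw [hθa]
    exact col_xr _ _ (hn x hx) (hn y hy) (fun h0 => hxy (hθ.1 h0))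
  -- all pairs of a line have the same colour
  have hpair : ∀ W : Submodule F V, finrank F W = 2 → ∀ x ∈ W, ∀ y ∈ W, x ≠ 0 → y ≠ 0 → x ≠ y →
      ∀ v ∈ W, ∀ v' ∈ W, v ≠ 0 → v' ≠ 0 → v ≠ v' → col (θ v) (θ v') = col (θ x) (θ y) := by
    intro W hW x hx y hy hx0 hy0 hxy
    have hxy0 : x + y ≠ 0 := fun h0 => hxy (add_left_cancel ((hxx x).trans h0.symm))
    have e1 := hsum x y hx0 hy0 hxy
    have e2 := hsum y x hy0 hx0 (Ne.symm hxy)
    rw [add_comm y x, col_symm (θ y) (θ x)] at e2
    intro v hv v' hv' hv0 hv0' hvv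
    rcases line_two h hW hx hy hx0 hy0 hxy hv with h1 | h1 | h1 | h1 <;>
      rcases line_two h hW hx hy hx0 hy0 hxy hv' with h2 | h2 | h2 | h2 <;>
      first
        | exact absurd h1 hv0
        | exact absurd h2 hv0'
        | exact absurd (h1.trans h2.symm) hvv
        | skip
    · rw [h1, h2]
    · rw [h1, h2]; exact e1
    · rw [h1, h2]; exact col_symm _ _
    · rw [h1, h2]; exact e2
    · rw [h1, h2, col_symm]; exact e1
    · rw [h1, h2, col_symm]; exact e2
  refine ⟨Set.range S, ?_, ?_, ?_⟩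
  · rintro _ ⟨γ, rfl⟩
    refine ⟨fun W hW => hW.1, ?_⟩
    intro v hv
    obtain ⟨y', hy1, hy2, hy3⟩ := col_ex (θ v) (hn v hv) γ
    obtain ⟨y, rfl⟩ := hθ.2 y'
    have hy0 : y ≠ 0 := by
      rintro rfl
      exact hy1 hθ0
    have hvy : v ≠ y := fun h0 => hy2 (by rw [h0])
    have hli : LinearIndependent F ![v, y] := by
      rw [LinearIndependent.pair_iff]
      intro s t hst
      rcases zero_or_one h s with rfl | rfl <;> rcases zero_or_one h t with rfl | rfl
      · exact ⟨rfl, rfl⟩
      · exfalso; apply hy0; simpa using hst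
      · exfalso; apply hv; simpa using hst
      · exfalso; apply hvy
        rw [one_smul, one_smul] at hst
        exact add_left_cancel ((hxx v).trans hst.symm)
    refine ⟨Submodule.span F {v, y}, ⟨⟨finrank_of_li F hli, v, Submodule.subset_span (by simp), y,
      Submodule.subset_span (by simp), hv, hy0, hvy, hy3⟩, Submodule.subset_span (by simp)⟩, ?_⟩
    rintro W ⟨⟨hW2, a, ha, b, hb, ha0, hb0, hab, hcol⟩, hvW⟩
    have hfd : FiniteDimensional F W := finite_of_finrank_pos (by rw [hW2]; norm_num)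
    -- another vector of `W`
    obtain ⟨v', hv'W, hv0', hvv'⟩ : ∃ v' ∈ W, v' ≠ 0 ∧ v ≠ v' := by
      by_cases hva : v = a
      · exact ⟨b, hb, hb0, by rw [hva]; exact hab⟩
      · exact ⟨a, ha, ha0, hva⟩
    have h1 := hpair W hW2 a ha b hb ha0 hb0 hab v hvW v' hv'W hv hv0' hvv'
    rw [hcol] at h1
    have h2 := col_uniq (θ v) (θ y) (θ v') (hn v hv) (hn y hy0) hy2 (hn v' hv0')
      (fun h0 => hvv' (hθ.1 h0)) (by rw [hy3, h1])
    have hv'span : v' ∈ Submodule.span F {v, y} := by
      rcases h2 with h2 | h2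
      · rw [hθ.1 h2]
        exact Submodule.subset_span (by simp)
      · rw [← hθa] at h2
        rw [hθ.1 h2]
        exact Submodule.add_mem _ (Submodule.subset_span (by simp))
          (Submodule.subset_span (by simp))
    have hli' : LinearIndependent F ![v, v'] := by
      rw [LinearIndependent.pair_iff]
      intro s t hst
      rcases zero_or_one h s with rfl | rfl <;> rcases zero_or_one h t with rfl | rfl
      · exact ⟨rfl, rfl⟩
      · exfalso; apply hv0'; simpa using hst
      · exfalso; apply hv; simpa using hst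
      · exfalso; apply hvv'
        rw [one_smul, one_smul] at hst
        exact add_left_cancel ((hxx v).trans hst.symm)
    have e1 : Submodule.span F {v, v'} = W := by
      apply Submodule.eq_of_le_of_finrank_eq
      · rw [Submodule.span_le]
        rintro z (rfl | rfl)
        · exact hvW
        · exact hv'W
      · rw [finrank_of_li F hli', hW2]
    have e2 : Submodule.span F {v, v'} = Submodule.span F {v, y} := by
      have hfd2 : FiniteDimensional F (Submodule.span F {v, y}) :=
        finite_of_finrank_pos (by rw [finrank_of_li F hli]; norm_num)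
      apply Submodule.eq_of_le_of_finrank_eq
      · rw [Submodule.span_le]
        rintro z (rfl | rfl)
        · exact Submodule.subset_span (by simp)
        · exact hv'span
      · rw [finrank_of_li F hli', finrank_of_li F hli]
    rw [← e1, e2]
  · rintro _ ⟨γ, rfl⟩ _ ⟨γ', rfl⟩ W ⟨hW2, x, hx, y, hy, hx0, hy0, hxy, hc⟩
      ⟨-, x', hx', y', hy', hx0', hy0', hxy', hc'⟩
    have := hpair W hW2 x hx y hy hx0 hy0 hxy x' hx' y' hy' hx0' hy0' hxy'
    rw [hc, hc'] at this
    rw [this]
  · ext W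
    constructor
    · rintro ⟨_, ⟨γ, rfl⟩, hW⟩
      exact hW.1
    · intro hW
      obtain ⟨e1, e2, hli, hWe⟩ := exists_basis_two hW
      have h1 : e1 ≠ 0 := by
        rintro rfl
        rw [LinearIndependent.pair_iff] at hli
        exact one_ne_zero (hli 1 0 (by simp)).1
      have h2 : e2 ≠ 0 := by
        rintro rfl
        rw [LinearIndependent.pair_iff] at hli
        exact one_ne_zero (hli 0 1 (by simp)).2
      have h3 : e1 ≠ e2 := by
        rintro rfl
        rw [LinearIndependent.pair_iff] at hli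
        exact one_ne_zero (hli 1 1 (by rw [one_smul]; exact hxx e1)).1
      refine ⟨S (col (θ e1) (θ e2)), ⟨_, rfl⟩, hW, e1, ?_, e2, ?_, h1, h2, h3, rfl⟩
      · rw [hWe]; exact Submodule.subset_span (by simp)
      · rw [hWe]; exact Submodule.subset_span (by simp)

end

/-- Line parallelisms of the three-dimensional projective spaces. -/
theorem splits_four (F : Type) [Field F] [Fintype F] (V : Type) [AddCommGroup V] [Module F V]
    (hV : finrank F V = 4) : Splits {E : Submodule F V | finrank F E = 2} := by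
  by_cases h : 2 < Fintype.card F
  · obtain ⟨D, hD1, hD2, hD3⟩ := good_all F 1 odd_one 2 (Or.inl h) V (by rw [hV]; norm_num)
    apply hD3.of_eq
    ext E
    constructor
    · intro hE
      exact hE.1
    · intro hE
      refine ⟨hE, ?_⟩
      intro X hX hle
      have hfd : FiniteDimensional F X := finite_of_finrank_pos (by rw [hD1 X hX]; norm_num)
      have := Submodule.finrank_mono hle
      rw [hD1 X hX] at this
      have hE2 : finrank F E = 2 := hE
      omega
  · have h1 : 1 < Fintype.card F := Fintype.one_lt_card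
    exact splits_q2 (by omega) V hV

end Pool.Agent.Helper491_Par.LP
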