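import Pool.Agent.Helper491_Par.TE
import Pool.Agent.Helper491_Par.TF

/-!
# Line parallelisms of all projective spaces of odd dimension over all finite fields
-/

set_option autoImplicit false
set_option linter.unusedSectionVars false

namespace Pool.Agent.Helper491_Par.LP

open Module Pool.Agent.Helper491_Par

theorem norm_surj {F K : Type} [Field F] [Fintype F] [Field K] [Finite K] [Algebra F K]
    (h : finrank F K = 2) (c : F) :
    ∃ z : K, z * FiniteField.frobeniusAlgHom F K z = algebraMap F K c := by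
  obtain ⟨α, hα⟩ := FiniteField.norm_surjective F K c
  refine ⟨α, ?_⟩
  have hσx : FiniteField.frobeniusAlgHom F K α = α ^ Fintype.card F := rfl
  rw [← hα, FiniteField.algebraMap_norm_eq_prod_pow, h, hσx, Nat.card_eq_fintype_card]
  simp [Finset.prod_range_succ]

/-- **The recursion step.** -/
theorem step {F K U A B : Type} [Field F] [Fintype F] [Field K] [Fintype K] [Algebra F K]
    [AddCommGroup U] [Module F U] [Module K U] [IsScalarTower F K U] [Finite U] [Nontrivial U]
    (h2 : finrank F K = 2) {c : Submodule F (U × K) → A ⊕ B} (h : PS F K U A B c) :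
    ∃ c', PS F K (U × K) (A ⊕ B) (K × B) c' := by
  classical
  have hd := quadData_finite (F := F) (K := K) h2
  have hN := norm_surj (F := F) (K := K) h2
  set σ := FiniteField.frobeniusAlgHom F K with hσ
  have hBf := h.finite_B
  -- cardinalities
  have hfdU : FiniteDimensional K U := Module.Finite.of_finite
  have hr : 0 < finrank K U := finrank_pos
  obtain ⟨r, hr'⟩ : ∃ r, finrank K U = r + 1 := ⟨finrank K U - 1, by omega⟩
  have hcardU : Nat.card U = (Fintype.card F ^ 2) ^ r * Fintype.card F ^ 2 := by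
    have hUf : Fintype U := Fintype.ofFinite U
    rw [Nat.card_eq_fintype_card, Module.card_eq_pow_finrank (K := K) (V := U), hr', pow_succ,
      ← Nat.card_eq_fintype_card (α := K), card_K hd]
  have hcardB := h.card_B (card_K hd)
  have hq : 1 < Fintype.card F := Fintype.one_lt_card
  have hcardB' : Nat.card B = (Fintype.card F ^ 2) ^ r * (Fintype.card F ^ 2 + Fintype.card F) := by
    rw [hcardU] at hcardB
    have : Nat.card B * Fintype.card F =
        ((Fintype.card F ^ 2) ^ r * (Fintype.card F ^ 2 + Fintype.card F)) * Fintype.card F := by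
      rw [hcardB]; ring
    exact Nat.eq_of_mul_eq_mul_right (by omega) this
  obtain ⟨S, g, hS1, hS2, hS3, hg1, hg2⟩ := assign hd hN U B _ hcardU hcardB'
  obtain ⟨ω, hω, -⟩ := exists_delta hd
  -- bases of the real lines
  have hbas : ∀ L : Submodule F (K × K), ∃ b : (K × K) × (K × K), L ∈ Rl F K (K × K) →
      LinearIndependent F ![b.1, b.2] ∧ L = Submodule.span F {b.1, b.2} := by
    intro L
    by_cases hL : L ∈ Rl F K (K × K)
    · obtain ⟨e1, e2, he, hLe⟩ := exists_basis_two (finrank_of_mem_Rl F (K := K) hL)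
      exact ⟨(e1, e2), fun _ => ⟨he, hLe⟩⟩
    · exact ⟨0, fun h => absurd h hL⟩
  choose bb hbb using hbas
  let kp : Submodule F ((U × K) × K) → U := fun W =>
    if hex : ∃ κ, Kap F ω (bb (W.map (pr F U))).1 (bb (W.map (pr F U))).2 W κ then hex.choose else 0
  refine ⟨newc c g kp, step_aux h hS1 hS2 hS3 hg1 hg2 ?_⟩
  intro L hL κ v hv hv0
  obtain ⟨hli, hspan⟩ := hbb L hL
  obtain ⟨W, ⟨hW1, hW2, hW3⟩, hWu⟩ := mrd (U := U) hω hli κ (v := v) (by rw [← hspan]; exact hv) hv0
  have hreal : ∀ W : Submodule F ((U × K) × K), W.map (pr F U) ∈ Rl F K (K × K) →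
      ¬ ∃ i, W ≤ LinearMap.range (emb F U i) := by
    rintro W hW ⟨i, hi⟩
    rw [mem_Rl_iff] at hW
    apply hW.2 i
    rintro _ ⟨w, hw, rfl⟩
    exact mem_range_emb'.1 (hi hw)
  have hkp : ∀ W : Submodule F ((U × K) × K), finrank F W = 2 → W.map (pr F U) = L →
      ∀ κ', kp W = κ' ↔ Kap F ω (bb L).1 (bb L).2 W κ' := by
    intro W hW2 hWL κ'
    have hinj := (real_of_not hW2 (hreal W (by rw [hWL]; exact hL))).2
    have m1 : (bb L).1 ∈ Submodule.span F {(bb L).1, (bb L).2} := Submodule.subset_span (by simp)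
    have m2 : (bb L).2 ∈ Submodule.span F {(bb L).1, (bb L).2} := Submodule.subset_span (by simp)
    rw [← hspan] at m1 m2
    have hex : ∃ κ, Kap F ω (bb (W.map (pr F U))).1 (bb (W.map (pr F U))).2 W κ := by
      apply kap_exists
      · rw [hWL]; exact m1
      · rw [hWL]; exact m2
    have hk : kp W = hex.choose := dif_pos hex
    have hsp : Kap F ω (bb (W.map (pr F U))).1 (bb (W.map (pr F U))).2 W (kp W) := by
      rw [hk]; exact hex.choose_spec
    rw [hWL] at hsp
    constructor
    · intro h0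
      rw [← h0]
      exact hsp
    · intro h0
      exact kap_unique hinj hsp h0
  have hWL : W.map (pr F U) = L := by rw [hW2]; exact hspan.symm
  refine ⟨W, ⟨hW1, hWL, (hkp W hW1.1 hWL κ).2 hW3⟩, ?_⟩
  rintro W' ⟨hW1', hW2', hW3'⟩
  apply hWu
  refine ⟨hW1', by rw [hW2']; exact hspan, (hkp W' hW1'.1 hW2' κ).1 hW3'⟩

/-- The base of the recursion. -/
theorem base (F K : Type) [Field F] [Fintype F] [Field K] [Fintype K] [Algebra F K]
    (h2 : finrank F K = 2) : ∃ (A B : Type) (c : Submodule F (K × K) → A ⊕ B), PS F K K A B c := by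
  classical
  obtain ⟨PP, hP1, hP2, hP3⟩ := splits_four F (K × K) (by rw [finrank_prod, h2])
  set L0 : Submodule F (K × K) := LinearMap.range (LinearMap.inl F K K) with hL0
  have hL02 : finrank F L0 = 2 := by
    rw [hL0, LinearMap.finrank_range_of_inj LinearMap.inl_injective, h2]
  have hmem0 : ∀ w : K × K, w ∈ L0 ↔ w.2 = 0 := by
    intro w
    constructor
    · rintro ⟨x, rfl⟩
      rfl
    · intro hw
      exact ⟨w.1, Prod.ext rfl hw.symm⟩
  have hcov : ∀ W : Submodule F (K × K), finrank F W = 2 → ∃ S ∈ PP, W ∈ S := by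
    intro W hW
    have : W ∈ ⋃₀ PP := by rw [hP3]; exact hW
    exact this
  have hW0 : ∀ W : Submodule F (K × K), finrank F W = 2 → (∀ w ∈ W, w.2 = 0) → W = L0 := by
    intro W hW hw
    have hfd : FiniteDimensional F L0 := finite_of_finrank_pos (by rw [hL02]; norm_num)
    exact Submodule.eq_of_le_of_finrank_eq (fun w hw' => (hmem0 w).2 (hw w hw')) (by rw [hW, hL02])
  obtain ⟨S0, hS0, hLS0⟩ := hcov L0 hL02
  let B : Type := {S : Set (Submodule F (K × K)) // S ∈ PP ∧ S ≠ S0}
  let c : Submodule F (K × K) → Unit ⊕ B := fun W =>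
    if h : ∃ S : B, W ∈ S.1 then .inr h.choose else .inl ()
  have hcr : ∀ (W : Submodule F (K × K)) (S : B), finrank F W = 2 → (c W = .inr S ↔ W ∈ S.1) := by
    intro W S hW
    by_cases hex : ∃ S : B, W ∈ S.1
    · have hc : c W = .inr hex.choose := dif_pos hex
      have hsp := hex.choose_spec
      rw [hc]
      constructor
      · intro h0
        rw [← Sum.inr.inj h0]
        exact hsp
      · intro h0
        congr 1
        exact Subtype.ext (hP2 _ hex.choose.2.1 _ S.2.1 W hsp h0)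
    · have hc : c W = .inl () := dif_neg hex
      rw [hc]
      constructor
      · intro h0; cases h0
      · intro h0; exact absurd ⟨S, h0⟩ hex
  have hcl : ∀ W : Submodule F (K × K), finrank F W = 2 → (c W = .inl () ↔ W ∈ S0) := by
    intro W hW
    by_cases hex : ∃ S : B, W ∈ S.1
    · have hc : c W = .inr hex.choose := dif_pos hex
      have hsp := hex.choose_spec
      rw [hc]
      constructor
      · intro h0; cases h0
      · intro h0
        exact absurd (hP2 _ hex.choose.2.1 _ hS0 W hsp h0) hex.choose.2.2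
    · have hc : c W = .inl () := dif_neg hex
      rw [hc]
      refine ⟨fun _ => ?_, fun _ => rfl⟩
      obtain ⟨S, hS, hWS⟩ := hcov W hW
      by_cases hSS : S = S0
      · rw [← hSS]; exact hWS
      · exact absurd ⟨⟨S, hS, hSS⟩, hWS⟩ hex
  refine ⟨Unit, B, c, ?_, ?_, ?_⟩
  · intro v hv γ
    rcases γ with ⟨⟩ | S
    · obtain ⟨W, ⟨hW, hvW⟩, hu⟩ := (hP1 S0 hS0).2 v hv
      have hW2 := (hP1 S0 hS0).1 W hW
      refine ⟨W, ⟨hW2, hvW, (hcl W hW2).2 hW⟩, ?_⟩
      rintro W' ⟨hW2', hvW', hc'⟩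
      exact hu W' ⟨(hcl W' hW2').1 hc', hvW'⟩
    · obtain ⟨W, ⟨hW, hvW⟩, hu⟩ := (hP1 S.1 S.2.1).2 v hv
      have hW2 := (hP1 S.1 S.2.1).1 W hW
      refine ⟨W, ⟨hW2, hvW, (hcr W S hW2).2 hW⟩, ?_⟩
      rintro W' ⟨hW2', hvW', hc'⟩
      exact hu W' ⟨(hcr W' S hW2').1 hc', hvW'⟩
  · intro W hW hw
    exact ⟨(), (hcl W hW).2 (by rw [hW0 W hW hw]; exact hLS0)⟩
  · intro u hu a W hW hmem hc w hw
    have h1 : W ∈ S0 := (hcl W hW).1 hc
    have hne : ((u, 0) : K × K) ≠ 0 := fun h0 => hu (congrArg Prod.fst h0)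
    obtain ⟨W', -, huu⟩ := (hP1 S0 hS0).2 _ hne
    have e1 := huu W ⟨h1, hmem⟩
    have e2 := huu L0 ⟨hLS0, (hmem0 _).2 rfl⟩
    rw [e1, ← e2] at hw
    exact (hmem0 w).1 hw

/-- All dimensions. -/
theorem iterate (F K : Type) [Field F] [Fintype F] [Field K] [Fintype K] [Algebra F K]
    (h2 : finrank F K = 2) (r : ℕ) : ∃ (U : Type) (_ : AddCommGroup U) (_ : Module F U)
      (_ : Module K U) (_ : IsScalarTower F K U) (_ : Finite U) (_ : Nontrivial U) (A B : Type)
      (c : Submodule F (U × K) → A ⊕ B), finrank F U = 2 * (r + 1) ∧ PS F K U A B c := by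
  induction r with
  | zero =>
    obtain ⟨A, B, c, hc⟩ := base F K h2
    exact ⟨K, inferInstance, inferInstance, inferInstance, inferInstance, inferInstance,
      inferInstance, A, B, c, by rw [h2], hc⟩
  | succ r ih =>
    obtain ⟨U, i1, i2, i3, i4, i5, i6, A, B, c, hU, hc⟩ := ih
    obtain ⟨c', hc'⟩ := step h2 hc
    refine ⟨U × K, inferInstance, inferInstance, inferInstance, inferInstance, inferInstance,
      inferInstance, A ⊕ B, K × B, c', ?_, hc'⟩
    have hfd : FiniteDimensional F U := Module.Finite.of_finite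
    have hfd2 : FiniteDimensional F K := Module.Finite.of_finite
    rw [finrank_prod, hU, h2]
    ring

theorem main_aux (F K : Type) [Field F] [Fintype F] [Field K] [Fintype K] [Algebra F K]
    (h2 : finrank F K = 2) (r : ℕ) (V : Type) [AddCommGroup V] [Module F V]
    [FiniteDimensional F V] (hV : finrank F V = 2 * (r + 2)) :
    ∃ (C : Type) (c : Submodule F V → C), ∀ v : V, v ≠ 0 → ∀ γ : C,
      ∃! W : Submodule F V, finrank F W = 2 ∧ v ∈ W ∧ c W = γ := by
  obtain ⟨U, i1, i2, i3, i4, i5, i6, A, B, c, hU, hc⟩ := iterate F K h2 r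
  have hfdU : FiniteDimensional F U := Module.Finite.of_finite
  have hfdK : FiniteDimensional F K := Module.Finite.of_finite
  let e : V ≃ₗ[F] (U × K) := LinearEquiv.ofFinrankEq V (U × K) (by
    rw [hV, finrank_prod, hU, h2]; ring)
  refine ⟨A ⊕ B, fun W => c (W.map (e : V →ₗ[F] (U × K))), ?_⟩
  intro v hv γ
  have hev : e v ≠ 0 := fun h0 => hv (by simpa using h0)
  obtain ⟨W, ⟨h1, h2, h3⟩, hu⟩ := hc.spread (e v) hev γ
  have hWm : (W.comap (e : V →ₗ[F] (U × K))).map (e : V →ₗ[F] (U × K)) = W :=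
    Submodule.map_comap_eq_of_surjective e.surjective W
  refine ⟨W.comap (e : V →ₗ[F] (U × K)), ⟨?_, ?_, ?_⟩, ?_⟩
  · have h4 := LinearEquiv.finrank_map_eq e (W.comap (e : V →ₗ[F] (U × K)))
    rw [hWm, h1] at h4
    exact h4.symm
  · exact h2
  · simp only
    rw [hWm, h3]
  · rintro W' ⟨h1', h2', h3'⟩
    have h4 := hu (W'.map (e : V →ₗ[F] (U × K)))
      ⟨(LinearEquiv.finrank_map_eq e W').trans h1', ⟨v, h2', rfl⟩, h3'⟩
    rw [← h4]
    exact (Submodule.comap_map_eq_of_injective e.injective W').symm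

/-- A colouring of the lines all of whose colour classes are spreads. -/
theorem main (F : Type) [Field F] [Fintype F] (n : ℕ) (hn : 0 < n) (he : 2 ∣ n) (V : Type)
    [AddCommGroup V] [Module F V] (hV : finrank F V = n) :
    ∃ (C : Type) (c : Submodule F V → C), ∀ v : V, v ≠ 0 → ∀ γ : C,
      ∃! W : Submodule F V, finrank F W = 2 ∧ v ∈ W ∧ c W = γ := by
  obtain ⟨m, rfl⟩ := he
  have hfd : FiniteDimensional F V := finite_of_finrank_pos (by rw [hV]; exact hn)
  by_cases hm : m = 1
  · refine ⟨Unit, fun _ => (), ?_⟩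
    intro v _ γ
    refine ⟨⊤, ⟨by rw [finrank_top, hV, hm], Submodule.mem_top, rfl⟩, ?_⟩
    rintro W ⟨hW, -, -⟩
    exact Submodule.eq_top_of_finrank_eq (by rw [hW, hV, hm])
  · obtain ⟨r, rfl⟩ : ∃ r, m = r + 2 := ⟨m - 2, by omega⟩
    obtain ⟨p, hp⟩ := CharP.exists F
    have hpp : Fact p.Prime := ⟨CharP.char_is_prime F p⟩
    have : Fintype (FiniteField.Extension F p 2) := Fintype.ofFinite _
    exact main_aux F (FiniteField.Extension F p 2) (FiniteField.finrank_extension F p 2) r V hV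

end Pool.Agent.Helper491_Par.LP
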