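import Pool.Agent.Helper491_Par.Bor

/-!
# Quadratic extensions `K / F`, `|F| > 2`
The lines of `K × K` over `F` which are not contained in a one-dimensional `K`-subspace are the
disjoint union of line spreads.
-/

set_option autoImplicit false

namespace Pool.Agent.Helper491_Par

open Module

section

variable {F K : Type} [Field F] [Field K] [Algebra F K]

/-- What we need about a quadratic extension with involution `σ`. -/
structure QuadData (F K : Type) [Field F] [Field K] [Algebra F K] (σ : K →ₐ[F] K) : Prop where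
  rank : finrank F K = 2
  inv : ∀ x, σ (σ x) = x
  fixed : ∀ x, σ x = x → ∃ a : F, x = algebraMap F K a

/-- The line `{(x, γ x + ρ σ x)}`. -/
noncomputable def gr (σ : K →ₐ[F] K) (γ ρ : K) : Submodule F (K × K) :=
  LinearMap.range
    ({ toFun := fun x => (x, γ * x + ρ * σ x)
       map_add' := fun x y => by
        ext
        · rfl
        · simp only [map_add, Prod.snd_add]; ring
       map_smul' := fun c x => by
        ext
        · rfl
        · simp [smul_add] } : K →ₗ[F] K × K)

theorem mem_gr {σ : K →ₐ[F] K} {γ ρ : K} {v : K × K} :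
    v ∈ gr σ γ ρ ↔ v.2 = γ * v.1 + ρ * σ v.1 := by
  unfold gr
  rw [LinearMap.mem_range]
  constructor
  · rintro ⟨x, rfl⟩
    rfl
  · intro h
    exact ⟨v.1, Prod.ext rfl h.symm⟩

/-- The line `l F²`. -/
def ll (F : Type) {K : Type} [Field F] [Field K] [Algebra F K] (l : K) : Submodule F (K × K) :=
  Submodule.span F {(l, 0), (0, l)}

theorem mem_ll {l : K} {v : K × K} :
    v ∈ ll F l ↔ ∃ s t : F, v = (algebraMap F K s * l, algebraMap F K t * l) := by
  unfold ll
  rw [Submodule.mem_span_pair]
  constructor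
  · rintro ⟨s, t, rfl⟩
    exact ⟨s, t, by simp [Algebra.smul_def]⟩
  · rintro ⟨s, t, rfl⟩
    exact ⟨s, t, by simp [Algebra.smul_def]⟩

theorem ll_mem_Rl {l : K} (hl : l ≠ 0) : ll F l ∈ Rl F K (K × K) :=
  ⟨(l, 0), (0, l), by rw [li_iff_det]; simp [hl], rfl⟩

theorem ll_eq_of_mul {l : K} {a : F} (ha : a ≠ 0) : ll F (algebraMap F K a * l) = ll F l := by
  ext v
  rw [mem_ll, mem_ll]
  constructor
  · rintro ⟨s, t, rfl⟩
    exact ⟨s * a, t * a, by simp only [map_mul]; ext <;> ring⟩
  · rintro ⟨s, t, rfl⟩
    have ha' : algebraMap F K a ≠ 0 := by rwa [Ne, map_eq_zero]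
    refine ⟨s * a⁻¹, t * a⁻¹, ?_⟩
    simp only [map_mul, map_inv₀]
    ext
    · field_simp
    · field_simp

/-- If `w` is not in `F`, then `1, w` is a basis of the quadratic extension. -/
theorem basis_one {σ : K →ₐ[F] K} (h : QuadData F K σ) {w : K}
    (hw : ∀ a : F, w ≠ algebraMap F K a) (z : K) :
    ∃! p : F × F, z = algebraMap F K p.1 + algebraMap F K p.2 * w := by
  have hli : LinearIndependent F ![(1 : K), w] := by
    rw [LinearIndependent.pair_iff]
    intro s t hst
    have ht : t = 0 := by
      by_contra ht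
      have ht' : algebraMap F K t ≠ 0 := by rwa [Ne, map_eq_zero]
      refine hw (-s / t) ?_
      rw [Algebra.smul_def, Algebra.smul_def, mul_one] at hst
      rw [map_div₀, map_neg, eq_div_iff ht']
      linear_combination hst
    subst ht
    simpa [Algebra.smul_def] using hst
  have hfd : FiniteDimensional F K := finite_of_finrank_pos (by rw [h.rank]; norm_num)
  have htop : Submodule.span F {(1 : K), w} = ⊤ := by
    apply Submodule.eq_top_of_finrank_eq
    rw [finrank_of_li F hli, h.rank]
  have hz : z ∈ Submodule.span F {(1 : K), w} := htop ▸ Submodule.mem_top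
  obtain ⟨s, t, hst⟩ := Submodule.mem_span_pair.1 hz
  refine ⟨(s, t), ?_, ?_⟩
  · simp only
    rw [← hst]
    simp [Algebra.smul_def]
  · rintro ⟨s', t'⟩ hst'
    simp only at hst'
    rw [LinearIndependent.pair_iff] at hli
    have := hli (s' - s) (t' - t) (by
      rw [← hst] at hst'
      simp only [Algebra.smul_def, map_sub, mul_one] at hst' ⊢
      linear_combination -hst')
    ext
    · exact sub_eq_zero.1 this.1
    · exact sub_eq_zero.1 this.2

theorem exists_not_mem {σ : K →ₐ[F] K} (h : QuadData F K σ) :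
    ∃ w : K, ∀ a : F, w ≠ algebraMap F K a := by
  by_contra hcon
  push Not at hcon
  have h1 : finrank F K ≤ 1 := by
    apply finrank_le_one (1 : K)
    intro w
    obtain ⟨a, ha⟩ := hcon w
    exact ⟨a, by rw [ha, Algebra.smul_def, mul_one]⟩
  rw [h.rank] at h1
  omega

/-- A dichotomy for the first coordinates. -/
theorem dich {e1 e2 : K × K} (h : LinearIndependent K ![e1, e2]) :
    (∃ a b w : K, a ≠ 0 ∧ w ≠ 0 ∧ Submodule.span F {e1, e2} = Submodule.span F {(a, b), (0, w)}) ∨
      LinearIndependent F ![e1.1, e2.1] := by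
  by_cases hli : LinearIndependent F ![e1.1, e2.1]
  · exact Or.inr hli
  left
  rw [li_iff_det] at h
  rw [LinearIndependent.pair_iff] at hli
  push Not at hli
  obtain ⟨s, t, hst, hne⟩ := hli
  by_cases ht : t = 0
  · have hs : s ≠ 0 := fun hs => hne hs ht
    have he : e1.1 = 0 := by
      rw [ht, zero_smul, add_zero] at hst
      exact (smul_eq_zero.1 hst).resolve_left hs
    rw [he] at h
    refine ⟨e2.1, e2.2, e1.2, ?_, ?_, ?_⟩
    · intro h0; apply h; rw [h0]; ring
    · intro h0; apply h; rw [h0]; ring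
    · have h1 : e1 = (0, e1.2) := Prod.ext he rfl
      have h2 : e2 = (e2.1, e2.2) := rfl
      conv_lhs => rw [h1, h2]
      rw [Set.pair_comm]
  · have hch := span_change F e1 e2 1 0 s t (by simpa using ht)
    rw [one_smul, zero_smul, add_zero] at hch
    have hw : (s • e1 + t • e2).1 = 0 := by
      rw [Prod.fst_add, Prod.smul_fst, Prod.smul_fst, hst]
    have ht' : algebraMap F K t ≠ 0 := by rwa [Ne, map_eq_zero]
    rw [Algebra.smul_def, Algebra.smul_def] at hst
    refine ⟨e1.1, e1.2, (s • e1 + t • e2).2, ?_, ?_, ?_⟩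
    · intro h0
      rw [h0, mul_zero, zero_add] at hst
      have h1 : e2.1 = 0 := (mul_eq_zero.1 hst).resolve_left ht'
      apply h; rw [h0, h1]; ring
    · intro h0
      rw [Prod.snd_add, Prod.smul_snd, Prod.smul_snd, Algebra.smul_def, Algebra.smul_def] at h0
      apply h
      have : algebraMap F K t * (e1.1 * e2.2 - e1.2 * e2.1) = 0 := by
        linear_combination e1.1 * h0 - e1.2 * hst
      exact (mul_eq_zero.1 this).resolve_left ht'
    · rw [← hch]
      congr 2
      rw [← hw]

theorem gr_mem_Rl {σ : K →ₐ[F] K} (h : QuadData F K σ) {γ ρ : K} (hρ : ρ ≠ 0) :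
    gr σ γ ρ ∈ Rl F K (K × K) := by
  obtain ⟨w, hw⟩ := exists_not_mem h
  have hne : σ w - w ≠ 0 := by
    intro h0
    obtain ⟨a, ha⟩ := h.fixed w (sub_eq_zero.1 h0)
    exact hw a ha
  have hli : LinearIndependent K ![((1 : K), γ + ρ), (w, γ * w + ρ * σ w)] := by
    rw [li_iff_det]
    simp only
    have : 1 * (γ * w + ρ * σ w) - (γ + ρ) * w = ρ * (σ w - w) := by ring
    rw [this]
    exact mul_ne_zero hρ hne
  refine ⟨_, _, hli, ?_⟩
  apply le_antisymm
  · intro v hv
    rw [mem_gr] at hv
    obtain ⟨⟨s, t⟩, hst, -⟩ := basis_one h hw v.1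
    simp only at hst
    refine Submodule.mem_span_pair.2 ⟨s, t, ?_⟩
    ext
    · simp [Algebra.smul_def, hst]
    · simp only [Prod.snd_add, Prod.smul_snd]
      rw [hv, hst, map_add, map_mul, AlgHom.commutes, AlgHom.commutes, Algebra.smul_def,
        Algebra.smul_def]
      ring
  · rw [Submodule.span_le]
    rintro x (rfl | rfl)
    · rw [SetLike.mem_coe, mem_gr]; simp
    · rw [SetLike.mem_coe, mem_gr]

theorem gr_inj {σ : K →ₐ[F] K} (h : QuadData F K σ) {γ ρ γ' ρ' : K}
    (hh : gr σ γ ρ = gr σ γ' ρ') : γ = γ' ∧ ρ = ρ' := by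
  obtain ⟨w, hw⟩ := exists_not_mem h
  have hne : σ w - w ≠ 0 := by
    intro h0
    obtain ⟨a, ha⟩ := h.fixed w (sub_eq_zero.1 h0)
    exact hw a ha
  have h1 : ∀ x : K, γ * x + ρ * σ x = γ' * x + ρ' * σ x := by
    intro x
    have hx : (x, γ * x + ρ * σ x) ∈ gr σ γ ρ := mem_gr.2 rfl
    rw [hh, mem_gr] at hx
    exact hx
  have h2 := h1 1
  have h3 := h1 w
  rw [map_one] at h2
  have h4 : (ρ - ρ') * (σ w - w) = 0 := by linear_combination h3 - w * h2
  have h5 : ρ = ρ' := sub_eq_zero.1 ((mul_eq_zero.1 h4).resolve_right hne)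
  refine ⟨?_, h5⟩
  rw [h5] at h2
  linear_combination h2

theorem map_bor_gr {σ : K →ₐ[F] K} (β : Kˣ) (γ γ0 ρ0 : K) :
    (gr σ γ0 ρ0).map ((bor F 1 β γ : (K × K) ≃ₗ[F] (K × K)) : (K × K) →ₗ[F] (K × K)) =
      gr σ (γ + β * γ0) (β * ρ0) := by
  ext v
  rw [Submodule.mem_map, mem_gr]
  constructor
  · rintro ⟨u, hu, rfl⟩
    rw [mem_gr] at hu
    simp only [LinearEquiv.coe_coe, bor_apply, Units.val_one, one_mul]
    rw [hu]; ring
  · intro hv
    refine ⟨(v.1, γ0 * v.1 + ρ0 * σ v.1), mem_gr.2 rfl, ?_⟩
    simp only [LinearEquiv.coe_coe, bor_apply, Units.val_one, one_mul]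
    ext
    · rfl
    · simp only
      rw [hv]; ring

theorem map_bor_ll (α β : Kˣ) (γ : K) (l : K) :
    (ll F l).map ((bor F α β γ : (K × K) ≃ₗ[F] (K × K)) : (K × K) →ₗ[F] (K × K)) =
      Submodule.span F {((α : K) * l, γ * l), (0, (β : K) * l)} := by
  unfold ll
  rw [map_bor_span]
  simp

/-- Parameters of the base spread in the quadratic case. -/
def Ext (σ : K →ₐ[F] K) (P R : K) : Prop :=
  R ≠ 0 ∧ ∀ x : K, x ≠ 0 → ∀ a : F, P * x + R * σ x ≠ algebraMap F K a * x

/-- The base spread in the quadratic case. -/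
def S2 (σ : K →ₐ[F] K) (P R : K) : Set (Submodule F (K × K)) :=
  {E | (∃ l : K, l ≠ 0 ∧ E = ll F l) ∨
    ∃ c c0 : F, c ≠ 0 ∧
      E = gr σ (algebraMap F K c0 + algebraMap F K c * P) (algebraMap F K c * R)}

theorem S2_subset {σ : K →ₐ[F] K} (h : QuadData F K σ) {P R : K} (hR : R ≠ 0)
    {L : Submodule F (K × K)} (hL : L ∈ S2 σ P R) : L ∈ Rl F K (K × K) := by
  rcases hL with ⟨l, hl, rfl⟩ | ⟨c, c0, hc, rfl⟩
  · exact ll_mem_Rl hl
  · apply gr_mem_Rl h
    apply mul_ne_zero _ hR
    rwa [Ne, map_eq_zero]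

theorem S2_spread {σ : K →ₐ[F] K} (h : QuadData F K σ) {P R : K} (hPR : Ext σ P R) :
    IsSpread (S2 σ P R) := by
  refine ⟨fun L hL => finrank_of_mem_Rl F (K := K) (S2_subset h hPR.1 hL), ?_⟩
  intro v hv
  by_cases hv1 : v.1 = 0
  · have hv2 : v.2 ≠ 0 := fun h2 => hv (Prod.ext hv1 h2)
    refine ⟨ll F v.2, ⟨Or.inl ⟨v.2, hv2, rfl⟩, mem_ll.2 ⟨0, 1, ?_⟩⟩, ?_⟩
    · ext
      · simp [hv1]
      · simp
    · rintro E ⟨⟨l, hl, rfl⟩ | ⟨c, c0, hc, rfl⟩, hE⟩
      · rw [mem_ll] at hE
        obtain ⟨s, t, hst⟩ := hE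
        have h2 : v.2 = algebraMap F K t * l := congrArg Prod.snd hst
        have ht : t ≠ 0 := by
          rintro rfl
          apply hv2
          rw [h2]; simp
        rw [h2, ll_eq_of_mul ht]
      · rw [mem_gr, hv1] at hE
        simp at hE
        exact absurd hE hv2
  · have hx : σ v.1 ≠ 0 := by rwa [Ne, map_eq_zero]
    set w := P + R * (σ v.1 / v.1) with hw
    have hwF : ∀ a : F, w ≠ algebraMap F K a := by
      intro a ha
      apply hPR.2 v.1 hv1 a
      rw [← ha, hw]
      field_simp
    obtain ⟨⟨c0, c⟩, hcc, hccu⟩ := basis_one h hwF (v.2 / v.1)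
    simp only at hcc
    have hv2 : v.2 = (algebraMap F K c0 + algebraMap F K c * w) * v.1 := by
      rw [← hcc]; field_simp
    have hgr : ∀ c' c0' : F, v ∈ gr σ (algebraMap F K c0' + algebraMap F K c' * P)
        (algebraMap F K c' * R) ↔ (c0', c') = (c0, c) := by
      intro c' c0'
      rw [mem_gr]
      constructor
      · intro h1
        apply hccu
        simp only
        rw [h1, hw]
        field_simp
        ring
      · intro h1
        rw [Prod.mk.injEq] at h1
        rw [h1.1, h1.2, hv2, hw]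
        field_simp
        ring
    by_cases hc : c = 0
    · have h2 : v = (algebraMap F K 1 * v.1, algebraMap F K c0 * v.1) := by
        ext
        · simp
        · simp only
          rw [hv2, hc]; simp
      refine ⟨ll F v.1, ⟨Or.inl ⟨v.1, hv1, rfl⟩, mem_ll.2 ⟨1, c0, h2⟩⟩, ?_⟩
      rintro E ⟨⟨l, hl, rfl⟩ | ⟨c', c0', hc', rfl⟩, hE⟩
      · rw [mem_ll] at hE
        obtain ⟨s, t, hst⟩ := hE
        have h3 : v.1 = algebraMap F K s * l := congrArg Prod.fst hst
        have hs : s ≠ 0 := by
          rintro rfl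
          apply hv1
          rw [h3]; simp
        rw [h3, ll_eq_of_mul hs]
      · have h3 := (hgr c' c0').1 hE
        rw [Prod.mk.injEq] at h3
        exact absurd (h3.2.trans hc) hc'
    · refine ⟨_, ⟨Or.inr ⟨c, c0, hc, rfl⟩, (hgr c c0).2 rfl⟩, ?_⟩
      rintro E ⟨⟨l, hl, rfl⟩ | ⟨c', c0', hc', rfl⟩, hE⟩
      · exfalso
        rw [mem_ll] at hE
        obtain ⟨s, t, hst⟩ := hE
        have h3 : v.1 = algebraMap F K s * l := congrArg Prod.fst hst
        have h4 : v.2 = algebraMap F K t * l := congrArg Prod.snd hst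
        have hs : algebraMap F K s ≠ 0 := by
          intro h0
          apply hv1
          rw [h3, h0, zero_mul]
        have h5 : v.2 / v.1 = algebraMap F K (t / s) + algebraMap F K 0 * w := by
          rw [h3, h4, map_div₀]
          simp only [map_zero, zero_mul, add_zero]
          field_simp
        have h6 := hccu (t / s, 0) h5
        rw [Prod.mk.injEq] at h6
        exact hc h6.2.symm
      · have h3 := (hgr c' c0').1 hE
        rw [Prod.mk.injEq] at h3
        rw [h3.1, h3.2]

theorem map_bor_ll_rat (β : Kˣ) {b c : F} (hb : (β : K) = algebraMap F K b) (l : K) :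
    (ll F l).map ((bor F 1 β (algebraMap F K c) : (K × K) ≃ₗ[F] (K × K)) : (K × K) →ₗ[F] (K × K)) =
      ll F l := by
  have hb0 : b ≠ 0 := by
    rintro rfl
    rw [map_zero] at hb
    exact β.ne_zero hb
  rw [map_bor_ll]
  unfold ll
  rw [← span_change F (l, (0 : K)) ((0 : K), l) 1 c 0 b (by simpa using hb0)]
  congr 2
  · ext
    · simp
    · simp [Algebra.smul_def]
  · congr 1
    ext
    · simp
    · simp [hb, Algebra.smul_def]

/-- The base case of quadratic extensions. -/
theorem splits_two_aux {σ : K →ₐ[F] K} (h : QuadData F K σ) {P R : K} (hPR : Ext σ P R) :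
    Splits (Rl F K (K × K)) := by
  refine splits_orbit {g | ∃ β : Kˣ, ∃ γ : K, g = bor F 1 β γ} ?_ (S2_spread h hPR) ?_ ?_
  · rintro _ ⟨β, γ, rfl⟩ _ ⟨β', γ', rfl⟩
    refine ⟨β * β'⁻¹, (β' : K)⁻¹ * (γ - γ' * (((1 : Kˣ) : K)⁻¹ * (1 : Kˣ))), ?_⟩
    rw [bor_trans_symm, mul_inv_cancel]
  · rintro _ ⟨β, γ, rfl⟩ L hL hgL
    -- `β` and `γ` are in `F`
    have hrat : ∃ b c : F, (β : K) = algebraMap F K b ∧ γ = algebraMap F K c := by
      rcases hL with ⟨l, hl, rfl⟩ | ⟨c, c0, hc, rfl⟩
      · have hmem : ((0 : K), (β : K) * l) ∈ (ll F l).map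
            ((bor F 1 β γ : (K × K) ≃ₗ[F] (K × K)) : (K × K) →ₗ[F] (K × K)) := by
          rw [map_bor_ll]
          exact Submodule.subset_span (by simp)
        have hmem1 : (l, γ * l) ∈ (ll F l).map
            ((bor F 1 β γ : (K × K) ≃ₗ[F] (K × K)) : (K × K) →ₗ[F] (K × K)) := by
          rw [map_bor_ll]
          exact Submodule.subset_span (by simp)
        rcases hgL with ⟨l', hl', hE⟩ | ⟨c, c0, hc, hE⟩
        · rw [hE, mem_ll] at hmem hmem1
          obtain ⟨s, t, hst⟩ := hmem
          obtain ⟨s', t', hst'⟩ := hmem1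
          rw [Prod.mk.injEq] at hst hst'
          have hs' : algebraMap F K s' ≠ 0 := by
            intro h0
            rw [h0, zero_mul] at hst'
            exact hl hst'.1
          refine ⟨t / s', t' / s', ?_, ?_⟩
          · rw [map_div₀, eq_div_iff hs']
            have : ((β : K) * algebraMap F K s' - algebraMap F K t) * l' = 0 := by
              linear_combination hst.2 - β * hst'.1
            linear_combination (mul_eq_zero.1 this).resolve_right hl'
          · rw [map_div₀, eq_div_iff hs']
            have : (γ * algebraMap F K s' - algebraMap F K t') * l' = 0 := by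
              linear_combination hst'.2 - γ * hst'.1
            linear_combination (mul_eq_zero.1 this).resolve_right hl'
        · exfalso
          rw [hE, mem_gr] at hmem
          simp at hmem
          exact hl hmem
      · rw [map_bor_gr] at hgL
        rcases hgL with ⟨l', hl', hE⟩ | ⟨c', c0', hc', hE⟩
        · exfalso
          have : ((0 : K), l') ∈ gr σ (γ + β * (algebraMap F K c0 + algebraMap F K c * P))
              (β * (algebraMap F K c * R)) := by
            rw [hE]
            exact Submodule.subset_span (by simp)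
          rw [mem_gr] at this
          simp at this
          exact hl' this
        · obtain ⟨h1, h2⟩ := gr_inj h hE
          have hcK : algebraMap F K c ≠ 0 := by rwa [Ne, map_eq_zero]
          have hβ : (β : K) = algebraMap F K (c' / c) := by
            rw [map_div₀, eq_div_iff hcK]
            have : ((β : K) * algebraMap F K c - algebraMap F K c') * R = 0 := by
              linear_combination h2
            linear_combination (mul_eq_zero.1 this).resolve_right hPR.1
          refine ⟨c' / c, c0' - c' / c * c0, hβ, ?_⟩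
          have h3 : (β : K) * algebraMap F K c = algebraMap F K c' := by
            rw [hβ, map_div₀]
            field_simp
          rw [map_sub, map_mul, ← hβ]
          linear_combination h1 - P * h3
    obtain ⟨b, c, hb, rfl⟩ := hrat
    have hb0 : b ≠ 0 := by
      rintro rfl
      rw [map_zero] at hb
      exact β.ne_zero hb
    rintro L' (⟨l, hl, rfl⟩ | ⟨c1, c0, hc1, rfl⟩)
    · left
      exact ⟨l, hl, map_bor_ll_rat β hb l⟩
    · right
      refine ⟨b * c1, c + b * c0, mul_ne_zero hb0 hc1, ?_⟩
      rw [map_bor_gr, hb]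
      simp only [map_add, map_mul]
      congr 1 <;> ring
  · intro E
    constructor
    · rintro ⟨e1, e2, he, rfl⟩
      rcases dich (F := F) he with ⟨a, b, w, ha, hw, hE⟩ | hli
      · refine ⟨bor F 1 (Units.mk0 (w / a) (div_ne_zero hw ha)) (b / a), ⟨_, _, rfl⟩, ll F a,
          Or.inl ⟨a, ha, rfl⟩, ?_⟩
        rw [map_bor_ll, hE]
        simp only [Units.val_one, one_mul, Units.val_mk0]
        rw [div_mul_cancel₀ _ ha, div_mul_cancel₀ _ ha]
      · have hdet := (li_iff_det e1 e2).1 he
        set D := e1.1 * σ e2.1 - e2.1 * σ e1.1 with hD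
        have hD0 : D ≠ 0 := by
          intro h0
          rw [LinearIndependent.pair_iff] at hli
          by_cases hx : e2.1 = 0
          · have := hli 0 1 (by simp [hx])
            exact one_ne_zero this.2
          · have hσ : σ (e1.1 / e2.1) = e1.1 / e2.1 := by
              have hx' : σ e2.1 ≠ 0 := by rwa [Ne, map_eq_zero]
              rw [map_div₀]
              field_simp
              linear_combination -h0
            obtain ⟨a, ha⟩ := h.fixed _ hσ
            have := hli 1 (-a) (by
              rw [one_smul, neg_smul, Algebra.smul_def, ← ha]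
              field_simp
              ring)
            exact one_ne_zero this.1
        set ρ := (e1.1 * e2.2 - e1.2 * e2.1) / D with hρ
        set γ := (e1.2 * σ e2.1 - e2.2 * σ e1.1) / D with hγ
        have hρ0 : ρ ≠ 0 := div_ne_zero hdet hD0
        have hE : Submodule.span F {e1, e2} = gr σ γ ρ := by
          have hfin1 : finrank F (Submodule.span F {e1, e2}) = 2 :=
            finrank_of_mem_Rl F (K := K) ⟨e1, e2, he, rfl⟩
          have hfin2 : finrank F (gr σ γ ρ) = 2 :=
            finrank_of_mem_Rl F (K := K) (gr_mem_Rl h hρ0)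
          have hfd : FiniteDimensional F (gr σ γ ρ) :=
            finite_of_finrank_pos (by rw [hfin2]; norm_num)
          apply Submodule.eq_of_le_of_finrank_eq
          · rw [Submodule.span_le]
            rintro x (rfl | rfl)
            · rw [SetLike.mem_coe, mem_gr, hγ, hρ]
              field_simp
              rw [hD]; ring
            · rw [SetLike.mem_coe, mem_gr, hγ, hρ]
              field_simp
              rw [hD]; ring
          · rw [hfin1, hfin2]
        have hR := hPR.1
        refine ⟨bor F 1 (Units.mk0 (ρ / R) (div_ne_zero hρ0 hR)) (γ - ρ / R * P), ⟨_, _, rfl⟩,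
          gr σ (algebraMap F K 0 + algebraMap F K 1 * P) (algebraMap F K 1 * R),
          Or.inr ⟨1, 0, one_ne_zero, rfl⟩, ?_⟩
        rw [map_bor_gr, hE]
        simp only [map_zero, map_one, Units.val_mk0, zero_add, one_mul]
        congr 1
        · ring
        · field_simp
    · rintro ⟨_, ⟨β, γ, rfl⟩, L, hL, rfl⟩
      exact bor_mem_Rl F 1 β γ (S2_subset h hPR.1 hL)

end

end Pool.Agent.Helper491_Par
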